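import Pool.Agent.GSG.B4
import Pool.Agent.GSP.B5
import Pool.Agent.GSP.C1b

set_option autoImplicit false

open PowerSeries Finset MeasureTheory

namespace Pool.Agent.GSG

open Pool.Agent.OHG Pool.Agent.GPC Pool.Agent.SLR Pool.Agent.GSP

private theorem b5_mu {P : Prime} (hP : ¬ Bad P) (v : Fin (P.n + 1)) :
    0 < GSP.mu (P.D.leaf v) ((datOf P).k v) 0 := muG_pos (leafG_prime hP v) 0

private theorem b5_zero {P : Prime} (hP : ¬ Bad P) :
    coeff 0 ((datOf P).Z fun v j => nm (P.D.leaf v) ((datOf P).k v) j) = 1 := by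
  unfold Dat.Z
  exact ZZ_zero _ _ _ fun v => div_self (b5_mu hP v).ne'

private theorem b5_int {μ ν : Measure ℝ} [IsFiniteMeasure μ] [IsFiniteMeasure ν]
    (hμ : ∀ n : ℕ, Integrable (fun y => y ^ n) μ) (hν : ∀ n : ℕ, Integrable (fun y => y ^ n) ν)
    (n : ℕ) : Integrable (fun y : ℝ => y ^ n) (μ ∗ ν) := by
  have h1 : AEStronglyMeasurable (fun y : ℝ => y ^ n) (μ ∗ ν) :=
    (measurable_id.pow_const n).aestronglyMeasurable
  have h2 : Measurable fun p : ℝ × ℝ => p.1 + p.2 := measurable_fst.add measurable_snd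
  unfold Measure.conv at h1 ⊢
  rw [integrable_map_measure h1 h2.aemeasurable]
  have h3 : ((fun y : ℝ => y ^ n) ∘ fun p : ℝ × ℝ => p.1 + p.2) = fun p : ℝ × ℝ =>
      ∑ m ∈ range (n + 1), p.1 ^ m * p.2 ^ (n - m) * (n.choose m : ℝ) := by
    funext p
    exact add_pow _ _ _
  rw [h3]
  exact integrable_finsetSum _ fun m _ => ((hμ m).mul_prod (hν (n - m))).mul_const _

private theorem b5_mom {μ ν : Measure ℝ} [IsFiniteMeasure μ] [IsFiniteMeasure ν]
    (hμ : ∀ n : ℕ, Integrable (fun y => y ^ n) μ) (hν : ∀ n : ℕ, Integrable (fun y => y ^ n) ν)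
    (n : ℕ) : ∫ y, y ^ n ∂(μ ∗ ν) = ∑ m ∈ range (n + 1),
      (∫ y, y ^ m ∂μ) * (∫ y, y ^ (n - m) ∂ν) * (n.choose m : ℝ) := by
  rw [integral_conv (b5_int hμ hν n)]
  have h1 : ∀ x : ℝ, ∫ y, (x + y) ^ n ∂ν = ∑ m ∈ range (n + 1),
      x ^ m * ((∫ y, y ^ (n - m) ∂ν) * (n.choose m : ℝ)) := by
    intro x
    have h2 : (fun y : ℝ => (x + y) ^ n) = fun y =>
        ∑ m ∈ range (n + 1), x ^ m * (y ^ (n - m) * (n.choose m : ℝ)) := by
      funext y
      rw [add_pow]
      exact Finset.sum_congr rfl fun m _ => mul_assoc _ _ _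
    rw [h2, integral_finsetSum _ fun m _ => ((hν (n - m)).mul_const _).const_mul _]
    refine Finset.sum_congr rfl fun m _ => ?_
    rw [integral_const_mul, integral_mul_const]
  simp_rw [h1]
  rw [integral_finsetSum _ fun m _ => (hμ m).mul_const _]
  refine Finset.sum_congr rfl fun m _ => ?_
  rw [integral_mul_const]
  ring

private theorem b5_coeff (f g : ℝ⟦X⟧) (n : ℕ) :
    (n.factorial : ℝ) * coeff n (f * g) = ∑ m ∈ range (n + 1),
      (m.factorial * coeff m f) * ((n - m).factorial * coeff (n - m) g) * (n.choose m : ℝ) := by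
  rw [coeff_mul, Finset.Nat.sum_antidiagonal_eq_sum_range_succ
    (f := fun a b => coeff a f * coeff b g), mul_sum]
  refine Finset.sum_congr rfl fun m hm => ?_
  have hm' : m ≤ n := Nat.lt_succ_iff.1 (mem_range.1 hm)
  have h1 : (n.choose m : ℝ) * m.factorial * (n - m).factorial = n.factorial := by
    exact_mod_cast Nat.choose_mul_factorial_mul_factorial hm'
  rw [← h1]
  ring

private theorem b5_empty {ι : Type} (P : ι → Prime) :
    LawM P (∅ : Finset ι) (fun _ => 1) (Measure.dirac 0) where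
  hg := by simpa using hg_one
  fin := inferInstance
  char := by
    refine ⟨1, by simp, fun t ht => ?_⟩
    simp [charFun_dirac]
  int := fun n => integrable_dirac (by simp)
  mom := by
    intro n
    rw [integral_dirac]
    rcases Nat.eq_zero_or_pos n with rfl | hn
    · simp
    · rw [zero_pow hn.ne']
      simp [coeff_one, hn.ne']

private theorem b5_insert {ι : Type} [DecidableEq ι] (P : ι → Prime) {A : Finset ι} {i : ι}
    (hi : i ∉ A) {F G : ℂ → ℂ} {μ ν : Measure ℝ} (h1 : LawM (fun _ : Unit => P i) univ F μ)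
    (h2 : LawM P A G ν) : LawM P (insert i A) (fun h => F h * G h) (μ ∗ ν) := by
  have i1 : IsFiniteMeasure μ := h1.fin
  have i2 : IsFiniteMeasure ν := h2.fin
  have g1 := h1.hg
  obtain ⟨c, hc, c1⟩ := h1.char
  obtain ⟨d, hd, d1⟩ := h2.char
  have m1 := h1.mom
  have m2 := h2.mom
  simp only [univ_unique, prod_singleton, sum_singleton] at g1 hc c1 m1
  refine ⟨?_, inferInstance, ?_, b5_int h1.int h2.int, ?_⟩
  · rw [prod_insert hi]
    exact g1.mul h2.hg
  · refine ⟨c * d, ?_, fun t ht => ?_⟩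
    · rw [norm_mul, hc, hd, sum_insert hi, prod_insert hi,
        Real.mul_rpow (abs_nonneg _) (prod_nonneg fun j _ => abs_nonneg _)]
      have e : (3 / 2 : ℝ) * (((P i).n + 1 + ∑ j ∈ A, ((P j).n + 1) : ℕ) : ℝ) =
          (3 / 2 : ℝ) * (((P i).n + 1 : ℕ) : ℝ) + (3 / 2 : ℝ) * ((∑ j ∈ A, ((P j).n + 1) : ℕ) : ℝ) := by
        rw [Nat.cast_add]
        ring
      rw [e, Real.rpow_add Real.pi_pos]
      ring
    · rw [charFun_conv, c1 t ht, d1 t ht, sum_insert hi]
      have e : t ^ (-(3 / 2 : ℝ) * (((P i).n + 1 + ∑ j ∈ A, ((P j).n + 1) : ℕ) : ℝ)) =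
          t ^ (-(3 / 2 : ℝ) * (((P i).n + 1 : ℕ) : ℝ)) *
            t ^ (-(3 / 2 : ℝ) * ((∑ j ∈ A, ((P j).n + 1) : ℕ) : ℝ)) := by
        rw [← Real.rpow_add ht, Nat.cast_add]
        congr 1
        ring
      rw [e]
      push_cast
      ring
  · intro n
    rw [b5_mom h1.int h2.int, prod_insert hi, prod_insert hi, b5_coeff, mul_sum]
    refine Finset.sum_congr rfl fun m _ => ?_
    rw [m1, m2]
    ring

theorem lawG_fam {ι : Type} (P : ι → Prime) (hP : ∀ i, ¬ Bad (P i))
    (A : Finset ι) : ∃ (F : ℂ → ℂ) (μ : Measure ℝ), LawM P A F μ := by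
  classical
  induction A using Finset.induction_on with
  | empty => exact ⟨_, _, b5_empty P⟩
  | insert i A hi ih =>
    obtain ⟨G, ν, h2⟩ := ih
    obtain ⟨F, μ, h1⟩ := lawG_one (hP i)
    exact ⟨_, _, b5_insert P hi h1 h2⟩

/-- what the series knows -/
theorem real_dataG {ι ι' : Type} [Fintype ι] [Fintype ι'] {κ κ' : ℝ} {P : ι → Prime}
    {P' : ι' → Prime} (hP : ∀ i, ¬ Bad (P i))
    (hP' : ∀ i, ¬ Bad (P' i))
    (h : series κ (univ.val.map P) = series κ' (univ.val.map P')) :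
    (∏ i, (datOf (P i)).Z (fun v j => nm ((P i).D.leaf v) ((datOf (P i)).k v) j)) =
      (∏ i, (datOf (P' i)).Z (fun v j => nm ((P' i).D.leaf v) ((datOf (P' i)).k v) j)) ∧
    (∏ i, |(lkm (P' i).D).det|) ^ 3 * (∏ i, ∏ v, GSP.mu ((P i).D.leaf v) ((datOf (P i)).k v) 0) ^ 2 =
      (∏ i, |(lkm (P i).D).det|) ^ 3 *
        (∏ i, ∏ v, GSP.mu ((P' i).D.leaf v) ((datOf (P' i)).k v) 0) ^ 2 := by
  obtain ⟨F, μ, h1⟩ := lawG_fam P hP univ
  obtain ⟨F', μ', h2⟩ := lawG_fam P' hP' univ
  have i1 : IsFiniteMeasure μ := h1.fin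
  have i2 : IsFiniteMeasure μ' := h2.fin
  obtain ⟨c, hc, e1⟩ := h1.char
  obtain ⟨c', hc', e2⟩ := h2.char
  have hpart : (∏ i, part (P i).D) = ∏ i, part (P' i).D := by
    have := part_prod_eq h
    rw [Multiset.map_map, Multiset.map_map] at this
    exact this
  have hn : (∑ i, ((P i).n + 1)) = ∑ i, ((P' i).n + 1) := by
    have := (pieces κ κ' _ _ h).2.1
    rw [Multiset.map_map, Multiset.map_map] at this
    exact this
  have hF : ∀ z ∈ UH, F z = F' z := HG.unique h1.hg (hpart ▸ h2.hg)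
  -- the determinants are positive
  have hdet : ∀ (κ : Type) [Fintype κ] (Q : κ → Prime), 0 < ∏ i, |(lkm (Q i).D).det| := by
    intro κ _ Q
    refine prod_pos fun i _ => abs_pos.2 ?_
    have h3 : lkm (Q i).D = (lkq (Q i).D).map (Rat.castHom ℝ) := by
      ext v w
      simp [lkm, lkq]
    rw [h3, ← RingHom.mapMatrix_apply, ← RingHom.map_det]
    simpa using lkq_det (Q i).isGraph
  have d1 := hdet ι P
  have d2 := hdet ι' P'
  have pc : 0 < ‖c‖ := by
    rw [hc]
    exact mul_pos (Real.rpow_pos_of_pos Real.pi_pos _) (Real.rpow_pos_of_pos d1 _)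
  have pc' : 0 < ‖c'‖ := by
    rw [hc']
    exact mul_pos (Real.rpow_pos_of_pos Real.pi_pos _) (Real.rpow_pos_of_pos d2 _)
  have hc0 : c ≠ 0 := norm_pos_iff.1 pc
  have hc0' : c' ≠ 0 := norm_pos_iff.1 pc'
  have key : ∀ t : ℝ, 0 < t → charFun μ t = (c / c') * charFun μ' t := by
    intro t ht
    have hz : Complex.I / (4 * t) ∈ UH := by
      have : (Complex.I / (4 * t) : ℂ) = ((1 / (4 * t) : ℝ) : ℂ) * Complex.I := by
        push_cast
        ring
      show 0 < (Complex.I / (4 * t) : ℂ).im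
      rw [this, Complex.im_ofReal_mul, Complex.I_im, mul_one]
      positivity
    rw [e1 t ht, e2 t ht, hF _ hz, hn]
    field_simp
  -- the masses
  set C : ℝ := ∏ i, ∏ v, 4 * Real.pi * GSP.mu ((P i).D.leaf v) ((datOf (P i)).k v) 0 with hC
  set C' : ℝ := ∏ i, ∏ v, 4 * Real.pi * GSP.mu ((P' i).D.leaf v) ((datOf (P' i)).k v) 0 with hC'
  set Z := ∏ i, (datOf (P i)).Z (fun v j => nm ((P i).D.leaf v) ((datOf (P i)).k v) j) with hZ
  set Z' := ∏ i, (datOf (P' i)).Z (fun v j => nm ((P' i).D.leaf v) ((datOf (P' i)).k v) j) with hZ'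
  have z1 : coeff 0 Z = 1 := by
    rw [hZ, coeff_zero_eq_constantCoeff_apply, map_prod]
    refine prod_eq_one fun i _ => ?_
    rw [← coeff_zero_eq_constantCoeff_apply]
    exact b5_zero (hP i)
  have z2 : coeff 0 Z' = 1 := by
    rw [hZ', coeff_zero_eq_constantCoeff_apply, map_prod]
    refine prod_eq_one fun i _ => ?_
    rw [← coeff_zero_eq_constantCoeff_apply]
    exact b5_zero (hP' i)
  have pC : 0 < C := prod_pos fun i _ => prod_pos fun v _ =>
    mul_pos (mul_pos (by norm_num) Real.pi_pos) (b5_mu (hP i) v)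
  have pC' : 0 < C' := prod_pos fun i _ => prod_pos fun v _ =>
    mul_pos (mul_pos (by norm_num) Real.pi_pos) (b5_mu (hP' i) v)
  have m1 : μ.real Set.univ = C := by
    have := h1.mom 0
    simp only [pow_zero, integral_const, smul_eq_mul, mul_one, Nat.factorial_zero, Nat.cast_one,
      one_mul] at this
    rw [this, ← hC, ← hZ, z1, mul_one]
  have m2 : μ'.real Set.univ = C' := by
    have := h2.mom 0
    simp only [pow_zero, integral_const, smul_eq_mul, mul_one, Nat.factorial_zero, Nat.cast_one,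
      one_mul] at this
    rw [this, ← hC', ← hZ', z2, mul_one]
  have n1 : μ ≠ 0 := by
    rintro rfl
    simp at m1
    exact pC.ne m1
  have n2 : μ' ≠ 0 := by
    rintro rfl
    simp at m2
    exact pC'.ne m2
  obtain ⟨r, hr, er⟩ := eq_smul_of_charFun n1 n2 key
  have rC : C = r * C' := by
    rw [← m1, ← m2]
    have e0 : μ.real Set.univ = (r • μ').real Set.univ := by rw [← er]
    rw [e0]
    show ((r • μ') Set.univ).toReal = r * (μ' Set.univ).toReal
    rw [Measure.smul_apply, ENNReal.smul_def, smul_eq_mul, ENNReal.toReal_mul,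
      ENNReal.coe_toReal]
  have rc : (c / c' : ℂ) = ((r : ℝ) : ℂ) := by
    have l1 : Filter.Tendsto (charFun μ) (nhdsWithin 0 (Set.Ioi 0)) (nhds (charFun μ 0)) :=
      (continuous_charFun.tendsto 0).mono_left nhdsWithin_le_nhds
    have l2 : Filter.Tendsto (fun t => (c / c') * charFun μ' t) (nhdsWithin 0 (Set.Ioi 0))
        (nhds ((c / c') * charFun μ' 0)) :=
      ((continuous_const.mul continuous_charFun).tendsto 0).mono_left nhdsWithin_le_nhds
    have l3 : charFun μ 0 = (c / c') * charFun μ' 0 := by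
      refine tendsto_nhds_unique (l1.congr' ?_) l2
      filter_upwards [self_mem_nhdsWithin] with t ht using key t ht
    rw [charFun_zero, charFun_zero, m1, m2, rC] at l3
    have : (C' : ℂ) ≠ 0 := by exact_mod_cast pC'.ne'
    have l4 : ((r : ℝ) : ℂ) * (C' : ℂ) = (c / c') * (C' : ℂ) := by
      rw [← l3]
      push_cast
      rfl
    exact (mul_right_cancel₀ this l4).symm
  constructor
  · ext n
    have a1 := h1.mom n
    have a2 := h2.mom n
    rw [er, integral_smul_nnreal_measure, a2] at a1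
    have a3 : (r : ℝ) * (C' * (n.factorial * coeff n Z')) = C * (n.factorial * coeff n Z) := a1
    rw [rC] at a3
    have hr' : (r : ℝ) ≠ 0 := by exact_mod_cast hr
    have hf : (n.factorial : ℝ) ≠ 0 := by exact_mod_cast n.factorial_ne_zero
    have a4 : ((r : ℝ) * C' * n.factorial) * coeff n Z' = ((r : ℝ) * C' * n.factorial) * coeff n Z := by
      linear_combination a3
    exact (mul_left_cancel₀ (mul_ne_zero (mul_ne_zero hr' pC'.ne') hf) a4).symm
  · have rn : ‖c‖ = r * ‖c'‖ := by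
      have := congrArg norm rc
      rw [norm_div, Complex.norm_real, Real.norm_eq_abs, abs_of_nonneg r.coe_nonneg] at this
      rw [div_eq_iff pc'.ne'] at this
      exact this
    rw [hc, hc', hn] at rn
    have pp : 0 < Real.pi ^ ((3 / 2 : ℝ) * ((∑ i, ((P' i).n + 1) : ℕ) : ℝ)) :=
      Real.rpow_pos_of_pos Real.pi_pos _
    have r1 : (∏ i, |(lkm (P i).D).det|) ^ (3 / 2 : ℝ) =
        r * (∏ i, |(lkm (P' i).D).det|) ^ (3 / 2 : ℝ) := by
      refine mul_left_cancel₀ pp.ne' ?_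
      rw [rn]
      ring
    have r2 : ∀ x : ℝ, 0 < x → (x ^ (3 / 2 : ℝ)) ^ 2 = x ^ 3 := by
      intro x hx
      rw [← Real.rpow_natCast, ← Real.rpow_mul hx.le, ← Real.rpow_natCast]
      norm_num
    have r3 : (∏ i, |(lkm (P i).D).det|) ^ 3 = (r : ℝ) ^ 2 * (∏ i, |(lkm (P' i).D).det|) ^ 3 := by
      rw [← r2 _ d1, ← r2 _ d2, r1]
      ring
    -- remove the factors 4 π
    have s1 : ∀ (κ : Type) [Fintype κ] (Q : κ → Prime),
        (∏ i, ∏ v, 4 * Real.pi * GSP.mu ((Q i).D.leaf v) ((datOf (Q i)).k v) 0) =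
          (4 * Real.pi) ^ (∑ i, ((Q i).n + 1)) *
            ∏ i, ∏ v, GSP.mu ((Q i).D.leaf v) ((datOf (Q i)).k v) 0 := by
      intro κ _ Q
      rw [← prod_pow_eq_pow_sum, ← prod_mul_distrib]
      refine prod_congr rfl fun i _ => ?_
      rw [prod_mul_distrib, prod_const, card_univ, Fintype.card_fin]
    have s2 : (∏ i, ∏ v, GSP.mu ((P i).D.leaf v) ((datOf (P i)).k v) 0) =
        r * ∏ i, ∏ v, GSP.mu ((P' i).D.leaf v) ((datOf (P' i)).k v) 0 := by
      have s3 := rC
      rw [hC, hC', s1, s1, hn] at s3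
      have s4 : (4 * Real.pi) ^ (∑ i, ((P' i).n + 1)) ≠ 0 :=
        pow_ne_zero _ (mul_ne_zero (by norm_num) Real.pi_pos.ne')
      refine mul_left_cancel₀ s4 ?_
      rw [s3]
      ring
    rw [s2, r3]
    ring

end Pool.Agent.GSG
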