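import Pool.Agent.GSP.Defs

/-!
# Definitions: separation of graph homology spheres with any number of leaves at the nodes
-/

set_option autoImplicit false

open Finset

namespace Pool.Agent.GSG

open Pool.Agent.OHG Pool.Agent.GPC Pool.Agent.GSP

/-- The sets of leaves of a node with the valence `k + 2`. -/
structure LeafG (S : Finset ℕ) (k : ℕ) : Prop where
  two_le : ∀ p ∈ S, 2 ≤ p
  coprime : ∀ p ∈ S, ∀ q ∈ S, p ≠ q → Nat.Coprime p q
  card_le : S.card ≤ k + 2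
  lt : ∑ p ∈ S, (1 : ℝ) / p < k

theorem LeafG.one_le {S : Finset ℕ} {k : ℕ} (hS : LeafG S k) : 1 ≤ k := by
  have h0 : (0 : ℝ) ≤ ∑ p ∈ S, (1 : ℝ) / p := Finset.sum_nonneg fun p _ => by positivity
  have h1 : (0 : ℝ) < k := lt_of_le_of_lt h0 hS.lt
  have h2 : 0 < k := by exact_mod_cast h1
  omega

theorem LeafG.pos {S : Finset ℕ} {k : ℕ} (hS : LeafG S k) : ∀ p ∈ S, 0 < p := fun p hp => by
  have := hS.two_le p hp
  omega

/-- The units at the set `S`. -/
def UG (S : Finset ℕ) (s : ℤ) : Prop := Odd s ∧ ∀ p ∈ S, IsCoprime s (p : ℤ)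

/-! ### functions on the circle -/

/-- `exp (2 π i x)`. -/
noncomputable def ee (x : ℝ) : ℂ := Complex.exp (2 * Real.pi * Complex.I * x)

/-- The function `g` is a rational function of `exp (2 π i x)` of degree at most `m |Z|` with poles of
order `m` at the points of `Z` and no others. -/
structure PF (g : ℝ → ℝ) (Z : Finset ℂ) (m : ℕ) : Prop where
  circ : ∀ z ∈ Z, ∃ x : ℝ, ee x = z
  rat : ∃ A : Polynomial ℂ, A.natDegree ≤ m * Z.card ∧ (∀ z ∈ Z, A.eval z ≠ 0) ∧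
    ∀ x : ℝ, ee x ∉ Z → (g x : ℂ) * (∏ w ∈ Z, (ee x - w)) ^ m = A.eval (ee x)

/-- The function whose values are the leading coefficients of the conjugate moments. -/
noncomputable def gq (S : Finset ℕ) (k q r : ℕ) (s : ℤ) (x : ℝ) : ℝ :=
  ∑ T ∈ S.powerset with q ∈ T, (-1) ^ (S \ T).card * (((binP k).eval (al S T) : ℚ) : ℝ) *
    ((cotP r).map (algebraMap ℚ ℝ)).eval (ct (x + s * (al S T : ℝ) - k / 2))

/-- The poles of `gq`. -/
noncomputable def zq (S : Finset ℕ) (k q : ℕ) (s : ℤ) : Finset ℂ :=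
  (S.powerset.filter fun T => q ∈ T).image fun T => ee ((k : ℝ) / 2 - s * (al S T : ℝ))

/-! ### the twists -/

/-- The largest exponent of `l` in a leaf. -/
def xp (l : ℕ) (S : Finset ℕ) : ℕ := S.sup (padicValNat l)

/-- `N₀ l ^ (i - 1)`, where `N₀` is the part of `N` prime to `l`. -/
def tw (N l i : ℕ) : ℤ := ((N / l ^ padicValNat l N * l ^ (i - 1) : ℕ) : ℤ)

/-- The twist `1 + t N₀ l ^ (i - 1)`. -/
def tz (N l i : ℕ) (t : ℤ) : ℤ := 1 + t * tw N l i

section data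

variable {V V' : Type}

/-- The number `N` is divisible by `4` and by `2 p` for all leaves. -/
structure Nice (D : Dat V) (N : ℕ) : Prop where
  four : 4 ∣ N
  dvd : ∀ v, ∀ p ∈ D.S v, 2 * p ∣ N

/-- The exponent of `l` at `v` is larger than at all other nodes. -/
structure Pr (B : ℕ) (D : Dat V) (l : ℕ) (v : V) : Prop where
  prime : l.Prime
  big : 4 ^ (B + 3) ≤ l
  pos : 1 ≤ xp l (D.S v)
  lt : ∀ x, x ≠ v → xp l (D.S x) < xp l (D.S v)

/-- The admissible data. -/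
structure OkG (B : ℕ) (D : Dat V) : Prop where
  acyclic : D.G.IsAcyclic
  leaf : ∀ v, LeafG (D.S v) (D.k v)
  three_le : ∀ v, 3 ≤ (D.S v).card + dg D.G v
  w_pos : ∀ e ∈ D.G.edgeSet, 0 < D.w e
  val_le : ∀ v, (D.S v).Nonempty → D.k v + 2 ≤ B
  priv : ∀ v, (D.S v).Nonempty → ∃ l, Pr B D l v

/-- The conjugate formal integral. -/
noncomputable def Zs [Fintype V] [DecidableEq V] (D : Dat V) (s : ℤ) : PowerSeries (RatFunc ℂ) :=
  D.Z fun v j => mm (D.S v) (D.k v) j s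

/-- The data `D` and `D'` have the same conjugate formal integrals and proportional masses. -/
structure Cmp [Fintype V] [DecidableEq V] [Fintype V'] [DecidableEq V'] (B N : ℕ) (D : Dat V)
    (D' : Dat V') : Prop where
  pos : 0 < N
  ok : OkG B D
  ok' : OkG B D'
  nice : Nice D N
  nice' : Nice D' N
  mass : ∃ a b : ℝ, a ≠ 0 ∧ b ≠ 0 ∧ ∀ s : ℤ, IsCoprime s (N : ℤ) →
    Polynomial.C a * (∏ v, YY (D.S v) (D.k v) 0 s) ^ 2 =
      Polynomial.C b * (∏ v, YY (D'.S v) (D'.k v) 0 s) ^ 2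
  zs : ∀ s : ℤ, IsCoprime s (N : ℤ) → Zs D s = Zs D' s

end data

/-- The families of diagrams which we separate: every node with leaves has at most the valence `B`,
and it has a leaf divisible by a prime power `l ^ m` with `l ≥ 4 ^ (B + 3)` which divides no leaf of
another node of the family. -/
structure Gen (B : ℕ) {ι : Type} (P : ι → Prime) : Prop where
  val_le : ∀ i v, ((P i).D.leaf v).Nonempty → (P i).D.val v ≤ B
  priv : ∀ i v, ((P i).D.leaf v).Nonempty → ∃ l m : ℕ, l.Prime ∧ 4 ^ (B + 3) ≤ l ∧ 1 ≤ m ∧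
    (∃ p ∈ (P i).D.leaf v, l ^ m ∣ p) ∧
    ∀ j x, (⟨j, x⟩ : Σ j, Fin ((P j).n + 1)) ≠ ⟨i, v⟩ → ∀ p ∈ (P j).D.leaf x, ¬ l ^ m ∣ p

end Pool.Agent.GSG
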