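import Pool.Agent.GSG.M2c
import Pool.Agent.GSP.A5

/-!
PROOF (module M3). Copy the proof of `gal_mu` in GSP/A5.lean (line 468) and the private lemmas it uses
(`A5_odd`, `A5_toC_rat`, `A5_toC_X`, `A5_gal_pi`, `A5_chi`, `A5_parity`, `A5_int_al`, ...), with
`muG_eq_YY` instead of `mu_eq_YY` and `two_al_ne` (module R3, with `s = 1`) for the fact that
`al S T - k / 2` is not an integer. `gal_cot` of GSP/A5 is general. For `S = ∅` use `GSP.gal_mu` itself.
-/

set_option autoImplicit false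

open Finset

namespace Pool.Agent.GSG

open Pool.Agent.GSP

private theorem M3_toC_rat (q : ℚ) : toC (Polynomial.C ((q : ℚ) : ℝ)) = ((q : ℚ) : RatFunc ℂ) := by
  have h := map_ratCast (toC.comp (Polynomial.C : ℝ →+* Polynomial ℝ)) q
  rw [RingHom.comp_apply] at h
  exact h

private theorem M3_toC_X : toC (Polynomial.X : Polynomial ℝ) = RatFunc.X := by
  unfold toC
  rw [RingHom.comp_apply, Polynomial.coe_mapRingHom, Polynomial.map_X, RatFunc.algebraMap_X]

private theorem M3_odd {N : ℕ} (h4 : 4 ∣ N) {s : ℤ} (hs : IsCoprime s (N : ℤ)) : Odd s := by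
  by_contra h
  rw [Int.not_odd_iff_even] at h
  have h1 : (2 : ℤ) ∣ s := h.two_dvd
  have h2 : (2 : ℤ) ∣ (N : ℤ) := by
    obtain ⟨c, hc⟩ := h4
    exact ⟨2 * c, by rw [hc]; push_cast; ring⟩
  have h3 := hs.isUnit_of_dvd' h1 h2
  rw [Int.isUnit_iff] at h3
  omega

private theorem M3_ct_int (x : ℝ) (n : ℤ) : ct (x + n) = ct x := by
  unfold ct
  have h1 : Real.pi * (x + n) = Real.pi * x + n * Real.pi := by ring
  rw [h1, Real.cos_add_int_mul_pi, Real.sin_add_int_mul_pi]
  rw [mul_div_mul_left]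
  rcases Int.even_or_odd n with h | h
  · rw [h.neg_one_zpow]
    norm_num
  · rw [h.neg_one_zpow]
    norm_num

private theorem M3_nonint {S : Finset ℕ} {k : ℕ} (hS : LeafG S k) (hne : S.Nonempty)
    {T : Finset ℕ} (hT : T ⊆ S) (n : ℤ) : al S T - (k : ℚ) / 2 ≠ n := by
  intro h
  refine two_al_ne hS hne (s := 1) (fun p _ => isCoprime_one_left) (mem_powerset.mpr hT)
    (2 * n + (k : ℤ)) ?_
  push_cast
  linarith

private theorem M3_int_al {N : ℕ} {S T : Finset ℕ} (hNS : ∀ p ∈ S, 2 * p ∣ N) (hT : T ⊆ S)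
    (hS : ∀ p ∈ S, 0 < p) : ∃ a : ℤ, (N : ℚ) * al S T = a := by
  have h0 : al S T = ∑ p ∈ S, (if p ∈ T then (1 : ℚ) / p else -((1 : ℚ) / p)) / 2 := by
    unfold al
    rw [← sum_div, sum_ite, filter_mem_eq_inter, inter_eq_right.mpr hT, sum_neg_distrib]
    have : S.filter (fun p => p ∉ T) = S \ T := by
      ext x
      simp
    rw [this]
    ring
  refine ⟨∑ p ∈ S, (if p ∈ T then ((N / (2 * p) : ℕ) : ℤ) else -((N / (2 * p) : ℕ) : ℤ)), ?_⟩
  rw [h0, mul_sum, Int.cast_sum]
  refine sum_congr rfl fun p hp => ?_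
  obtain ⟨c, hc⟩ := hNS p hp
  have hp2 := hS p hp
  have hp0 : (p : ℚ) ≠ 0 := by exact_mod_cast (by omega : p ≠ 0)
  have h1 : N / (2 * p) = c := by
    rw [hc]
    exact Nat.mul_div_cancel_left c (by omega)
  rw [h1, hc]
  split_ifs
  · push_cast
    field_simp
  · push_cast
    field_simp

/-- the conjugates of the moments -/
theorem gal_muG {N : ℕ} (hN : 0 < N) (h4 : 4 ∣ N) {s : ℤ} (hs : IsCoprime s (N : ℤ))
    {S : Finset ℕ} {k : ℕ} (hS : LeafG S k) (hNS : ∀ p ∈ S, 2 * p ∣ N) (j : ℕ) :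
    Gal N s ((mu S k j : ℝ) : ℂ) (toC (YY S k j s)) := by
  by_cases hne : S = ∅
  · subst hne
    exact GSP.gal_mu hN h4 hs ⟨by simp, by simp, by simp⟩ hNS hS.one_le j
  have hodd : Odd s := M3_odd h4 hs
  rw [muG_eq_YY hS j]
  have hcast : ∀ q : ℚ, Gal N s (((q : ℝ) : ℂ)) (toC (Polynomial.C ((q : ℚ) : ℝ))) := by
    intro q
    rw [M3_toC_rat, Complex.ofReal_ratCast]
    exact Gal.rat hN hs q
  have hne' : S.Nonempty := nonempty_iff_ne_empty.mpr hne
  unfold YY
  rw [if_neg hne, if_neg hne]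
  rw [Polynomial.eval_mul, Polynomial.eval_C, Polynomial.eval_finsetSum, Complex.ofReal_mul,
    Complex.ofReal_sum, map_mul, map_sum]
  refine Gal.mul hN hs ?_ (Gal.sum hN hs _ fun T hT => ?_)
  · have h := hcast ((∏ p ∈ S, (p : ℚ)) * ((ex S k j).factorial : ℚ) / 2)
    rw [Rat.cast_div, Rat.cast_mul, Rat.cast_prod, Rat.cast_natCast, Rat.cast_ofNat] at h
    simp only [Rat.cast_natCast] at h
    exact h
  · have hTS := mem_powerset.mp hT
    rw [Polynomial.eval_mul, Polynomial.eval_finsetSum, Polynomial.eval_pow,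
      Polynomial.eval_neg, Polynomial.eval_one, Complex.ofReal_mul, Complex.ofReal_sum,
      map_mul, map_sum]
    refine Gal.mul hN hs ?_ (Gal.sum hN hs _ fun i hi => ?_)
    · have h := hcast ((-1) ^ (S \ T).card)
      rw [Rat.cast_pow, Rat.cast_neg, Rat.cast_one] at h
      rw [map_pow Polynomial.C, map_neg Polynomial.C, map_one Polynomial.C, map_pow toC,
        map_neg toC, map_one toC] at h
      rw [map_pow toC, map_neg toC, map_one toC]
      exact h
    · rw [Polynomial.eval_mul, Polynomial.eval_mul, Polynomial.eval_C, Polynomial.eval_C,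
        Polynomial.eval_pow, Polynomial.eval_X]
      have hz1 : ∃ a : ℤ, (N : ℚ) * (al S T - (k : ℚ) / 2) = a := by
        obtain ⟨a, ha⟩ := M3_int_al hNS hTS hS.pos
        obtain ⟨c, hc⟩ := h4
        refine ⟨a - 2 * c * k, ?_⟩
        rw [mul_sub, ha, hc]
        push_cast
        ring
      have hg := gal_cot hN h4 hs (ex S k j + 1 - i) hz1 (M3_nonint hS hne' hTS)
      have hq := hcast ((Polynomial.taylor (al S T) (binP k)).coeff i)
      have hm := hcast ((-1) ^ (ex S k j + 1 - i))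
      have hall := Gal.mul hN hs (Gal.mul hN hs hq hm) hg
      have e1 : ((((Polynomial.taylor (al S T) (binP k)).coeff i : ℚ) : ℝ) *
          ((-1) ^ (ex S k j + 1 - i) * ((cotP (ex S k j + 1 - i)).map
            (algebraMap ℚ ℝ)).eval (ct (((1 : ℤ) : ℝ) * (al S T : ℝ) - k / 2))) *
          Real.pi ^ (ex S k j + 1 - i) : ℝ) =
          (((Polynomial.taylor (al S T) (binP k)).coeff i : ℚ) : ℝ) *
          (((-1) ^ (ex S k j + 1 - i) : ℚ) : ℝ) * (Real.pi ^ (ex S k j + 1 - i) *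
            ((cotP (ex S k j + 1 - i)).map (algebraMap ℚ ℝ)).eval
              (ct ((al S T - (k : ℚ) / 2 : ℚ) : ℝ))) := by
        have h5 : ((1 : ℤ) : ℝ) * (al S T : ℝ) - (k : ℝ) / 2 =
            ((al S T - (k : ℚ) / 2 : ℚ) : ℝ) := by
          push_cast
          ring
        rw [h5]
        push_cast
        ring
      have e2 : toC (Polynomial.C (((Polynomial.taylor (al S T) (binP k)).coeff i : ℚ) : ℝ) *
          Polynomial.C ((-1) ^ (ex S k j + 1 - i) * Polynomial.eval
            (ct ((s : ℝ) * (al S T : ℝ) - k / 2))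
              ((cotP (ex S k j + 1 - i)).map (algebraMap ℚ ℝ))) *
          Polynomial.X ^ (ex S k j + 1 - i)) =
          toC (Polynomial.C (((Polynomial.taylor (al S T) (binP k)).coeff i : ℚ) : ℝ)) *
          toC (Polynomial.C (((-1) ^ (ex S k j + 1 - i) : ℚ) : ℝ)) *
          toC (Polynomial.C (((cotP (ex S k j + 1 - i)).map (algebraMap ℚ ℝ)).eval
            (ct ((s : ℝ) * ((al S T - (k : ℚ) / 2 : ℚ) : ℝ)))) *
            Polynomial.X ^ (ex S k j + 1 - i)) := by
        have h6 : ct ((s : ℝ) * ((al S T - (k : ℚ) / 2 : ℚ) : ℝ)) =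
            ct ((s : ℝ) * (al S T : ℝ) - k / 2) := by
          obtain ⟨m, hm⟩ := hodd
          rw [← M3_ct_int ((s : ℝ) * ((al S T - (k : ℚ) / 2 : ℚ) : ℝ)) (m * k)]
          congr 1
          rw [hm]
          push_cast
          ring
        rw [h6, ← map_mul toC, ← map_mul toC]
        congr 1
        rw [Polynomial.C_mul, Rat.cast_pow, Rat.cast_neg, Rat.cast_one]
        ring
      rw [e1, e2, Complex.ofReal_mul, Complex.ofReal_mul]
      exact hall

end Pool.Agent.GSG
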