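import Pool.Agent.GSG.R5
import Pool.Agent.GSG.M3

/-!
PROOFS (module M4). `YYG_ne`: let `N = 4 * ∏ p ∈ S, p`; `UG S s` gives `IsCoprime s N`. By `gal_muG`,
`Gal N s (mu) (toC (YY S k j s))`. If `YY = 0`, then `Gal N s mu 0`, and `Gal.rat hN hs 0` gives
`Gal N s 0 0`, so `mu = 0` by `Gal.inj`, against `muG_pos`.
`toC_inj`: `RatFunc.algebraMap_injective` and `Polynomial.map_injective`. `mmG_zero`: `div_self`.
`uG_of`: `2 ∣ N` and `p ∣ N` for `p ∈ S` (see `Nice.uu` in GSP/F1.lean).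
-/

set_option autoImplicit false

open Finset

namespace Pool.Agent.GSG

open Pool.Agent.GSP

private theorem M4_two {s : ℤ} (h : Odd s) : IsCoprime s (2 : ℤ) := by
  obtain ⟨m, hm⟩ := h
  exact ⟨1, -m, by rw [hm]; ring⟩

private theorem M4_cop {S : Finset ℕ} {s : ℤ} (hs : UG S s) :
    IsCoprime s ((4 * ∏ p ∈ S, p : ℕ) : ℤ) := by
  have h2 := M4_two hs.1
  have h4 : IsCoprime s (4 : ℤ) := by
    have h : (4 : ℤ) = 2 * 2 := by norm_num
    rw [h]
    exact IsCoprime.mul_right h2 h2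
  rw [Nat.cast_mul, Nat.cast_prod]
  refine IsCoprime.mul_right (by exact_mod_cast h4) (IsCoprime.prod_right fun p hp => hs.2 p hp)

/-- the conjugate moments do not vanish -/
theorem YYG_ne {S : Finset ℕ} {k : ℕ} (hS : LeafG S k) (j : ℕ) {s : ℤ} (hs : UG S s) :
    YY S k j s ≠ 0 := by
  intro h0
  have hc := M4_cop hs
  have hN : 0 < 4 * ∏ p ∈ S, p := Nat.mul_pos (by norm_num) (Finset.prod_pos hS.pos)
  have hd : ∀ p ∈ S, 2 * p ∣ 4 * ∏ p ∈ S, p := fun p hp =>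
    mul_dvd_mul (by norm_num) (Finset.dvd_prod_of_mem _ hp)
  have h1 := gal_muG hN (dvd_mul_right 4 _) hc hS hd j
  rw [h0, map_zero] at h1
  have h2 := Gal.rat hN hc 0
  rw [Rat.cast_zero, Rat.cast_zero] at h2
  have h3 := Gal.inj hN hc h1 h2
  rw [Complex.ofReal_eq_zero] at h3
  exact (muG_pos hS j).ne' h3

theorem toC_inj : Function.Injective toC := by
  unfold toC
  rw [RingHom.coe_comp]
  refine (RatFunc.algebraMap_injective ℂ).comp ?_
  rw [Polynomial.coe_mapRingHom]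
  exact Polynomial.map_injective _ (algebraMap ℝ ℂ).injective

theorem mmG_zero {S : Finset ℕ} {k : ℕ} (hS : LeafG S k) {s : ℤ} (hs : UG S s) :
    mm S k 0 s = 1 := by
  unfold mm
  refine div_self ?_
  rw [map_ne_zero_iff toC toC_inj]
  exact YYG_ne hS 0 hs

theorem mmG_congr {S : Finset ℕ} (h0 : ∀ p ∈ S, 0 < p) (k j : ℕ) {s s' : ℤ}
    (h : ∀ p ∈ S, (2 * p : ℤ) ∣ s - s') : mm S k j s = mm S k j s' := by
  unfold mm
  rw [YYG_congr h0 k j h, YYG_congr h0 k 0 h]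

theorem uG_of {N : ℕ} (h4 : 4 ∣ N) {S : Finset ℕ} (hNS : ∀ p ∈ S, 2 * p ∣ N) {s : ℤ}
    (hs : IsCoprime s (N : ℤ)) : UG S s := by
  have h2 : IsCoprime s (2 : ℤ) := by
    refine hs.of_isCoprime_of_dvd_right ?_
    have : (2 : ℕ) ∣ N := Dvd.dvd.trans (by norm_num) h4
    exact_mod_cast this
  refine ⟨?_, fun p hp => ?_⟩
  · rw [← Int.not_even_iff_odd]
    intro he
    have h3 : (2 : ℤ) ∣ 1 := by
      obtain ⟨a, b, hab⟩ := h2
      rw [← hab]
      exact dvd_add (he.two_dvd.mul_left a) (dvd_mul_left 2 b)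
    norm_num at h3
  · refine hs.of_isCoprime_of_dvd_right ?_
    have : p ∣ N := Dvd.dvd.trans (dvd_mul_left p 2) (hNS p hp)
    exact_mod_cast this

end Pool.Agent.GSG
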