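import Pool.Agent.GSG.Defs

/-!
PROOFS (module R6). Let `v = padicValNat l N`, `N₀ = N / l ^ v`; `l ∤ N₀`, `N = N₀ l ^ v`
(`Nat.ordProj`/`Nat.ordCompl` lemmas or `pow_padicValNat_dvd`, `padicValNat_dvd_iff_le`).
`tw_dvd`: `2 p = 2 p' l ^ j` with `l ∤ 2 p'` and `j = padicValNat l p ≤ i - 1`; `2 p' ∣ N₀ l ^ v` gives
`2 p' ∣ N₀` (coprimality, `l` is odd).
`tw_eq`: `2 q = 2 q' l ^ i`, `2 q' ∣ N₀`, `c = N₀ / (2 q')`, `l * tw = N₀ l ^ i = 2 q c`, and `c ∣ N₀` is prime to `l`.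
`tz_unit`: `N₀ ∣ tw`, so `tz` is prime to `N₀`. If `l ∤ N` or `i ≥ 2`, then `tz` is prime to `l` too (or no
condition at `l`), any `t₀` works. If `i = 1` and `l ∣ N`: `tw = N₀` is invertible modulo `l`; let `t₀` be a
solution of `1 + t₀ N₀ ≡ 0` modulo `l`; if `l ∣ 1 + t N₀` then `l ∣ (t - t₀) N₀`.
`tw_mul`: `N₀ ∣ tw N l i`, and `l ^ v ∣ N / l' ^ (..) ∣ tw N l' i'` since `l ^ v` and `l' ^ (..)` are coprime
divisors of `N`. `dvd_tw`: `l ∣ N / l' ^ (..)` in the same way.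
-/

set_option autoImplicit false

open Finset

namespace Pool.Agent.GSG

private theorem R6_split {l n : ℕ} (hl : l.Prime) (hn : 0 < n) :
    n / l ^ padicValNat l n * l ^ padicValNat l n = n ∧ Nat.Coprime (n / l ^ padicValNat l n) l := by
  have : Fact l.Prime := ⟨hl⟩
  refine ⟨Nat.div_mul_cancel pow_padicValNat_dvd, ?_⟩
  have h1 := Nat.coprime_ordCompl hl hn.ne'
  rw [Nat.factorization_def n hl] at h1
  exact h1.symm

private theorem R6_two {l : ℕ} (hl : l.Prime) (h5 : 5 ≤ l) : Nat.Coprime 2 l := by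
  rw [Nat.coprime_primes Nat.prime_two hl]
  omega

/-- the part of `2 p` prime to `l` divides the part of `N` prime to `l` -/
private theorem R6_part {N l p : ℕ} (hN : 0 < N) (hl : l.Prime) (h5 : 5 ≤ l) (hp : 0 < p)
    (hpN : 2 * p ∣ N) : 2 * (p / l ^ padicValNat l p) ∣ N / l ^ padicValNat l N := by
  obtain ⟨h1, h2⟩ := R6_split hl hN
  obtain ⟨h3, h4⟩ := R6_split hl hp
  have h6 : Nat.Coprime (2 * (p / l ^ padicValNat l p)) (l ^ padicValNat l N) :=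
    ((R6_two hl h5).mul_left h4).pow_right _
  refine h6.dvd_of_dvd_mul_right ?_
  rw [h1]
  refine dvd_trans ?_ hpN
  exact mul_dvd_mul_left 2 (Dvd.intro _ h3)

theorem tw_dvd {N l i p : ℕ} (hN : 0 < N) (hl : l.Prime) (h5 : 5 ≤ l) (hp : 0 < p)
    (hpN : 2 * p ∣ N) (h : padicValNat l p < i) : (2 * p : ℤ) ∣ tw N l i := by
  obtain ⟨h3, h4⟩ := R6_split hl hp
  have h1 := R6_part hN hl h5 hp hpN
  have h2 : l ^ padicValNat l p ∣ l ^ (i - 1) := pow_dvd_pow l (by omega)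
  have h6 : 2 * p ∣ N / l ^ padicValNat l N * l ^ (i - 1) := by
    have h7 := mul_dvd_mul h1 h2
    rwa [mul_assoc, h3] at h7
  unfold tw
  exact_mod_cast h6

theorem tw_eq {N l q : ℕ} (hN : 0 < N) (hl : l.Prime) (h5 : 5 ≤ l) (hq : 0 < q)
    (hqN : 2 * q ∣ N) (hi : 1 ≤ padicValNat l q) :
    ∃ c : ℤ, IsCoprime c (l : ℤ) ∧ (l : ℤ) * tw N l (padicValNat l q) = 2 * q * c := by
  obtain ⟨h1, h2⟩ := R6_split hl hN
  obtain ⟨h3, h4⟩ := R6_split hl hq
  obtain ⟨c, hc⟩ := R6_part hN hl h5 hq hqN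
  refine ⟨c, ?_, ?_⟩
  · rw [Nat.isCoprime_iff_coprime]
    refine Nat.Coprime.coprime_dvd_left ?_ h2
    rw [hc]
    exact dvd_mul_left c _
  · unfold tw
    have h6 : l * (N / l ^ padicValNat l N * l ^ (padicValNat l q - 1)) = 2 * q * c := by
      rw [hc]
      have h7 : l ^ padicValNat l q = l * l ^ (padicValNat l q - 1) := by
        rw [← pow_succ']
        congr 1
        omega
      calc l * (2 * (q / l ^ padicValNat l q) * c * l ^ (padicValNat l q - 1))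
          = 2 * (q / l ^ padicValNat l q * (l * l ^ (padicValNat l q - 1))) * c := by ring
        _ = 2 * q * c := by rw [← h7, h3]
    exact_mod_cast h6

/-- the twists are units up to one residue class -/
theorem tz_unit {N l i : ℕ} (hN : 0 < N) (hl : l.Prime) (hi : 1 ≤ i) :
    ∃ t₀ : ℤ, ∀ t : ℤ, ¬ (l : ℤ) ∣ t - t₀ → IsCoprime (tz N l i t) (N : ℤ) := by
  obtain ⟨h1, h2⟩ := R6_split hl hN
  obtain ⟨a, b, hab⟩ := Nat.isCoprime_iff_coprime.2 h2
  refine ⟨-a, fun t ht => ?_⟩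
  obtain ⟨N₀, hN₀⟩ : ∃ N₀ : ℕ, N₀ = N / l ^ padicValNat l N := ⟨_, rfl⟩
  have hlp : Prime (l : ℤ) := Nat.prime_iff_prime_int.1 hl
  have htw : tw N l i = (N₀ : ℤ) * (l : ℤ) ^ (i - 1) := by
    unfold tw
    rw [← hN₀]
    push_cast
    ring
  rw [← hN₀] at hab h1
  have hN' : (N : ℤ) = (N₀ : ℤ) * (l : ℤ) ^ padicValNat l N := by
    have h3 : ((N₀ * l ^ padicValNat l N : ℕ) : ℤ) = ((N : ℕ) : ℤ) := by rw [h1]
    rw [← h3]
    push_cast
    ring
  have hz : tz N l i t = 1 + t * ((N₀ : ℤ) * (l : ℤ) ^ (i - 1)) := by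
    unfold tz
    rw [htw]
  rw [hN', hz]
  refine IsCoprime.mul_right ?_ (IsCoprime.pow_right ?_)
  · exact ⟨1, -(t * (l : ℤ) ^ (i - 1)), by ring⟩
  · rw [isCoprime_comm, (hlp.irreducible).coprime_iff_not_dvd]
    intro hd
    by_cases hi1 : i = 1
    · subst hi1
      rw [Nat.sub_self, pow_zero, mul_one] at hd
      have h3 : (l : ℤ) ∣ (t - -a) * N₀ := by
        have h4 : (t - -a) * (N₀ : ℤ) = (1 + t * N₀) - b * l := by
          linarith
        rw [h4]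
        exact dvd_sub hd (dvd_mul_left _ _)
      rcases hlp.dvd_or_dvd h3 with h4 | h4
      · exact ht h4
      · have h5 : (l : ℤ) ∣ 1 := by
          rw [← hab]
          exact dvd_add (dvd_mul_of_dvd_right h4 a) (dvd_mul_left _ _)
        exact hlp.not_isUnit (isUnit_of_dvd_one h5)
    · have h3 : (l : ℤ) ∣ t * ((N₀ : ℤ) * (l : ℤ) ^ (i - 1)) :=
        dvd_mul_of_dvd_right (dvd_mul_of_dvd_right (dvd_pow_self _ (by omega)) _) _
      have h5 : (l : ℤ) ∣ 1 := by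
        have h4 := dvd_sub hd h3
        rwa [add_sub_cancel_right] at h4
      exact hlp.not_isUnit (isUnit_of_dvd_one h5)

private theorem R6_pow {N l l' : ℕ} (hN : 0 < N) (hl : l.Prime) (hl' : l'.Prime) (hne : l ≠ l')
    {j : ℕ} (h : l ^ j ∣ N) : l ^ j ∣ N / l' ^ padicValNat l' N := by
  obtain ⟨h1, h2⟩ := R6_split hl' hN
  have h3 : Nat.Coprime (l ^ j) (l' ^ padicValNat l' N) :=
    Nat.Coprime.pow _ _ ((Nat.coprime_primes hl hl').2 hne)
  refine h3.dvd_of_dvd_mul_right ?_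
  rw [h1]
  exact h

theorem tw_mul {N l l' : ℕ} (hN : 0 < N) (hl : l.Prime) (hl' : l'.Prime) (hne : l ≠ l')
    (i i' : ℕ) : (N : ℤ) ∣ tw N l i * tw N l' i' := by
  obtain ⟨h1, h2⟩ := R6_split hl hN
  have : Fact l.Prime := ⟨hl⟩
  have h3 : l ^ padicValNat l N ∣ N / l' ^ padicValNat l' N := R6_pow hN hl hl' hne pow_padicValNat_dvd
  have h4 : N ∣ (N / l ^ padicValNat l N * l ^ (i - 1)) * (N / l' ^ padicValNat l' N * l' ^ (i' - 1)) := by
    have h5 : N / l ^ padicValNat l N * l ^ padicValNat l N ∣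
        (N / l ^ padicValNat l N * l ^ (i - 1)) * (N / l' ^ padicValNat l' N * l' ^ (i' - 1)) :=
      mul_dvd_mul (dvd_mul_right _ _) (dvd_mul_of_dvd_left h3 _)
    rwa [h1] at h5
  unfold tw
  exact_mod_cast h4

theorem dvd_tw {N l l' : ℕ} (hN : 0 < N) (hl : l.Prime) (hl' : l'.Prime) (hne : l ≠ l')
    (h : l ∣ N) (i' : ℕ) : (l : ℤ) ∣ tw N l' i' := by
  have h1 : l ∣ N / l' ^ padicValNat l' N := by
    have h2 := R6_pow (j := 1) hN hl hl' hne (by rwa [pow_one])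
    rwa [pow_one] at h2
  have h3 : l ∣ N / l' ^ padicValNat l' N * l' ^ (i' - 1) := dvd_mul_of_dvd_left h1 _
  unfold tw
  exact_mod_cast h3

end Pool.Agent.GSG
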