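import Pool.Agent.GSG.T1
import Pool.Agent.GSG.R6
import Pool.Agent.GSG.M4

/-!
PROOF (module T2). `YY_fix`: all `p ∈ S` have `padicValNat l p ≤ xp l S < i` (`Finset.le_sup`), so `2 p ∣ tw N l i`
(`tw_dvd`), and `tz * s - s = t * tw * s`; use `YYG_congr`.
-/

set_option autoImplicit false

open Finset

namespace Pool.Agent.GSG

open Pool.Agent.GSP

/-- the twists of a level above the exponent act trivially -/
theorem YY_fix {N : ℕ} (hN : 0 < N) {S : Finset ℕ} (h0 : ∀ p ∈ S, 0 < p)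
    (hNS : ∀ p ∈ S, 2 * p ∣ N) {l i : ℕ} (hl : l.Prime) (h5 : 5 ≤ l) (h : xp l S < i) (k j : ℕ)
    (t s : ℤ) : YY S k j (tz N l i t * s) = YY S k j s := by
  refine YYG_congr h0 k j fun p hp => ?_
  have h1 : padicValNat l p < i :=
    lt_of_le_of_lt (Finset.le_sup (f := padicValNat l) hp) h
  have h2 : (2 * p : ℤ) ∣ tw N l i := tw_dvd hN hl h5 (h0 p hp) (hNS p hp) h1
  have h3 : tz N l i t * s - s = tw N l i * (t * s) := by
    unfold tz
    ring
  rw [h3]
  exact Dvd.dvd.mul_right h2 _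

theorem YY_fix' {N : ℕ} (hN : 0 < N) {S : Finset ℕ} (h0 : ∀ p ∈ S, 0 < p)
    (hNS : ∀ p ∈ S, 2 * p ∣ N) {l i : ℕ} (hl : l.Prime) (h5 : 5 ≤ l) (h : xp l S < i) (k j : ℕ)
    (t s : ℤ) : YY S k j (s * tz N l i t) = YY S k j s := by
  rw [mul_comm]
  exact YY_fix hN h0 hNS hl h5 h k j t s

section cmp

variable {V V' : Type} [Fintype V] [DecidableEq V] [Fintype V'] [DecidableEq V'] {D : Dat V}
  {D' : Dat V'} {B N : ℕ}

theorem Cmp.symm (h : Cmp B N D D') : Cmp B N D' D := by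
  obtain ⟨a, b, ha, hb, hm⟩ := h.mass
  exact ⟨h.pos, h.ok', h.ok, h.nice', h.nice, ⟨b, a, hb, ha, fun s hs => (hm s hs).symm⟩,
    fun s hs => (h.zs s hs).symm⟩

/-- a private prime of a node is large -/
theorem Pr.five_le {l : ℕ} {v : V} (h : Pr B D l v) : 5 ≤ l := by
  have h1 : 4 ^ 3 ≤ 4 ^ (B + 3) := Nat.pow_le_pow_right (by norm_num) (by omega)
  have h2 := h.big
  omega

/-- a private prime belongs to a node with leaves -/
theorem Pr.nonempty {l : ℕ} {v : V} (h : Pr B D l v) : (D.S v).Nonempty := by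
  rw [Finset.nonempty_iff_ne_empty]
  intro h0
  have h1 := h.pos
  rw [h0] at h1
  simp [xp] at h1

theorem Pr.unique {l : ℕ} {v w : V} (h : Pr B D l v) (h' : Pr B D l w) : v = w := by
  by_contra hne
  have h1 := h.lt w (Ne.symm hne)
  have h2 := h'.lt v hne
  omega

end cmp

end Pool.Agent.GSG
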