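import Pool.Agent.GSG.Defs
import Pool.Agent.GSP.H2
import Pool.Agent.GPC.K6c

set_option autoImplicit false

open Finset

namespace Pool.Agent.GSG

open Pool.Agent.GSP

open Pool.Agent.OHG Pool.Agent.GPC

section

variable {V : Type} [Fintype V] [DecidableEq V]

private theorem h3_not_on {D : Data V} (h : D.IsGraph) {w z : V} (hz : z ∈ D.nbr w) :
    ¬ D.On w w z := by
  intro h1
  unfold Data.On at h1
  rw [SimpleGraph.dist_self] at h1
  have h2 : D.graph.dist w z = 0 := by omega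
  have h3 := (h.tree.connected.dist_eq_zero_iff).mp h2
  exact (mem_nbr.mp hz).ne h3

private theorem h3_split {D : Data V} (h : D.IsGraph) {v w : V} (hv : v ∈ D.nbr w) :
    (univ.filter fun y => D.On v y w) =
      insert w (((D.nbr w).erase v).biUnion fun z => univ.filter fun y => D.On w y z) := by
  have hw : w ∈ D.nbr v := by
    rw [mem_nbr] at hv ⊢
    exact hv.symm
  ext y
  simp only [mem_filter, mem_univ, true_and, mem_insert, mem_biUnion, mem_erase]
  constructor
  · intro h1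
    by_cases hy : y = w
    · exact Or.inl hy
    · right
      obtain ⟨z, ⟨hz1, hz2⟩, _⟩ := tree_side h hy
      refine ⟨z, ⟨?_, hz1⟩, hz2⟩
      rintro rfl
      rcases edge_side h hv y with ⟨_, h3⟩ | ⟨_, h3⟩
      · exact h3 hz2
      · exact h3 h1
  · rintro (rfl | ⟨z, ⟨hz1, hz2⟩, hz3⟩)
    · unfold Data.On
      rw [SimpleGraph.dist_self]
      omega
    · have hy : y ≠ w := by
        rintro rfl
        exact h3_not_on h hz2 hz3
      obtain ⟨z', ⟨_, _⟩, hu⟩ := tree_side h hy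
      have h4 := hu z ⟨hz2, hz3⟩
      rcases edge_side h hv y with ⟨h5, _⟩ | ⟨h5, _⟩
      · exact h5
      · exact absurd ((hu v ⟨hv, h5⟩).trans h4.symm) (Ne.symm hz1)

private theorem h3_leaf {D : Data V} (h : D.IsGraph) (w : V) :
    D.sgn w * (∏ k ∈ D.leaf w, (k : ℤ)) ≠ 0 := by
  refine mul_ne_zero ?_ ?_
  · rcases h.sign w with h1 | h1 <;> rw [h1] <;> norm_num
  · refine Finset.prod_ne_zero_iff.mpr fun k hk => ?_
    have := h.two_le w k hk
    exact_mod_cast (by omega : k ≠ 0)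


private theorem h3_lt {D : Data V} (h : D.IsGraph) {v w x : V} (hw : w ∈ D.nbr v)
    (hx : x ∈ D.nbr v) (hxw : x ≠ w) :
    (univ.filter fun y => D.On v y x).card < (univ.filter fun y => D.On w y v).card := by
  have hv : w ∈ D.nbr v := hw
  refine Finset.card_lt_card ?_
  rw [h3_split h hv, Finset.ssubset_iff_of_subset]
  · refine ⟨v, mem_insert_self _ _, ?_⟩
    rw [mem_filter]
    exact fun h1 => h3_not_on h hx h1.2
  · intro y hy
    refine mem_insert_of_mem (mem_biUnion.2 ⟨x, mem_erase.2 ⟨hxw, hx⟩, hy⟩)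

private theorem h3_abs_oth {D : Data V} (h : D.IsGraph) (v w : V) :
    |OHG.oth D v w| = (∏ k ∈ D.leaf v, (k : ℤ)) * ∏ x ∈ (D.nbr v).erase w, |D.wt v x| := by
  unfold OHG.oth
  rw [abs_mul, abs_mul, Finset.abs_prod ((D.nbr v).erase w)]
  have h1 : |D.sgn v| = 1 := by
    rcases h.sign v with h1 | h1 <;> rw [h1] <;> norm_num
  have h2 : |∏ k ∈ D.leaf v, (k : ℤ)| = ∏ k ∈ D.leaf v, (k : ℤ) :=
    abs_of_nonneg (Finset.prod_nonneg fun k _ => Int.natCast_nonneg k)
  rw [h1, h2, one_mul]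

private theorem h3_self {D : Data V} (h : D.IsGraph) {v w : V} (hw : w ∈ D.nbr v) :
    D.lk v v = OHG.oth D v w * D.wt v w := by
  rw [lk_self h]
  unfold OHG.oth
  rw [← Finset.prod_erase_mul _ _ hw, ← mul_assoc]

private theorem h3_symm {D : Data V} {v w : V} (hw : w ∈ D.nbr v) : v ∈ D.nbr w := by
  rw [mem_nbr] at hw ⊢
  exact hw.symm

/-- if the weight of an edge vanishes, the other weights of the node are units -/
private theorem h3_one {D : Data V} (h : D.IsGraph) {v w : V} (hw : w ∈ D.nbr v)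
    (h0 : D.wt v w = 0) : |OHG.oth D v w| = 1 := by
  rw [h3_abs_oth h]
  have h1 : D.leaf v = ∅ := by
    rw [Finset.eq_empty_iff_forall_notMem]
    intro k hk
    have h2 := h.coprime_mixed v k hk w hw
    rw [h0, isCoprime_zero_right, Int.isUnit_iff] at h2
    have h3 := h.two_le v k hk
    omega
  rw [h1, prod_empty, one_mul]
  refine prod_eq_one fun x hx => ?_
  rw [mem_erase] at hx
  have h2 := h.coprime_edge v x hx.2 w hw hx.1
  rw [h0, isCoprime_zero_right, Int.isUnit_iff] at h2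
  rcases h2 with h2 | h2 <;> rw [h2] <;> norm_num

/-- if another weight of the node vanishes, the weight of an edge is a unit -/
private theorem h3_unit {D : Data V} (h : D.IsGraph) {v w : V} (hw : w ∈ D.nbr v)
    (h0 : OHG.oth D v w = 0) : |D.wt v w| = 1 := by
  unfold OHG.oth at h0
  have h1 := (mul_eq_zero.1 h0).resolve_left (h3_leaf h v)
  rw [Finset.prod_eq_zero_iff] at h1
  obtain ⟨z, hz, hz0⟩ := h1
  rw [mem_erase] at hz
  have h2 := h.coprime_edge v w hw z hz.2 hz.1.symm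
  rw [hz0, isCoprime_zero_right, Int.isUnit_iff] at h2
  rcases h2 with h2 | h2 <;> rw [h2] <;> norm_num

end

variable {V V' : Type} [Fintype V] [DecidableEq V] [Fintype V'] [DecidableEq V']

private theorem h3_nbr {D : Data V} {D' : Data V'} (f : V ≃ V')
    (hf : ∀ v w, D'.graph.Adj (f v) (f w) ↔ D.graph.Adj v w) (v : V) :
    D'.nbr (f v) = (D.nbr v).map f.toEmbedding := by
  ext x
  rw [mem_nbr, mem_map]
  constructor
  · intro h1
    refine ⟨f.symm x, ?_, by simp⟩
    rw [mem_nbr, ← hf]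
    simpa using h1
  · rintro ⟨y, h1, rfl⟩
    rw [mem_nbr] at h1
    exact (hf v y).2 h1

private theorem h3_oth {D : Data V} {D' : Data V'} (h : D.IsGraph) (h' : D'.IsGraph) (f : V ≃ V')
    (hf : ∀ v w, D'.graph.Adj (f v) (f w) ↔ D.graph.Adj v w)
    (hl : ∀ v, D'.leaf (f v) = D.leaf v) {v w : V}
    (hx : ∀ x ∈ (D.nbr v).erase w, |D'.wt (f v) (f x)| = |D.wt v x|) :
    |OHG.oth D' (f v) (f w)| = |OHG.oth D v w| := by
  rw [h3_abs_oth h, h3_abs_oth h', hl]
  congr 1
  have h1 : (D'.nbr (f v)).erase (f w) = ((D.nbr v).erase w).map f.toEmbedding := by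
    rw [h3_nbr f hf, Finset.map_erase]
    rfl
  rw [h1, prod_map]
  exact prod_congr rfl hx

/-- the weights of the edges are determined up to the signs -/
theorem weightsG {D : Data V} {D' : Data V'} (h : D.IsGraph) (h' : D'.IsGraph) (f : V ≃ V')
    (hf : ∀ v w, D'.graph.Adj (f v) (f w) ↔ D.graph.Adj v w)
    (hl : ∀ v, D'.leaf (f v) = D.leaf v)
    (h1 : ∀ v w, |D'.lk (f v) (f w)| = |D.lk v w|)
    (h2 : ∀ v w, D.graph.Adj v w →
        |D'.wt (f v) (f w) * D'.wt (f w) (f v)| = |D.wt v w * D.wt w v|) :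
    ∀ v w, |D'.wt (f v) (f w)| = |D.wt v w| := by
  have hnb : ∀ {v w : V}, w ∈ D.nbr v → f w ∈ D'.nbr (f v) := by
    intro v w hw
    rw [mem_nbr] at hw ⊢
    exact (hf v w).2 hw
  have main : ∀ n : ℕ, ∀ v w : V, w ∈ D.nbr v → (univ.filter fun y => D.On w y v).card = n →
      |D'.wt (f v) (f w)| = |D.wt v w| ∧ |OHG.oth D' (f v) (f w)| = |OHG.oth D v w| := by
    intro n
    induction n using Nat.strong_induction_on with
    | _ n ih =>
      intro v w hw hn
      have hx : ∀ x ∈ (D.nbr v).erase w, |D'.wt (f v) (f x)| = |D.wt v x| := by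
        intro x hx
        rw [mem_erase] at hx
        have hlt := h3_lt h hw hx.2 hx.1
        rw [hn] at hlt
        obtain ⟨e1, e2⟩ := ih _ hlt x v (h3_symm hx.2) rfl
        have e3 := h2 v x (mem_nbr.1 hx.2)
        rw [abs_mul, abs_mul, e1] at e3
        by_cases h0 : D.wt x v = 0
        · have h0' : D'.wt (f x) (f v) = 0 := by
            rw [h0, abs_zero, abs_eq_zero] at e1
            exact e1
          have e4 := h3_one h (h3_symm hx.2) h0
          have e5 := h3_one h' (hnb (h3_symm hx.2)) h0'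
          have e6 := h1 x v
          rw [OHG.lk_adj h (h3_symm hx.2), OHG.lk_adj h' (hnb (h3_symm hx.2)), abs_mul, abs_mul, e4,
            e5, one_mul, one_mul] at e6
          have e7 := h1 v v
          rw [h3_self h hx.2, h3_self h' (hnb hx.2), abs_mul, abs_mul, e6] at e7
          have e8 : |OHG.oth D v x| ≠ 0 := by
            intro e9
            rw [abs_eq_zero] at e9
            have e10 := h.edge_det v x hx.2
            rw [OHG.lk_adj h hx.2, e9, h0] at e10
            simp at e10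
          exact mul_left_cancel₀ e8 e7
        · exact mul_right_cancel₀ (abs_ne_zero.2 h0) e3
      have ho := h3_oth h h' f hf hl hx
      refine ⟨?_, ho⟩
      have e7 := h1 v v
      rw [h3_self h hw, h3_self h' (hnb hw), abs_mul, abs_mul, ho] at e7
      by_cases h0 : OHG.oth D v w = 0
      · have h0' : OHG.oth D' (f v) (f w) = 0 := by
          rw [h0, abs_zero, abs_eq_zero] at ho
          exact ho
        rw [h3_unit h hw h0, h3_unit h' (hnb hw) h0']
      · exact mul_left_cancel₀ (abs_ne_zero.2 h0) e7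
  intro v w
  by_cases hw : w ∈ D.nbr v
  · exact (main _ v w hw rfl).1
  · rw [h.off v w hw, h'.off (f v) (f w) (fun h3 => hw (by
      rw [mem_nbr] at h3 ⊢
      exact (hf v w).1 h3))]

private theorem h3_pm {a b : ℤ} (ha : a = 1 ∨ a = -1) (hb : b = 1 ∨ b = -1) :
    a * b = 1 ∨ a * b = -1 := by
  rcases ha with rfl | rfl <;> rcases hb with rfl | rfl <;> norm_num

private theorem h3_pmprod {s : Finset V} {g : V → ℤ} (hg : ∀ x, g x = 1 ∨ g x = -1) :
    ∏ x ∈ s, g x = 1 ∨ ∏ x ∈ s, g x = -1 := by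
  classical
  induction s using Finset.induction_on with
  | empty => simp
  | insert a s ha ih =>
    rw [prod_insert ha]
    exact h3_pm (hg a) ih

/-- the choice of the signs at one node -/
private theorem h3_node {D : Data V} {D' : Data V'} (h : D.IsGraph) (h' : D'.IsGraph) (f : V ≃ V')
    (hf : ∀ v w, D'.graph.Adj (f v) (f w) ↔ D.graph.Adj v w)
    (hl : ∀ v, D'.leaf (f v) = D.leaf v) (h1 : ∀ v, D'.lk (f v) (f v) = D.lk v v)
    (h2 : ∀ v w, |D'.wt (f v) (f w)| = |D.wt v w|) (v : V) :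
    ∃ η : V → ℤ, (∀ w, η w = 1 ∨ η w = -1) ∧
      (∀ w, D'.wt (f v) (f w) = η w * D.wt v w) ∧
      D'.sgn (f v) = D.sgn v * ∏ w ∈ D.nbr v, η w := by
  have e0 : ∀ w, ∃ a : ℤ, (a = 1 ∨ a = -1) ∧ D'.wt (f v) (f w) = a * D.wt v w := by
    intro w
    rcases abs_eq_abs.1 (h2 v w) with e | e
    · exact ⟨1, Or.inl rfl, by rw [e, one_mul]⟩
    · exact ⟨-1, Or.inr rfl, by rw [e]; ring⟩
  choose g hg1 hg2 using e0
  have hP := h3_pmprod (s := D.nbr v) hg1
  have hs := h.sign v
  have hs' := h'.sign (f v)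
  have e1 : D.lk v v = D.sgn v * (∏ k ∈ D.leaf v, (k : ℤ)) * ∏ x ∈ D.nbr v, D.wt v x :=
    lk_self h v
  have e2 : D'.lk (f v) (f v) = D'.sgn (f v) * (∏ k ∈ D.leaf v, (k : ℤ)) *
      ((∏ x ∈ D.nbr v, g x) * ∏ x ∈ D.nbr v, D.wt v x) := by
    rw [lk_self h', hl, h3_nbr f hf, prod_map, ← prod_mul_distrib]
    congr 1
    exact prod_congr rfl fun x _ => hg2 x
  rw [h1 v, e1] at e2
  by_cases h0 : ∏ x ∈ D.nbr v, D.wt v x = 0
  · obtain ⟨x, hx, hx0⟩ := Finset.prod_eq_zero_iff.1 h0
    have hc : D'.sgn (f v) * D.sgn v * (∏ w ∈ D.nbr v, g w) = 1 ∨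
        D'.sgn (f v) * D.sgn v * (∏ w ∈ D.nbr v, g w) = -1 := h3_pm (h3_pm hs' hs) hP
    refine ⟨Function.update g x (D'.sgn (f v) * D.sgn v * (∏ w ∈ D.nbr v, g w) * g x), ?_, ?_, ?_⟩
    · intro w
      by_cases hw : w = x
      · subst hw
        rw [Function.update_self]
        exact h3_pm hc (hg1 _)
      · rw [Function.update_of_ne hw]
        exact hg1 w
    · intro w
      by_cases hw : w = x
      · subst hw
        rw [hg2 w, hx0, mul_zero, mul_zero]
      · rw [Function.update_of_ne hw]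
        exact hg2 w
    · have e3 : ∏ w ∈ D.nbr v, Function.update g x
          (D'.sgn (f v) * D.sgn v * (∏ w ∈ D.nbr v, g w) * g x) w =
          (D'.sgn (f v) * D.sgn v * (∏ w ∈ D.nbr v, g w)) * ∏ w ∈ D.nbr v, g w := by
        rw [prod_update_of_mem hx, ← mul_prod_erase _ g hx, ← Finset.erase_eq]
        ring
      rw [e3]
      rcases hs with h5 | h5 <;> rcases hP with h6 | h6 <;> rw [h5, h6] <;> ring
  · refine ⟨g, hg1, hg2, ?_⟩
    have h4 : (∏ k ∈ D.leaf v, (k : ℤ)) ≠ 0 := by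
      intro h5
      exact h3_leaf h v (by rw [h5, mul_zero])
    have h5 : D.sgn v = D'.sgn (f v) * ∏ x ∈ D.nbr v, g x := by
      refine mul_right_cancel₀ h4 (mul_right_cancel₀ h0 ?_)
      rw [e2]
      ring
    rw [h5]
    rcases hP with h6 | h6 <;> rw [h6] <;> ring

/-- the choice of the signs -/
theorem choose_signsG {D : Data V} {D' : Data V'} (h : D.IsGraph) (h' : D'.IsGraph) (f : V ≃ V')
    (hf : ∀ v w, D'.graph.Adj (f v) (f w) ↔ D.graph.Adj v w)
    (hl : ∀ v, D'.leaf (f v) = D.leaf v) (h1 : ∀ v, D'.lk (f v) (f v) = D.lk v v)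
    (h2 : ∀ v w, |D'.wt (f v) (f w)| = |D.wt v w|) :
    ∃ η : V → V → ℤ, (∀ v w, η v w = 1 ∨ η v w = -1) ∧
      (∀ v w, D'.wt (f v) (f w) = η v w * D.wt v w) ∧
      ∀ v, D'.sgn (f v) = D.sgn v * ∏ w ∈ D.nbr v, η v w := by
  choose η h3 h4 h5 using fun v => h3_node h h' f hf hl h1 h2 v
  exact ⟨η, h3, h4, h5⟩

end Pool.Agent.GSG
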