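import Mathlib

/-!
PROOFS (module K1). `thue`: pigeonhole for the pairs `(x, y)` with `0 ≤ x, y ≤ r`, `r = Nat.sqrt l` (`(r + 1)² > l`),
and the map `(x, y) ↦ x c' - y c` modulo `l`: two different pairs with the same value give `(x, y) ≠ 0`,
`|x|, |y| ≤ r`, `l ∣ x c' - y c`. Neither `x` nor `y` is `0` (else `l` divides the other, which has absolute
value `≤ r < l`). Divide by the gcd `d` (`d < l` is prime to `l`), and change the signs so that `x > 0`:
`m = x / d`, `m' = y / d`, coprime, `l ∣ m c' - m' c`. Let `n` satisfy `n c ≡ m` modulo `l` (`c` is invertible,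
`n` is prime to `l` because `m` is); then `n c' c ≡ m c' ≡ m' c`, so `n c' ≡ m'`.
`two_pow_ratio`: `m * 2 ^ (a - a') = m'` after cancelling `2 ^ a'`, so `m ∣ m'`, `m = 1`.
-/

set_option autoImplicit false

open Finset

namespace Pool.Agent.GSG

private lemma K1_coprime {l : ℕ} (hl : l.Prime) {x : ℤ} (hx : x ≠ 0) (h : |x| < l) :
    IsCoprime x (l : ℤ) := by
  have hp : Prime (l : ℤ) := Nat.prime_iff_prime_int.mp hl
  rw [isCoprime_comm, hp.irreducible.coprime_iff_not_dvd]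
  intro hd
  exact hx (Int.eq_zero_of_abs_lt_dvd hd h)

/-- Thue's lemma for two slopes -/
theorem thue {l : ℕ} (hl : l.Prime) {c c' : ℤ} (hc : IsCoprime c (l : ℤ))
    (hc' : IsCoprime c' (l : ℤ)) :
    ∃ n m m' : ℤ, IsCoprime n (l : ℤ) ∧ 0 < m ∧ m' ≠ 0 ∧ IsCoprime m m' ∧ m ^ 2 ≤ l ∧
      m' ^ 2 ≤ l ∧ (l : ℤ) ∣ n * c - m ∧ (l : ℤ) ∣ n * c' - m' := by
  have : NeZero l := ⟨hl.ne_zero⟩
  have hp : Prime (l : ℤ) := Nat.prime_iff_prime_int.mp hl
  set r := Nat.sqrt l with hr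
  have hrl : r < l := Nat.sqrt_lt_self hl.one_lt
  have hr2 : r * r ≤ l := Nat.sqrt_le l
  have hr3 : l < (r + 1) * (r + 1) := Nat.lt_succ_sqrt l
  obtain ⟨u, v, huv, he⟩ := Fintype.exists_ne_map_eq_of_card_lt
    (fun q : Fin (r + 1) × Fin (r + 1) =>
      ((q.1 : ℕ) : ZMod l) * (c' : ZMod l) - ((q.2 : ℕ) : ZMod l) * (c : ZMod l)) (by
      rw [ZMod.card, Fintype.card_prod, Fintype.card_fin]
      exact hr3)
  set X : ℤ := ((u.1 : ℕ) : ℤ) - ((v.1 : ℕ) : ℤ) with hX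
  set Y : ℤ := ((u.2 : ℕ) : ℤ) - ((v.2 : ℕ) : ℤ) with hY
  have hdvd : (l : ℤ) ∣ X * c' - Y * c := by
    rw [← ZMod.intCast_zmod_eq_zero_iff_dvd]
    push_cast [hX, hY]
    linear_combination he
  have hXr : |X| ≤ r := by
    have h1 := u.1.2
    have h2 := v.1.2
    rw [abs_le]
    omega
  have hYr : |Y| ≤ r := by
    have h1 := u.2.2
    have h2 := v.2.2
    rw [abs_le]
    omega
  have hXY : X ≠ 0 ∨ Y ≠ 0 := by
    by_contra h
    push Not at h
    apply huv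
    refine Prod.ext (Fin.ext ?_) (Fin.ext ?_)
    · have := h.1
      omega
    · have := h.2
      omega
  have hrl' : (r : ℤ) < l := by exact_mod_cast hrl
  have hX0 : X ≠ 0 := by
    intro h0
    rw [h0, zero_mul, zero_sub, dvd_neg] at hdvd
    have h1 : (l : ℤ) ∣ Y := hc.symm.dvd_of_dvd_mul_right hdvd
    have h2 : Y = 0 := Int.eq_zero_of_abs_lt_dvd h1 (lt_of_le_of_lt hYr hrl')
    rcases hXY with h | h
    · exact h h0
    · exact h h2
  have hY0 : Y ≠ 0 := by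
    intro h0
    rw [h0, zero_mul, sub_zero] at hdvd
    have h1 : (l : ℤ) ∣ X := hc'.symm.dvd_of_dvd_mul_right hdvd
    exact hX0 (Int.eq_zero_of_abs_lt_dvd h1 (lt_of_le_of_lt hXr hrl'))
  -- divide by the gcd
  have hd0 : 0 < Int.gcd X Y := Int.gcd_pos_of_ne_zero_left _ hX0
  obtain ⟨X', Y', hco, hX', hY'⟩ : ∃ X' Y' : ℤ, IsCoprime X' Y' ∧ X = X' * (Int.gcd X Y : ℤ) ∧
      Y = Y' * (Int.gcd X Y : ℤ) := by
    obtain ⟨X', Y', h1, h2, h3⟩ := Int.exists_gcd_one hd0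
    exact ⟨X', Y', Int.isCoprime_iff_gcd_eq_one.2 h1, h2, h3⟩
  set d : ℤ := (Int.gcd X Y : ℤ) with hd
  have hd1 : 1 ≤ d := by rw [hd]; exact_mod_cast hd0
  have hdX : |d| < l := by
    have h1 : d ∣ X := ⟨X', by rw [hX']; ring⟩
    have h2 : |d| ≤ |X| := by
      have h3 := Int.le_of_dvd (abs_pos.2 hX0) ((dvd_abs _ _).2 h1)
      rwa [abs_of_nonneg (by omega : (0 : ℤ) ≤ d)]
    omega
  have hdl : IsCoprime d (l : ℤ) := K1_coprime hl (by omega) hdX
  have hdvd' : (l : ℤ) ∣ X' * c' - Y' * c := by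
    have h1 : (l : ℤ) ∣ d * (X' * c' - Y' * c) := by
      have h2 : d * (X' * c' - Y' * c) = X * c' - Y * c := by
        rw [hX', hY']
        ring
      rw [h2]
      exact hdvd
    exact hdl.symm.dvd_of_dvd_mul_left h1
  have hX'0 : X' ≠ 0 := by
    rintro rfl
    exact hX0 (by rw [hX', zero_mul])
  have hY'0 : Y' ≠ 0 := by
    rintro rfl
    exact hY0 (by rw [hY', zero_mul])
  have hX'r : |X'| ≤ r := by
    have h1 : |X| = |X'| * d := by
      rw [hX', abs_mul, abs_of_nonneg (by omega : (0 : ℤ) ≤ d)]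
    nlinarith [abs_nonneg X']
  have hY'r : |Y'| ≤ r := by
    have h1 : |Y| = |Y'| * d := by
      rw [hY', abs_mul, abs_of_nonneg (by omega : (0 : ℤ) ≤ d)]
    nlinarith [abs_nonneg Y']
  -- make the first number positive
  obtain ⟨m, m', hm, hm', hmm, hml, hm'l, hdm⟩ : ∃ m m' : ℤ, 0 < m ∧ m' ≠ 0 ∧
      IsCoprime m m' ∧ |m| ≤ r ∧ |m'| ≤ r ∧ (l : ℤ) ∣ m * c' - m' * c := by
    rcases lt_or_gt_of_ne hX'0 with h | h
    · refine ⟨-X', -Y', by omega, by omega, hco.neg_neg, by rwa [abs_neg], by rwa [abs_neg], ?_⟩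
      have h1 : -X' * c' - -Y' * c = -(X' * c' - Y' * c) := by ring
      rw [h1, dvd_neg]
      exact hdvd'
    · exact ⟨X', Y', h, hY'0, hco, hX'r, hY'r, hdvd'⟩
  obtain ⟨a, b, hab⟩ := hc
  have hr2' : (r : ℤ) * r ≤ l := by exact_mod_cast hr2
  have hcl : IsCoprime c (l : ℤ) := ⟨a, b, hab⟩
  have hn1 : (l : ℤ) ∣ a * m * c - m := ⟨-(b * m), by linear_combination m * hab⟩
  have hn2 : (l : ℤ) ∣ a * m * c' - m' := by
    have h1 : (l : ℤ) ∣ c * (a * m * c' - m') := by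
      have h2 : c * (a * m * c' - m') = (a * m * c - m) * c' + (m * c' - m' * c) := by ring
      rw [h2]
      exact dvd_add (Dvd.dvd.mul_right hn1 _) hdm
    exact hcl.symm.dvd_of_dvd_mul_left h1
  refine ⟨a * m, m, m', ?_, hm, hm', hmm, ?_, ?_, hn1, hn2⟩
  · rw [isCoprime_comm, hp.irreducible.coprime_iff_not_dvd]
    intro hd
    have h1 : (l : ℤ) ∣ m := by
      have h2 := dvd_sub (Dvd.dvd.mul_right hd c) hn1
      have h3 : a * m * c - (a * m * c - m) = m := by ring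
      rwa [h3] at h2
    exact hm.ne' (Int.eq_zero_of_abs_lt_dvd h1 (lt_of_le_of_lt hml hrl'))
  · rw [← sq_abs]
    nlinarith [abs_nonneg m]
  · rw [← sq_abs]
    nlinarith [abs_nonneg m']

/-- two coprime numbers whose ratio is a power of two -/
theorem two_pow_ratio {m m' a a' : ℕ} (hm : 0 < m) (hm' : 0 < m') (hc : Nat.Coprime m m')
    (h : m * 2 ^ a = m' * 2 ^ a') (ha : a' ≤ a) : m = 1 ∧ m' = 2 ^ (a - a') := by
  obtain ⟨b, rfl⟩ := Nat.exists_eq_add_of_le ha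
  have h1 : m * 2 ^ b = m' := by
    have h2 : m * 2 ^ b * 2 ^ a' = m' * 2 ^ a' := by
      rw [← h, pow_add]
      ring
    exact Nat.eq_of_mul_eq_mul_right (by positivity) h2
  have h3 : m ∣ m' := ⟨2 ^ b, h1.symm⟩
  have h4 : m = 1 := Nat.eq_one_of_dvd_coprimes hc dvd_rfl h3
  refine ⟨h4, ?_⟩
  rw [← h1, h4, one_mul, Nat.add_sub_cancel_left]

end Pool.Agent.GSG
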