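import Pool.Agent.GSG.R3

/-!
PROOFS (module K2). `sum_two`: for `p ∈ S` let `c_p = [p ∈ U] + [p ∈ U'] ∈ {0, 1, 2}`; then `∑ p ∈ S, c_p / p = n`;
multiply by `∏ q ∈ S, q`: `p ∣ c_p ∏_{q ≠ p} q`, so `p ∣ c_p` by coprimality, i.e. `c_p = 0`, or `c_p = 2` and `p = 2`.
`translate`: `al S S + δ - al S T₁ = n₁` for some `T₁ ∋ q` (take `T = S`), and `al S S - al S T₁ = ∑ p ∈ S \ T₁, 1 / p`:
`δ = n₁ - ∑ p ∈ S \ T₁, 1 / p`. Take `T = {q}`: `δ = n₂ + ∑ p ∈ T₂.erase q, 1 / p`. So the sum of the two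
sums is an integer; by `sum_two`, `U = S \ T₁ = U' = T₂.erase q ⊆ {2}`: `U = ∅` and `δ = n₂`, or `U = {2}`,
`2 ∈ S.erase q` and `δ = n₂ + 1 / 2`.
`decode_one`: (1) `S.erase q ⊆ S'.erase q'`: let `p ∈ S.erase q`; apply `h` to `S` and to `S.erase p`:
`1 / p = al S S - al S (S.erase p)` is congruent modulo `1` to `ε (al S' T₁ - al S' T₂)
= ε (∑ p' ∈ T₁ \ T₂, 1 / p' - ∑ p' ∈ T₂ \ T₁, 1 / p')`, `T₁, T₂ ∋ q'`. Let `U` be the symmetric difference, `q' ∉ U`;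
`1 / p ≡ ∑ p' ∈ U, ± 1 / p'` modulo `1` with pairwise coprime `p'` implies `p = ∏ p' ∈ U, p'` (multiply by `∏ U`:
`p ∣ ∏ U`; multiply by `p`: each `p' ∣ p ∏_{others}`, so `p' ∣ p`, and then `∏ U ∣ p`). As `p ≥ 2`, there is
`p' ∈ U`, `p' ∣ p`. By symmetry (hypothesis `h'`, `ε² = 1`) `p' = ∏ U''` with `U'' ⊆ S.erase q`, so there is
`p'' ∈ S.erase q` with `p'' ∣ p' ∣ p`; `p''`, `p ∈ S` are coprime or equal and `p'' ≥ 2`: `p'' = p`, so
`p = p' ∈ S'.erase q'`. (2) In the same way the other inclusion: `R := S.erase q = S'.erase q'`. (3) `h` for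
`T = S` gives `1 / (2 q) + (∑ R) / 2 - ε / (2 q') - ε (± sum over R) / 2 ∈ ℤ`; so
`δ := 1 / (2 q) - ε / (2 q')` is `≡ - ∑ U, 1 / p` for some `U ⊆ R` (the `p ∈ R` with a sign `-` after
multiplication with `ε`), and `T = {q}` gives `δ ≡ ∑ U', 1 / p`, `U' ⊆ R`. By `sum_two` `δ ≡ 0` or
`δ ≡ 1 / 2`; as `|δ| ≤ 1 / 3`, `δ = 0`, so `ε = 1` and `q = q'`.
-/

set_option autoImplicit false

open Finset

namespace Pool.Agent.GSG

open Pool.Agent.GSP

/-- an integer after multiplication by the product -/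
private theorem K2_int (U : Finset ℕ) (h0 : ∀ q ∈ U, q ≠ 0) (c : ℕ → ℤ) :
    ∃ m : ℤ, (∏ q ∈ U, (q : ℚ)) * ∑ q ∈ U, (c q : ℚ) / q = m := by
  classical
  refine ⟨∑ q ∈ U, c q * ∏ r ∈ U.erase q, (r : ℤ), ?_⟩
  rw [Finset.mul_sum]
  push_cast
  refine Finset.sum_congr rfl fun q hq => ?_
  have hq0 : (q : ℚ) ≠ 0 := by exact_mod_cast h0 q hq
  rw [← Finset.mul_prod_erase U (fun r => (r : ℚ)) hq]
  field_simp

/-- the numerators of an integral sum of fractions with coprime denominators -/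
private theorem K2_dvd {S : Finset ℕ} (h0 : ∀ p ∈ S, p ≠ 0)
    (hc : ∀ p ∈ S, ∀ q ∈ S, p ≠ q → Nat.Coprime p q) (c : ℕ → ℤ) {n : ℤ}
    (h : ∑ p ∈ S, (c p : ℚ) / p = n) {p : ℕ} (hp : p ∈ S) : (p : ℤ) ∣ c p := by
  classical
  obtain ⟨m, hm⟩ := K2_int (S.erase p) (fun q hq => h0 q (Finset.mem_of_mem_erase hq)) c
  have hp0 : (p : ℚ) ≠ 0 := by exact_mod_cast h0 p hp
  rw [← Finset.add_sum_erase S _ hp] at h
  obtain ⟨Q, hQ⟩ : ∃ Q : ℤ, Q = ∏ q ∈ S.erase p, (q : ℤ) := ⟨_, rfl⟩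
  have hQq : (Q : ℚ) = ∏ q ∈ S.erase p, (q : ℚ) := by
    rw [hQ]
    push_cast
    rfl
  rw [← hQq] at hm
  have h1 : (Q : ℚ) * (c p : ℚ) = ((Q * n - m : ℤ) : ℚ) * (p : ℚ) := by
    push_cast
    have h2 : (c p : ℚ) = (n - ∑ q ∈ S.erase p, (c q : ℚ) / q) * p := by
      have h3 : (c p : ℚ) / p = n - ∑ q ∈ S.erase p, (c q : ℚ) / q := by linarith
      rw [← h3]
      field_simp
    rw [h2]
    linear_combination (-(p : ℚ)) * hm
  have h3 : Q * c p = (Q * n - m) * p := by exact_mod_cast h1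
  have h4 : IsCoprime (p : ℤ) Q := by
    rw [hQ]
    refine IsCoprime.prod_right fun q hq => ?_
    rw [Nat.isCoprime_iff_coprime]
    exact hc p hp q (Finset.mem_of_mem_erase hq) (Finset.ne_of_mem_erase hq).symm
  exact h4.dvd_of_dvd_mul_left ⟨Q * n - m, by rw [h3]; ring⟩

/-- two subsets of the leaves whose inverses add up to an integer -/
theorem sum_two {S : Finset ℕ} (h2 : ∀ p ∈ S, 2 ≤ p)
    (hc : ∀ p ∈ S, ∀ q ∈ S, p ≠ q → Nat.Coprime p q) {U U' : Finset ℕ} (hU : U ⊆ S) (hU' : U' ⊆ S)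
    {n : ℤ} (h : ∑ p ∈ U, (1 : ℚ) / p + ∑ p ∈ U', (1 : ℚ) / p = n) : U = U' ∧ U ⊆ {2} := by
  classical
  obtain ⟨c, hcd⟩ : ∃ c : ℕ → ℤ, c = fun p =>
    (if p ∈ U then 1 else 0) + (if p ∈ U' then 1 else 0) := ⟨_, rfl⟩
  have h1 : ∑ p ∈ S, (c p : ℚ) / p = n := by
    rw [← h]
    have e1 : ∀ p ∈ S, (c p : ℚ) / p =
        (if p ∈ U then (1 : ℚ) / p else 0) + (if p ∈ U' then (1 : ℚ) / p else 0) := by
      intro p _
      rw [hcd]
      dsimp only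
      split_ifs <;> push_cast <;> ring
    rw [Finset.sum_congr rfl e1, Finset.sum_add_distrib, ← Finset.sum_filter,
      ← Finset.sum_filter, Finset.filter_mem_eq_inter, Finset.filter_mem_eq_inter,
      Finset.inter_eq_right.2 hU, Finset.inter_eq_right.2 hU']
  have key : ∀ p ∈ S, (p ∈ U ↔ p ∈ U') ∧ (p ∈ U → p = 2) := by
    intro p hp
    have h3 : (p : ℤ) ∣ c p := K2_dvd (fun p hp => by have := h2 p hp; omega) hc c h1 hp
    have h4 := h2 p hp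
    rw [hcd] at h3
    dsimp only at h3
    by_cases a : p ∈ U
    · by_cases b : p ∈ U'
      · rw [if_pos a, if_pos b] at h3
        have h5 := Int.le_of_dvd (by norm_num) h3
        exact ⟨⟨fun _ => b, fun _ => a⟩, fun _ => by omega⟩
      · exfalso
        rw [if_pos a, if_neg b] at h3
        have h5 := Int.le_of_dvd (by norm_num) h3
        omega
    · by_cases b : p ∈ U'
      · exfalso
        rw [if_neg a, if_pos b] at h3
        have h5 := Int.le_of_dvd (by norm_num) h3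
        omega
      · exact ⟨⟨fun h => absurd h a, fun h => absurd h b⟩, fun h => absurd h a⟩
  refine ⟨?_, ?_⟩
  · ext p
    exact ⟨fun hp => (key p (hU hp)).1.1 hp, fun hp => (key p (hU' hp)).1.2 hp⟩
  · intro p hp
    exact Finset.mem_singleton.2 ((key p (hU hp)).2 hp)

/-- `α_T` in terms of the complement of `T` -/
private theorem K2_al {S T : Finset ℕ} (hT : T ⊆ S) :
    al S T = (∑ p ∈ S, (1 : ℚ) / p) / 2 - ∑ p ∈ S \ T, (1 : ℚ) / p := by
  unfold al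
  have := Finset.sum_sdiff (f := fun p : ℕ => (1 : ℚ) / p) hT
  linarith

private theorem K2_core {R : Finset ℕ} (h2 : ∀ p ∈ R, 2 ≤ p)
    (hc : ∀ p ∈ R, ∀ q ∈ R, p ≠ q → Nat.Coprime p q) {δ : ℚ}
    (h : ∀ A ⊆ R, ∃ A' ⊆ R, ∃ n : ℤ,
      δ - ∑ p ∈ A, (1 : ℚ) / p + ∑ p ∈ A', (1 : ℚ) / p = n) :
    (∃ n : ℤ, δ = n) ∨ (2 ∈ R ∧ ∃ n : ℤ, δ - 1 / 2 = n) := by
  classical
  obtain ⟨A', hA', n₁, h₁⟩ := h ∅ (Finset.empty_subset _)
  obtain ⟨A'', hA'', n₂, h₂⟩ := h R Finset.Subset.rfl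
  rw [Finset.sum_empty, sub_zero] at h₁
  have e := Finset.sum_sdiff (f := fun p : ℕ => (1 : ℚ) / p) hA''
  have h3 : ∑ p ∈ A', (1 : ℚ) / p + ∑ p ∈ R \ A'', (1 : ℚ) / p = ((n₁ - n₂ : ℤ) : ℚ) := by
    push_cast
    linarith
  obtain ⟨-, h5⟩ := sum_two h2 hc hA' Finset.sdiff_subset h3
  rcases Finset.subset_singleton_iff.1 h5 with h6 | h6
  · left
    refine ⟨n₁, ?_⟩
    rw [h6, Finset.sum_empty, add_zero] at h₁
    exact h₁
  · right
    refine ⟨hA' (by rw [h6]; exact Finset.mem_singleton_self 2), n₁ - 1, ?_⟩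
    rw [h6, Finset.sum_singleton] at h₁
    push_cast at h₁ ⊢
    linarith

/-- the translations of the set of the numbers `α_T` -/
theorem translate {S : Finset ℕ} {k : ℕ} (hS : LeafG S k) {q : ℕ} (hq : q ∈ S) {δ : ℚ}
    (h : ∀ T ∈ S.powerset, q ∈ T → ∃ T' ∈ S.powerset, q ∈ T' ∧
      ∃ n : ℤ, al S T + δ - al S T' = n) :
    (∃ n : ℤ, δ = n) ∨ (2 ∈ S.erase q ∧ ∃ n : ℤ, δ - 1 / 2 = n) := by
  classical
  refine K2_core (R := S.erase q) (fun p hp => hS.two_le p (Finset.mem_of_mem_erase hp))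
    (fun p hp r hr => hS.coprime p (Finset.mem_of_mem_erase hp) r (Finset.mem_of_mem_erase hr)) ?_
  intro A hA
  have hAS : A ⊆ S := hA.trans (Finset.erase_subset _ _)
  have hqA : q ∉ A := fun h => Finset.notMem_erase q S (hA h)
  obtain ⟨T', hT', hqT', n, hn⟩ := h (S \ A) (Finset.mem_powerset.2 Finset.sdiff_subset)
    (Finset.mem_sdiff.2 ⟨hq, hqA⟩)
  rw [Finset.mem_powerset] at hT'
  refine ⟨S \ T', fun x hx => ?_, n, ?_⟩
  · rw [Finset.mem_sdiff] at hx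
    exact Finset.mem_erase.2 ⟨fun e => hx.2 (e ▸ hqT'), hx.1⟩
  · rw [← hn, K2_al (S := S) (T := S \ A) Finset.sdiff_subset, K2_al hT',
      Finset.sdiff_sdiff_eq_self hAS]
    ring

private theorem K2_half {R R' : Finset ℕ} (h2 : ∀ p ∈ R, 2 ≤ p) (h2' : ∀ p ∈ R', 2 ≤ p)
    (hc' : ∀ p ∈ R', ∀ q ∈ R', p ≠ q → Nat.Coprime p q) {κ : ℚ} {ε : ℤ} (hε : ε = 1 ∨ ε = -1)
    (h : ∀ A ⊆ R, ∃ A' ⊆ R', ∃ n : ℤ,
      κ - ∑ p ∈ A, (1 : ℚ) / p + ε * ∑ p ∈ A', (1 : ℚ) / p = n) :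
    ∀ p ∈ R, ∃ p' ∈ R', p' ∣ p := by
  classical
  intro p hp
  obtain ⟨A₀, hA₀, n₀, h₀⟩ := h ∅ (Finset.empty_subset _)
  obtain ⟨A₁, hA₁, n₁, h₁⟩ := h {p} (Finset.singleton_subset_iff.2 hp)
  rw [Finset.sum_empty, sub_zero] at h₀
  rw [Finset.sum_singleton] at h₁
  have hp2 := h2 p hp
  have hp0 : (p : ℚ) ≠ 0 := by
    have : p ≠ 0 := by omega
    exact_mod_cast this
  by_contra hno
  push Not at hno
  obtain ⟨c, hcd⟩ : ∃ c : ℕ → ℤ, c = fun x =>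
    ε * p * ((if x ∈ A₀ then 1 else 0) - (if x ∈ A₁ then 1 else 0)) := ⟨_, rfl⟩
  have h3 : ∑ x ∈ R', (c x : ℚ) / x = ((p * (n₀ - n₁) - 1 : ℤ) : ℚ) := by
    have e1 : ∀ x ∈ R', (c x : ℚ) / x = (ε * p : ℚ) *
        ((if x ∈ A₀ then (1 : ℚ) / x else 0) - (if x ∈ A₁ then (1 : ℚ) / x else 0)) := by
      intro x _
      rw [hcd]
      dsimp only
      split_ifs <;> push_cast <;> ring
    rw [Finset.sum_congr rfl e1, ← Finset.mul_sum, Finset.sum_sub_distrib, ← Finset.sum_filter,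
      ← Finset.sum_filter, Finset.filter_mem_eq_inter, Finset.filter_mem_eq_inter,
      Finset.inter_eq_right.2 hA₀, Finset.inter_eq_right.2 hA₁]
    push_cast
    have e2 : (1 : ℚ) / p * p = 1 := by field_simp
    linear_combination (p : ℚ) * h₀ - (p : ℚ) * h₁ - e2
  have key : ∀ x ∈ R', (x ∈ A₀ ↔ x ∈ A₁) := by
    intro x hx
    have h4 : (x : ℤ) ∣ c x := K2_dvd (fun p hp => by have := h2' p hp; omega) hc' c h3 hx
    rw [hcd] at h4
    dsimp only at h4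
    have h5 : ¬ (x : ℤ) ∣ (p : ℤ) := fun hd => hno x hx (Int.natCast_dvd_natCast.1 hd)
    by_cases a : x ∈ A₀ <;> by_cases b : x ∈ A₁
    · exact ⟨fun _ => b, fun _ => a⟩
    · exfalso
      rw [if_pos a, if_neg b] at h4
      rcases hε with rfl | rfl
      · exact h5 (by simpa using h4)
      · exact h5 (by simpa using h4)
    · exfalso
      rw [if_neg a, if_pos b] at h4
      rcases hε with rfl | rfl
      · exact h5 (by simpa using h4)
      · exact h5 (by simpa using h4)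
    · exact ⟨fun h => absurd h a, fun h => absurd h b⟩
  have h6 : A₀ = A₁ := by
    ext x
    exact ⟨fun hx => (key x (hA₀ hx)).1 hx, fun hx => (key x (hA₁ hx)).2 hx⟩
  rw [h6] at h₀
  have h7 : (1 : ℚ) = ((p * (n₀ - n₁) : ℤ) : ℚ) := by
    push_cast
    have e2 : (1 : ℚ) / p * p = 1 := by field_simp
    linear_combination (p : ℚ) * h₀ - (p : ℚ) * h₁ - e2
  have h8 : (1 : ℤ) = p * (n₀ - n₁) := by exact_mod_cast h7
  have h9 : (p : ℤ) ∣ 1 := ⟨_, h8⟩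
  have h10 := Int.le_of_dvd (by norm_num) h9
  omega

/-- the leaves are determined by the numbers `α_T` modulo `1` -/
theorem decode_one {S S' : Finset ℕ} {k k' : ℕ} (hS : LeafG S k) (hS' : LeafG S' k') {q q' : ℕ}
    (hq : q ∈ S) (hq' : q' ∈ S') (h3 : 3 ≤ q) (h3' : 3 ≤ q') {ε : ℤ} (hε : ε = 1 ∨ ε = -1)
    (h : ∀ T ∈ S.powerset, q ∈ T → ∃ T' ∈ S'.powerset, q' ∈ T' ∧
      ∃ n : ℤ, al S T - ε * al S' T' = n)
    (h' : ∀ T' ∈ S'.powerset, q' ∈ T' → ∃ T ∈ S.powerset, q ∈ T ∧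
      ∃ n : ℤ, al S T - ε * al S' T' = n) : S = S' := by
  classical
  have hε2 : (ε : ℚ) * ε = 1 := by rcases hε with rfl | rfl <;> norm_num
  obtain ⟨R, hR⟩ : ∃ R : Finset ℕ, R = S.erase q := ⟨_, rfl⟩
  obtain ⟨R', hR'⟩ : ∃ R' : Finset ℕ, R' = S'.erase q' := ⟨_, rfl⟩
  have hRS : R ⊆ S := by rw [hR]; exact Finset.erase_subset _ _
  have hRS' : R' ⊆ S' := by rw [hR']; exact Finset.erase_subset _ _
  have hqR : q ∉ R := by rw [hR]; exact Finset.notMem_erase q S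
  have hqR' : q' ∉ R' := by rw [hR']; exact Finset.notMem_erase q' S'
  have h2R : ∀ p ∈ R, 2 ≤ p := fun p hp => hS.two_le p (hRS hp)
  have h2R' : ∀ p ∈ R', 2 ≤ p := fun p hp => hS'.two_le p (hRS' hp)
  have hcR : ∀ p ∈ R, ∀ r ∈ R, p ≠ r → Nat.Coprime p r :=
    fun p hp r hr => hS.coprime p (hRS hp) r (hRS hr)
  have hcR' : ∀ p ∈ R', ∀ r ∈ R', p ≠ r → Nat.Coprime p r :=
    fun p hp r hr => hS'.coprime p (hRS' hp) r (hRS' hr)
  obtain ⟨κ, hκ⟩ : ∃ κ : ℚ, κ = (∑ p ∈ S, (1 : ℚ) / p) / 2 -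
    ε * ((∑ p ∈ S', (1 : ℚ) / p) / 2) := ⟨_, rfl⟩
  have g : ∀ A ⊆ R, ∃ A' ⊆ R', ∃ n : ℤ,
      κ - ∑ p ∈ A, (1 : ℚ) / p + ε * ∑ p ∈ A', (1 : ℚ) / p = n := by
    intro A hA
    have hAS : A ⊆ S := hA.trans hRS
    have hqA : q ∉ A := fun h => hqR (hA h)
    obtain ⟨T', hT', hqT', n, hn⟩ := h (S \ A) (Finset.mem_powerset.2 Finset.sdiff_subset)
      (Finset.mem_sdiff.2 ⟨hq, hqA⟩)
    rw [Finset.mem_powerset] at hT'
    refine ⟨S' \ T', fun x hx => ?_, n, ?_⟩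
    · rw [Finset.mem_sdiff] at hx
      rw [hR']
      exact Finset.mem_erase.2 ⟨fun e => hx.2 (e ▸ hqT'), hx.1⟩
    · rw [← hn, K2_al (S := S) (T := S \ A) Finset.sdiff_subset, K2_al hT',
        Finset.sdiff_sdiff_eq_self hAS, hκ]
      ring
  have g' : ∀ A' ⊆ R', ∃ A ⊆ R, ∃ n : ℤ,
      -(ε : ℚ) * κ - ∑ p ∈ A', (1 : ℚ) / p + ε * ∑ p ∈ A, (1 : ℚ) / p = n := by
    intro A' hA'
    have hAS : A' ⊆ S' := hA'.trans hRS'
    have hqA : q' ∉ A' := fun h => hqR' (hA' h)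
    obtain ⟨T, hT, hqT, n, hn⟩ := h' (S' \ A') (Finset.mem_powerset.2 Finset.sdiff_subset)
      (Finset.mem_sdiff.2 ⟨hq', hqA⟩)
    rw [Finset.mem_powerset] at hT
    refine ⟨S \ T, fun x hx => ?_, -ε * n, ?_⟩
    · rw [Finset.mem_sdiff] at hx
      rw [hR]
      exact Finset.mem_erase.2 ⟨fun e => hx.2 (e ▸ hqT), hx.1⟩
    · push_cast
      rw [← hn, K2_al (S := S') (T := S' \ A') Finset.sdiff_subset, K2_al hT,
        Finset.sdiff_sdiff_eq_self hAS, hκ]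
      linear_combination (∑ p ∈ A', (1 : ℚ) / p) * hε2
  have sub1 : ∀ p ∈ R, p ∈ R' := by
    intro p hp
    obtain ⟨p', hp', hd⟩ := K2_half h2R h2R' hcR' hε g p hp
    obtain ⟨p'', hp'', hd'⟩ := K2_half h2R' h2R hcR hε g' p' hp'
    have e : p'' = p := by
      by_contra hne
      have hco := hcR p'' hp'' p hp hne
      have h1 := Nat.Coprime.eq_one_of_dvd hco (hd'.trans hd)
      have h2 := h2R p'' hp''
      omega
    rw [e] at hd'
    rw [Nat.dvd_antisymm hd' hd]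
    exact hp'
  have sub2 : ∀ p ∈ R', p ∈ R := by
    intro p hp
    obtain ⟨p', hp', hd⟩ := K2_half h2R' h2R hcR hε g' p hp
    obtain ⟨p'', hp'', hd'⟩ := K2_half h2R h2R' hcR' hε g p' hp'
    have e : p'' = p := by
      by_contra hne
      have hco := hcR' p'' hp'' p hp hne
      have h1 := Nat.Coprime.eq_one_of_dvd hco (hd'.trans hd)
      have h2 := h2R' p'' hp''
      omega
    rw [e] at hd'
    rw [Nat.dvd_antisymm hd' hd]
    exact hp'
  have hRR : R' = R := by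
    ext p
    exact ⟨sub2 p, sub1 p⟩
  have hσ : ∑ p ∈ S, (1 : ℚ) / p = 1 / q + ∑ p ∈ R, (1 : ℚ) / p := by
    rw [hR]
    exact (Finset.add_sum_erase S (fun p : ℕ => (1 : ℚ) / p) hq).symm
  have hσ' : ∑ p ∈ S', (1 : ℚ) / p = 1 / q' + ∑ p ∈ R, (1 : ℚ) / p := by
    rw [← hRR, hR']
    exact (Finset.add_sum_erase S' (fun p : ℕ => (1 : ℚ) / p) hq').symm
  obtain ⟨δ, hδ⟩ : ∃ δ : ℚ, δ = 1 / q / 2 - ε * (1 / q' / 2) := ⟨_, rfl⟩
  have hcore : (∃ n : ℤ, δ = n) ∨ (2 ∈ R ∧ ∃ n : ℤ, δ - 1 / 2 = n) := by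
    refine K2_core h2R hcR ?_
    intro A hA
    obtain ⟨A', hA', n, hn⟩ := g A hA
    rw [hRR] at hA'
    rw [hκ, hσ, hσ'] at hn
    rcases hε with he | he
    · refine ⟨A', hA', n, ?_⟩
      rw [← hn, hδ, he]
      push_cast
      ring
    · refine ⟨R \ A', Finset.sdiff_subset, n, ?_⟩
      have e := Finset.sum_sdiff (f := fun p : ℕ => (1 : ℚ) / p) hA'
      rw [← hn, hδ, he]
      push_cast
      linear_combination e
  have hq3 : (1 : ℚ) / q ≤ 1 / 3 := by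
    apply one_div_le_one_div_of_le (by norm_num)
    exact_mod_cast h3
  have hq3' : (1 : ℚ) / q' ≤ 1 / 3 := by
    apply one_div_le_one_div_of_le (by norm_num)
    exact_mod_cast h3'
  have hq0 : (0 : ℚ) < 1 / q := by
    have : (0 : ℚ) < q := by
      have : 0 < q := by omega
      exact_mod_cast this
    positivity
  have hq0' : (0 : ℚ) < 1 / q' := by
    have : (0 : ℚ) < q' := by
      have : 0 < q' := by omega
      exact_mod_cast this
    positivity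
  have hup : δ ≤ 1 / 3 := by
    rw [hδ]
    rcases hε with rfl | rfl <;> push_cast <;> linarith
  have hlo : -(1 / 3) ≤ δ := by
    rw [hδ]
    rcases hε with rfl | rfl <;> push_cast <;> linarith
  have hδ0 : δ = 0 := by
    rcases hcore with ⟨n, hn⟩ | ⟨-, n, hn⟩
    · have h1 : (n : ℚ) < 1 := by linarith
      have h2 : (-1 : ℚ) < n := by linarith
      have h1' : n < 1 := by exact_mod_cast h1
      have h2' : -1 < n := by exact_mod_cast h2
      have h4 : n = 0 := by omega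
      rw [hn, h4]
      norm_num
    · exfalso
      have h1 : (n : ℚ) < 0 := by linarith
      have h2 : (-1 : ℚ) < n := by linarith
      have h1' : n < 0 := by exact_mod_cast h1
      have h2' : -1 < n := by exact_mod_cast h2
      omega
  have hqq : q = q' := by
    rw [hδ] at hδ0
    rcases hε with rfl | rfl
    · push_cast at hδ0
      have h1 : (1 : ℚ) / q = 1 / q' := by linarith
      have h2 : (q : ℚ) = q' := by
        rw [← one_div_one_div (q : ℚ), h1, one_div_one_div]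
      exact_mod_cast h2
    · exfalso
      push_cast at hδ0
      linarith
  rw [← Finset.insert_erase hq, ← Finset.insert_erase hq', ← hR, ← hR', hRR, hqq]

end Pool.Agent.GSG
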