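import Pool.Agent.GSG.R3b

/-!
PROOF (module K3). `gq S k q r s x` is a finite sum over `T' ∋ q`. For `T' = T` the term is
`(-1) ^ |S \ T| binP(al S T) P_r (ct (x - y + n))`, `ct` has the period `1`, and
`sin (π (x - y)) ^ r P_r (cos / sin) = ∑ j ≤ r, p_j cos ^ j sin ^ (r - j) → p_r = 1` as `x → y` (`cotP_monic`; for `x ≠ y`
near `y` the sine is not `0`). For `T' ≠ T` the argument `x + s al S T' - k / 2` tends to
`s (al S T' - al S T) + n`, not an integer (`al_inj`; cast to `ℚ`), so `ct` is continuous there and the term times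
`sin ^ r` tends to `0` (`r ≥ 1`).
-/

set_option autoImplicit false

open Finset Filter Topology

namespace Pool.Agent.GSG

open Pool.Agent.GSP

private theorem K3_hom (P : Polynomial ℝ) {r : ℕ} (hP : P.natDegree ≤ r) {a b : ℝ} (hb : b ≠ 0) :
    b ^ r * P.eval (a / b) = ∑ j ∈ range (r + 1), P.coeff j * a ^ j * b ^ (r - j) := by
  rw [Polynomial.eval_eq_sum_range' (Nat.lt_succ_of_le hP), mul_sum]
  refine sum_congr rfl fun j hj => ?_
  have hj' : j ≤ r := Nat.lt_succ_iff.1 (mem_range.1 hj)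
  have h1 : b ^ r = b ^ (r - j) * b ^ j := by rw [← pow_add, Nat.sub_add_cancel hj']
  rw [h1, div_pow]
  field_simp

private theorem K3_ct_add_int (x : ℝ) (n : ℤ) : ct (x + n) = ct x := by
  unfold ct
  have h1 : Real.pi * (x + n) = Real.pi * x + n * Real.pi := by ring
  rw [h1, Real.cos_add_int_mul_pi, Real.sin_add_int_mul_pi, mul_div_mul_left]
  exact zpow_ne_zero _ (by norm_num)

private theorem K3_sin_ne {z : ℝ} (hz : ∀ n : ℤ, z ≠ n) : Real.sin (Real.pi * z) ≠ 0 := by
  intro h
  rw [Real.sin_eq_zero_iff] at h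
  obtain ⟨n, hn⟩ := h
  refine hz n ?_
  have h1 : Real.pi * z = Real.pi * n := by rw [← hn, mul_comm]
  exact mul_left_cancel₀ Real.pi_ne_zero h1

private theorem K3_ct_cont {z : ℝ} (hz : ∀ n : ℤ, z ≠ n) : ContinuousAt ct z := by
  unfold ct
  refine ContinuousAt.div ?_ ?_ (K3_sin_ne hz)
  · exact (Real.continuous_cos.comp (continuous_const.mul continuous_id)).continuousAt
  · exact (Real.continuous_sin.comp (continuous_const.mul continuous_id)).continuousAt

private theorem K3_one (P : Polynomial ℝ) {r : ℕ} (hP : P.natDegree ≤ r) (hc : P.coeff r = 1)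
    (y : ℝ) : Tendsto (fun x => Real.sin (Real.pi * (x - y)) ^ r * P.eval (ct (x - y))) (𝓝[≠] y)
      (𝓝 1) := by
  have h1 : Tendsto (fun x => ∑ j ∈ range (r + 1), P.coeff j * Real.cos (Real.pi * (x - y)) ^ j *
      Real.sin (Real.pi * (x - y)) ^ (r - j)) (𝓝[≠] y) (𝓝 1) := by
    have h2 : Continuous (fun x => ∑ j ∈ range (r + 1), P.coeff j *
        Real.cos (Real.pi * (x - y)) ^ j * Real.sin (Real.pi * (x - y)) ^ (r - j)) := by
      fun_prop
    have h3 : ∑ j ∈ range (r + 1), P.coeff j * Real.cos (Real.pi * (y - y)) ^ j *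
        Real.sin (Real.pi * (y - y)) ^ (r - j) = 1 := by
      rw [sum_range_succ, sum_eq_zero]
      · rw [Nat.sub_self, sub_self, mul_zero, Real.cos_zero, Real.sin_zero, hc]
        simp
      · intro j hj
        rw [sub_self, mul_zero, Real.sin_zero, zero_pow, mul_zero]
        have := mem_range.1 hj
        omega
    have h4 := h2.tendsto y
    rw [h3] at h4
    exact h4.mono_left nhdsWithin_le_nhds
  refine h1.congr' ?_
  have h5 : ∀ᶠ x in 𝓝 y, Real.pi * (x - y) ∈ Set.Ioo (-Real.pi) Real.pi := by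
    have h6 : Continuous fun x : ℝ => Real.pi * (x - y) := by fun_prop
    have h7 := h6.tendsto y
    rw [sub_self, mul_zero] at h7
    exact h7.eventually (Ioo_mem_nhds (by linarith [Real.pi_pos]) Real.pi_pos)
  have h8 : ∀ᶠ x in 𝓝[≠] y, Real.pi * (x - y) ∈ Set.Ioo (-Real.pi) Real.pi :=
    nhdsWithin_le_nhds h5
  filter_upwards [h8, self_mem_nhdsWithin] with x hx hne
  have hs : Real.sin (Real.pi * (x - y)) ≠ 0 := by
    intro h
    rw [Real.sin_eq_zero_iff_of_lt_of_lt hx.1 hx.2] at h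
    rcases mul_eq_zero.1 h with h | h
    · exact Real.pi_ne_zero h
    · exact hne (sub_eq_zero.1 h)
  exact (K3_hom P hP hs).symm

private theorem K3_zero (P : Polynomial ℝ) {r : ℕ} (hr : 1 ≤ r) (y a : ℝ)
    (ha : ∀ n : ℤ, y + a ≠ n) :
    Tendsto (fun x => Real.sin (Real.pi * (x - y)) ^ r * P.eval (ct (x + a))) (𝓝[≠] y)
      (𝓝 0) := by
  have h1 : Continuous fun x : ℝ => Real.sin (Real.pi * (x - y)) ^ r := by fun_prop
  have h2 := h1.tendsto y
  rw [sub_self, mul_zero, Real.sin_zero, zero_pow (by omega)] at h2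
  have h3 : ContinuousAt (fun x : ℝ => P.eval (ct (x + a))) y := by
    have h4 : ContinuousAt (fun x : ℝ => ct (x + a)) y :=
      ContinuousAt.comp (g := ct) (f := fun x : ℝ => x + a) (K3_ct_cont ha)
        (continuous_id.add continuous_const).continuousAt
    exact ContinuousAt.comp (g := fun z => P.eval z) (f := fun x : ℝ => ct (x + a))
      P.continuous.continuousAt h4
  have h5 := h2.mul h3
  rw [zero_mul] at h5
  exact h5.mono_left nhdsWithin_le_nhds

/-- the leading Laurent coefficient at a pole -/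
theorem gq_lim {S : Finset ℕ} {k : ℕ} (hS : LeafG S k) {q : ℕ} {r : ℕ} (hr : 1 ≤ r) {s : ℤ}
    (hs : ∀ p ∈ S, IsCoprime s (p : ℤ)) {T : Finset ℕ} (hT : T ∈ S.powerset) (hqT : q ∈ T) {y : ℝ}
    {n : ℤ} (hy : y = k / 2 - s * (al S T : ℝ) + n) :
    Tendsto (fun x => Real.sin (Real.pi * (x - y)) ^ r * gq S k q r s x) (𝓝[≠] y)
      (𝓝 ((-1) ^ (S \ T).card * (((binP k).eval (al S T) : ℚ) : ℝ))) := by
  obtain ⟨hm1, hm2⟩ := cotP_monic hr
  have hPd : ((cotP r).map (algebraMap ℚ ℝ)).natDegree ≤ r := by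
    rw [Polynomial.natDegree_map]
    exact hm2.le
  have hPc : ((cotP r).map (algebraMap ℚ ℝ)).coeff r = 1 := by
    have h1 := hm1.coeff_natDegree
    rw [hm2] at h1
    rw [Polynomial.coeff_map, h1, map_one]
  have e : (fun x => Real.sin (Real.pi * (x - y)) ^ r * gq S k q r s x) = fun x =>
      ∑ T' ∈ S.powerset with q ∈ T', ((-1) ^ (S \ T').card *
        (((binP k).eval (al S T') : ℚ) : ℝ)) * (Real.sin (Real.pi * (x - y)) ^ r *
          ((cotP r).map (algebraMap ℚ ℝ)).eval (ct (x + s * (al S T' : ℝ) - k / 2))) := by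
    funext x
    unfold gq
    rw [mul_sum]
    refine sum_congr rfl fun T' _ => ?_
    ring
  have e2 : (-1) ^ (S \ T).card * (((binP k).eval (al S T) : ℚ) : ℝ) =
      ∑ T' ∈ S.powerset with q ∈ T', ((-1) ^ (S \ T').card *
        (((binP k).eval (al S T') : ℚ) : ℝ)) * (if T' = T then 1 else 0) := by
    rw [sum_eq_single T]
    · rw [if_pos rfl, mul_one]
    · intro T' _ hne
      rw [if_neg hne, mul_zero]
    · intro h
      exact absurd (mem_filter.2 ⟨hT, hqT⟩) h
  rw [e, e2]
  refine tendsto_finsetSum _ fun T' hT' => Tendsto.const_mul _ ?_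
  by_cases hTT : T' = T
  · rw [if_pos hTT, hTT]
    refine (K3_one _ hPd hPc y).congr fun x => ?_
    have h1 : x + s * (al S T : ℝ) - k / 2 = x - y + n := by
      rw [hy]
      ring
    rw [h1, K3_ct_add_int]
  · rw [if_neg hTT]
    refine (K3_zero ((cotP r).map (algebraMap ℚ ℝ)) hr y (s * (al S T' : ℝ) - k / 2) ?_).congr
      fun x => ?_
    · intro m hm
      apply hTT
      refine al_inj hS hs (mem_filter.1 hT').1 hT (n := m - n) ?_
      rw [hy] at hm
      have h1 : ((s : ℝ) * ((al S T' : ℝ) - (al S T : ℝ))) = ((m - n : ℤ) : ℝ) := by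
        push_cast
        linarith
      exact_mod_cast h1
    · rw [add_sub_assoc]

end Pool.Agent.GSG
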