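import Pool.Agent.GSG.Defs

/-!
PROOFS (module K4). `binP_half`: put `Q(y) = ∏ i < k - 1, (y + (k - 2 (i + 1)))` over `ℤ`; then
`(binP k).eval x = Q(2 x) / (2 ^ (k - 1) (k - 1)!)`. With `x = a / b` we clear the denominators:
`(2 b) ^ (k - 1) (k - 1)! binP(x) = ∏ (2 a + b c_i)`, and for `x + 1 / 2` the factors are
`2 a + b c_i + b`. Modulo `b ^ 2` the difference of the products is `(k - 1) (2 a) ^ (k - 2) b`, modulo `b`
the sum is `2 (2 a) ^ (k - 1)`, and the prime `l` divides `b`, but not `2 a`, `k - 1` and `2`.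
`al_den`: if `l ∤ (al S T).den`, then `± 1 / (2 q) = al S T - (1/2) ∑ p ≠ q, ± 1 / p` would have a denominator
prime to `l` (`l ∤ 2 p` for the other `p ∈ S` by coprimality), but it is `2 q`.
-/

set_option autoImplicit false

open Finset

namespace Pool.Agent.GSG

open Pool.Agent.GSP

theorem K4_mod (a b : ℤ) (c : ℕ → ℤ) (m : ℕ) :
    b ∣ (∏ i ∈ range m, (a + b * c i)) - a ^ m := by
  induction m with
  | zero => simp
  | succ m ih =>
    rw [prod_range_succ, pow_succ]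
    have e : (∏ i ∈ range m, (a + b * c i)) * (a + b * c m) - a ^ m * a =
        ((∏ i ∈ range m, (a + b * c i)) - a ^ m) * (a + b * c m) + b * (a ^ m * c m) := by ring
    rw [e]
    exact dvd_add (ih.mul_right _) (dvd_mul_right _ _)

theorem K4_mod2 (a b : ℤ) (c : ℕ → ℤ) (m : ℕ) :
    b ^ 2 ∣ a * ((∏ i ∈ range m, (a + b * c i + b)) - ∏ i ∈ range m, (a + b * c i)) -
      m * a ^ m * b := by
  induction m with
  | zero => simp
  | succ m ih =>
    have h1 : b ∣ (∏ i ∈ range m, (a + b * c i + b)) - a ^ m := by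
      have h2 := K4_mod a b (fun i => c i + 1) m
      have e : ∀ i, a + b * (c i + 1) = a + b * c i + b := fun i => by ring
      simp only [e] at h2
      exact h2
    obtain ⟨u, hu⟩ := h1
    rw [prod_range_succ, prod_range_succ]
    have e : a * ((∏ i ∈ range m, (a + b * c i + b)) * (a + b * c m + b) -
        (∏ i ∈ range m, (a + b * c i)) * (a + b * c m)) - ((m + 1 : ℕ) : ℤ) * a ^ (m + 1) * b =
        (a + b * c m) * (a * ((∏ i ∈ range m, (a + b * c i + b)) - ∏ i ∈ range m, (a + b * c i)) -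
          m * a ^ m * b) + b ^ 2 * (c m * m * a ^ m + a * u) := by
      have e2 : (∏ i ∈ range m, (a + b * c i + b)) = a ^ m + b * u := by linarith
      rw [e2]
      push_cast
      ring
    rw [e]
    exact dvd_add (ih.mul_left _) (dvd_mul_right _ _)

/-- the polynomial `binP` after clearing denominators -/
theorem K4_binP (k : ℕ) (a b : ℤ) (hb : b ≠ 0) (z : ℚ) (e : ℤ) (hz : 2 * (b : ℚ) * z = a + e) :
    (binP k).eval z * ((2 * (b : ℚ)) ^ (k - 1) * ((k - 1).factorial : ℚ)) =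
      ((∏ i ∈ range (k - 1), (a + b * ((k : ℤ) - 2 * (i + 1)) + e) : ℤ) : ℚ) := by
  have hf : ((k - 1).factorial : ℚ) ≠ 0 := by exact_mod_cast (k - 1).factorial_ne_zero
  unfold binP
  rw [Polynomial.eval_mul, Polynomial.eval_C, Polynomial.eval_prod]
  have h1 : ∀ i ∈ range (k - 1), ((a : ℚ) + b * ((k : ℚ) - 2 * (i + 1)) + e) =
      (2 * (b : ℚ)) * (Polynomial.X + Polynomial.C ((k : ℚ) / 2 - (i + 1))).eval z := by
    intro i _
    rw [Polynomial.eval_add, Polynomial.eval_X, Polynomial.eval_C]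
    linear_combination -hz
  push_cast
  rw [prod_congr rfl h1, prod_mul_distrib, prod_const, card_range]
  field_simp

/-- the polynomials `binP` take different values at `x` and `x + 1 / 2` if the denominator of `x` is
divisible by a large prime -/
theorem binP_half {k l : ℕ} (hk : 2 ≤ k) (hl : l.Prime) (hkl : 2 * k < l) {x : ℚ}
    (hx : l ∣ x.den) :
    (binP k).eval (x + 1 / 2) ^ 2 ≠ (binP k).eval x ^ 2 := by
  intro hsq
  have hlp : Prime (l : ℤ) := Nat.prime_iff_prime_int.1 hl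
  obtain ⟨a, ha⟩ : ∃ a : ℤ, a = x.num := ⟨_, rfl⟩
  obtain ⟨b, hb⟩ : ∃ b : ℤ, b = (x.den : ℤ) := ⟨_, rfl⟩
  have hb0 : b ≠ 0 := by
    rw [hb]
    exact_mod_cast x.den_ne_zero
  have hlb : (l : ℤ) ∣ b := by
    rw [hb]
    exact_mod_cast hx
  have hla : ¬ (l : ℤ) ∣ a := by
    intro h
    have h1 : l ∣ x.num.natAbs := by
      rw [ha] at h
      exact Int.natCast_dvd.1 h
    have h2 := Nat.dvd_gcd h1 hx
    rw [x.reduced.gcd_eq_one] at h2
    exact hl.one_lt.ne' (Nat.dvd_one.1 h2)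
  have hl2 : ¬ (l : ℤ) ∣ 2 := by
    intro h
    have h1 : l ∣ 2 := by exact_mod_cast h
    have := Nat.le_of_dvd (by norm_num) h1
    omega
  have hla2 : ¬ (l : ℤ) ∣ 2 * a := fun h => (hlp.dvd_or_dvd h).elim hl2 hla
  have hlm : ¬ (l : ℤ) ∣ ((k - 1 : ℕ) : ℤ) := by
    intro h
    have h1 : l ∣ k - 1 := by exact_mod_cast h
    have := Nat.le_of_dvd (by omega) h1
    omega
  have hxab : x = (a : ℚ) / b := by
    rw [ha, hb]
    push_cast
    exact (Rat.num_div_den x).symm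
  have hbq : (b : ℚ) ≠ 0 := by exact_mod_cast hb0
  have hz0 : 2 * (b : ℚ) * x = ((2 * a : ℤ) : ℚ) + ((0 : ℤ) : ℚ) := by
    rw [hxab]
    push_cast
    field_simp
    ring
  have hz1 : 2 * (b : ℚ) * (x + 1 / 2) = ((2 * a : ℤ) : ℚ) + ((b : ℤ) : ℚ) := by
    rw [hxab]
    push_cast
    field_simp
  have e0 := K4_binP k (2 * a) b hb0 x 0 hz0
  have e1 := K4_binP k (2 * a) b hb0 (x + 1 / 2) b hz1
  obtain ⟨P, hP⟩ : ∃ P : ℤ, P = ∏ i ∈ range (k - 1), (2 * a + b * ((k : ℤ) - 2 * (i + 1))) :=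
    ⟨_, rfl⟩
  obtain ⟨P', hP'⟩ : ∃ P' : ℤ, P' =
    ∏ i ∈ range (k - 1), (2 * a + b * ((k : ℤ) - 2 * (i + 1)) + b) := ⟨_, rfl⟩
  have e0' : (binP k).eval x * ((2 * (b : ℚ)) ^ (k - 1) * ((k - 1).factorial : ℚ)) = (P : ℚ) := by
    rw [e0, hP]
    simp
  have e1' : (binP k).eval (x + 1 / 2) * ((2 * (b : ℚ)) ^ (k - 1) * ((k - 1).factorial : ℚ)) =
      (P' : ℚ) := by rw [e1, hP']
  have hPP : P' ^ 2 = P ^ 2 := by
    have h1 : (P' : ℚ) ^ 2 = (P : ℚ) ^ 2 := by
      rw [← e0', ← e1', mul_pow, hsq]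
      ring
    exact_mod_cast h1
  have hm1 : b ∣ P - (2 * a) ^ (k - 1) := by
    rw [hP]
    exact K4_mod (2 * a) b (fun i => (k : ℤ) - 2 * (i + 1)) (k - 1)
  have hm1' : b ∣ P' - (2 * a) ^ (k - 1) := by
    rw [hP']
    have h2 := K4_mod (2 * a) b (fun i => (k : ℤ) - 2 * (i + 1) + 1) (k - 1)
    have e : ∀ i : ℕ, 2 * a + b * ((k : ℤ) - 2 * (i + 1) + 1) =
      2 * a + b * ((k : ℤ) - 2 * (i + 1)) + b := fun i => by ring
    simp only [e] at h2
    exact h2
  have hm2 : b ^ 2 ∣ 2 * a * (P' - P) - ((k - 1 : ℕ) : ℤ) * (2 * a) ^ (k - 1) * b := by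
    rw [hP, hP']
    exact K4_mod2 (2 * a) b (fun i => (k : ℤ) - 2 * (i + 1)) (k - 1)
  rcases sq_eq_sq_iff_eq_or_eq_neg.1 hPP with h | h
  · -- equal
    rw [h, sub_self, mul_zero, zero_sub, dvd_neg, pow_two] at hm2
    have h1 : b ∣ ((k - 1 : ℕ) : ℤ) * (2 * a) ^ (k - 1) :=
      (mul_dvd_mul_iff_right hb0).1 hm2
    rcases hlp.dvd_or_dvd (hlb.trans h1) with h2 | h2
    · exact hlm h2
    · exact hla2 (hlp.dvd_of_dvd_pow h2)
  · -- opposite
    have h1 : b ∣ 2 * (2 * a) ^ (k - 1) := by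
      have h2 := dvd_add hm1 hm1'
      have e : P - (2 * a) ^ (k - 1) + (P' - (2 * a) ^ (k - 1)) = -(2 * (2 * a) ^ (k - 1)) := by
        rw [h]
        ring
      rw [e, dvd_neg] at h2
      exact h2
    rcases hlp.dvd_or_dvd (hlb.trans h1) with h2 | h2
    · exact hl2 h2
    · exact hla2 (hlp.dvd_of_dvd_pow h2)

theorem K4_not_dvd_mul {l : ℕ} (hl : l.Prime) {x y : ℚ} (hx : ¬ l ∣ x.den) (hy : ¬ l ∣ y.den) :
    ¬ l ∣ (x * y).den := fun h =>
  (hl.dvd_mul.1 (h.trans (Rat.mul_den_dvd x y))).elim hx hy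

theorem K4_not_dvd_add {l : ℕ} (hl : l.Prime) {x y : ℚ} (hx : ¬ l ∣ x.den) (hy : ¬ l ∣ y.den) :
    ¬ l ∣ (x + y).den := fun h =>
  (hl.dvd_mul.1 (h.trans (Rat.add_den_dvd x y))).elim hx hy

theorem K4_not_dvd_sum {l : ℕ} (hl : l.Prime) (U : Finset ℕ) (f : ℕ → ℚ)
    (hf : ∀ p ∈ U, ¬ l ∣ (f p).den) : ¬ l ∣ (∑ p ∈ U, f p).den := by
  induction U using Finset.induction_on with
  | empty =>
    rw [sum_empty]
    intro h
    exact hl.one_lt.ne' (Nat.dvd_one.1 h)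
  | insert a U ha ih =>
    rw [sum_insert ha]
    exact K4_not_dvd_add hl (hf a (mem_insert_self _ _))
      (ih fun p hp => hf p (mem_insert_of_mem hp))

/-- the denominators of the numbers `α_T` -/
theorem al_den {S : Finset ℕ} {k : ℕ} (hS : LeafG S k) {q : ℕ} (hq : q ∈ S) {l : ℕ} (hl : l.Prime)
    (h3 : 3 ≤ l) (hlq : l ∣ q) {T : Finset ℕ} (hT : T ∈ S.powerset) : l ∣ (al S T).den := by
  by_contra hcon
  have hTS : T ⊆ S := mem_powerset.1 hT
  obtain ⟨f, hf⟩ : ∃ f : ℕ → ℚ, ∀ p, f p = if p ∈ T then (1 : ℚ) / p else -((1 : ℚ) / p) :=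
    ⟨fun p => if p ∈ T then (1 : ℚ) / p else -((1 : ℚ) / p), fun _ => rfl⟩
  have h1 : al S T = (∑ p ∈ S, f p) / 2 := by
    unfold al
    congr 1
    rw [← sum_sdiff hTS, add_comm, sub_eq_add_neg, ← sum_neg_distrib]
    congr 1
    · exact sum_congr rfl fun p hp => by rw [hf, if_pos hp]
    · exact sum_congr rfl fun p hp => by rw [hf, if_neg (mem_sdiff.1 hp).2]
  rw [← add_sum_erase S f hq] at h1
  have hden2 : ¬ l ∣ (2 : ℚ)⁻¹.den := by
    have e : (2 : ℚ)⁻¹.den = 2 := by norm_num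
    rw [e]
    intro h
    have := Nat.le_of_dvd (by norm_num) h
    omega
  have hother : ∀ p ∈ S.erase q, ¬ l ∣ (f p).den := by
    intro p hp
    have hpq : p ≠ q := ne_of_mem_erase hp
    have hpS : p ∈ S := mem_of_mem_erase hp
    have hlp : ¬ l ∣ p := by
      intro h
      have h2 := Nat.dvd_gcd h hlq
      rw [(hS.coprime p hpS q hq hpq).gcd_eq_one] at h2
      exact hl.one_lt.ne' (Nat.dvd_one.1 h2)
    have e : ((1 : ℚ) / p).den = p := by
      rw [one_div]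
      exact Rat.inv_natCast_den_of_pos (hS.pos p hpS)
    rw [hf]
    split_ifs
    · rw [e]
      exact hlp
    · rw [Rat.neg_den, e]
      exact hlp
  have hR := K4_not_dvd_sum hl (S.erase q) f hother
  have hfq : f q = al S T * 2 + -(∑ p ∈ S.erase q, f p) := by
    rw [h1]
    ring
  have h2den : ¬ l ∣ (2 : ℚ).den := by
    intro h
    have e : (2 : ℚ).den = 1 := by norm_num
    rw [e] at h
    exact hl.one_lt.ne' (Nat.dvd_one.1 h)
  have hR' : ¬ l ∣ (-(∑ p ∈ S.erase q, f p)).den := by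
    rw [Rat.neg_den]
    exact hR
  have h4 : ¬ l ∣ (f q).den := by
    rw [hfq]
    exact K4_not_dvd_add hl (K4_not_dvd_mul hl hcon h2den) hR'
  have e : ((1 : ℚ) / q).den = q := by
    rw [one_div]
    exact Rat.inv_natCast_den_of_pos (hS.pos q hq)
  apply h4
  rw [hf]
  split_ifs
  · rw [e]
    exact hlq
  · rw [Rat.neg_den, e]
    exact hlq

end Pool.Agent.GSG
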