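import Pool.Agent.GSG.K3
import Pool.Agent.GSG.K4

/-!
PROOF (module K5). Let `T = S`, `T' = S.erase 2`, both contain `q`; `al S T' = al S S - 1 / 2`. Let
`y = k / 2 - al S S`. By `gq_lim` (`s = 1`, `n = 0`) `sin (π (x - y)) ^ r gq(x) → (binP k).eval (al S S)` up to
sign as `x → y`, and for `y' = y + 1 / 2 = k / 2 - al S T'`: `sin (π (x' - y')) ^ r gq(x') → ± (binP k).eval (al S T')`
as `x' → y'`; substitute `x' = x + 1 / 2`. Near `y`, `x ≠ y`, neither `ee x` nor `ee (x + 1 / 2)` is a pole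
(finitely many points), so `h` gives equal squares and in the limit
`(binP k).eval (al S S) ^ 2 = (binP k).eval (al S T') ^ 2`, against `binP_half` for `x = al S T'` (`al_den`).
-/

set_option autoImplicit false

open Finset Filter Topology

namespace Pool.Agent.GSG

open Pool.Agent.GSP

private theorem K5_cont : Continuous ee := by
  unfold ee
  exact Complex.continuous_exp.comp (continuous_const.mul Complex.continuous_ofReal)

private theorem K5_ev (Z : Finset ℂ) (y : ℝ) : ∀ᶠ x in 𝓝[≠] y, ee x ∉ Z := by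
  have h1 : ∀ z ∈ Z, ∀ᶠ x in 𝓝[≠] y, ee x ≠ z := by
    intro z _
    by_cases hz : ee y = z
    · have h2 : ∀ᶠ x in 𝓝[≠] y, x ∈ Set.Ioo (y - 1) (y + 1) :=
        nhdsWithin_le_nhds (Ioo_mem_nhds (by linarith) (by linarith))
      filter_upwards [h2, self_mem_nhdsWithin] with x hx hne h
      rw [← hz, ee_eq_iff] at h
      obtain ⟨n, hn⟩ := h
      have h3 : (n : ℝ) < 1 := by
        rw [← hn]
        linarith [hx.2]
      have h4 : (-1 : ℝ) < n := by
        rw [← hn]
        linarith [hx.1]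
      have h5 : n < 1 := by exact_mod_cast h3
      have h6 : -1 < n := by exact_mod_cast h4
      have h7 : n = 0 := by omega
      rw [h7, Int.cast_zero] at hn
      exact hne (sub_eq_zero.1 hn)
    · exact nhdsWithin_le_nhds (K5_cont.continuousAt.eventually_ne hz)
  have h2 := (Filter.eventually_all_finset Z).2 h1
  filter_upwards [h2] with x hx hxZ using hx _ hxZ rfl

private theorem K5_shift (y : ℝ) :
    Tendsto (fun x : ℝ => x + 1 / 2) (𝓝[≠] y) (𝓝[≠] (y + 1 / 2)) := by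
  refine tendsto_nhdsWithin_iff.2 ⟨?_, ?_⟩
  · have h1 : Continuous fun x : ℝ => x + 1 / 2 := by fun_prop
    exact (h1.tendsto y).mono_left nhdsWithin_le_nhds
  · filter_upwards [self_mem_nhdsWithin] with x hx h
    exact hx (add_right_cancel h)

/-- the square of `gq` is not invariant under the translation by `1 / 2` -/
theorem no_half {S : Finset ℕ} {k : ℕ} (hS : LeafG S k) (hk : 2 ≤ k) {q : ℕ} (hq : q ∈ S)
    (h2 : 2 ∈ S.erase q) {l : ℕ} (hl : l.Prime) (hkl : 2 * k < l) (hlq : l ∣ q) {r : ℕ}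
    (hr : 1 ≤ r)
    (h : ∀ x : ℝ, ee x ∉ zq S k q 1 → ee (x + 1 / 2) ∉ zq S k q 1 →
      gq S k q r 1 (x + 1 / 2) ^ 2 = gq S k q r 1 x ^ 2) : False := by
  have h2S : 2 ∈ S := Finset.mem_of_mem_erase h2
  have hT : S ∈ S.powerset := mem_powerset.2 (Finset.Subset.refl S)
  have hT' : S.erase 2 ∈ S.powerset := mem_powerset.2 (erase_subset 2 S)
  have hqT' : q ∈ S.erase 2 := mem_erase.2 ⟨fun e => (Finset.ne_of_mem_erase h2) e.symm, hq⟩
  have hal : al S S = al S (S.erase 2) + 1 / 2 := by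
    unfold al
    rw [sdiff_erase h2S, Finset.sdiff_self, sum_empty,
      ← add_sum_erase S (fun p : ℕ => (1 : ℚ) / p) h2S]
    simp only [insert_empty_eq, sum_singleton, Nat.cast_ofNat]
    ring
  have hs : ∀ p ∈ S, IsCoprime (1 : ℤ) (p : ℤ) := fun _ _ => isCoprime_one_left
  obtain ⟨y, hy⟩ : ∃ y : ℝ, y = (k : ℝ) / 2 - (al S S : ℝ) := ⟨_, rfl⟩
  have L1 := gq_lim hS hr hs hT hq (y := y) (n := 0) (by rw [hy]; push_cast; ring)
  have L2 := gq_lim hS hr hs hT' hqT' (y := y + 1 / 2) (n := 0)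
    (by rw [hy, hal]; push_cast; ring)
  have L3 := (L2.comp (K5_shift y)).pow 2
  have L4 := L1.pow 2
  have hev : (fun x => ((fun x => Real.sin (Real.pi * (x - (y + 1 / 2))) ^ r * gq S k q r 1 x) ∘
      fun x : ℝ => x + 1 / 2) x ^ 2) =ᶠ[𝓝[≠] y]
      fun x => (Real.sin (Real.pi * (x - y)) ^ r * gq S k q r 1 x) ^ 2 := by
    have h5 := (K5_shift y).eventually (K5_ev (zq S k q 1) (y + 1 / 2))
    filter_upwards [K5_ev (zq S k q 1) y, h5] with x hx hx'
    simp only [Function.comp]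
    have e : x + 1 / 2 - (y + 1 / 2) = x - y := by ring
    rw [e, mul_pow, mul_pow, h x hx hx']
  have L5 := tendsto_nhds_unique_of_eventuallyEq L3 L4 hev
  have h6 : ∀ m : ℕ, ((-1 : ℝ) ^ m) ^ 2 = 1 := fun m => by
    rw [← pow_mul, mul_comm, pow_mul, neg_one_sq, one_pow]
  rw [mul_pow, mul_pow, h6, h6, one_mul, one_mul] at L5
  have h7 : (binP k).eval (al S (S.erase 2)) ^ 2 = (binP k).eval (al S S) ^ 2 := by
    exact_mod_cast L5
  refine binP_half hk hl hkl (al_den hS hq hl (by omega) hlq hT') ?_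
  rw [h7, hal]

end Pool.Agent.GSG
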