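import Pool.Agent.GSG.R1

/-!
PROOF (module R2). Every `w ∈ Z` is `ee y` for some `y`, so `w ≠ 0` and `w` has exactly `n` different
`n`-th roots (`ee ((y + j) / n)`, `j < n`; or `Polynomial.nthRoots`, `IsPrimitiveRoot`). Let `Zn` be the
union of these sets over `w ∈ Z` (they are disjoint), `|Zn| = n |Z|`. For `z` with `‖z‖ = 1`:
`∏ w ∈ Zn, (z - w) = ∏ w ∈ Z, (z ^ n - w)` (`X ^ n - C w` is the product of the `X - C u` over the `n`
roots `u`). So with `A` from `h.rat` the polynomial `A.comp (X ^ n)` works for `g (n x)`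
(`ee (n x) = ee x ^ n`, `ee_nat_mul`); its natDegree is `n` times that of `A`, and its value at `z ∈ Zn` is
`A (z ^ n) ≠ 0`. `circ`: if `z ^ n ∈ Z` then `‖z‖ = 1`, use `exists_ee`.
-/

set_option autoImplicit false

open Finset

namespace Pool.Agent.GSG

/-- the roots of `X ^ n - w` -/
theorem R2_roots {n : ℕ} (hn : 0 < n) {w : ℂ} (hw : w ≠ 0) :
    ∃ F : Finset ℂ, (∀ z, z ∈ F ↔ z ^ n = w) ∧ F.card = n ∧
      ∀ z : ℂ, ∏ u ∈ F, (z - u) = z ^ n - w := by
  have hp := Complex.isPrimitiveRoot_exp n hn.ne'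
  have hnd := hp.nthRoots_nodup hw
  have hcard : Multiset.card (Polynomial.nthRoots n w) = n := by
    rw [hp.card_nthRoots, if_pos]
    obtain ⟨z, hz⟩ := IsAlgClosed.exists_pow_nat_eq w hn
    exact ⟨z, hz⟩
  refine ⟨(Polynomial.nthRoots n w).toFinset, ?_, ?_, ?_⟩
  · intro z
    rw [Multiset.mem_toFinset, Polynomial.mem_nthRoots hn]
  · rw [Multiset.toFinset_card_of_nodup hnd, hcard]
  · intro z
    have h1 : (Polynomial.X ^ n - Polynomial.C w : Polynomial ℂ).Monic :=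
      Polynomial.monic_X_pow_sub_C w hn.ne'
    have h2 : ((Polynomial.nthRoots n w).map fun u => Polynomial.X - Polynomial.C u).prod =
        Polynomial.X ^ n - Polynomial.C w := by
      refine Polynomial.prod_multiset_X_sub_C_of_monic_of_roots_card_eq h1 ?_
      rw [Polynomial.natDegree_X_pow_sub_C]
      exact hcard
    have h3 := congrArg (Polynomial.eval z) h2
    rw [Polynomial.eval_multiset_prod, Multiset.map_map] at h3
    simp only [Polynomial.eval_sub, Polynomial.eval_pow, Polynomial.eval_X, Polynomial.eval_C,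
      Function.comp_def] at h3
    rw [← h3, Finset.prod, Multiset.toFinset_val, hnd.dedup]

/-- the function `g (n x)` -/
theorem PF.mulN {g : ℝ → ℝ} {Z : Finset ℂ} {m : ℕ} (h : PF g Z m) {n : ℕ} (hn : 0 < n) :
    ∃ Zn : Finset ℂ, (∀ z, z ∈ Zn ↔ z ^ n ∈ Z) ∧ Zn.card = n * Z.card ∧
      PF (fun x => g (n * x)) Zn m := by
  classical
  have hZ0 : ∀ w ∈ Z, w ≠ 0 := by
    intro w hw
    obtain ⟨x, rfl⟩ := h.circ w hw
    exact ee_ne x
  have hex : ∀ w : ℂ, ∃ F : Finset ℂ, w ≠ 0 → (∀ z, z ∈ F ↔ z ^ n = w) ∧ F.card = n ∧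
      ∀ z : ℂ, ∏ u ∈ F, (z - u) = z ^ n - w := by
    intro w
    by_cases hw : w = 0
    · exact ⟨∅, fun h1 => absurd hw h1⟩
    · obtain ⟨F, hF⟩ := R2_roots hn hw
      exact ⟨F, fun _ => hF⟩
  choose F hF using hex
  have hmem : ∀ z, z ∈ Z.biUnion F ↔ z ^ n ∈ Z := by
    intro z
    rw [mem_biUnion]
    constructor
    · rintro ⟨w, hw, hz⟩
      rw [((hF w (hZ0 w hw)).1 z).1 hz]
      exact hw
    · intro hz
      exact ⟨z ^ n, hz, ((hF _ (hZ0 _ hz)).1 z).2 rfl⟩
  have hdis : (Z : Set ℂ).PairwiseDisjoint F := by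
    intro w hw w' hw' hne
    rw [Function.onFun, disjoint_left]
    intro z hz hz'
    have hw0 := hZ0 w (mem_coe.1 hw)
    have hw0' := hZ0 w' (mem_coe.1 hw')
    exact hne (by rw [← ((hF w hw0).1 z).1 hz, ((hF w' hw0').1 z).1 hz'])
  have hcard : (Z.biUnion F).card = n * Z.card := by
    rw [card_biUnion hdis, sum_congr rfl fun w hw => (hF w (hZ0 w hw)).2.1, sum_const,
      smul_eq_mul, mul_comm]
  have hprod : ∀ z : ℂ, ∏ u ∈ Z.biUnion F, (z - u) = ∏ w ∈ Z, (z ^ n - w) := by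
    intro z
    rw [prod_biUnion hdis]
    exact prod_congr rfl fun w hw => (hF w (hZ0 w hw)).2.2 z
  refine ⟨Z.biUnion F, hmem, hcard, ?_, ?_⟩
  · intro z hz
    apply exists_ee
    obtain ⟨x, hx⟩ := h.circ _ ((hmem z).1 hz)
    have h1 : ‖z‖ ^ n = 1 := by rw [← norm_pow, ← hx, norm_ee]
    exact (pow_eq_one_iff_of_nonneg (norm_nonneg z) hn.ne').1 h1
  · obtain ⟨A, hA1, hA2, hA3⟩ := h.rat
    refine ⟨A.comp (Polynomial.X ^ n), ?_, ?_, ?_⟩
    · rw [Polynomial.natDegree_comp, Polynomial.natDegree_X_pow, hcard]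
      calc A.natDegree * n ≤ m * Z.card * n := Nat.mul_le_mul_right _ hA1
        _ = m * (n * Z.card) := by ring
    · intro z hz
      rw [Polynomial.eval_comp, Polynomial.eval_pow, Polynomial.eval_X]
      exact hA2 _ ((hmem z).1 hz)
    · intro x hx
      have h1 : ee (n * x) ∉ Z := by
        rw [ee_nat_mul]
        exact fun h2 => hx ((hmem _).2 h2)
      have h2 := hA3 _ h1
      rw [Polynomial.eval_comp, Polynomial.eval_pow, Polynomial.eval_X, hprod, ← ee_nat_mul]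
      exact h2

end Pool.Agent.GSG
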