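import Pool.Agent.GSG.R3

/-!
PROOFS (module R3b). `cotP_monic`: `cotP 1 = X`, `cotP (r + 2) = C (1 / (r + 1)) * (1 + X ^ 2) *
derivative (cotP (r + 1))`, induction: the derivative of a monic polynomial of degree `r + 1` has degree
`r` and leading coefficient `r + 1`.
`cotP_ee`: for `w = ee x ≠ 1` one has `ct x = I (w + 1) / (w - 1)` (Euler; `w ≠ 1` means `x ∉ ℤ`,
`sin (π x) ≠ 0`). Let `H = ∑ j ≤ r, C (p_j I ^ j) * (X + 1) ^ j * (X - 1) ^ (r - j)`, `p_j` the coefficients of
`cotP r`. Then `H.natDegree ≤ r` and `H.eval 1 = p_r I ^ r 2 ^ r ≠ 0`.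
`gq_pf`: for `T ∋ q` let `b_T = ee (s al S T - k / 2)`, `z_T = b_T⁻¹ = ee (k / 2 - s al S T) ∈ zq`. For
`z = ee x ≠ z_T`: `cotP_ee` at `x + s al S T - k / 2` gives
`P_r (ct (..)) * (z b_T - 1) ^ r = H.eval (z b_T)`, and `z b_T - 1 = b_T (z - z_T)`. The `z_T` are
different (`al_inj`), so for `A = ∑ T, C (± binP (al S T) * b_T ^ (- r)) * H.comp (C b_T * X) *
∏ w ∈ zq.erase z_T, (X - C w) ^ r` one has `g x * (∏ w ∈ zq, (z - w)) ^ r = A.eval z`, the degree is at
most `r + r (|zq| - 1)`, and at `z_T` only the term of `T` remains: `± binP (al S T) b_T ^ (-r) H(1) ∏ (..) ≠ 0`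
(`binP_al_ne`). It may be convenient to sum over `zq` by an injective reindexing (`Finset.sum_image`).
-/

set_option autoImplicit false

open Finset

namespace Pool.Agent.GSG

open Pool.Agent.GSP

/-- the polynomial `cotP r` is monic of degree `r` -/
theorem cotP_monic {r : ℕ} (hr : 1 ≤ r) : (cotP r).Monic ∧ (cotP r).natDegree = r := by
  induction r, hr using Nat.le_induction with
  | base =>
    change (Polynomial.X : Polynomial ℚ).Monic ∧ (Polynomial.X : Polynomial ℚ).natDegree = 1
    exact ⟨Polynomial.monic_X, Polynomial.natDegree_X⟩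
  | succ r hr ih =>
    obtain ⟨m, rfl⟩ : ∃ m, r = m + 1 := ⟨r - 1, by omega⟩
    obtain ⟨hm, hd⟩ := ih
    have hdeg : (Polynomial.derivative (cotP (m + 1))).natDegree ≤ m := by
      have := Polynomial.natDegree_derivative_le (cotP (m + 1))
      rw [hd] at this
      simpa using this
    have hco : (Polynomial.derivative (cotP (m + 1))).coeff m = (m : ℚ) + 1 := by
      rw [Polynomial.coeff_derivative]
      have h1 : (cotP (m + 1)).coeff (m + 1) = 1 := by
        have := hm.coeff_natDegree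
        rwa [hd] at this
      rw [h1, one_mul]
    have hne : ((m : ℚ) + 1) ≠ 0 := by positivity
    have hmon : (Polynomial.C (1 / (m + 1 : ℚ)) * Polynomial.derivative (cotP (m + 1))).Monic := by
      apply Polynomial.monic_of_natDegree_le_of_coeff_eq_one m
      · exact (Polynomial.natDegree_C_mul_le _ _).trans hdeg
      · rw [Polynomial.coeff_C_mul, hco]
        field_simp
    have hnd : (Polynomial.C (1 / (m + 1 : ℚ)) *
        Polynomial.derivative (cotP (m + 1))).natDegree = m := by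
      apply le_antisymm ((Polynomial.natDegree_C_mul_le _ _).trans hdeg)
      apply Polynomial.le_natDegree_of_ne_zero
      rw [Polynomial.coeff_C_mul, hco]
      field_simp
      exact one_ne_zero
    have hq : (Polynomial.X ^ 2 + Polynomial.C (1 : ℚ)).Monic :=
      Polynomial.monic_X_pow_add_C 1 two_ne_zero
    have hqd : (Polynomial.X ^ 2 + Polynomial.C (1 : ℚ)).natDegree = 2 :=
      Polynomial.natDegree_X_pow_add_C
    have e : cotP (m + 1 + 1) = (Polynomial.X ^ 2 + Polynomial.C (1 : ℚ)) *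
        (Polynomial.C (1 / (m + 1 : ℚ)) * Polynomial.derivative (cotP (m + 1))) := by
      change Polynomial.C (1 / (m + 1 : ℚ)) * (1 + Polynomial.X ^ 2) *
        Polynomial.derivative (cotP (m + 1)) = _
      rw [Polynomial.C_1]
      ring
    rw [e]
    refine ⟨hq.mul hmon, ?_⟩
    rw [hq.natDegree_mul hmon, hqd, hnd]
    omega

/-- Euler's formula -/
private theorem R3b_ct (x : ℝ) (hx : ee x ≠ 1) :
    ((ct x : ℝ) : ℂ) * (ee x - 1) = Complex.I * (ee x + 1) := by
  obtain ⟨c, hc⟩ : ∃ c, c = Complex.cos (Real.pi * x) := ⟨_, rfl⟩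
  obtain ⟨t, ht⟩ : ∃ t, t = Complex.sin (Real.pi * x) := ⟨_, rfl⟩
  have hct : c ^ 2 + t ^ 2 = 1 := by
    rw [hc, ht, add_comm]
    exact Complex.sin_sq_add_cos_sq _
  have he : ee x = (c + t * Complex.I) ^ 2 := by
    rw [hc, ht, ← Complex.exp_mul_I, ← Complex.exp_nat_mul]
    unfold ee
    congr 1
    push_cast
    ring
  have hI : Complex.I ^ 2 = -1 := Complex.I_sq
  have e1 : ee x - 1 = 2 * Complex.I * t * (c + t * Complex.I) := by
    rw [he]
    linear_combination hct - t ^ 2 * hI
  have e2 : ee x + 1 = 2 * c * (c + t * Complex.I) := by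
    rw [he]
    linear_combination (-1 : ℂ) * hct + t ^ 2 * hI
  have ht0 : t ≠ 0 := by
    intro h0
    apply hx
    rw [h0] at e1
    have : ee x - 1 = 0 := by rw [e1]; ring
    exact sub_eq_zero.1 this
  have e3 : ((ct x : ℝ) : ℂ) = c / t := by
    rw [hc, ht]
    unfold ct
    push_cast
    rfl
  rw [e1, e2, e3]
  field_simp

/-- `(z - 1) ^ r P_r (cot π x)` is a polynomial of degree at most `r` in `z = exp (2 π i x)` -/
theorem cotP_ee {r : ℕ} (hr : 1 ≤ r) : ∃ H : Polynomial ℂ, H.natDegree ≤ r ∧ H.eval 1 ≠ 0 ∧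
    ∀ x : ℝ, ee x ≠ 1 → ((((cotP r).map (algebraMap ℚ ℝ)).eval (ct x) : ℝ) : ℂ) * (ee x - 1) ^ r =
      H.eval (ee x) := by
  obtain ⟨hm, hd⟩ := cotP_monic hr
  refine ⟨∑ j ∈ range (r + 1), Polynomial.C ((((cotP r).coeff j : ℚ) : ℂ) * Complex.I ^ j) *
    (Polynomial.X + Polynomial.C 1) ^ j * (Polynomial.X - Polynomial.C 1) ^ (r - j), ?_, ?_, ?_⟩
  · apply Polynomial.natDegree_sum_le_of_forall_le
    intro j hj
    have hj' : j ≤ r := by
      have := mem_range.1 hj
      omega
    have h1 : ((Polynomial.X + Polynomial.C (1 : ℂ)) ^ j).natDegree ≤ j := by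
      refine Polynomial.natDegree_pow_le.trans ?_
      rw [Polynomial.natDegree_X_add_C, mul_one]
    have h2 : ((Polynomial.X - Polynomial.C (1 : ℂ)) ^ (r - j)).natDegree ≤ r - j := by
      refine Polynomial.natDegree_pow_le.trans ?_
      rw [Polynomial.natDegree_X_sub_C, mul_one]
    calc _ ≤ (Polynomial.C ((((cotP r).coeff j : ℚ) : ℂ) * Complex.I ^ j) *
          (Polynomial.X + Polynomial.C 1) ^ j).natDegree +
          ((Polynomial.X - Polynomial.C (1 : ℂ)) ^ (r - j)).natDegree :=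
          Polynomial.natDegree_mul_le
      _ ≤ j + (r - j) := add_le_add ((Polynomial.natDegree_C_mul_le _ _).trans h1) h2
      _ = r := by omega
  · rw [Polynomial.eval_finsetSum, Finset.sum_eq_single r]
    · have h1 : (cotP r).coeff r = 1 := by
        have := hm.coeff_natDegree
        rwa [hd] at this
      rw [h1]
      simp only [Polynomial.eval_mul, Polynomial.eval_C, Polynomial.eval_pow, Polynomial.eval_add,
        Polynomial.eval_X, Polynomial.eval_sub, Nat.sub_self, pow_zero, mul_one, Rat.cast_one,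
        one_mul]
      have : (1 + 1 : ℂ) ≠ 0 := by norm_num
      exact mul_ne_zero (pow_ne_zero _ Complex.I_ne_zero) (pow_ne_zero _ this)
    · intro j hj hjr
      have hj' : r - j ≠ 0 := by
        have := mem_range.1 hj
        omega
      simp [hj']
    · intro h
      exact absurd (mem_range.2 (Nat.lt_succ_self r)) h
  · intro x hx
    have hct := R3b_ct x hx
    have h1 : ee x - 1 ≠ 0 := sub_ne_zero.2 hx
    rw [Polynomial.eval_map, Polynomial.eval₂_eq_sum_range, hd, Complex.ofReal_sum,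
      Finset.sum_mul, Polynomial.eval_finsetSum]
    refine sum_congr rfl fun j hj => ?_
    have hj' : j ≤ r := by
      have := mem_range.1 hj
      omega
    have h2 : (ee x - 1) ^ r = (ee x - 1) ^ j * (ee x - 1) ^ (r - j) := by
      rw [← pow_add]
      congr 1
      omega
    simp only [Polynomial.eval_mul, Polynomial.eval_C, Polynomial.eval_pow, Polynomial.eval_add,
        Polynomial.eval_X, Polynomial.eval_sub]
    rw [h2]
    have h3 : ((ct x : ℝ) : ℂ) ^ j * (ee x - 1) ^ j = Complex.I ^ j * (ee x + 1) ^ j := by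
      rw [← mul_pow, hct, mul_pow]
    have h4 : ((algebraMap ℚ ℝ ((cotP r).coeff j) * ct x ^ j : ℝ) : ℂ) =
        (((cotP r).coeff j : ℚ) : ℂ) * ((ct x : ℝ) : ℂ) ^ j := by
      rw [eq_ratCast (algebraMap ℚ ℝ)]
      push_cast
      rfl
    rw [h4]
    calc (((cotP r).coeff j : ℚ) : ℂ) * ((ct x : ℝ) : ℂ) ^ j *
          ((ee x - 1) ^ j * (ee x - 1) ^ (r - j))
        = (((cotP r).coeff j : ℚ) : ℂ) * (((ct x : ℝ) : ℂ) ^ j * (ee x - 1) ^ j) *
          (ee x - 1) ^ (r - j) := by ring
      _ = _ := by rw [h3]; ring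

/-- the poles of `gq` -/
theorem gq_pf {S : Finset ℕ} {k : ℕ} (hS : LeafG S k) {q : ℕ} (hq : q ∈ S) {r : ℕ} (hr : 1 ≤ r)
    {s : ℤ} (hs : ∀ p ∈ S, IsCoprime s (p : ℤ)) : PF (gq S k q r s) (zq S k q s) r := by
  obtain ⟨H, hH1, hH2, hH3⟩ := cotP_ee hr
  set Fm : Finset (Finset ℕ) := S.powerset.filter fun T => q ∈ T with hFm
  set zz : Finset ℕ → ℂ := fun T => ee ((k : ℝ) / 2 - s * (al S T : ℝ)) with hzz
  have hzq : zq S k q s = Fm.image zz := rfl
  have hz0 : ∀ T, zz T ≠ 0 := fun T => ee_ne _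
  have hmem : ∀ T ∈ Fm, zz T ∈ zq S k q s := fun T hT => by
    rw [hzq]
    exact mem_image_of_mem _ hT
  have hinj : ∀ T ∈ Fm, ∀ T' ∈ Fm, zz T = zz T' → T = T' := by
    intro T hT T' hT' h
    obtain ⟨n, hn⟩ := ee_eq_iff.1 h
    have h1 : ((s : ℚ) * (al S T' - al S T)) = n := by
      have h2 : ((((s : ℚ) * (al S T' - al S T) : ℚ)) : ℝ) = ((n : ℚ) : ℝ) := by
        push_cast
        linarith
      exact_mod_cast h2
    exact (al_inj hS hs (mem_filter.1 hT').1 (mem_filter.1 hT).1 h1).symm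
  refine ⟨?_, ?_⟩
  · intro z hz
    rw [hzq] at hz
    obtain ⟨T, -, rfl⟩ := mem_image.1 hz
    exact ⟨_, rfl⟩
  · set co : Finset ℕ → ℂ := fun T =>
      ((((-1) ^ (S \ T).card * (((binP k).eval (al S T) : ℚ) : ℝ) : ℝ)) : ℂ) with hco
    have hco0 : ∀ T ∈ Fm, co T ≠ 0 := by
      intro T hT
      have h1 := binP_al_ne hS ⟨q, hq⟩ (mem_filter.1 hT).1
      rw [hco]
      simp only [ne_eq, Complex.ofReal_eq_zero, mul_eq_zero, not_or]
      refine ⟨pow_ne_zero _ (by norm_num), ?_⟩
      exact_mod_cast h1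
    set tm : Finset ℕ → Polynomial ℂ := fun T => Polynomial.C (co T * zz T ^ r) *
      H.comp (Polynomial.C (zz T)⁻¹ * Polynomial.X) *
      (∏ w ∈ (zq S k q s).erase (zz T), (Polynomial.X - Polynomial.C w)) ^ r with htm
    have hev : ∀ T z, (tm T).eval z = co T * zz T ^ r * H.eval ((zz T)⁻¹ * z) *
        (∏ w ∈ (zq S k q s).erase (zz T), (z - w)) ^ r := by
      intro T z
      simp only [htm, Polynomial.eval_mul, Polynomial.eval_C, Polynomial.eval_comp,
        Polynomial.eval_X, Polynomial.eval_pow, Polynomial.eval_prod, Polynomial.eval_sub]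
    refine ⟨∑ T ∈ Fm, tm T, ?_, ?_, ?_⟩
    · apply Polynomial.natDegree_sum_le_of_forall_le
      intro T hT
      have h1 : (H.comp (Polynomial.C (zz T)⁻¹ * Polynomial.X)).natDegree ≤ r := by
        refine Polynomial.natDegree_comp_le.trans ?_
        have h2 : (Polynomial.C (zz T)⁻¹ * Polynomial.X).natDegree ≤ 1 :=
          (Polynomial.natDegree_C_mul_le _ _).trans Polynomial.natDegree_X_le
        calc H.natDegree * (Polynomial.C (zz T)⁻¹ * Polynomial.X).natDegree ≤ r * 1 :=
              Nat.mul_le_mul hH1 h2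
          _ = r := mul_one r
      have h2 : ((∏ w ∈ (zq S k q s).erase (zz T),
          (Polynomial.X - Polynomial.C w)) ^ r).natDegree ≤ r * ((zq S k q s).card - 1) := by
        refine Polynomial.natDegree_pow_le.trans ?_
        apply Nat.mul_le_mul_left
        refine (Polynomial.natDegree_prod_le _ _).trans ?_
        simp only [Polynomial.natDegree_X_sub_C, sum_const, smul_eq_mul, mul_one]
        rw [card_erase_of_mem (hmem T hT)]
      have h3 : 1 ≤ (zq S k q s).card := card_pos.2 ⟨_, hmem T hT⟩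
      calc (tm T).natDegree ≤ (Polynomial.C (co T * zz T ^ r) *
            H.comp (Polynomial.C (zz T)⁻¹ * Polynomial.X)).natDegree + _ :=
            Polynomial.natDegree_mul_le
        _ ≤ r + r * ((zq S k q s).card - 1) :=
            add_le_add ((Polynomial.natDegree_C_mul_le _ _).trans h1) h2
        _ = r * (zq S k q s).card := by
            obtain ⟨c, hc⟩ : ∃ c, (zq S k q s).card = c + 1 := ⟨_, (Nat.sub_add_cancel h3).symm⟩
            rw [hc, Nat.add_sub_cancel]
            ring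
    · intro z hz
      rw [hzq] at hz
      obtain ⟨T₀, hT₀, rfl⟩ := mem_image.1 hz
      rw [Polynomial.eval_finsetSum, Finset.sum_eq_single_of_mem T₀ hT₀]
      · rw [hev, inv_mul_cancel₀ (hz0 T₀)]
        refine mul_ne_zero (mul_ne_zero (mul_ne_zero (hco0 T₀ hT₀) (pow_ne_zero _ (hz0 T₀))) hH2)
          (pow_ne_zero _ ?_)
        refine prod_ne_zero_iff.2 fun w hw => sub_ne_zero.2 ?_
        exact (mem_erase.1 hw).1.symm
      · intro T hT hTT
        have h1 : zz T₀ ∈ (zq S k q s).erase (zz T) :=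
          mem_erase.2 ⟨fun h => hTT (hinj T hT T₀ hT₀ h.symm), hmem T₀ hT₀⟩
        have h2 : ∏ w ∈ (zq S k q s).erase (zz T), (zz T₀ - w) = 0 :=
          prod_eq_zero h1 (sub_self _)
        rw [hev, h2, zero_pow (by omega : r ≠ 0), mul_zero]
    · intro x hx
      rw [Polynomial.eval_finsetSum]
      have e0 : ((gq S k q r s x : ℝ) : ℂ) = ∑ T ∈ Fm, co T *
          ((((cotP r).map (algebraMap ℚ ℝ)).eval (ct (x + s * (al S T : ℝ) - k / 2)) : ℝ) : ℂ) := by
        unfold gq
        rw [Complex.ofReal_sum]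
        refine sum_congr rfl fun T _ => ?_
        rw [Complex.ofReal_mul]
      rw [e0, Finset.sum_mul]
      refine sum_congr rfl fun T hT => ?_
      have hxT : ee x ≠ zz T := fun h => hx (h ▸ hmem T hT)
      have e1 : ee (x + s * (al S T : ℝ) - k / 2) = (zz T)⁻¹ * ee x := by
        rw [hzz]
        simp only
        rw [← ee_neg, ← ee_add]
        congr 1
        ring
      have hne : ee (x + s * (al S T : ℝ) - k / 2) ≠ 1 := by
        rw [e1]
        intro h
        apply hxT
        have h2 : zz T * ((zz T)⁻¹ * ee x) = zz T * 1 := by rw [h]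
        rwa [mul_inv_cancel_left₀ (hz0 T), mul_one] at h2
      have h3 := hH3 _ hne
      rw [e1] at h3
      rw [hev, ← h3]
      have e2 : ∏ w ∈ zq S k q s, (ee x - w) =
          (ee x - zz T) * ∏ w ∈ (zq S k q s).erase (zz T), (ee x - w) :=
        (mul_prod_erase _ _ (hmem T hT)).symm
      have e3 : zz T ^ r * ((zz T)⁻¹ * ee x - 1) ^ r = (ee x - zz T) ^ r := by
        rw [← mul_pow]
        congr 1
        rw [mul_sub, mul_inv_cancel_left₀ (hz0 T), mul_one]
      rw [e2, mul_pow, ← e3]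
      ring

end Pool.Agent.GSG
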