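import Pool.Agent.GSG.Defs
import Pool.Agent.GSP.A3

/-!
PROOFS (module R5). `ct (x + 1) = ct x` for all `x` (also at the integers), so `ct (x + n) = ct x`.
`gq_neg`: `ct (-x + s α - k / 2) = - ct (x - s α + k / 2) = - ct (x + (-s) α - k / 2)` (the arguments differ
by the integer `k`), and `P_r (-c) = (-1) ^ r P_r (c)` (`cotP_neg` in GSP/A3).
`gq_shift`: for `T ∋ q`: `a s α_T = s α_T + (a - 1) s α_T` and `(a - 1) α_T = (a - 1) / (2 q) + ∑ p ≠ q, ± (a - 1) / (2 p)`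
with integers `(a - 1) / (2 p)`; so the arguments of `ct` differ by an integer.
`YYG_congr`: copy the proof of `YY_congr` in GSP/A6.lean (line 787); only `0 < p` is used.
-/

set_option autoImplicit false

open Finset

namespace Pool.Agent.GSG

open Pool.Agent.GSP

private theorem R5_ct_int (x : ℝ) (n : ℤ) : ct (x + n) = ct x := by
  unfold ct
  have e : Real.pi * (x + n) = Real.pi * x + n * Real.pi := by ring
  rw [e, Real.cos_add_int_mul_pi, Real.sin_add_int_mul_pi]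
  have h : ((-1 : ℝ) ^ n) ≠ 0 := zpow_ne_zero _ (by norm_num)
  rw [mul_div_mul_left _ _ h]

private theorem R5_ct_neg (x : ℝ) : ct (-x) = -ct x := by
  unfold ct
  rw [mul_neg, Real.cos_neg, Real.sin_neg, div_neg]

theorem gq_int (S : Finset ℕ) (k q r : ℕ) (s : ℤ) (x : ℝ) (n : ℤ) :
    gq S k q r s (x + n) = gq S k q r s x := by
  unfold gq
  refine sum_congr rfl fun T _ => ?_
  have e : x + n + (s : ℝ) * (al S T : ℝ) - k / 2 =
      (x + s * (al S T : ℝ) - k / 2) + n := by ring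
  rw [e, R5_ct_int]

theorem gq_neg (S : Finset ℕ) (k q r : ℕ) (s : ℤ) (x : ℝ) :
    gq S k q r s (-x) = (-1) ^ r * gq S k q r (-s) x := by
  unfold gq
  rw [mul_sum]
  refine sum_congr rfl fun T _ => ?_
  have e : -x + (s : ℝ) * (al S T : ℝ) - k / 2 =
      -(x + ((-s : ℤ) : ℝ) * (al S T : ℝ) - k / 2) + ((-(k : ℤ) : ℤ) : ℝ) := by
    push_cast
    ring
  rw [e, R5_ct_int, R5_ct_neg, cotP_neg]
  ring

/-- the argument of the cotangent -/
private theorem R5_arg {S T : Finset ℕ} (h0 : ∀ p ∈ S, 0 < p) (hT : T ⊆ S) {d : ℤ}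
    (h : ∀ p ∈ S, (2 * p : ℤ) ∣ d) :
    (d : ℝ) * (al S T : ℝ) =
      ((∑ p ∈ T, d / (2 * p) - ∑ p ∈ S \ T, d / (2 * p) : ℤ) : ℝ) := by
  have hg : ∀ p ∈ S, (d : ℝ) * (1 / p) = 2 * ((d / (2 * p) : ℤ) : ℝ) := by
    intro p hp
    have hp0 : (p : ℝ) ≠ 0 := by
      have := h0 p hp
      positivity
    have h1 : 2 * (p : ℤ) * (d / (2 * p)) = d := Int.mul_ediv_cancel' (h p hp)
    have h2 : ((2 * (p : ℤ) * (d / (2 * p)) : ℤ) : ℝ) = (d : ℝ) := by rw [h1]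
    rw [Int.cast_mul, Int.cast_mul] at h2
    rw [← h2]
    push_cast
    field_simp
  have e3 : ((al S T : ℚ) : ℝ) = ((∑ p ∈ T, (1 : ℝ) / p) - ∑ p ∈ S \ T, (1 : ℝ) / p) / 2 := by
    unfold al
    push_cast
    rfl
  rw [e3, mul_div_assoc', mul_sub, mul_sum, mul_sum,
    sum_congr rfl (fun p hp => hg p (hT hp)),
    sum_congr rfl (fun p hp => hg p (mem_sdiff.1 hp).1), ← mul_sum, ← mul_sum]
  push_cast
  ring

/-- the same with the leaf `q` left out -/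
private theorem R5_arg' {S T : Finset ℕ} (h0 : ∀ p ∈ S, 0 < p) (hT : T ⊆ S) {q : ℕ} (hq : q ∈ T)
    {d : ℤ} (h : ∀ p ∈ S, p ≠ q → (2 * p : ℤ) ∣ d) :
    ∃ n : ℤ, (d : ℝ) * (al S T : ℝ) = (d : ℝ) / (2 * q) + n := by
  refine ⟨∑ p ∈ T.erase q, d / (2 * p) - ∑ p ∈ S \ T, d / (2 * p), ?_⟩
  have hg : ∀ p ∈ S, p ≠ q → (d : ℝ) * (1 / p) = 2 * ((d / (2 * p) : ℤ) : ℝ) := by
    intro p hp hpq
    have hp0 : (p : ℝ) ≠ 0 := by
      have := h0 p hp
      positivity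
    have h1 : 2 * (p : ℤ) * (d / (2 * p)) = d := Int.mul_ediv_cancel' (h p hp hpq)
    have h2 : ((2 * (p : ℤ) * (d / (2 * p)) : ℤ) : ℝ) = (d : ℝ) := by rw [h1]
    rw [Int.cast_mul, Int.cast_mul] at h2
    rw [← h2]
    push_cast
    field_simp
  have e3 : ((al S T : ℚ) : ℝ) = ((∑ p ∈ T, (1 : ℝ) / p) - ∑ p ∈ S \ T, (1 : ℝ) / p) / 2 := by
    unfold al
    push_cast
    rfl
  have e4 : ∑ p ∈ T, (d : ℝ) * (1 / p) = d * (1 / q) + ∑ p ∈ T.erase q, (d : ℝ) * (1 / p) :=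
    (add_sum_erase T (fun p => (d : ℝ) * (1 / (p : ℝ))) hq).symm
  rw [e3, mul_div_assoc', mul_sub, mul_sum, mul_sum, e4,
    sum_congr rfl (fun p hp => hg p (hT (mem_of_mem_erase hp)) (ne_of_mem_erase hp)),
    sum_congr rfl (fun p hp => hg p (mem_sdiff.1 hp).1
      (fun e => (mem_sdiff.1 hp).2 (e ▸ hq))), ← mul_sum, ← mul_sum]
  push_cast
  ring

theorem gq_shift {S : Finset ℕ} (h0 : ∀ p ∈ S, 0 < p) {q : ℕ} (hq : q ∈ S) (k r : ℕ) {a : ℤ}
    (s : ℤ) (h : ∀ p ∈ S, p ≠ q → (2 * p : ℤ) ∣ a - 1) (x : ℝ) :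
    gq S k q r (a * s) x = gq S k q r s (x + ((a : ℝ) - 1) * s / (2 * q)) := by
  unfold gq
  refine sum_congr rfl fun T hT => ?_
  rw [mem_filter, mem_powerset] at hT
  obtain ⟨n, hn⟩ := R5_arg' h0 hT.1 hT.2 (d := (a - 1) * s)
    (fun p hp hpq => Dvd.dvd.mul_right (h p hp hpq) s)
  have e : x + ((a * s : ℤ) : ℝ) * (al S T : ℝ) - k / 2 =
      (x + ((a : ℝ) - 1) * s / (2 * q) + s * (al S T : ℝ) - k / 2) + n := by
    push_cast at hn ⊢
    linear_combination hn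
  rw [e, R5_ct_int]

/-- the conjugate moments depend on `s` modulo `2 p` only -/
theorem YYG_congr {S : Finset ℕ} (h0 : ∀ p ∈ S, 0 < p) (k j : ℕ) {s s' : ℤ}
    (h : ∀ p ∈ S, (2 * p : ℤ) ∣ s - s') : YY S k j s = YY S k j s' := by
  have key : ∀ T ∈ S.powerset, ct (s * (al S T : ℝ) - k / 2) = ct (s' * (al S T : ℝ) - k / 2) := by
    intro T hT
    rw [mem_powerset] at hT
    have e2 := R5_arg h0 hT h
    have e1 : (s : ℝ) * (al S T : ℝ) - k / 2 = (s' * (al S T : ℝ) - k / 2) +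
        ((∑ p ∈ T, (s - s') / (2 * p) - ∑ p ∈ S \ T, (s - s') / (2 * p) : ℤ) : ℝ) := by
      rw [← e2]
      push_cast
      ring
    rw [e1, R5_ct_int]
  unfold YY
  by_cases hS : S = ∅
  · rw [if_pos hS, if_pos hS]
  · rw [if_neg hS, if_neg hS]
    congr 1
    refine sum_congr rfl fun T hT => ?_
    rw [key T hT]

end Pool.Agent.GSG
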