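import Pool.Agent.GSG.R4
import Pool.Agent.GSG.R5
import Pool.Agent.GSG.R6

/-!
PROOFS (module R7). `node_twist`: `xp l S = S.sup (padicValNat l) ≥ 1`, so there is `q ∈ S` with
`padicValNat l q = xp l S` (`Finset.exists_mem_eq_sup`), in particular `l ∣ q`, and by coprimality `l ∤ p`,
`padicValNat l p = 0` for the other `p ∈ S`. `c` from `tw_eq`: `tw / (2 q) = c / l`. Apply `gq_shift` to
`a = tz N l i t` (`a - 1 = t * tw`, `2 p ∣ tw` for `p ≠ q` by `tw_dvd`, `0 < 1 ≤ i`): the shift is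
`t * tw * s / (2 q) = t * c * s / l`.
`node_lc`: `κ` from `YY_top`, with `q` and `c` from `node_twist`, at `x = 0`: `0 + t * c * s / l`.
`points`: the image of the `t ∈ range l` with `¬ l ∣ t - t₀` under `t ↦ t c / l`; it is injective even
modulo `1` (`ee_eq_iff`): `(t - t') c / l ∈ ℤ` gives `l ∣ t - t'`. At most one `t ∈ range l` is excluded.
`deg_le`: `ex S k 0 = k + 2 - |S| =: e`, `|S| ≥ 1`: `e + 1 ≤ 2 ^ e` and `2 ^ e * 2 ^ (|S| - 1) = 2 ^ (k + 1)`;
`ex S k 1 + 1 = e + 3 ≤ 2 ^ (e + 2)`.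
-/

set_option autoImplicit false

open Finset

namespace Pool.Agent.GSG

open Pool.Agent.GSP

/-- the leaf with the exponent `xp l S` and the action of the twists on the function `gq` -/
theorem node_twist {N : ℕ} (hN : 0 < N) {S : Finset ℕ} {k : ℕ} (hS : LeafG S k)
    (hNS : ∀ p ∈ S, 2 * p ∣ N) {l : ℕ} (hl : l.Prime) (h5 : 5 ≤ l) (hi : 1 ≤ xp l S) :
    ∃ q ∈ S, padicValNat l q = xp l S ∧ (∀ p ∈ S, p ≠ q → ¬ l ∣ p) ∧
      ∃ c : ℤ, IsCoprime c (l : ℤ) ∧ ∀ (r : ℕ) (s t : ℤ) (x : ℝ),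
        gq S k q r (tz N l (xp l S) t * s) x = gq S k q r s (x + t * c * s / l) := by
  have : Fact l.Prime := ⟨hl⟩
  have hne : S.Nonempty := by
    rw [Finset.nonempty_iff_ne_empty]
    intro h
    rw [xp, h, Finset.sup_empty] at hi
    exact absurd hi (by simp)
  obtain ⟨q, hq, hsup⟩ := Finset.exists_mem_eq_sup S hne (padicValNat l)
  have hqi : padicValNat l q = xp l S := hsup.symm
  have hlq : l ∣ q := dvd_of_one_le_padicValNat (by rw [hqi]; exact hi)
  have hnd : ∀ p ∈ S, p ≠ q → ¬ l ∣ p := by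
    intro p hp hpq hlp
    have h1 := hS.coprime p hp q hq hpq
    have h2 : l ∣ 1 := by
      rw [← h1]
      exact Nat.dvd_gcd hlp hlq
    exact hl.one_lt.ne' (Nat.dvd_one.mp h2)
  obtain ⟨c, hc, hce⟩ := tw_eq hN hl h5 (hS.pos q hq) (hNS q hq) (by rw [hqi]; exact hi)
  rw [hqi] at hce
  refine ⟨q, hq, hqi, hnd, c, hc, fun r s t x => ?_⟩
  have h1 : ∀ p ∈ S, p ≠ q → (2 * p : ℤ) ∣ tz N l (xp l S) t - 1 := by
    intro p hp hpq
    have h2 : padicValNat l p = 0 := padicValNat.eq_zero_of_not_dvd (hnd p hp hpq)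
    have h3 := tw_dvd (i := xp l S) hN hl h5 (hS.pos p hp) (hNS p hp) (by rw [h2]; omega)
    have h4 : tz N l (xp l S) t - 1 = t * tw N l (xp l S) := by
      unfold tz
      ring
    rw [h4]
    exact dvd_mul_of_dvd_right h3 t
  rw [gq_shift hS.pos hq k r s h1 x]
  congr 1
  have hl0 : (l : ℝ) ≠ 0 := by exact_mod_cast hl.ne_zero
  have hq0 : (q : ℝ) ≠ 0 := by exact_mod_cast (hS.pos q hq).ne'
  have h5' : (l : ℝ) * (tw N l (xp l S) : ℝ) = 2 * q * c := by exact_mod_cast hce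
  have h6 : ((tz N l (xp l S) t : ℤ) : ℝ) - 1 = t * (tw N l (xp l S) : ℝ) := by
    unfold tz
    push_cast
    ring
  rw [h6]
  congr 1
  rw [div_eq_div_iff (by positivity) hl0]
  linear_combination (t : ℝ) * s * h5'

/-- the leading coefficients of the twisted conjugate moments -/
theorem node_lc {N : ℕ} (hN : 0 < N) {S : Finset ℕ} {k : ℕ} (hS : LeafG S k)
    (hNS : ∀ p ∈ S, 2 * p ∣ N) {l : ℕ} (hl : l.Prime) (h5 : 5 ≤ l) (hi : 1 ≤ xp l S) :
    ∃ q ∈ S, padicValNat l q = xp l S ∧ ∃ c : ℤ, IsCoprime c (l : ℤ) ∧ ∀ j : ℕ, ∃ κ : ℝ, κ ≠ 0 ∧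
      ∀ s t : ℤ, gq S k q (ex S k j + 1) s (t * c * s / l) ≠ 0 →
        (YY S k j (tz N l (xp l S) t * s)).leadingCoeff =
          κ * gq S k q (ex S k j + 1) s (t * c * s / l) := by
  obtain ⟨q, hq, hqi, _, c, hc, h⟩ := node_twist hN hS hNS hl h5 hi
  refine ⟨q, hq, hqi, c, hc, fun j => ?_⟩
  obtain ⟨κ, hκ, h1⟩ := YY_top hS hq j
  refine ⟨κ, hκ, fun s t hst => ?_⟩
  have h2 := h (ex S k j + 1) s t 0
  rw [zero_add] at h2
  have h3 := h1 (tz N l (xp l S) t * s) (by rw [h2]; exact hst)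
  rw [h3, h2]

/-- the points `t c s / l` -/
theorem points {l : ℕ} (hl : l.Prime) {c : ℤ} (hc : IsCoprime c (l : ℤ)) (t₀ : ℤ) :
    ∃ X : Finset ℝ, Set.InjOn ee X ∧ l ≤ X.card + 1 ∧
      ∀ x ∈ X, ∃ t : ℤ, ¬ (l : ℤ) ∣ t - t₀ ∧ x = t * c / l := by
  classical
  have hl0 : (0 : ℝ) < l := by exact_mod_cast hl.pos
  have hlZ : (l : ℤ) ≠ 0 := by exact_mod_cast hl.ne_zero
  let T : Finset ℕ := (range l).filter fun t : ℕ => ¬ (l : ℤ) ∣ (t : ℤ) - t₀
  let f : ℕ → ℝ := fun t => (t : ℝ) * c / l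
  have hT : l ≤ T.card + 1 := by
    have h1 : ((range l).filter fun t : ℕ => (l : ℤ) ∣ (t : ℤ) - t₀).card ≤ 1 := by
      rw [Finset.card_le_one]
      intro a ha b hb
      rw [mem_filter, mem_range] at ha hb
      have h2 : (l : ℤ) ∣ (a : ℤ) - b := by
        have h3 := dvd_sub ha.2 hb.2
        have h4 : (a : ℤ) - t₀ - ((b : ℤ) - t₀) = (a : ℤ) - b := by ring
        rwa [h4] at h3
      have h5 : (a : ℤ) - b = 0 := by
        apply Int.eq_zero_of_abs_lt_dvd h2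
        rw [abs_lt]
        constructor <;> omega
      omega
    have h2 := card_filter_add_card_filter_not (s := range l) (fun t : ℕ => (l : ℤ) ∣ (t : ℤ) - t₀)
    rw [card_range] at h2
    have h3 : T.card = ((range l).filter fun t : ℕ => ¬ (l : ℤ) ∣ (t : ℤ) - t₀).card := rfl
    omega
  have hee : ∀ a ∈ T, ∀ b ∈ T, ee (f a) = ee (f b) → a = b := by
    intro a ha b hb hab
    have ha' := mem_range.mp (mem_filter.mp ha).1
    have hb' := mem_range.mp (mem_filter.mp hb).1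
    unfold ee at hab
    rw [Complex.exp_eq_exp_iff_exists_int] at hab
    obtain ⟨n, hn⟩ := hab
    have h2 : (2 * Real.pi * Complex.I : ℂ) ≠ 0 := Complex.two_pi_I_ne_zero
    have h3 : ((f a : ℝ) : ℂ) = ((f b : ℝ) : ℂ) + n := by
      apply mul_left_cancel₀ h2
      rw [hn]
      ring
    have h4 : f a = f b + n := by exact_mod_cast h3
    have h5 : (a : ℝ) * c = b * c + n * l := by
      have h6 : (a : ℝ) * c / l = (b : ℝ) * c / l + n := h4
      field_simp at h6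
      linarith
    have h6 : ((a : ℤ) - b) * c = n * l := by
      have h7 : (((a : ℤ) : ℝ) - ((b : ℤ) : ℝ)) * ((c : ℤ) : ℝ) = ((n : ℤ) : ℝ) * ((l : ℤ) : ℝ) := by
        push_cast
        linarith
      exact_mod_cast h7
    have h7 : (l : ℤ) ∣ (a : ℤ) - b := by
      refine hc.symm.dvd_of_dvd_mul_right ?_
      rw [h6]
      exact dvd_mul_left _ _
    have h8 : (a : ℤ) - b = 0 := by
      apply Int.eq_zero_of_abs_lt_dvd h7
      rw [abs_lt]
      constructor <;> omega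
    omega
  refine ⟨T.image f, ?_, ?_, ?_⟩
  · intro x hx y hy hxy
    rw [mem_coe, mem_image] at hx hy
    obtain ⟨a, ha, rfl⟩ := hx
    obtain ⟨b, hb, rfl⟩ := hy
    rw [hee a ha b hb hxy]
  · rw [card_image_of_injOn]
    · exact hT
    · intro a ha b hb hab
      exact hee a (mem_coe.mp ha) b (mem_coe.mp hb) (by rw [hab])
  · intro x hx
    rw [mem_image] at hx
    obtain ⟨a, ha, rfl⟩ := hx
    refine ⟨(a : ℤ), (mem_filter.mp ha).2, ?_⟩
    simp [f]

/-- the degree of `gq` -/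
theorem deg_le {S : Finset ℕ} {k B : ℕ} (hS : LeafG S k) (hne : S.Nonempty) (hB : k + 2 ≤ B) :
    (ex S k 0 + 1) * 2 ^ (S.card - 1) ≤ 2 ^ (B - 1) ∧
      (ex S k 1 + 1) * 2 ^ (S.card - 1) ≤ 2 ^ (B + 1) := by
  have hc := hS.card_le
  have hp : 0 < S.card := card_pos.mpr hne
  obtain ⟨e, he⟩ : ∃ e, k + 2 = e + S.card := ⟨k + 2 - S.card, by omega⟩
  have h0 : ex S k 0 = e := by
    unfold ex
    omega
  have h1 : ex S k 1 = e + 2 := by
    unfold ex
    omega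
  have key : ∀ m, (m + 1) * 2 ^ (S.card - 1) ≤ 2 ^ (m + (S.card - 1)) := by
    intro m
    rw [pow_add]
    exact Nat.mul_le_mul_right _ (Nat.lt_two_pow_self)
  rw [h0, h1]
  refine ⟨(key e).trans ?_, (key (e + 2)).trans ?_⟩
  · exact Nat.pow_le_pow_right (by omega) (by omega)
  · exact Nat.pow_le_pow_right (by omega) (by omega)

end Pool.Agent.GSG
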