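import Pool.Agent.GSG.R1b
import Pool.Agent.GSG.R2
import Pool.Agent.GSG.R3b
import Pool.Agent.GSG.R7
import Pool.Agent.GSG.M4
import Pool.Agent.GSG.K1

/-!
PROOF (module K6). `q`, `c`, `κ` for `S` and `q'`, `c'`, `κ'` for `S'` from `node_lc` (`j = 0`; `xp l S' = xp l S`),
`n, m₀, m₀'` from `thue` for `c`, `c'`; `m = m₀`, `m' = |m₀'|`, `ε` the sign of `m₀'`. `e = ex S k 0`, `e' = ex S' k' 0`. For
an integer `u` let `t = n u`: `t c / l ≡ m u / l` and `t c' / l ≡ ε m' u / l` modulo `1` (`gq_int`), and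
`gq S' k' q' r 1 (- y) = ± gq S' k' q' r (-1) y` (`gq_neg`), so with `x = u / l`: if `tz t` is a unit and
`g x := gq S k q (e + 1) 1 (m x) ≠ 0`, `g' x := gq S' k' q' (e' + 1) ε (m' x) ≠ 0`, the leading coefficients in `h t` give
`C₁ g(x)² = C₂ g'(x)²`, `C₁ = κ² lc(YY' 1)²`, `C₂ = κ'² lc(YY 1)²`, both nonzero (`YYG_ne`). `X` from `points` (`c = 1`,
`t₀` replaced by a solution of `n u₀ ≡ t₀`). `PF.mulN` gives `PF g Zm (e + 1)`, `|Zm| = m 2 ^ (|S| - 1)` (`zq_card`) and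
the same for `g'`. `PF.two`: the condition is
`4 ((e + 1) m 2 ^ (|S| - 1) + (e' + 1) m' 2 ^ (|S'| - 1)) ≤ 4 M 2 ^ B < l - 1`, `M = max m m'`, `M² ≤ l`
(`deg_le`): `(M 2 ^ (B + 3))² ≤ l 4 ^ (B + 3) ≤ l²`, so `M 2 ^ (B + 2) ≤ l / 2`. It gives `Zm = Z'm'` (this is the
equivalence), `e + 1 = e' + 1`, the equality of the cardinalities and the identity with `C = C₂ / C₁`.
-/

set_option autoImplicit false

open Finset

namespace Pool.Agent.GSG

open Pool.Agent.GSP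

/-- the values at the points `n u c / l` -/
private theorem K6_val (S : Finset ℕ) (k q r : ℕ) {l : ℕ} (hl : 0 < l) {n c m : ℤ}
    (h : (l : ℤ) ∣ n * c - m) (u : ℤ) :
    gq S k q r 1 (((n * u : ℤ) : ℝ) * c * ((1 : ℤ) : ℝ) / l) = gq S k q r 1 (m * ((u : ℝ) / l)) := by
  obtain ⟨d, hd⟩ := h
  have hl0 : (l : ℝ) ≠ 0 := by exact_mod_cast hl.ne'
  have h1 : (n : ℝ) * c - m = l * d := by exact_mod_cast hd
  have h2 : ((n * u : ℤ) : ℝ) * c * ((1 : ℤ) : ℝ) / l = m * ((u : ℝ) / l) + ((u * d : ℤ) : ℝ) := by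
    have h3 : (n : ℝ) * c = m + l * d := by linarith
    push_cast
    have h4 : (n : ℝ) * u * c * 1 / l = (n * c) * u / l := by ring
    rw [h4, h3]
    field_simp
  rw [h2, gq_int]

/-- the numerical condition -/
private theorem K6_num {B l m m' a a' : ℕ} (hb : 4 ^ (B + 3) ≤ l) (hm : m ^ 2 ≤ l)
    (hm' : m' ^ 2 ≤ l) (ha : a ≤ 2 ^ (B - 1)) (ha' : a' ≤ 2 ^ (B - 1)) (hB : 1 ≤ B) {X : ℕ}
    (hX : l ≤ X + 1) : 4 * (m * a + m' * a') < X := by
  have key : ∀ x : ℕ, x ^ 2 ≤ l → x * 2 ^ (B + 3) ≤ l := by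
    intro x hx
    have h1 : (x * 2 ^ (B + 3)) ^ 2 ≤ l ^ 2 := by
      calc (x * 2 ^ (B + 3)) ^ 2 = x ^ 2 * 4 ^ (B + 3) := by
            rw [mul_pow, ← pow_mul, mul_comm (B + 3) 2, pow_mul]
            norm_num
        _ ≤ l * l := Nat.mul_le_mul hx hb
        _ = l ^ 2 := by ring
    exact (Nat.pow_le_pow_iff_left (by norm_num)).1 h1
  have h1 := key m hm
  have h2 := key m' hm'
  have h64 : 64 ≤ l := by
    have h3 : 4 ^ 3 ≤ 4 ^ (B + 3) := Nat.pow_le_pow_right (by norm_num) (by omega)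
    omega
  obtain ⟨b, rfl⟩ : ∃ b, B = b + 1 := ⟨B - 1, by omega⟩
  have h5 : m * a ≤ m * 2 ^ b := Nat.mul_le_mul_left _ ha
  have h6 : m' * a' ≤ m' * 2 ^ b := Nat.mul_le_mul_left _ ha'
  have h7 : m * 2 ^ (b + 1 + 3) = 16 * (m * 2 ^ b) := by ring
  have h8 : m' * 2 ^ (b + 1 + 3) = 16 * (m' * 2 ^ b) := by ring
  omega

/-- the identity for the functions of two nodes with proportional moments -/
theorem dec_ident {B N : ℕ} (hN : 0 < N) (h4 : 4 ∣ N) {S S' : Finset ℕ} {k k' : ℕ}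
    (hS : LeafG S k) (hS' : LeafG S' k') (hNS : ∀ p ∈ S, 2 * p ∣ N) (hNS' : ∀ p ∈ S', 2 * p ∣ N)
    (hB : k + 2 ≤ B) (hB' : k' + 2 ≤ B) {l : ℕ} (hl : l.Prime) (hb : 4 ^ (B + 3) ≤ l)
    (hi : 1 ≤ xp l S) (hi' : xp l S' = xp l S)
    (h : ∀ t : ℤ, IsCoprime (tz N l (xp l S) t) (N : ℤ) →
      (YY S k 0 (tz N l (xp l S) t) * YY S' k' 0 1) ^ 2 =
        (YY S' k' 0 (tz N l (xp l S) t) * YY S k 0 1) ^ 2) :
    ∃ q ∈ S, ∃ q' ∈ S', l ∣ q ∧ l ∣ q' ∧ ∃ (m m' : ℕ) (ε : ℤ), (ε = 1 ∨ ε = -1) ∧ 0 < m ∧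
      0 < m' ∧ Nat.Coprime m m' ∧ (∀ z : ℂ, z ^ m ∈ zq S k q 1 ↔ z ^ m' ∈ zq S' k' q' ε) ∧
      m * 2 ^ (S.card - 1) = m' * 2 ^ (S'.card - 1) ∧ ex S k 0 = ex S' k' 0 ∧
      ∃ C : ℝ, C ≠ 0 ∧ ∀ x : ℝ, ee (m * x) ∉ zq S k q 1 →
        gq S k q (ex S k 0 + 1) 1 (m * x) ^ 2 =
          C * gq S' k' q' (ex S' k' 0 + 1) ε (m' * x) ^ 2 := by
  have h64 : 64 ≤ l := by
    have h3 : 4 ^ 3 ≤ 4 ^ (B + 3) := Nat.pow_le_pow_right (by norm_num) (by omega)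
    omega
  have h5 : 5 ≤ l := by omega
  have hl0 : 0 < l := by omega
  have hlp : _root_.Prime (l : ℤ) := Nat.prime_iff_prime_int.1 hl
  obtain ⟨q, hq, hqv, c, hc, hlc⟩ := node_lc hN hS hNS hl h5 hi
  obtain ⟨q', hq', hqv', c', hc', hlc'⟩ := node_lc hN hS' hNS' hl h5 (by omega)
  obtain ⟨κ, hκ, hk⟩ := hlc 0
  obtain ⟨κ', hκ', hk'⟩ := hlc' 0
  obtain ⟨n, m₀, m₁, hn, hm₀, hm₁, hcop, hsq, hsq', hd, hd'⟩ := thue hl hc hc'
  obtain ⟨t₀, ht₀⟩ := tz_unit (i := xp l S) hN hl hi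
  -- the natural numbers
  obtain ⟨m, hm⟩ : ∃ m : ℕ, m = m₀.natAbs := ⟨_, rfl⟩
  obtain ⟨m', hm'⟩ : ∃ m' : ℕ, m' = m₁.natAbs := ⟨_, rfl⟩
  have hmz : (m : ℤ) = m₀ := by omega
  have hmp : 0 < m := by omega
  have hmp' : 0 < m' := by omega
  have hcop' : Nat.Coprime m m' := by
    rw [hm, hm']
    exact Int.isCoprime_iff_gcd_eq_one.1 hcop
  have hsqm : m ^ 2 ≤ l := by
    have h1 : ((m : ℤ)) ^ 2 ≤ l := by rw [hmz]; exact hsq
    exact_mod_cast h1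
  have hsqm' : m' ^ 2 ≤ l := by
    have h1 : ((m' : ℤ)) ^ 2 ≤ l := by
      rw [hm', Int.natCast_natAbs, sq_abs]
      exact hsq'
    exact_mod_cast h1
  -- the sign
  obtain ⟨ε, hε, σ, hσ, hval'⟩ : ∃ ε : ℤ, (ε = 1 ∨ ε = -1) ∧ ∃ σ : ℝ, σ ^ 2 = 1 ∧ ∀ x : ℝ,
      gq S' k' q' (ex S' k' 0 + 1) 1 (m₁ * x) = σ * gq S' k' q' (ex S' k' 0 + 1) ε (m' * x) := by
    rcases lt_or_gt_of_ne hm₁ with hneg | hpos
    · refine ⟨-1, Or.inr rfl, (-1) ^ (ex S' k' 0 + 1), ?_, fun x => ?_⟩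
      · rw [← pow_mul, mul_comm, pow_mul]
        norm_num
      · have h1 : m₁ = -(m' : ℤ) := by omega
        have h2 : (m₁ : ℝ) * x = -((m' : ℝ) * x) := by
          rw [h1]
          push_cast
          ring
        rw [h2, gq_neg]
    · refine ⟨1, Or.inl rfl, 1, by norm_num, fun x => ?_⟩
      have h1 : m₁ = (m' : ℤ) := by omega
      rw [h1, one_mul]
      push_cast
      rfl
  have hε' : ∀ p ∈ S', IsCoprime ε (p : ℤ) := by
    intro p _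
    rcases hε with rfl | rfl
    · exact isCoprime_one_left
    · exact (isCoprime_one_left).neg_left
  have h1S : ∀ p ∈ S, IsCoprime (1 : ℤ) (p : ℤ) := fun p _ => isCoprime_one_left
  have h1S' : ∀ p ∈ S', IsCoprime (1 : ℤ) (p : ℤ) := fun p _ => isCoprime_one_left
  -- the functions
  obtain ⟨Z, hZ, hZc, hPF⟩ := (gq_pf hS hq (Nat.succ_le_succ (Nat.zero_le (ex S k 0))) h1S).mulN hmp
  obtain ⟨Z', hZ', hZc', hPF'⟩ :=
    (gq_pf hS' hq' (Nat.succ_le_succ (Nat.zero_le (ex S' k' 0))) hε').mulN hmp'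
  rw [zq_card hS hq h1S] at hZc
  rw [zq_card hS' hq' hε'] at hZc'
  have hZne : Z.Nonempty := by
    rw [← card_pos, hZc]
    positivity
  have hZne' : Z'.Nonempty := by
    rw [← card_pos, hZc']
    positivity
  -- the leading coefficients
  have hL1 : (YY S k 0 1).leadingCoeff ≠ 0 :=
    Polynomial.leadingCoeff_ne_zero.2 (YYG_ne hS 0 ⟨odd_one, h1S⟩)
  have hL1' : (YY S' k' 0 1).leadingCoeff ≠ 0 :=
    Polynomial.leadingCoeff_ne_zero.2 (YYG_ne hS' 0 ⟨odd_one, h1S'⟩)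
  -- the points
  obtain ⟨a, b, hab⟩ := hn
  obtain ⟨X, hXi, hXc, hX⟩ := points hl (c := 1) isCoprime_one_left (a * t₀)
  have hcard : 4 * ((ex S k 0 + 1) * Z.card + (ex S' k' 0 + 1) * Z'.card) < X.card := by
    have e1 : (ex S k 0 + 1) * Z.card = m * ((ex S k 0 + 1) * 2 ^ (S.card - 1)) := by
      rw [hZc]
      ring
    have e2 : (ex S' k' 0 + 1) * Z'.card = m' * ((ex S' k' 0 + 1) * 2 ^ (S'.card - 1)) := by
      rw [hZc']
      ring
    rw [e1, e2]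
    exact K6_num hb hsqm hsqm' (deg_le hS ⟨q, hq⟩ hB).1 (deg_le hS' ⟨q', hq'⟩ hB').1 (by omega) hXc
  obtain ⟨hZZ, hmm, hid⟩ := PF.two hPF hPF' hZne hZne' (Nat.succ_le_succ (Nat.zero_le _))
    (Nat.succ_le_succ (Nat.zero_le _)) (C₁ := (κ * (YY S' k' 0 1).leadingCoeff) ^ 2)
    (C₂ := (κ' * (YY S k 0 1).leadingCoeff) ^ 2) (pow_ne_zero 2 (mul_ne_zero hκ hL1'))
    (pow_ne_zero 2 (mul_ne_zero hκ' hL1)) X hXi hcard (by
      intro x hx _ _ hg hg'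
      obtain ⟨u, hu, hxu⟩ := hX x hx
      have hxu' : x = (u : ℝ) / l := by
        rw [hxu]
        push_cast
        ring
      have hunit : IsCoprime (tz N l (xp l S) (n * u)) (N : ℤ) := by
        apply ht₀
        intro hdv
        have e1 : n * u - t₀ = n * (u - a * t₀) - (b * l) * t₀ := by
          have : t₀ = (a * n + b * l) * t₀ := by rw [hab, one_mul]
          nth_rewrite 1 [this]
          ring
        have e2 : (l : ℤ) ∣ n * (u - a * t₀) := by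
          have e3 : n * (u - a * t₀) = (n * u - t₀) + (b * l) * t₀ := by
            rw [e1]
            ring
          rw [e3]
          exact dvd_add hdv (Dvd.dvd.mul_right (dvd_mul_left _ _) _)
        rcases hlp.dvd_or_dvd e2 with h7 | h7
        · have h8 : (l : ℤ) ∣ 1 := by
            rw [← hab]
            exact dvd_add (Dvd.dvd.mul_left h7 a) (dvd_mul_left _ _)
          exact hlp.not_isUnit (isUnit_of_dvd_one h8)
        · exact hu h7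
      have hmR : (m : ℝ) = (m₀ : ℝ) := by
        rw [← hmz]
        push_cast
        rfl
      have v1 : gq S k q (ex S k 0 + 1) 1 (((n * u : ℤ) : ℝ) * c * ((1 : ℤ) : ℝ) / l) =
          gq S k q (ex S k 0 + 1) 1 (m * x) := by
        rw [K6_val S k q _ hl0 hd u, hmR, hxu']
      have v2 : gq S' k' q' (ex S' k' 0 + 1) 1 (((n * u : ℤ) : ℝ) * c' * ((1 : ℤ) : ℝ) / l) =
          σ * gq S' k' q' (ex S' k' 0 + 1) ε (m' * x) := by
        rw [K6_val S' k' q' _ hl0 hd' u, ← hxu', hval']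
      have hσ0 : σ ≠ 0 := by
        intro h0
        rw [h0] at hσ
        norm_num at hσ
      have w1 := hk 1 (n * u) (by rw [v1]; exact hg)
      have w2 := hk' 1 (n * u) (by rw [v2]; exact mul_ne_zero hσ0 hg')
      rw [mul_one, v1] at w1
      rw [mul_one, v2, hi'] at w2
      have w3 := congrArg Polynomial.leadingCoeff (h (n * u) hunit)
      rw [Polynomial.leadingCoeff_pow, Polynomial.leadingCoeff_pow, Polynomial.leadingCoeff_mul,
        Polynomial.leadingCoeff_mul, w1, w2] at w3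
      calc (κ * (YY S' k' 0 1).leadingCoeff) ^ 2 * gq S k q (ex S k 0 + 1) 1 (m * x) ^ 2
          = (κ * gq S k q (ex S k 0 + 1) 1 (m * x) * (YY S' k' 0 1).leadingCoeff) ^ 2 := by ring
        _ = σ ^ 2 * ((κ' * (YY S k 0 1).leadingCoeff) ^ 2 *
            gq S' k' q' (ex S' k' 0 + 1) ε (m' * x) ^ 2) := by
            rw [w3]
            ring
        _ = _ := by rw [hσ, one_mul])
  have hlq : ∀ {y : ℕ}, 1 ≤ padicValNat l y → l ∣ y := by
    intro y hy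
    exact dvd_of_one_le_padicValNat hy
  refine ⟨q, hq, q', hq', hlq (by omega), hlq (by omega), m, m', ε, hε, hmp, hmp', hcop', ?_, ?_,
    by omega, (κ' * (YY S k 0 1).leadingCoeff) ^ 2 / (κ * (YY S' k' 0 1).leadingCoeff) ^ 2,
    div_ne_zero (pow_ne_zero 2 (mul_ne_zero hκ' hL1)) (pow_ne_zero 2 (mul_ne_zero hκ hL1')), ?_⟩
  · intro z
    rw [← hZ, ← hZ', hZZ]
  · rw [← hZc, ← hZc', hZZ]
  · intro x hx
    have hx' : ee x ∉ Z := by
      rw [hZ, ← ee_nat_mul]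
      exact hx
    have h9 := hid x hx'
    have h10 : (κ * (YY S' k' 0 1).leadingCoeff) ^ 2 ≠ 0 := pow_ne_zero 2 (mul_ne_zero hκ hL1')
    rw [div_mul_eq_mul_div, eq_div_iff h10, mul_comm, h9]

end Pool.Agent.GSG
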