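import Pool.Agent.GSG.K2
import Pool.Agent.GSG.K5
import Pool.Agent.GSG.K6

/-!
PROOF (module K7). The statement is symmetric in `(S, k)`, `(S', k')`; so prove it first under `|S'| ≤ |S|` (as a
separate lemma) and use it for the two orders. `dec_ident` and `two_pow_ratio` (`a = |S| - 1`, `a' = |S'| - 1`):
`m = 1`, `m' = 2 ^ d`, `d = |S| - |S'|`. Write `Z = zq S k q 1`.
(1) `Z` is invariant under the multiplication by `ee (1 / 2 ^ d)`: `(z ee (1 / 2 ^ d)) ^ (2 ^ d) = z ^ (2 ^ d)`.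
So for `T ∋ q` there is `T' ∋ q` with `ee (k / 2 - al S T + 1 / 2 ^ d) = ee (k / 2 - al S T')`, i.e.
`al S T + δ - al S T' ∈ ℤ` with `δ = - 1 / 2 ^ d`; `translate`: `δ ∈ ℤ`, so `d = 0`, or `2 ∈ S.erase q` and
`δ - 1 / 2 ∈ ℤ`, so `d = 1`.
(2) `d = 1`: `k + 2 - |S| = ex S k 0 = ex S' k' 0 = k' + 2 - |S'|` gives `k = k' + 1 ≥ 2`; the identity is
`gq S k q r 1 x ^ 2 = C * gq S' k' q' r ε (2 x) ^ 2` for `ee x ∉ Z`, and `2 (x + 1 / 2) = 2 x + 1` (`gq_int`,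
module R5), so `no_half` gives a contradiction (`2 k < l`).
(3) `d = 0`: `|S| = |S'|`, `k = k'`, `Z = zq S' k q' ε`. For `T ∋ q` there is `T' ∋ q'` with
`ee (k / 2 - al S T) = ee (k / 2 - ε al S' T')`, i.e. `al S T - ε al S' T' ∈ ℤ`, and conversely; `decode_one`
(`q, q' ≥ l ≥ 3` as `l ∣ q`, `l ∣ q'`): `S = S'`.
-/

set_option autoImplicit false

open Finset

namespace Pool.Agent.GSG

open Pool.Agent.GSP

/-- the size of `l` -/
private theorem K7_big {B k l : ℕ} (hB : k + 2 ≤ B) (hb : 4 ^ (B + 3) ≤ l) : 2 * k < l ∧ 3 ≤ l := by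
  have h1 : B + 3 < 4 ^ (B + 3) := Nat.lt_pow_self (by norm_num)
  have h2 : 4 ^ (B + 3) = 4 * 4 ^ (B + 2) := by ring
  have h3 : B + 2 < 4 ^ (B + 2) := Nat.lt_pow_self (by norm_num)
  omega

private theorem K7_mem {S : Finset ℕ} {k q : ℕ} {s : ℤ} {z : ℂ} :
    z ∈ zq S k q s ↔ ∃ T ∈ S.powerset, q ∈ T ∧ ee ((k : ℝ) / 2 - s * (al S T : ℝ)) = z := by
  unfold zq
  rw [mem_image]
  constructor
  · rintro ⟨T, hT, h⟩
    exact ⟨T, (mem_filter.1 hT).1, (mem_filter.1 hT).2, h⟩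
  · rintro ⟨T, hT, hq, h⟩
    exact ⟨T, mem_filter.2 ⟨hT, hq⟩, h⟩

/-- the case of the larger set `S` -/
private theorem K7_main {B N : ℕ} (hN : 0 < N) (h4 : 4 ∣ N) {S S' : Finset ℕ} {k k' : ℕ}
    (hS : LeafG S k) (hS' : LeafG S' k') (hNS : ∀ p ∈ S, 2 * p ∣ N) (hNS' : ∀ p ∈ S', 2 * p ∣ N)
    (hB : k + 2 ≤ B) (hB' : k' + 2 ≤ B) {l : ℕ} (hl : l.Prime) (hb : 4 ^ (B + 3) ≤ l)
    (hi : 1 ≤ xp l S) (hi' : xp l S' = xp l S) (hle : S'.card ≤ S.card)
    (h : ∀ t : ℤ, IsCoprime (tz N l (xp l S) t) (N : ℤ) →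
      (YY S k 0 (tz N l (xp l S) t) * YY S' k' 0 1) ^ 2 =
        (YY S' k' 0 (tz N l (xp l S) t) * YY S k 0 1) ^ 2) : S = S' ∧ k = k' := by
  obtain ⟨q, hq, q', hq', hlq, hlq', m, m', ε, hε, hm, hm', hcop, hZ, hcard, hex, C, hC, hid⟩ :=
    dec_ident hN h4 hS hS' hNS hNS' hB hB' hl hb hi hi' h
  obtain ⟨hkl, h3l⟩ := K7_big hB hb
  have hc0 : 0 < S.card := card_pos.2 ⟨q, hq⟩
  have hc0' : 0 < S'.card := card_pos.2 ⟨q', hq'⟩
  obtain ⟨hm1, hm2⟩ := two_pow_ratio hm hm' hcop hcard (by omega)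
  obtain ⟨d, hd⟩ : ∃ d, d = S.card - 1 - (S'.card - 1) := ⟨_, rfl⟩
  rw [← hd] at hm2
  subst hm1
  subst hm2
  simp only [pow_one] at hZ
  simp only [Nat.cast_one, one_mul] at hid
  have hcl := hS.card_le
  have hcl' := hS'.card_le
  have hex' : k + 2 - S.card = k' + 2 - S'.card := by
    have := hex
    unfold ex at this
    omega
  have h3q : 3 ≤ q := le_trans h3l (Nat.le_of_dvd (hS.pos q hq) hlq)
  have h3q' : 3 ≤ q' := le_trans h3l (Nat.le_of_dvd (hS'.pos q' hq') hlq')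
  -- the invariance of the poles
  have hinv : ∀ T ∈ S.powerset, q ∈ T → ∃ T' ∈ S.powerset, q ∈ T' ∧
      ∃ n : ℤ, al S T + (-1 / 2 ^ d : ℚ) - al S T' = n := by
    intro T hT hqT
    have h1 : ee ((k : ℝ) / 2 - (1 : ℤ) * (al S T : ℝ)) ∈ zq S k q 1 := K7_mem.2 ⟨T, hT, hqT, rfl⟩
    have h2 := (hZ _).1 h1
    have h3 : (ee ((k : ℝ) / 2 - (1 : ℤ) * (al S T : ℝ) + 1 / 2 ^ d)) ^ (2 ^ d) =
        (ee ((k : ℝ) / 2 - (1 : ℤ) * (al S T : ℝ))) ^ (2 ^ d) := by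
      rw [ee_add, mul_pow, ← ee_nat_mul (2 ^ d) (1 / 2 ^ d)]
      have h4 : ((2 ^ d : ℕ) : ℝ) * (1 / 2 ^ d) = ((1 : ℤ) : ℝ) := by
        push_cast
        field_simp
      rw [h4, ee_int, mul_one]
    rw [← h3] at h2
    obtain ⟨T', hT', hqT', h5⟩ := K7_mem.1 ((hZ _).2 h2)
    obtain ⟨n, hn⟩ := ee_eq_iff.1 h5
    refine ⟨T', hT', hqT', n, ?_⟩
    have h6 : ((al S T + (-1 / 2 ^ d : ℚ) - al S T' : ℚ) : ℝ) = ((n : ℚ) : ℝ) := by
      push_cast
      push_cast at hn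
      rw [← hn]
      ring
    exact_mod_cast h6
  have hdd : d = 0 ∨ (d = 1 ∧ 2 ∈ S.erase q) := by
    rcases translate hS hq hinv with ⟨n, hn⟩ | ⟨h2, n, hn⟩
    · left
      by_contra hne
      have h1 : (1 : ℚ) < 2 ^ d := one_lt_pow₀ (by norm_num) hne
      have h2 : (0 : ℚ) < 1 / 2 ^ d := by positivity
      have h3 : (1 : ℚ) / 2 ^ d < 1 := by
        rw [div_lt_one (by positivity)]
        exact h1
      have h4 : (-1 / 2 ^ d : ℚ) = -(1 / 2 ^ d) := by ring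
      rw [h4] at hn
      have h5 : (n : ℚ) < 0 := by linarith
      have h6 : (-1 : ℚ) < n := by linarith
      have h7 : n < 0 := by exact_mod_cast h5
      have h8 : -1 < n := by exact_mod_cast h6
      omega
    · by_cases hd2 : d ≤ 1
      · interval_cases d
        · left; rfl
        · right; exact ⟨rfl, h2⟩
      · exfalso
        have h1 : (2 : ℚ) < 2 ^ d := by
          calc (2 : ℚ) = 2 ^ 1 := by norm_num
            _ < 2 ^ d := pow_lt_pow_right₀ (by norm_num) (by omega)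
        have h2 : (0 : ℚ) < 1 / 2 ^ d := by positivity
        have h3 : (1 : ℚ) / 2 ^ d < 1 / 2 := one_div_lt_one_div_of_lt (by norm_num) h1
        have h4 : (-1 / 2 ^ d : ℚ) = -(1 / 2 ^ d) := by ring
        rw [h4] at hn
        have h5 : (n : ℚ) < 0 := by linarith
        have h6 : (-1 : ℚ) < n := by linarith
        have h7 : n < 0 := by exact_mod_cast h5
        have h8 : -1 < n := by exact_mod_cast h6
        omega
  rcases hdd with hd0 | ⟨hd1, h2⟩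
  · -- the sets have the same cardinality
    subst hd0
    simp only [pow_zero, pow_one] at hZ
    have hkk : k = k' := by omega
    refine ⟨decode_one hS hS' hq hq' h3q h3q' hε ?_ ?_, hkk⟩
    · intro T hT hqT
      have h1 : ee ((k : ℝ) / 2 - (1 : ℤ) * (al S T : ℝ)) ∈ zq S k q 1 := K7_mem.2 ⟨T, hT, hqT, rfl⟩
      obtain ⟨T', hT', hqT', h5⟩ := K7_mem.1 ((hZ _).1 h1)
      obtain ⟨n, hn⟩ := ee_eq_iff.1 h5
      refine ⟨T', hT', hqT', n, ?_⟩
      have h6 : ((al S T - ε * al S' T' : ℚ) : ℝ) = ((n : ℚ) : ℝ) := by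
        rw [hkk] at hn
        push_cast
        push_cast at hn
        linarith
      exact_mod_cast h6
    · intro T' hT' hqT'
      have h1 : ee ((k' : ℝ) / 2 - ε * (al S' T' : ℝ)) ∈ zq S' k' q' ε :=
        K7_mem.2 ⟨T', hT', hqT', rfl⟩
      obtain ⟨T, hT, hqT, h5⟩ := K7_mem.1 ((hZ _).2 h1)
      obtain ⟨n, hn⟩ := ee_eq_iff.1 h5
      refine ⟨T, hT, hqT, -n, ?_⟩
      have h6 : ((al S T - ε * al S' T' : ℚ) : ℝ) = (((-n : ℤ) : ℚ) : ℝ) := by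
        rw [hkk] at hn
        push_cast
        push_cast at hn
        linarith
      exact_mod_cast h6
  · -- two different cardinalities
    exfalso
    subst hd1
    have hk1 : 1 ≤ k' := hS'.one_le
    have hk2 : 2 ≤ k := by omega
    refine no_half hS hk2 hq h2 hl hkl hlq (r := ex S k 0 + 1) (Nat.succ_le_succ (Nat.zero_le _)) ?_
    intro x hx hx'
    rw [hid x hx, hid (x + 1 / 2) hx']
    have h5 : ((2 ^ 1 : ℕ) : ℝ) * (x + 1 / 2) = ((2 ^ 1 : ℕ) : ℝ) * x + ((1 : ℤ) : ℝ) := by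
      push_cast
      ring
    rw [h5, gq_int]

/-- a node is determined by the values of its moment at the twists, up to a constant -/
theorem decode_node {B N : ℕ} (hN : 0 < N) (h4 : 4 ∣ N) {S S' : Finset ℕ} {k k' : ℕ}
    (hS : LeafG S k) (hS' : LeafG S' k') (hNS : ∀ p ∈ S, 2 * p ∣ N) (hNS' : ∀ p ∈ S', 2 * p ∣ N)
    (hB : k + 2 ≤ B) (hB' : k' + 2 ≤ B) {l : ℕ} (hl : l.Prime) (hb : 4 ^ (B + 3) ≤ l)
    (hi : 1 ≤ xp l S) (hi' : xp l S' = xp l S)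
    (h : ∀ t : ℤ, IsCoprime (tz N l (xp l S) t) (N : ℤ) →
      (YY S k 0 (tz N l (xp l S) t) * YY S' k' 0 1) ^ 2 =
        (YY S' k' 0 (tz N l (xp l S) t) * YY S k 0 1) ^ 2) : S' = S ∧ k' = k := by
  rcases le_total S'.card S.card with hle | hle
  · obtain ⟨h1, h2⟩ := K7_main hN h4 hS hS' hNS hNS' hB hB' hl hb hi hi' hle h
    exact ⟨h1.symm, h2.symm⟩
  · refine K7_main hN h4 hS' hS hNS' hNS hB' hB hl hb (by omega) hi'.symm hle ?_
    intro t ht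
    rw [hi'] at ht ⊢
    exact (h t ht).symm

end Pool.Agent.GSG
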