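import Pool.Agent.GSG.Defs
import Pool.Agent.GSP.A3

/-!
PROOFS (module M1). The model is GSP/A4.lean (there `|S| ≤ 2`), but here the terms of the different `T` must
stay together. With `2 sinh (r / 2p) = exp (r / 2p) - exp (- r / 2p)` one has (`A4_prod`, `A4_node` there)
`r ^ (2 + 2 j) nodeR = ∏ p * r ^ ex * ∏ p (2 sinh (r / (2 p))) / (2 sinh (r / 2)) ^ k`, `ex = ex S k j`, and
`∏ p (2 sinh (r / (2 p))) = ∑ T, (-1) ^ |S \ T| exp (al S T * r) ≥ 0`.
Integrability: `sinh x ≤ x exp x` for `x ≥ 0` gives `∏ sinh (r/2p) / (r/2p) ≤ exp (r ∑ 1 / (2 p))`, and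
`(r / 2) / sinh (r / 2) ≤ (1 + r) exp (- r / 2)` (`A4_sinh_bound`), so the integrand is at most
`r ^ (2 + 2 j) (1 + r) ^ k exp (- (k - ∑ 1 / p) r / 2)` with `k - ∑ 1 / p > 0` (`hS.lt`). Positivity as in `mu_pos`.
`muG_hasSum`: `(2 sinh (r / 2)) ^ (-k) = ∑ n, (n + k - 1).choose (k - 1) exp (- (n + k / 2) r)` for `r > 0`
(`A4_hasSum`), `(n + k - 1).choose (k - 1) = (binP k).eval (n + k / 2)` (`A4_binP`). The function
`f_n(r) = ∏ p * binP(n + k / 2) * r ^ ex * ∑ T, (-1) ^ |S \ T| exp (- (n + k / 2 - al S T) r)` is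
nonnegative (it is `∏ p * binP * r ^ ex * exp (- (n + k / 2) r) * ∏ (2 sinh (r / 2p))`), integrable, with the
integral `∏ p * binP * ex! * ∑ T, ± (n + k / 2 - al S T) ^ (- ex - 1)` (`n + k / 2 - al S T > 0` since
`al S T ≤ (∑ 1 / p) / 2 < k / 2`), and `∑ n, f_n(r)` is the integrand. By Tonelli / monotone convergence
(`MeasureTheory.hasSum_integral_of_summable_integral_norm`, or `lintegral_tsum`) the sum of the integrals
is `mu`; the summability of the integrals follows from the integrability of the sum of nonnegative functions.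
-/

set_option autoImplicit false

open Finset MeasureTheory

namespace Pool.Agent.GSG

open Pool.Agent.GSP

private theorem M1_int (m : ℕ) {b : ℝ} (hb : 0 < b) :
    IntegrableOn (fun r : ℝ => r ^ m * Real.exp (-(b * r))) (Set.Ioi 0) ∧
    ∫ r in Set.Ioi (0 : ℝ), r ^ m * Real.exp (-(b * r)) = m.factorial / b ^ (m + 1) := by
  have key := Real.integral_rpow_mul_exp_neg_mul_Ioi (a := (m : ℝ) + 1) (r := b) (by positivity) hb
  have e : ∀ r : ℝ, r ^ ((m : ℝ) + 1 - 1) = r ^ m := fun r => by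
    rw [add_sub_cancel_right, Real.rpow_natCast]
  simp only [e] at key
  have hv : (1 / b) ^ ((m : ℝ) + 1) * Real.Gamma ((m : ℝ) + 1) = m.factorial / b ^ (m + 1) := by
    have h1 : (1 / b) ^ ((m : ℝ) + 1) = (1 / b) ^ (m + 1) := by
      rw [← Real.rpow_natCast]
      push_cast
      rfl
    rw [h1, Real.Gamma_nat_eq_factorial, one_div, inv_pow]
    ring
  rw [hv] at key
  exact ⟨.of_integral_ne_zero (by rw [key]; positivity), key⟩

private theorem M1_sinh_pos {r : ℝ} (hr : 0 < r) : 0 < 2 * Real.sinh (r / 2) :=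
  mul_pos two_pos (Real.sinh_pos_iff.2 (by linarith))

private theorem M1_sinh_bound (r : ℝ) :
    r * Real.exp (r / 2) ≤ (1 + r) * (2 * Real.sinh (r / 2)) := by
  rw [Real.sinh_eq]
  have h1 : 1 + r ≤ Real.exp r := by linarith [Real.add_one_le_exp r]
  have h2 : (1 + r) * Real.exp (-(r / 2)) ≤ Real.exp (r / 2) := by
    calc (1 + r) * Real.exp (-(r / 2)) ≤ Real.exp r * Real.exp (-(r / 2)) :=
          mul_le_mul_of_nonneg_right h1 (Real.exp_pos _).le
      _ = Real.exp (r / 2) := by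
          rw [← Real.exp_add]
          congr 1
          ring
  have h3 : (1 + r) * (2 * ((Real.exp (r / 2) - Real.exp (-(r / 2))) / 2)) =
      Real.exp (r / 2) + r * Real.exp (r / 2) - (1 + r) * Real.exp (-(r / 2)) := by ring
  linarith

private theorem M1_sinh_eq (r : ℝ) :
    2 * Real.sinh (r / 2) = Real.exp (r / 2) * (1 - Real.exp (-r)) := by
  rw [Real.sinh_eq, mul_sub, mul_one, ← Real.exp_add]
  have : r / 2 + -r = -(r / 2) := by ring
  rw [this]
  ring

/-- `sinh x ≤ x exp x`. -/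
private theorem M1_sinh_le {x : ℝ} (hx : 0 ≤ x) : Real.sinh x ≤ x * Real.exp x := by
  rw [Real.sinh_eq]
  have h1 : Real.exp x * (1 - 2 * x) ≤ Real.exp (-x) := by
    have h2 : 1 - 2 * x ≤ Real.exp (-(2 * x)) := by
      have := Real.add_one_le_exp (-(2 * x))
      linarith
    calc Real.exp x * (1 - 2 * x) ≤ Real.exp x * Real.exp (-(2 * x)) :=
          mul_le_mul_of_nonneg_left h2 (Real.exp_pos _).le
      _ = Real.exp (-x) := by
          rw [← Real.exp_add]
          congr 1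
          ring
  nlinarith [h1]

private theorem M1_hasSum (k : ℕ) {r : ℝ} (hr : 0 < r) :
    HasSum (fun n : ℕ => ((n + k).choose k : ℝ) *
      Real.exp (-(((n : ℝ) + ((k + 1 : ℕ) : ℝ) / 2) * r))) (1 / (2 * Real.sinh (r / 2)) ^ (k + 1)) := by
  have hx : ‖Real.exp (-r)‖ < 1 := by
    rw [Real.norm_of_nonneg (Real.exp_pos _).le]
    exact Real.exp_lt_one_iff.2 (by linarith)
  have h := (hasSum_choose_mul_geometric_of_norm_lt_one k hx).mul_left
    (Real.exp (-(((k + 1 : ℕ) : ℝ) / 2 * r)))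
  have e1 : Real.exp (-(((k + 1 : ℕ) : ℝ) / 2 * r)) *
      (1 / (1 - Real.exp (-r)) ^ (k + 1)) = 1 / (2 * Real.sinh (r / 2)) ^ (k + 1) := by
    rw [M1_sinh_eq, mul_pow, ← Real.exp_nat_mul, Real.exp_neg (((k + 1 : ℕ) : ℝ) / 2 * r)]
    have e : ((k + 1 : ℕ) : ℝ) * (r / 2) = ((k + 1 : ℕ) : ℝ) / 2 * r := by ring
    rw [e]
    have h1 : (1 - Real.exp (-r)) ^ (k + 1) ≠ 0 := by
      refine pow_ne_zero _ (sub_ne_zero.2 ?_)
      exact (Real.exp_lt_one_iff.2 (by linarith)).ne'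
    have h2 := Real.exp_ne_zero (((k + 1 : ℕ) : ℝ) / 2 * r)
    field_simp
  rw [e1] at h
  have hfun : (fun n : ℕ => ((n + k).choose k : ℝ) *
      Real.exp (-(((n : ℝ) + ((k + 1 : ℕ) : ℝ) / 2) * r))) = fun n : ℕ =>
      Real.exp (-(((k + 1 : ℕ) : ℝ) / 2 * r)) * (((n + k).choose k : ℝ) * Real.exp (-r) ^ n) := by
    funext n
    have e2 : Real.exp (-(((n : ℝ) + ((k + 1 : ℕ) : ℝ) / 2) * r)) =
        Real.exp (-(((k + 1 : ℕ) : ℝ) / 2 * r)) * Real.exp (-r) ^ n := by
      rw [← Real.exp_nat_mul, ← Real.exp_add]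
      congr 1
      ring
    rw [e2]
    ring
  rw [hfun]
  exact h

private theorem M1_prod (S : Finset ℕ) (r : ℝ) : ∏ p ∈ S, (2 * Real.sinh (r / (2 * p))) =
    ∑ T ∈ S.powerset, (-1) ^ (S \ T).card * Real.exp ((al S T : ℝ) * r) := by
  have h1 : ∀ p ∈ S, 2 * Real.sinh (r / (2 * p)) =
      Real.exp (r / (2 * p)) + -Real.exp (-(r / (2 * p))) := by
    intro p _
    rw [Real.sinh_eq]
    ring
  rw [Finset.prod_congr rfl h1, Finset.prod_add]
  refine Finset.sum_congr rfl fun T _ => ?_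
  rw [Finset.prod_neg, ← Real.exp_sum, ← Real.exp_sum]
  have h2 : (al S T : ℝ) * r = ∑ p ∈ T, r / (2 * (p : ℝ)) + ∑ p ∈ S \ T, -(r / (2 * (p : ℝ))) := by
    unfold al
    push_cast
    rw [Finset.sum_neg_distrib, sub_div, sub_mul, Finset.sum_div, Finset.sum_div, Finset.sum_mul,
      Finset.sum_mul, sub_eq_add_neg]
    congr 1
    · exact Finset.sum_congr rfl fun p _ => by
        rw [div_div, one_div_mul_eq_div, mul_comm (p : ℝ) 2]
    · congr 1
      exact Finset.sum_congr rfl fun p _ => by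
        rw [div_div, one_div_mul_eq_div, mul_comm (p : ℝ) 2]
  rw [h2, Real.exp_add]
  ring

/-- The product of the `2 sinh (r / 2p)`. -/
private noncomputable def M1_P (S : Finset ℕ) (r : ℝ) : ℝ := ∏ p ∈ S, (2 * Real.sinh (r / (2 * p)))

private theorem M1_P_nonneg {S : Finset ℕ} {r : ℝ} (hr : 0 < r) : 0 ≤ M1_P S r := by
  refine Finset.prod_nonneg fun p _ => mul_nonneg two_pos.le ?_
  rw [Real.sinh_nonneg_iff]
  positivity

private theorem M1_node {S : Finset ℕ} {k : ℕ} (hS : LeafG S k) (j : ℕ) {r : ℝ} (hr : 0 < r) :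
    r ^ (2 + 2 * j) * nodeR S k r = (∏ p ∈ S, (p : ℝ)) *
      (r ^ (ex S k j) * M1_P S r) * (1 / (2 * Real.sinh (r / 2)) ^ k) := by
  have hp0 : ∀ p ∈ S, (p : ℝ) ≠ 0 := fun p hp => by
    have := hS.two_le p hp
    have : 0 < p := by omega
    exact_mod_cast this.ne'
  have hr' := hr.ne'
  have h1 : ∏ p ∈ S, Real.sinh (r / (2 * p)) / (r / (2 * p)) =
      (∏ p ∈ S, (2 * Real.sinh (r / (2 * p)))) * (∏ p ∈ S, (p : ℝ)) / r ^ S.card := by
    rw [← Finset.prod_const, ← Finset.prod_mul_distrib, ← Finset.prod_div_distrib]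
    refine Finset.prod_congr rfl fun p hp => ?_
    have := hp0 p hp
    field_simp
  have h2 : ((r / 2) / Real.sinh (r / 2)) ^ k = r ^ k / (2 * Real.sinh (r / 2)) ^ k := by
    rw [← div_pow]
    congr 1
    rw [div_div]
  have hex : r ^ (2 + 2 * j) * r ^ k = r ^ (ex S k j) * r ^ S.card := by
    rw [← pow_add, ← pow_add]
    congr 1
    have := hS.card_le
    unfold ex
    omega
  rw [nodeR, h1, h2, M1_P]
  generalize ∏ p ∈ S, (2 * Real.sinh (r / (2 * p))) = A
  generalize ∏ p ∈ S, (p : ℝ) = B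
  have hrc : r ^ S.card ≠ 0 := pow_ne_zero _ hr'
  calc r ^ (2 + 2 * j) * (A * B / r ^ S.card * (r ^ k / (2 * Real.sinh (r / 2)) ^ k)) =
        (r ^ (2 + 2 * j) * r ^ k) / r ^ S.card * (A * B / (2 * Real.sinh (r / 2)) ^ k) := by ring
    _ = r ^ (ex S k j) * (A * B / (2 * Real.sinh (r / 2)) ^ k) := by
        rw [hex, mul_div_cancel_right₀ _ hrc]
    _ = B * (r ^ (ex S k j) * A) * (1 / (2 * Real.sinh (r / 2)) ^ k) := by ring

private theorem M1_nodeR_pos {S : Finset ℕ} {k : ℕ} (hS : LeafG S k) {r : ℝ} (hr : 0 < r) :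
    0 < nodeR S k r := by
  refine mul_pos (Finset.prod_pos fun p hp => ?_) (pow_pos ?_ k)
  · have := hS.two_le p hp
    have hp0 : (0 : ℝ) < p := by
      have : 0 < p := by omega
      exact_mod_cast this
    have h1 : 0 < r / (2 * p) := by positivity
    exact div_pos (Real.sinh_pos_iff.2 h1) h1
  · exact div_pos (by linarith) (Real.sinh_pos_iff.2 (by linarith))

private theorem M1_nodeR_le {S : Finset ℕ} {k : ℕ} (hS : LeafG S k) {r : ℝ} (hr : 0 < r) :
    nodeR S k r ≤ (r + 1) ^ k *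
      Real.exp (-(((k : ℝ) / 2 - (∑ p ∈ S, (1 : ℝ) / p) / 2) * r)) := by
  have h1 : ∏ p ∈ S, Real.sinh (r / (2 * p)) / (r / (2 * p)) ≤
      Real.exp ((∑ p ∈ S, (1 : ℝ) / p) / 2 * r) := by
    have h2 : Real.exp ((∑ p ∈ S, (1 : ℝ) / p) / 2 * r) = ∏ p ∈ S, Real.exp (r / (2 * p)) := by
      rw [← Real.exp_sum, Finset.sum_div, Finset.sum_mul]
      congr 1
      exact Finset.sum_congr rfl fun p _ => by ring
    rw [h2]
    refine Finset.prod_le_prod (fun p hp => ?_) fun p hp => ?_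
    · exact div_nonneg (by rw [Real.sinh_nonneg_iff]; positivity) (by positivity)
    · have := hS.two_le p hp
      have hp0 : (0 : ℝ) < p := by
        have : 0 < p := by omega
        exact_mod_cast this
      have h3 : 0 < r / (2 * p) := by positivity
      rw [div_le_iff₀ h3]
      have := M1_sinh_le h3.le
      linarith
  have hs := M1_sinh_pos hr
  have h4 : (r / 2) / Real.sinh (r / 2) ≤ (r + 1) * Real.exp (-(r / 2)) := by
    have h5 : (r / 2) / Real.sinh (r / 2) = r / (2 * Real.sinh (r / 2)) := by rw [div_div]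
    rw [h5, div_le_iff₀ hs, Real.exp_neg]
    have h6 := M1_sinh_bound r
    have h7 := Real.exp_pos (r / 2)
    rw [mul_comm (r + 1), mul_assoc, inv_mul_eq_div, le_div_iff₀ h7]
    linarith
  have h8 : 0 ≤ (r / 2) / Real.sinh (r / 2) :=
    div_nonneg (by linarith) (by rw [Real.sinh_nonneg_iff]; linarith)
  calc nodeR S k r ≤ Real.exp ((∑ p ∈ S, (1 : ℝ) / p) / 2 * r) *
        ((r + 1) * Real.exp (-(r / 2))) ^ k := by
        unfold nodeR
        exact mul_le_mul h1 (pow_le_pow_left₀ h8 h4 k) (pow_nonneg h8 k) (Real.exp_pos _).le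
    _ = (r + 1) ^ k * Real.exp (-(((k : ℝ) / 2 - (∑ p ∈ S, (1 : ℝ) / p) / 2) * r)) := by
        rw [mul_pow, ← Real.exp_nat_mul, mul_left_comm, ← Real.exp_add]
        congr 2
        ring

/-- the moments are finite -/
theorem muG_integrable {S : Finset ℕ} {k : ℕ} (hS : LeafG S k) (j : ℕ) :
    IntegrableOn (fun r : ℝ => r ^ (2 + 2 * j) * nodeR S k r) (Set.Ioi 0) := by
  have hb0 : 0 < (k : ℝ) / 2 - (∑ p ∈ S, (1 : ℝ) / p) / 2 := by
    have := hS.lt
    linarith
  have hb : IntegrableOn (fun r : ℝ => ∑ i ∈ range (k + 1), (k.choose i : ℝ) *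
      (r ^ (2 + 2 * j + i) *
        Real.exp (-(((k : ℝ) / 2 - (∑ p ∈ S, (1 : ℝ) / p) / 2) * r)))) (Set.Ioi 0) := by
    refine integrable_finsetSum _ fun i _ => ?_
    exact (M1_int (2 + 2 * j + i) hb0).1.const_mul _
  refine Integrable.mono' hb ?_ ?_
  · have hc : ContinuousOn (fun r : ℝ => r ^ (2 + 2 * j) * nodeR S k r) (Set.Ioi 0) := by
      unfold nodeR
      refine ContinuousOn.mul (by fun_prop) (ContinuousOn.mul ?_ ?_)
      · refine continuousOn_finsetProd _ fun p hp => ?_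
        have := hS.two_le p hp
        have hp0 : (0 : ℝ) < p := by
          have : 0 < p := by omega
          exact_mod_cast this
        refine ContinuousOn.div ?_ (by fun_prop) fun r hr => ?_
        · exact (Real.continuous_sinh.comp (continuous_id.div_const _)).continuousOn
        · have hr' : (0 : ℝ) < r := hr
          positivity
      · refine ContinuousOn.pow ?_ k
        refine ContinuousOn.div (by fun_prop) ?_ fun r hr => ?_
        · exact (Real.continuous_sinh.comp (continuous_id.div_const _)).continuousOn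
        · have hr' : (0 : ℝ) < r := hr
          exact (Real.sinh_pos_iff.2 (by linarith)).ne'
    exact hc.aestronglyMeasurable measurableSet_Ioi
  · filter_upwards [self_mem_ae_restrict measurableSet_Ioi] with r hr
    have hr' : (0 : ℝ) < r := hr
    rw [Real.norm_of_nonneg (mul_nonneg (by positivity) (M1_nodeR_pos hS hr').le)]
    have hsum : ∑ i ∈ range (k + 1), (k.choose i : ℝ) *
        (r ^ (2 + 2 * j + i) *
          Real.exp (-(((k : ℝ) / 2 - (∑ p ∈ S, (1 : ℝ) / p) / 2) * r))) =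
        r ^ (2 + 2 * j) * ((r + 1) ^ k *
          Real.exp (-(((k : ℝ) / 2 - (∑ p ∈ S, (1 : ℝ) / p) / 2) * r))) := by
      rw [add_pow, Finset.sum_mul, Finset.mul_sum]
      refine Finset.sum_congr rfl fun i _ => ?_
      rw [pow_add, one_pow]
      ring
    rw [hsum]
    exact mul_le_mul_of_nonneg_left (M1_nodeR_le hS hr') (by positivity)

theorem muG_pos {S : Finset ℕ} {k : ℕ} (hS : LeafG S k) (j : ℕ) : 0 < mu S k j := by
  have hpos : ∀ r : ℝ, 0 < r → 0 < r ^ (2 + 2 * j) * nodeR S k r := by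
    intro r hr
    exact mul_pos (pow_pos hr _) (M1_nodeR_pos hS hr)
  unfold mu
  rw [setIntegral_pos_iff_support_of_nonneg_ae]
  · have hsub : Set.Ioi (0 : ℝ) ⊆
        Function.support (fun r : ℝ => r ^ (2 + 2 * j) * nodeR S k r) ∩ Set.Ioi 0 := by
      intro r hr
      exact ⟨(hpos r hr).ne', hr⟩
    refine lt_of_lt_of_le ?_ (measure_mono hsub)
    rw [Real.volume_Ioi]
    exact ENNReal.zero_lt_top
  · filter_upwards [self_mem_ae_restrict measurableSet_Ioi] with r hr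
    exact (hpos r hr).le
  · exact muG_integrable hS j

private theorem M1_binP (k n : ℕ) :
    ((binP (k + 1)).map (algebraMap ℚ ℝ)).eval ((n : ℝ) + ((k + 1 : ℕ) : ℝ) / 2) =
      ((n + k).choose k : ℝ) := by
  have h1 : ((binP (k + 1)).map (algebraMap ℚ ℝ)).eval ((n : ℝ) + ((k + 1 : ℕ) : ℝ) / 2) =
      1 / (k.factorial : ℝ) * ∏ i ∈ range k, (((n + k - i : ℕ)) : ℝ) := by
    unfold binP
    rw [Nat.add_sub_cancel, Polynomial.map_mul, Polynomial.map_prod, Polynomial.eval_mul,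
      Polynomial.eval_prod]
    congr 1
    · simp
    · refine Finset.prod_congr rfl fun i hi => ?_
      have hi' := Finset.mem_range.1 hi
      rw [Nat.cast_sub (by omega)]
      simp
      ring
  rw [h1, ← Nat.cast_prod, ← Nat.descFactorial_eq_prod_range,
    Nat.descFactorial_eq_factorial_mul_choose]
  push_cast
  have : (k.factorial : ℝ) ≠ 0 := by positivity
  field_simp

private theorem M1_al_lt {S T : Finset ℕ} {k : ℕ} (hS : LeafG S k) (hT : T ∈ S.powerset) :
    (al S T : ℝ) < (k : ℝ) / 2 := by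
  have h2 : ∑ p ∈ T, (1 : ℝ) / p ≤ ∑ p ∈ S, (1 : ℝ) / p :=
    Finset.sum_le_sum_of_subset_of_nonneg (Finset.mem_powerset.1 hT) fun p _ _ => by positivity
  have h3 : 0 ≤ ∑ p ∈ S \ T, (1 : ℝ) / p := Finset.sum_nonneg fun p _ => by positivity
  have h4 := hS.lt
  unfold al
  push_cast
  linarith

/-- The terms. -/
private noncomputable def M1_f (S : Finset ℕ) (k j n : ℕ) (r : ℝ) : ℝ :=
  (∏ p ∈ S, (p : ℝ)) * (r ^ (ex S (k + 1) j) * M1_P S r) * (((n + k).choose k : ℝ) *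
      Real.exp (-(((n : ℝ) + ((k + 1 : ℕ) : ℝ) / 2) * r)))

private theorem M1_f_nonneg (S : Finset ℕ) (k j n : ℕ) {r : ℝ} (hr : 0 < r) :
    0 ≤ M1_f S k j n r := by
  have h1 := M1_P_nonneg (S := S) hr
  have h2 : (0 : ℝ) ≤ ∏ p ∈ S, (p : ℝ) := Finset.prod_nonneg fun p _ => Nat.cast_nonneg p
  unfold M1_f
  positivity

private theorem M1_f_hasSum {S : Finset ℕ} {k : ℕ} (hS : LeafG S (k + 1)) (j : ℕ) {r : ℝ}
    (hr : 0 < r) : HasSum (fun n : ℕ => M1_f S k j n r) (r ^ (2 + 2 * j) * nodeR S (k + 1) r) := by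
  rw [M1_node hS j hr]
  exact (M1_hasSum k hr).mul_left _

private theorem M1_f_eq (S : Finset ℕ) (k j n : ℕ) (r : ℝ) :
    M1_f S k j n r = (∏ p ∈ S, (p : ℝ)) * ((n + k).choose k : ℝ) *
      ∑ T ∈ S.powerset, (-1) ^ (S \ T).card * (r ^ (ex S (k + 1) j) *
        Real.exp (-(((n : ℝ) + ((k + 1 : ℕ) : ℝ) / 2 - (al S T : ℝ)) * r))) := by
  have h1 : ∀ T : Finset ℕ,
      Real.exp (-(((n : ℝ) + ((k + 1 : ℕ) : ℝ) / 2 - (al S T : ℝ)) * r)) =
      Real.exp ((al S T : ℝ) * r) * Real.exp (-(((n : ℝ) + ((k + 1 : ℕ) : ℝ) / 2) * r)) := by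
    intro T
    rw [← Real.exp_add]
    congr 1
    ring
  simp only [h1]
  rw [M1_f, M1_P, M1_prod]
  simp only [Finset.mul_sum, Finset.sum_mul]
  refine Finset.sum_congr rfl fun T _ => ?_
  ring

private theorem M1_den {S T : Finset ℕ} {k : ℕ} (hS : LeafG S (k + 1)) (hT : T ∈ S.powerset)
    (n : ℕ) : 0 < (n : ℝ) + ((k + 1 : ℕ) : ℝ) / 2 - (al S T : ℝ) := by
  have h1 := M1_al_lt hS hT
  have h2 : (0 : ℝ) ≤ n := Nat.cast_nonneg n
  linarith

private theorem M1_f_int {S : Finset ℕ} {k : ℕ} (hS : LeafG S (k + 1)) (j n : ℕ) :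
    IntegrableOn (M1_f S k j n) (Set.Ioi 0) ∧
    ∫ r in Set.Ioi (0 : ℝ), M1_f S k j n r =
      (∏ p ∈ S, (p : ℝ)) * ((n + k).choose k : ℝ) *
      ∑ T ∈ S.powerset, (-1) ^ (S \ T).card * (((ex S (k + 1) j).factorial : ℝ) /
        ((n : ℝ) + ((k + 1 : ℕ) : ℝ) / 2 - (al S T : ℝ)) ^ (ex S (k + 1) j + 1)) := by
  have h0 : M1_f S k j n = fun r : ℝ => (∏ p ∈ S, (p : ℝ)) * ((n + k).choose k : ℝ) *
      ∑ T ∈ S.powerset, (-1) ^ (S \ T).card * (r ^ (ex S (k + 1) j) *
        Real.exp (-(((n : ℝ) + ((k + 1 : ℕ) : ℝ) / 2 - (al S T : ℝ)) * r))) :=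
    funext fun r => M1_f_eq S k j n r
  have hI : ∀ T ∈ S.powerset, Integrable (fun r : ℝ => (-1) ^ (S \ T).card *
      (r ^ (ex S (k + 1) j) * Real.exp (-(((n : ℝ) + ((k + 1 : ℕ) : ℝ) / 2 - (al S T : ℝ)) * r))))
      (volume.restrict (Set.Ioi 0)) := fun T hT =>
    (M1_int (ex S (k + 1) j) (M1_den hS hT n)).1.const_mul _
  constructor
  · rw [h0]
    exact (integrable_finsetSum _ hI).const_mul _
  · rw [h0, integral_const_mul, integral_finsetSum _ hI]
    refine congrArg (fun x : ℝ => (∏ p ∈ S, (p : ℝ)) * ((n + k).choose k : ℝ) * x) ?_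
    refine Finset.sum_congr rfl fun T hT => ?_
    rw [integral_const_mul, (M1_int (ex S (k + 1) j) (M1_den hS hT n)).2]

/-- the moments as sums -/
theorem muG_hasSum {S : Finset ℕ} {k : ℕ} (hS : LeafG S k) (j : ℕ) :
    HasSum (fun n : ℕ => (∏ p ∈ S, (p : ℝ)) * ((ex S k j).factorial : ℝ) *
      (((binP k).map (algebraMap ℚ ℝ)).eval ((n : ℝ) + k / 2) *
        ∑ T ∈ S.powerset, (-1) ^ (S \ T).card /
          ((n : ℝ) + k / 2 - (al S T : ℝ)) ^ (ex S k j + 1))) (mu S k j) := by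
  have hk := hS.one_le
  obtain ⟨k, rfl⟩ : ∃ k', k = k' + 1 := ⟨k - 1, by omega⟩
  have hF := muG_integrable hS j
  have hnorm : ∀ n : ℕ, ∫ r in Set.Ioi (0 : ℝ), ‖M1_f S k j n r‖ =
      ∫ r in Set.Ioi (0 : ℝ), M1_f S k j n r := by
    intro n
    refine setIntegral_congr_fun measurableSet_Ioi fun r hr => ?_
    have hr' : (0 : ℝ) < r := hr
    exact Real.norm_of_nonneg (M1_f_nonneg S k j n hr')
  have hsum : Summable fun n : ℕ => ∫ r in Set.Ioi (0 : ℝ), ‖M1_f S k j n r‖ := by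
    simp only [hnorm]
    refine summable_of_sum_le (c := ∫ r in Set.Ioi (0 : ℝ), r ^ (2 + 2 * j) * nodeR S (k + 1) r)
      (fun n => ?_) fun u => ?_
    · exact setIntegral_nonneg measurableSet_Ioi fun r hr => M1_f_nonneg S k j n hr
    · rw [← integral_finsetSum _ fun n _ => (M1_f_int hS j n).1]
      refine setIntegral_mono_on (integrable_finsetSum _ fun n _ => (M1_f_int hS j n).1) hF
        measurableSet_Ioi fun r hr => ?_
      exact sum_le_hasSum u (fun n _ => M1_f_nonneg S k j n hr) (M1_f_hasSum hS j hr)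
  have key := hasSum_integral_of_summable_integral_norm (fun n => (M1_f_int hS j n).1) hsum
  have h1 : ∫ r in Set.Ioi (0 : ℝ), ∑' n : ℕ, M1_f S k j n r = mu S (k + 1) j :=
    setIntegral_congr_fun measurableSet_Ioi fun r hr => (M1_f_hasSum hS j hr).tsum_eq
  rw [h1] at key
  have h2 : (fun n : ℕ => ∫ r in Set.Ioi (0 : ℝ), M1_f S k j n r) = fun n : ℕ =>
      (∏ p ∈ S, (p : ℝ)) * ((ex S (k + 1) j).factorial : ℝ) *
      (((binP (k + 1)).map (algebraMap ℚ ℝ)).eval ((n : ℝ) + ((k + 1 : ℕ) : ℝ) / 2) *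
        ∑ T ∈ S.powerset, (-1) ^ (S \ T).card /
          ((n : ℝ) + ((k + 1 : ℕ) : ℝ) / 2 - (al S T : ℝ)) ^ (ex S (k + 1) j + 1)) := by
    funext n
    rw [(M1_f_int hS j n).2, M1_binP]
    simp only [Finset.mul_sum]
    refine Finset.sum_congr rfl fun T _ => ?_
    ring
  rw [h2] at key
  exact key

end Pool.Agent.GSG
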