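import Pool.Agent.GSG.Defs

/-!
PROOFS (module M2a). `fd_zero`: `al S T = - (∑ p ∈ S, 1 / p) / 2 + ∑ p ∈ T, 1 / p`. General fact: for
`h : ι → ℝ`, `c : ℝ` and a polynomial `P` with natDegree `< |S|`:
`∑ T ⊆ S, (-1) ^ |S \ T| P (c + ∑ p ∈ T, h p) = 0`. Induction on `S`: for `S = insert p S'` the sum is the sum
for `S'` and the polynomial `P (X + h p) - P (X)`, whose natDegree is smaller (`Finset.sum_powerset_insert`;
if `P` is constant, the difference is `0`).
`taylor_cancel`: `(taylor α P).coeff i = (hasseDeriv i P).eval α` (`Polynomial.taylor_coeff`); as a function of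
`α` the summand is the value of the polynomial `hasseDeriv i (binP k) * (C x - X) ^ (i - ex - 1)`, whose
natDegree is at most `(k - 1 - i) + (i - ex - 1)` (`natDegree (binP k) ≤ k - 1`,
`Polynomial.natDegree_hasseDeriv_le`), where `i - ex - 1` is truncated. As `ex = k + 2 + 2 j - |S|` and `ex ≤ i < k`,
this is `< |S|`: it is `≤ k - 2 - ex = |S| - 4 - 2 j` if `i > ex` and `≤ k - 1 - ex = |S| - 3 - 2 j` if `i = ex`.
Use `fd_zero`.
`tsum_split`: `P (x) = ∑ i < k, (taylor α P).coeff i * (x - α) ^ i` (`Polynomial.sum_taylor_eq` or `taylor_eval`;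
natDegree `≤ k - 1`). Divide by `(x - α) ^ (ex + 1)`; the terms with `i > ex` cancel by `taylor_cancel`.
-/

set_option autoImplicit false

open Finset

namespace Pool.Agent.GSG

open Pool.Agent.GSP

private theorem M2a_aux (h : ℕ → ℝ) (S : Finset ℕ) : ∀ (c : ℝ) (P : Polynomial ℝ),
    P.natDegree < S.card →
    ∑ T ∈ S.powerset, (-1 : ℝ) ^ (S \ T).card * P.eval (c + ∑ p ∈ T, h p) = 0 := by
  induction S using Finset.induction_on with
  | empty => intro c P hP; simp at hP
  | insert a S ha ih =>
    intro c P hP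
    have e1 : ∀ T ∈ S.powerset, (insert a S \ T).card = (S \ T).card + 1 := by
      intro T hT
      have hT' := Finset.mem_powerset.mp hT
      have haT : a ∉ T := fun h' => ha (hT' h')
      rw [Finset.insert_sdiff_of_notMem _ haT, Finset.card_insert_of_notMem]
      intro h'
      exact ha (Finset.mem_sdiff.mp h').1
    have e2 : ∀ T ∈ S.powerset, (insert a S \ insert a T).card = (S \ T).card := by
      intro T hT
      rw [Finset.insert_sdiff_insert, Finset.sdiff_insert_of_notMem ha]
    have e3 : ∀ T ∈ S.powerset, ∑ p ∈ insert a T, h p = h a + ∑ p ∈ T, h p := by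
      intro T hT
      have hT' := Finset.mem_powerset.mp hT
      have haT : a ∉ T := fun h' => ha (hT' h')
      exact Finset.sum_insert haT
    have key : ∑ T ∈ (insert a S).powerset, (-1 : ℝ) ^ (insert a S \ T).card *
        P.eval (c + ∑ p ∈ T, h p) =
        ∑ T ∈ S.powerset, (-1 : ℝ) ^ (S \ T).card *
          (Polynomial.taylor (h a) P - P).eval (c + ∑ p ∈ T, h p) := by
      rw [Finset.sum_powerset_insert ha, ← Finset.sum_add_distrib]
      refine Finset.sum_congr rfl fun T hT => ?_
      rw [e1 T hT, e2 T hT, e3 T hT, Polynomial.eval_sub, Polynomial.taylor_eval,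
        show c + (h a + ∑ p ∈ T, h p) = c + ∑ p ∈ T, h p + h a by ring]
      ring
    rw [key]
    rcases Nat.eq_zero_or_pos P.natDegree with h0 | h0
    · obtain ⟨b, hb⟩ := Polynomial.natDegree_eq_zero.mp h0
      refine Finset.sum_eq_zero fun T _ => ?_
      rw [← hb]
      simp
    · refine ih c _ ?_
      have hP0 : P ≠ 0 := by
        intro h'
        rw [h'] at h0
        simp at h0
      have hlt : (Polynomial.taylor (h a) P - P).degree < P.degree := by
        have := Polynomial.degree_sub_lt_left (p := Polynomial.taylor (h a) P) (q := P)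
          (Polynomial.degree_taylor P (h a))
          (by rw [Ne, Polynomial.taylor_eq_zero]; exact hP0)
          (Polynomial.leadingCoeff_taylor (h a) P)
        rwa [Polynomial.degree_taylor] at this
      have hlt2 : (Polynomial.taylor (h a) P - P).natDegree < P.natDegree := by
        by_cases hz : Polynomial.taylor (h a) P - P = 0
        · rw [hz]; simpa using h0
        · exact Polynomial.natDegree_lt_natDegree hz hlt
      rw [Finset.card_insert_of_notMem ha] at hP
      omega

private theorem M2a_al {S T : Finset ℕ} (h : T ⊆ S) :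
    ((al S T : ℚ) : ℝ) = (-(∑ p ∈ S, (1 : ℝ) / p) / 2) + ∑ p ∈ T, (1 : ℝ) / p := by
  have h1 : ∑ p ∈ S \ T, (1 : ℝ) / p = ∑ p ∈ S, (1 : ℝ) / p - ∑ p ∈ T, (1 : ℝ) / p := by
    rw [← Finset.sum_sdiff h]; ring
  unfold al
  push_cast
  rw [h1]
  ring

private theorem M2a_deg {k : ℕ} (hk : 1 ≤ k) : (binP k).natDegree < k := by
  have h1 : (binP k).natDegree ≤ k - 1 := by
    unfold binP
    refine (Polynomial.natDegree_C_mul_le _ _).trans ?_
    refine (Polynomial.natDegree_prod_le _ _).trans ?_
    calc ∑ i ∈ range (k - 1), (Polynomial.X + Polynomial.C ((k : ℚ) / 2 - (i + 1))).natDegree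
        = ∑ i ∈ range (k - 1), 1 := by
          refine sum_congr rfl fun i _ => ?_
          exact Polynomial.natDegree_X_add_C _
      _ = k - 1 := by simp
      _ ≤ k - 1 := le_refl _
  omega

/-- the differences of order `|S|` of a polynomial of smaller degree vanish -/
theorem fd_zero (S : Finset ℕ) (P : Polynomial ℝ) (h : P.natDegree < S.card) :
    ∑ T ∈ S.powerset, (-1 : ℝ) ^ (S \ T).card * P.eval (al S T : ℝ) = 0 := by
  have h1 := M2a_aux (fun p => (1 : ℝ) / p) S (-(∑ p ∈ S, (1 : ℝ) / p) / 2) P h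
  rw [← h1]
  refine Finset.sum_congr rfl fun T hT => ?_
  rw [M2a_al (Finset.mem_powerset.mp hT)]

/-- the Taylor coefficients with large index cancel -/
theorem taylor_cancel {S : Finset ℕ} {k j i : ℕ} (hk : 1 ≤ k) (hc : S.card ≤ k + 2)
    (hi : ex S k j ≤ i) (hik : i < k) (x : ℝ) :
    ∑ T ∈ S.powerset, (-1 : ℝ) ^ (S \ T).card *
      ((((Polynomial.taylor (al S T) (binP k)).coeff i : ℚ) : ℝ) *
        (x - (al S T : ℝ)) ^ (i - ex S k j - 1)) = 0 := by
  set Q : Polynomial ℝ := (Polynomial.hasseDeriv i (binP k)).map (algebraMap ℚ ℝ) *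
    (Polynomial.C x - Polynomial.X) ^ (i - ex S k j - 1) with hQ
  have hdeg : Q.natDegree < S.card := by
    have a1 : ((Polynomial.hasseDeriv i (binP k)).map (algebraMap ℚ ℝ)).natDegree ≤ k - 1 - i := by
      refine (Polynomial.natDegree_map_le).trans ?_
      refine (Polynomial.natDegree_hasseDeriv_le _ _).trans ?_
      have := M2a_deg hk
      omega
    have a2 : ((Polynomial.C x - Polynomial.X) ^ (i - ex S k j - 1)).natDegree ≤
        i - ex S k j - 1 := by
      refine (Polynomial.natDegree_pow_le).trans ?_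
      have : (Polynomial.C x - Polynomial.X : Polynomial ℝ).natDegree ≤ 1 := by
        refine (Polynomial.natDegree_sub_le _ _).trans ?_
        simp
      calc (i - ex S k j - 1) * (Polynomial.C x - Polynomial.X : Polynomial ℝ).natDegree
          ≤ (i - ex S k j - 1) * 1 := Nat.mul_le_mul_left _ this
        _ = _ := by rw [mul_one]
    have a3 := (Polynomial.natDegree_mul_le (p := (Polynomial.hasseDeriv i (binP k)).map
      (algebraMap ℚ ℝ)) (q := (Polynomial.C x - Polynomial.X) ^ (i - ex S k j - 1)))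
    have a4 : Q.natDegree ≤ (k - 1 - i) + (i - ex S k j - 1) := by
      rw [hQ]
      exact a3.trans (Nat.add_le_add a1 a2)
    have a5 : ex S k j + S.card = k + 2 + 2 * j := by
      unfold ex
      omega
    omega
  have h1 := fd_zero S Q hdeg
  rw [← h1]
  refine Finset.sum_congr rfl fun T _ => ?_
  rw [hQ, Polynomial.eval_mul, Polynomial.eval_pow, Polynomial.eval_sub, Polynomial.eval_C,
    Polynomial.eval_X, Polynomial.taylor_coeff]
  congr 2
  rw [Polynomial.eval_map_algebraMap]
  have := Polynomial.aeval_algebraMap_apply ℝ (al S T) (Polynomial.hasseDeriv i (binP k))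
  simpa using this.symm

/-- the pointwise decomposition -/
theorem tsum_split {S : Finset ℕ} {k : ℕ} (hS : LeafG S k) (j : ℕ) (x : ℝ)
    (hx : ∀ T ∈ S.powerset, x ≠ (al S T : ℝ)) :
    ((binP k).map (algebraMap ℚ ℝ)).eval x *
        ∑ T ∈ S.powerset, (-1) ^ (S \ T).card / (x - (al S T : ℝ)) ^ (ex S k j + 1) =
      ∑ T ∈ S.powerset, (-1) ^ (S \ T).card * ∑ i ∈ (range k).filter (· ≤ ex S k j),
        (((Polynomial.taylor (al S T) (binP k)).coeff i : ℚ) : ℝ) /
          (x - (al S T : ℝ)) ^ (ex S k j + 1 - i) := by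
  have hk := hS.one_le
  have key : ∀ T ∈ S.powerset, ((binP k).map (algebraMap ℚ ℝ)).eval x *
      ((-1) ^ (S \ T).card / (x - (al S T : ℝ)) ^ (ex S k j + 1)) =
      (-1) ^ (S \ T).card * ∑ i ∈ (range k).filter (· ≤ ex S k j),
        (((Polynomial.taylor (al S T) (binP k)).coeff i : ℚ) : ℝ) /
          (x - (al S T : ℝ)) ^ (ex S k j + 1 - i) +
      ∑ i ∈ (range k).filter (fun i => ¬ i ≤ ex S k j), (-1) ^ (S \ T).card *
        ((((Polynomial.taylor (al S T) (binP k)).coeff i : ℚ) : ℝ) *
          (x - (al S T : ℝ)) ^ (i - ex S k j - 1)) := by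
    intro T hT
    have hx0 : x - (al S T : ℝ) ≠ 0 := sub_ne_zero.mpr (hx T hT)
    have h1 : ((binP k).map (algebraMap ℚ ℝ)).eval x =
        ∑ i ∈ range k, (((Polynomial.taylor (al S T) (binP k)).coeff i : ℚ) : ℝ) *
          (x - (al S T : ℝ)) ^ i := by
      have h2 : ((Polynomial.taylor (al S T) (binP k)).map (algebraMap ℚ ℝ)).eval
          (x - (al S T : ℝ)) = ((binP k).map (algebraMap ℚ ℝ)).eval x := by
        rw [Polynomial.taylor_apply, Polynomial.map_comp, Polynomial.eval_comp]
        simp
      rw [← h2, Polynomial.eval_eq_sum_range' (n := k)]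
      · refine Finset.sum_congr rfl fun i _ => ?_
        rw [Polynomial.coeff_map]
        rfl
      · refine lt_of_le_of_lt (Polynomial.natDegree_map_le) ?_
        rw [Polynomial.natDegree_taylor]
        exact M2a_deg hk
    rw [h1, ← Finset.sum_filter_add_sum_filter_not (range k) (· ≤ ex S k j), add_mul]
    congr 1
    · rw [Finset.sum_mul, Finset.mul_sum]
      refine Finset.sum_congr rfl fun i hi => ?_
      have hi2 := (Finset.mem_filter.mp hi).2
      have e : (x - (al S T : ℝ)) ^ (ex S k j + 1) =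
          (x - (al S T : ℝ)) ^ i * (x - (al S T : ℝ)) ^ (ex S k j + 1 - i) := by
        rw [← pow_add]
        congr 1
        omega
      rw [e]
      field_simp
    · rw [Finset.sum_mul]
      refine Finset.sum_congr rfl fun i hi => ?_
      have hi2 := (Finset.mem_filter.mp hi).2
      have e : (x - (al S T : ℝ)) ^ i =
          (x - (al S T : ℝ)) ^ (ex S k j + 1) * (x - (al S T : ℝ)) ^ (i - ex S k j - 1) := by
        rw [← pow_add]
        congr 1
        omega
      rw [e]
      field_simp
  rw [Finset.mul_sum, Finset.sum_congr rfl key, Finset.sum_add_distrib]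
  have h0 : ∑ T ∈ S.powerset, ∑ i ∈ (range k).filter (fun i => ¬ i ≤ ex S k j),
      (-1 : ℝ) ^ (S \ T).card *
        ((((Polynomial.taylor (al S T) (binP k)).coeff i : ℚ) : ℝ) *
          (x - (al S T : ℝ)) ^ (i - ex S k j - 1)) = 0 := by
    rw [Finset.sum_comm]
    refine Finset.sum_eq_zero fun i hi => ?_
    have hi1 := Finset.mem_range.mp (Finset.mem_filter.mp hi).1
    have hi2 := (Finset.mem_filter.mp hi).2
    exact taylor_cancel hk hS.card_le (by omega) hi1 x
  rw [h0, add_zero]

end Pool.Agent.GSG
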