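import Pool.Agent.GSG.Defs

/-!
PROOF (module M2b). Mathlib has the Mittag-Leffler expansion of the cotangent
(`Mathlib.Analysis.SpecialFunctions.Trigonometric.Cotangent`: `cot_series_rep`, `cot_series_rep'`,
`Summable_cotTerm`, ...). For real `z ∉ ℤ`: `π cot (π z) = 1 / z + ∑ n ≥ 1 (1 / (z + n) + 1 / (z - n))`.
The function `F n = ∑ i, c i / (n + z i)` on `ℤ` is summable: `F n = ∑ i, c i (1 / (n + z i) - 1 / n)
= - ∑ i, c i z i / (n (n + z i))` for `n ≠ 0` because `∑ c i = 0`, of order `n ^ (-2)`. Its sum is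
`F 0 + ∑ n ≥ 1 (F n + F (- n))` (`HasSum.of_nat_of_neg_add_one`, `HasSum.int_rec`, or
`tsum_of_nat_of_neg_add_one`, `Summable.tsum_int..`), and
`1 / (n + z) + 1 / (-n + z)` is the term of the cotangent series. `ct z = cos (π z) / sin (π z)`.
-/

set_option autoImplicit false

open Finset

namespace Pool.Agent.GSG

open Pool.Agent.GSP

/-- the cotangent series over the reals -/
private theorem M2b_cot (z : ℝ) (hz : ∀ n : ℤ, z ≠ n) :
    HasSum (fun n : ℕ => 1 / (((n : ℝ) + 1) + z) + 1 / (-((n : ℝ) + 1) + z))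
      (Real.pi * ct z - 1 / z) := by
  have hx : (z : ℂ) ∈ Complex.integerComplement := by
    rw [Complex.mem_integerComplement_iff]
    rintro ⟨n, hn⟩
    apply hz n
    have h1 : ((n : ℝ) : ℂ) = (z : ℂ) := by
      rw [← hn]
      simp
    exact (Complex.ofReal_injective h1).symm
  have h1 := (summable_cotTerm hx).hasSum
  rw [show (∑' n : ℕ, cotTerm (z : ℂ) n) = Real.pi * Complex.cot (Real.pi * z) - 1 / z from
    (cot_series_rep' hx).symm] at h1
  rw [← Complex.hasSum_ofReal]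
  have h2 : (((Real.pi * ct z - 1 / z : ℝ)) : ℂ) =
      Real.pi * Complex.cot (Real.pi * z) - 1 / z := by
    unfold ct
    push_cast
    rw [Complex.cot]
  rw [h2]
  refine h1.congr_fun ?_
  intro n
  push_cast
  unfold cotTerm
  rw [add_comm]
  congr 2 <;> ring

/-- `∑ 1 / (n + a) ^ 2` converges -/
private theorem M2b_sq (a : ℝ) : Summable fun n : ℤ => 1 / ((n : ℝ) + a) ^ 2 := by
  have h1 := (Real.summable_one_div_int_add_rpow a 2).2 (by norm_num)
  refine h1.congr fun n => ?_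
  norm_num

/-- `∑ 1 / ((n + a) (n + b))` converges -/
private theorem M2b_prod (a b : ℝ) : Summable fun n : ℤ => 1 / (((n : ℝ) + a) * ((n : ℝ) + b)) := by
  refine Summable.of_norm_bounded (g := fun n : ℤ => 1 / ((n : ℝ) + a) ^ 2 + 1 / ((n : ℝ) + b) ^ 2)
    ((M2b_sq a).add (M2b_sq b)) fun n => ?_
  rw [Real.norm_eq_abs, ← one_div_mul_one_div, abs_mul]
  have h1 : ∀ x : ℝ, 1 / x ^ 2 = |1 / x| ^ 2 := by
    intro x
    rw [sq_abs, one_div_pow]
  rw [h1, h1]
  nlinarith [sq_nonneg (|1 / ((n : ℝ) + a)| - |1 / ((n : ℝ) + b)|), sq_nonneg (|1 / ((n : ℝ) + a)|),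
    sq_nonneg (|1 / ((n : ℝ) + b)|)]

/-- the cotangent series for coefficients with the sum zero -/
theorem cot_one {ι : Type} (A : Finset ι) (c z : ι → ℝ) (hz : ∀ i ∈ A, ∀ n : ℤ, z i ≠ n)
    (hc : ∑ i ∈ A, c i = 0) :
    HasSum (fun n : ℤ => ∑ i ∈ A, c i / ((n : ℝ) + z i))
      (Real.pi * ∑ i ∈ A, c i * ct (z i)) := by
  classical
  obtain ⟨F, hF⟩ : ∃ F : ℤ → ℝ, ∀ n, F n = ∑ i ∈ A, c i / ((n : ℝ) + z i) := ⟨_, fun _ => rfl⟩
  have hne : ∀ i ∈ A, ∀ n : ℤ, (n : ℝ) + z i ≠ 0 := by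
    intro i hi n h
    apply hz i hi (-n)
    push_cast
    linarith
  obtain ⟨w, hw⟩ : ∃ w : ℝ, ∀ n : ℤ, (n : ℝ) + w ≠ 0 := by
    refine ⟨1 / 2, fun n h => ?_⟩
    have h1 : ((2 * n + 1 : ℤ) : ℝ) = 0 := by
      push_cast
      linarith
    have h2 : (2 * n + 1 : ℤ) = 0 := by exact_mod_cast h1
    omega
  have hsum : Summable F := by
    have h1 : F = fun n : ℤ => ∑ i ∈ A, c i * (w - z i) *
        (1 / (((n : ℝ) + z i) * ((n : ℝ) + w))) := by
      funext n
      rw [hF]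
      have h2 : ∑ i ∈ A, c i / ((n : ℝ) + z i) =
          ∑ i ∈ A, c i / ((n : ℝ) + z i) - (∑ i ∈ A, c i) * (1 / ((n : ℝ) + w)) := by
        rw [hc]
        ring
      rw [h2, Finset.sum_mul, ← Finset.sum_sub_distrib]
      refine Finset.sum_congr rfl fun i hi => ?_
      have h3 := hne i hi n
      have h4 := hw n
      field_simp
      ring
    rw [h1]
    refine summable_sum fun i _ => ?_
    exact (M2b_prod (z i) w).mul_left _
  have h1 := hsum.hasSum.nat_add_neg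
  have h2 := (hasSum_nat_add_iff' 1).2 h1
  have h3 : HasSum (fun n : ℕ => ∑ i ∈ A, c i * (1 / (((n : ℝ) + 1) + z i) +
      1 / (-((n : ℝ) + 1) + z i))) (∑ i ∈ A, c i * (Real.pi * ct (z i) - 1 / z i)) :=
    hasSum_sum fun i hi => (M2b_cot (z i) (hz i hi)).mul_left _
  have h4 : (fun n : ℕ => F ((n + 1 : ℕ) : ℤ) + F (-((n + 1 : ℕ) : ℤ))) =
      fun n : ℕ => ∑ i ∈ A, c i * (1 / (((n : ℝ) + 1) + z i) + 1 / (-((n : ℝ) + 1) + z i)) := by
    funext n
    rw [hF, hF, ← Finset.sum_add_distrib]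
    refine Finset.sum_congr rfl fun i _ => ?_
    push_cast
    ring
  rw [h4] at h2
  have h5 := h2.unique h3
  have h6 : ∑ i ∈ A, c i * (Real.pi * ct (z i) - 1 / z i) =
      Real.pi * ∑ i ∈ A, c i * ct (z i) - F 0 := by
    rw [hF, Finset.mul_sum, ← Finset.sum_sub_distrib]
    refine Finset.sum_congr rfl fun i _ => ?_
    push_cast
    ring
  rw [h6] at h5
  have h7 : ∑' n, F n = Real.pi * ∑ i ∈ A, c i * ct (z i) := by
    simp at h5
    linarith
  rw [← h7]
  have h8 : (fun n : ℤ => ∑ i ∈ A, c i / ((n : ℝ) + z i)) = F := by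
    funext n
    rw [hF]
  rw [h8]
  exact hsum.hasSum

end Pool.Agent.GSG
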