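import Pool.Agent.GSG.R1

/-!
PROOFS (module R3). `2 al S T = ∑ p ∈ T, 1 / p - ∑ p ∈ S \ T, 1 / p`, and
`al S T - al S T' = ∑ p ∈ T \ T', 1 / p - ∑ p ∈ T' \ T, 1 / p`. `al_inj`: if some `p` lies in the symmetric
difference, multiply `s (al S T - al S T') = n` by `∏ q ∈ S, q`: all terms except that of `p` are divisible
by `p`, so `p ∣ s ∏_{q ≠ p} q`; but `p` is coprime to `s` and to the other `q`, and `p ≥ 2`: contradiction.
`two_al_ne`: in the same way with any `p ∈ S` (`2 s al S T = ∑ ± s / p`).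
`binP_al_ne`: `binP k = C (1 / (k-1)!) * ∏ i < k - 1, (X + C (k / 2 - (i + 1)))`; a root `α` satisfies
`2 α = 2 (i + 1) - k`, an integer, against `two_al_ne` with `s = 1`.
`zq_card`: `T ↦ ee (k / 2 - s al S T)` is injective on the `T ⊆ S` with `q ∈ T` (`ee_eq_iff` and `al_inj`;
cast the equation from `ℝ` to `ℚ`), and there are `2 ^ (|S| - 1)` such `T`.
-/

set_option autoImplicit false

open Finset

namespace Pool.Agent.GSG

open Pool.Agent.GSP

theorem R3_key {S : Finset ℕ} (h2 : ∀ p ∈ S, 2 ≤ p)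
    (hco : ∀ p ∈ S, ∀ q ∈ S, p ≠ q → Nat.Coprime p q) {s : ℤ} (hs : ∀ p ∈ S, IsCoprime s (p : ℤ))
    (c : ℕ → ℤ) (n : ℤ) (h : (s : ℚ) * ∑ p ∈ S, (c p : ℚ) / p = n) {p : ℕ} (hp : p ∈ S) :
    (p : ℤ) ∣ c p := by
  classical
  have hne : ∀ q ∈ S, (q : ℚ) ≠ 0 := fun q hq => by
    have := h2 q hq
    have h3 : q ≠ 0 := by omega
    exact_mod_cast h3
  have h4 : (s : ℚ) * ∑ q ∈ S, ((c q : ℚ) * ∏ r ∈ S.erase q, (r : ℚ)) = n * ∏ r ∈ S, (r : ℚ) := by
    rw [← h, mul_assoc, Finset.sum_mul]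
    congr 1
    refine Finset.sum_congr rfl fun q hq => ?_
    rw [← Finset.mul_prod_erase S (fun r : ℕ => (r : ℚ)) hq]
    field_simp [hne q hq]
  have h5 : s * ∑ q ∈ S, (c q * ∏ r ∈ S.erase q, (r : ℤ)) = n * ∏ r ∈ S, (r : ℤ) := by
    have h4' : ((s * ∑ q ∈ S, (c q * ∏ r ∈ S.erase q, (r : ℤ)) : ℤ) : ℚ) =
        ((n * ∏ r ∈ S, (r : ℤ) : ℤ) : ℚ) := by
      push_cast
      exact h4
    exact Int.cast_injective h4'
  have h6 : (p : ℤ) ∣ n * ∏ r ∈ S, (r : ℤ) :=
    Dvd.dvd.mul_left (Finset.dvd_prod_of_mem (fun r : ℕ => (r : ℤ)) hp) n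
  rw [← h5, ← Finset.add_sum_erase S _ hp, mul_add] at h6
  have h7 : (p : ℤ) ∣ s * ∑ q ∈ S.erase p, (c q * ∏ r ∈ S.erase q, (r : ℤ)) := by
    refine Dvd.dvd.mul_left (Finset.dvd_sum fun q hq => ?_) s
    refine Dvd.dvd.mul_left ?_ _
    refine Finset.dvd_prod_of_mem (fun r : ℕ => (r : ℤ)) ?_
    exact Finset.mem_erase.2 ⟨(Finset.ne_of_mem_erase hq).symm, hp⟩
  have h8 : (p : ℤ) ∣ s * (c p * ∏ r ∈ S.erase p, (r : ℤ)) := (dvd_add_left h7).1 h6
  have h9 : IsCoprime (p : ℤ) s := (hs p hp).symm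
  have h10 : (p : ℤ) ∣ c p * ∏ r ∈ S.erase p, (r : ℤ) := h9.dvd_of_dvd_mul_left h8
  have h11 : IsCoprime (p : ℤ) (∏ r ∈ S.erase p, (r : ℤ)) := by
    refine IsCoprime.prod_right fun r hr => ?_
    exact Nat.isCoprime_iff_coprime.2
      (hco p hp r (Finset.mem_of_mem_erase hr) (Finset.ne_of_mem_erase hr).symm)
  exact h11.dvd_of_dvd_mul_right h10

theorem R3_sum_ite {S T : Finset ℕ} (hT : T ⊆ S) :
    ∑ p ∈ T, (1 : ℚ) / p = ∑ p ∈ S, (if p ∈ T then (1 : ℚ) else 0) / p := by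
  classical
  rw [← Finset.sum_subset hT (fun p _ hp => by rw [if_neg hp, zero_div])]
  exact Finset.sum_congr rfl fun p hp => by rw [if_pos hp]

theorem R3_al {S T : Finset ℕ} (hT : T ⊆ S) :
    al S T = ∑ p ∈ T, (1 : ℚ) / p - (∑ p ∈ S, (1 : ℚ) / p) / 2 := by
  classical
  unfold al
  have h := Finset.sum_sdiff hT (f := fun p : ℕ => (1 : ℚ) / p)
  rw [← h]
  ring

/-- the numbers `s α_T` are different modulo `1` -/
theorem al_inj {S : Finset ℕ} {k : ℕ} (hS : LeafG S k) {s : ℤ} (hs : ∀ p ∈ S, IsCoprime s (p : ℤ))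
    {T T' : Finset ℕ} (hT : T ∈ S.powerset) (hT' : T' ∈ S.powerset) {n : ℤ}
    (h : (s : ℚ) * (al S T - al S T') = n) : T = T' := by
  classical
  rw [Finset.mem_powerset] at hT hT'
  have h1 : (s : ℚ) * ∑ p ∈ S,
      (((if p ∈ T then (1 : ℤ) else 0) - (if p ∈ T' then (1 : ℤ) else 0) : ℤ) : ℚ) / p = n := by
    rw [← h, R3_al hT, R3_al hT', R3_sum_ite hT, R3_sum_ite hT']
    congr 1
    rw [sub_sub_sub_cancel_right, ← Finset.sum_sub_distrib]
    refine Finset.sum_congr rfl fun p _ => ?_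
    push_cast
    rw [← sub_div]
  have key := fun p (hp : p ∈ S) => R3_key hS.two_le hS.coprime hs
    (fun p => (if p ∈ T then (1 : ℤ) else 0) - (if p ∈ T' then (1 : ℤ) else 0)) n h1 hp
  ext p
  by_cases hp : p ∈ S
  · have h2 := key p hp
    have h3 := hS.two_le p hp
    have h4 : ¬ (p : ℤ) ∣ 1 := by
      intro h5
      have h6 := Int.le_of_dvd one_pos h5
      omega
    by_cases hpT : p ∈ T <;> by_cases hpT' : p ∈ T'
    · simp [hpT, hpT']
    · exfalso
      simp only [if_pos hpT, if_neg hpT', sub_zero] at h2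
      exact h4 h2
    · exfalso
      simp only [if_neg hpT, if_pos hpT', zero_sub] at h2
      exact h4 ((dvd_neg).1 h2)
    · simp [hpT, hpT']
  · exact ⟨fun h5 => absurd (hT h5) hp, fun h5 => absurd (hT' h5) hp⟩

/-- the numbers `2 s α_T` are not integers -/
theorem two_al_ne {S : Finset ℕ} {k : ℕ} (hS : LeafG S k) (hne : S.Nonempty) {s : ℤ}
    (hs : ∀ p ∈ S, IsCoprime s (p : ℤ)) {T : Finset ℕ} (hT : T ∈ S.powerset) (n : ℤ) :
    2 * ((s : ℚ) * al S T) ≠ n := by
  classical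
  intro h
  rw [Finset.mem_powerset] at hT
  obtain ⟨p, hp⟩ := hne
  have h1 : (s : ℚ) * ∑ p ∈ S, ((2 * (if p ∈ T then (1 : ℤ) else 0) - 1 : ℤ) : ℚ) / p = n := by
    rw [← h, R3_al hT, R3_sum_ite hT, ← mul_assoc, mul_comm 2 (s : ℚ), mul_assoc]
    congr 1
    rw [mul_sub, mul_div_cancel₀ _ (two_ne_zero' ℚ), Finset.mul_sum, ← Finset.sum_sub_distrib]
    refine Finset.sum_congr rfl fun p _ => ?_
    push_cast
    ring
  have h2 := R3_key hS.two_le hS.coprime hs
    (fun p => 2 * (if p ∈ T then (1 : ℤ) else 0) - 1) n h1 hp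
  have h3 := hS.two_le p hp
  have h4 : ¬ (p : ℤ) ∣ 1 := by
    intro h5
    have h6 := Int.le_of_dvd one_pos h5
    omega
  by_cases hpT : p ∈ T
  · simp only [if_pos hpT] at h2
    exact h4 (by simpa using h2)
  · simp only [if_neg hpT] at h2
    exact h4 ((dvd_neg).1 (by simpa using h2))

/-- the Taylor coefficients do not vanish -/
theorem binP_al_ne {S : Finset ℕ} {k : ℕ} (hS : LeafG S k) (hne : S.Nonempty) {T : Finset ℕ}
    (hT : T ∈ S.powerset) : (binP k).eval (al S T) ≠ 0 := by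
  unfold binP
  rw [Polynomial.eval_mul, Polynomial.eval_C, Polynomial.eval_prod]
  refine mul_ne_zero ?_ ?_
  · exact one_div_ne_zero (by exact_mod_cast (k - 1).factorial_ne_zero)
  · refine Finset.prod_ne_zero_iff.2 fun i _ => ?_
    rw [Polynomial.eval_add, Polynomial.eval_X, Polynomial.eval_C]
    intro h
    refine two_al_ne hS hne (s := 1) (fun p _ => isCoprime_one_left) hT (2 * ((i : ℤ) + 1) - k) ?_
    have h1 : al S T = (i + 1) - (k : ℚ) / 2 := by linarith
    rw [h1]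
    push_cast
    ring

/-- the number of the poles -/
theorem zq_card {S : Finset ℕ} {k : ℕ} (hS : LeafG S k) {q : ℕ} (hq : q ∈ S) {s : ℤ}
    (hs : ∀ p ∈ S, IsCoprime s (p : ℤ)) : (zq S k q s).card = 2 ^ (S.card - 1) := by
  classical
  unfold zq
  rw [Finset.card_image_of_injOn]
  · have h1 : (S.powerset.filter fun T => q ∈ T) = (S.erase q).powerset.image (insert q) := by
      ext T
      simp only [Finset.mem_filter, Finset.mem_powerset, Finset.mem_image]
      constructor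
      · rintro ⟨hT, hqT⟩
        exact ⟨T.erase q, Finset.erase_subset_erase q hT, Finset.insert_erase hqT⟩
      · rintro ⟨U, hU, rfl⟩
        refine ⟨Finset.insert_subset hq (hU.trans (Finset.erase_subset q S)),
          Finset.mem_insert_self q U⟩
    rw [h1, Finset.card_image_of_injOn, Finset.card_powerset, Finset.card_erase_of_mem hq]
    intro U hU W hW hUW
    have hU' : q ∉ U := fun h => Finset.notMem_erase q S (Finset.mem_powerset.1 hU h)
    have hW' : q ∉ W := fun h => Finset.notMem_erase q S (Finset.mem_powerset.1 hW h)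
    have h2 : (insert q U).erase q = (insert q W).erase q := by
      have h3 : insert q U = insert q W := hUW
      rw [h3]
    rwa [Finset.erase_insert hU', Finset.erase_insert hW'] at h2
  · intro T hT T' hT' h
    have hT1 := (Finset.mem_filter.1 hT).1
    have hT1' := (Finset.mem_filter.1 hT').1
    obtain ⟨n, hn⟩ := ee_eq_iff.1 h
    refine al_inj hS hs hT1 hT1' (n := -n) ?_
    have h2 : (s : ℝ) * ((al S T : ℝ) - (al S T' : ℝ)) = ((-n : ℤ) : ℝ) := by
      push_cast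
      linarith
    exact_mod_cast h2

end Pool.Agent.GSG
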