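import Pool.Agent.GSG.M1
import Pool.Agent.GSG.M2a
import Pool.Agent.GSG.M2b
import Pool.Agent.GSG.R3
import Pool.Agent.GSP.A4b

/-!
PROOF (module M2c). `S = ∅`: `GSP.mu_eq_YY` in GSP/A4b.lean (`IsLeaf ∅` is trivial). Let `S ≠ ∅`, `ex = ex S k j`,
`F x = (binP k)(x) ∑ T, (-1) ^ |S \ T| / (x - al S T) ^ (ex + 1)`. (1) `F (-x) = F x`: `binP(-x) = (-1) ^ (k-1) binP(x)`
(see A4b.lean), `al S (S \ T) = - al S T`, signs as in `ex = k + 2 + 2 j - |S|`. (2) `F (n + k / 2) = 0` for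
integers `-k < n < 0` since `binP(n + k / 2) = 0` (for `n ≥ 0` nothing vanishes, but
`n + k / 2 ≠ al S T` always by `two_al_ne`). The map `n ↦ - k - n` of `ℤ` sends `n + k / 2` to its negative. So
`∑ n ∈ ℤ, F (n + k / 2) = 2 ∑ n ≥ 0, F (n + k / 2) = 2 mu / (∏ p * ex!)` (`muG_hasSum`).
(3) By `tsum_split` at `x = n + k / 2`: `F (n + k/2) = ∑ T, ± ∑ i < k, i ≤ ex, c_i(T) / (n + k/2 - al S T) ^ (ex + 1 - i)`.
For `ex + 1 - i ≥ 2` use `cot_tsum` (GSP/A3): the sum over `n ∈ ℤ` is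
`π ^ r P_r (ct (k / 2 - al S T)) = π ^ r (-1) ^ r P_r (ct (al S T - k / 2))` (`cotP_neg`, `ct (-y) = - ct y`).
For `i = ex` (only if `ex < k`) the terms of all `T` together: `cot_one` with `A = S.powerset`,
`c T = ± c_ex(T)`, `z T = k / 2 - al S T`; `∑ T, ± c_ex(T) = 0` is `taylor_cancel` with `i = ex` (exponent `0`).
(4) In `YY S k j 1` the terms with `i > ex` vanish, because there the truncated `ex + 1 - i` is `0` and
`cotP 0 = 0`. So `YY(1)(π) = (∏ p * ex! / 2) ∑ n ∈ ℤ, F (n + k / 2) = mu`.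
-/

set_option autoImplicit false

open Finset

namespace Pool.Agent.GSG

open Pool.Agent.GSP

private theorem M2c_eval (k : ℕ) (x : ℝ) :
    ((binP k).map (algebraMap ℚ ℝ)).eval x =
      1 / ((k - 1).factorial : ℝ) * ∏ i ∈ range (k - 1), (x + ((k : ℝ) / 2 - (i + 1))) := by
  unfold binP
  rw [Polynomial.map_mul, Polynomial.eval_mul, Polynomial.map_C, Polynomial.eval_C,
    Polynomial.map_prod, Polynomial.eval_prod]
  congr 1
  · simp
  · refine prod_congr rfl fun i _ => ?_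
    simp

private theorem M2c_neg (k : ℕ) (x : ℝ) :
    ((binP k).map (algebraMap ℚ ℝ)).eval (-x) =
      (-1) ^ (k - 1) * ((binP k).map (algebraMap ℚ ℝ)).eval x := by
  rw [M2c_eval, M2c_eval, ← prod_range_reflect]
  have h : ∀ j ∈ range (k - 1), (-x + ((k : ℝ) / 2 - (((k - 1 - 1 - j : ℕ) : ℝ) + 1))) =
      (-1) * (x + ((k : ℝ) / 2 - (j + 1))) := by
    intro j hj
    have hj' := mem_range.mp hj
    have e : ((k - 1 - 1 - j : ℕ) : ℝ) = (k : ℝ) - 2 - j := by
      have : k - 1 - 1 - j + (2 + j) = k := by omega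
      have h2 : ((k - 1 - 1 - j : ℕ) : ℝ) + (2 + j) = k := by exact_mod_cast this
      linarith
    rw [e]
    ring
  rw [prod_congr rfl h, prod_mul_distrib, prod_const, card_range]
  ring

private theorem M2c_zero {k : ℕ} {n : ℤ} (h1 : -(k : ℤ) < n) (h2 : n < 0) :
    ((binP k).map (algebraMap ℚ ℝ)).eval ((n : ℝ) + k / 2) = 0 := by
  rw [M2c_eval]
  have hm : (n + k - 1).toNat ∈ range (k - 1) := by
    rw [mem_range]
    omega
  rw [prod_eq_zero hm, mul_zero]
  have e : (((n + k - 1).toNat : ℕ) : ℝ) = (n : ℝ) + k - 1 := by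
    have : (((n + k - 1).toNat : ℕ) : ℤ) = n + k - 1 := by omega
    exact_mod_cast congrArg (Int.cast (R := ℝ)) this
  rw [e]
  ring

private theorem M2c_split {f : ℤ → ℝ} {k : ℕ} (hk : 1 ≤ k) (hf : Summable f)
    (h0 : ∀ n : ℤ, -(k : ℤ) < n → n < 0 → f n = 0) :
    ∑' n : ℤ, f n = ∑' n : ℕ, f n + ∑' n : ℕ, f (-(n : ℤ) - k) := by
  have h1 : Summable fun n : ℕ => f (n : ℤ) := hf.comp_injective Nat.cast_injective
  have h2 : Summable fun n : ℕ => f (-((n : ℤ) + 1)) := by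
    apply hf.comp_injective (i := fun n : ℕ => -((n : ℤ) + 1))
    intro a b hab
    simp only at hab
    omega
  rw [tsum_of_nat_of_neg_add_one h1 h2]
  congr 1
  rw [← h2.sum_add_tsum_nat_add (k - 1)]
  have h3 : ∑ i ∈ range (k - 1), f (-((i : ℤ) + 1)) = 0 := by
    refine sum_eq_zero fun i hi => ?_
    have := mem_range.mp hi
    exact h0 _ (by omega) (by omega)
  rw [h3, zero_add]
  refine tsum_congr fun n => ?_
  congr 1
  have : ((n + (k - 1) : ℕ) : ℤ) = n + k - 1 := by omega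
  rw [this]
  ring

private theorem M2c_al_compl {S T : Finset ℕ} (hT : T ⊆ S) : al S (S \ T) = -al S T := by
  unfold al
  rw [Finset.sdiff_sdiff_eq_self hT]
  ring

private theorem M2c_ct_neg (x : ℝ) : ct (-x) = -ct x := by
  unfold ct
  rw [mul_neg, Real.cos_neg, Real.sin_neg, div_neg]

private theorem M2c_nonint {S : Finset ℕ} {k : ℕ} (hS : LeafG S k) (hne : S.Nonempty)
    {T : Finset ℕ} (hT : T ∈ S.powerset) (n : ℤ) : (k : ℝ) / 2 - (al S T : ℝ) ≠ n := by
  intro h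
  refine two_al_ne hS hne (s := 1) (fun p _ => isCoprime_one_left) hT ((k : ℤ) - 2 * n) ?_
  have h4 : (2 : ℝ) * (al S T : ℝ) = (k : ℝ) - 2 * n := by linarith
  have h5 : (2 : ℚ) * al S T = (k : ℚ) - 2 * n := by exact_mod_cast h4
  push_cast
  rw [one_mul, h5]

/-- the function which is summed -/
private noncomputable def M2c_F (S : Finset ℕ) (k j : ℕ) (x : ℝ) : ℝ :=
  ((binP k).map (algebraMap ℚ ℝ)).eval x *
    ∑ T ∈ S.powerset, (-1) ^ (S \ T).card / (x - (al S T : ℝ)) ^ (ex S k j + 1)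

private theorem M2c_even {S : Finset ℕ} {k : ℕ} (hS : LeafG S k) (j : ℕ) (x : ℝ) :
    M2c_F S k j (-x) = M2c_F S k j x := by
  have hk := hS.one_le
  have hc := hS.card_le
  unfold M2c_F
  rw [M2c_neg]
  have h2 : ∑ T ∈ S.powerset, (-1 : ℝ) ^ (S \ T).card / (-x - (al S T : ℝ)) ^ (ex S k j + 1) =
      (-1) ^ (S.card + (ex S k j + 1)) *
        ∑ T ∈ S.powerset, (-1 : ℝ) ^ (S \ T).card / (x - (al S T : ℝ)) ^ (ex S k j + 1) := by
    rw [mul_sum]
    refine sum_nbij' (fun T => S \ T) (fun T => S \ T) ?_ ?_ ?_ ?_ ?_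
    · intro T _
      exact mem_powerset.mpr sdiff_subset
    · intro T _
      exact mem_powerset.mpr sdiff_subset
    · intro T hT
      exact Finset.sdiff_sdiff_eq_self (mem_powerset.mp hT)
    · intro T hT
      exact Finset.sdiff_sdiff_eq_self (mem_powerset.mp hT)
    · intro T hT
      have hTS := mem_powerset.mp hT
      rw [M2c_al_compl hTS, Finset.sdiff_sdiff_eq_self hTS]
      have h3 : (S \ T).card + T.card = S.card := card_sdiff_add_card_eq_card hTS
      have e2 : -x - (al S T : ℝ) = -(x - ((-al S T : ℚ) : ℝ)) := by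
        push_cast
        ring
      have e5 : (-(x - ((-al S T : ℚ) : ℝ))) ^ (ex S k j + 1) =
          (-1) ^ (ex S k j + 1) * (x - ((-al S T : ℚ) : ℝ)) ^ (ex S k j + 1) := neg_pow _ _
      rw [e2, e5]
      have h5 : ((-1 : ℝ)) ^ (ex S k j + 1) * (-1) ^ (ex S k j + 1) = 1 := by
        rw [← pow_add, ← two_mul, pow_mul]
        simp
      have hu : ((-1 : ℝ)) ^ (ex S k j + 1) ≠ 0 := pow_ne_zero _ (by norm_num)
      have h6 : ((-1 : ℝ)) ^ (S.card + (ex S k j + 1)) * (-1) ^ T.card =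
          (-1) ^ (ex S k j + 1) * (-1) ^ (S \ T).card := by
        rw [← h3, pow_add, pow_add]
        have h7 : ((-1 : ℝ)) ^ T.card * (-1) ^ T.card = 1 := by
          rw [← pow_add, ← two_mul, pow_mul]
          simp
        calc ((-1 : ℝ)) ^ (S \ T).card * (-1) ^ T.card * (-1) ^ (ex S k j + 1) * (-1) ^ T.card
            = (-1) ^ (S \ T).card * (-1) ^ (ex S k j + 1) * ((-1) ^ T.card * (-1) ^ T.card) := by
              ring
          _ = _ := by rw [h7]; ring
      rw [← mul_div_assoc, h6]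
      have h8 : ((-1 : ℝ)) ^ (S \ T).card =
          (-1) ^ (ex S k j + 1) * ((-1) ^ (ex S k j + 1) * (-1) ^ (S \ T).card) := by
        rw [← mul_assoc, h5, one_mul]
      conv_lhs => rw [h8]
      rw [mul_div_mul_left _ _ hu]
  rw [h2]
  have h4 : ((-1 : ℝ)) ^ (k - 1) * (-1) ^ (S.card + (ex S k j + 1)) = 1 := by
    rw [← pow_add]
    have h5 : (k - 1) + (S.card + (ex S k j + 1)) = 2 * (k + 1 + j) := by
      unfold ex
      omega
    rw [h5, pow_mul]
    simp
  calc _ = ((-1 : ℝ)) ^ (k - 1) * (-1) ^ (S.card + (ex S k j + 1)) *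
        (((binP k).map (algebraMap ℚ ℝ)).eval x *
          ∑ T ∈ S.powerset, (-1) ^ (S \ T).card / (x - (al S T : ℝ)) ^ (ex S k j + 1)) := by ring
    _ = _ := by rw [h4, one_mul]

private theorem M2c_term {S : Finset ℕ} {k : ℕ} (hS : LeafG S k) (hne : S.Nonempty) (j : ℕ)
    {i : ℕ} (hik : i < k) (hi : i ≤ ex S k j) :
    HasSum (fun n : ℤ => ∑ T ∈ S.powerset, (-1) ^ (S \ T).card *
      ((((Polynomial.taylor (al S T) (binP k)).coeff i : ℚ) : ℝ) /
        ((n : ℝ) + k / 2 - (al S T : ℝ)) ^ (ex S k j + 1 - i)))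
      (∑ T ∈ S.powerset, (-1) ^ (S \ T).card *
        ((((Polynomial.taylor (al S T) (binP k)).coeff i : ℚ) : ℝ) *
          (Real.pi ^ (ex S k j + 1 - i) * ((cotP (ex S k j + 1 - i)).map (algebraMap ℚ ℝ)).eval
            (ct ((k : ℝ) / 2 - (al S T : ℝ)))))) := by
  rcases Nat.lt_or_ge i (ex S k j) with h | h
  · refine hasSum_sum fun T hT => ?_
    refine HasSum.mul_left _ ?_
    have h1 := (cot_tsum (r := ex S k j + 1 - i) (by omega)
      (fun n => M2c_nonint hS hne hT n)).mul_left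
      (((Polynomial.taylor (al S T) (binP k)).coeff i : ℚ) : ℝ)
    refine h1.congr_fun ?_
    intro n
    have hx' : (n : ℝ) + k / 2 - (al S T : ℝ) = (n : ℝ) + ((k : ℝ) / 2 - (al S T : ℝ)) := by
      ring
    rw [hx', mul_one_div]
  · have hie : i = ex S k j := le_antisymm hi h
    have hr : ex S k j + 1 - i = 1 := by omega
    have h0 : ∑ T ∈ S.powerset, (-1 : ℝ) ^ (S \ T).card *
        (((Polynomial.taylor (al S T) (binP k)).coeff i : ℚ) : ℝ) = 0 := by
      have h1 := taylor_cancel hS.one_le hS.card_le h hik 0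
      have h2 : i - ex S k j - 1 = 0 := by omega
      rw [h2] at h1
      simpa only [pow_zero, mul_one] using h1
    have h1 := cot_one S.powerset (fun T => (-1 : ℝ) ^ (S \ T).card *
        (((Polynomial.taylor (al S T) (binP k)).coeff i : ℚ) : ℝ))
      (fun T => (k : ℝ) / 2 - (al S T : ℝ)) (fun T hT n => M2c_nonint hS hne hT n) h0
    rw [hr]
    have h2 : (fun n : ℤ => ∑ T ∈ S.powerset, (-1) ^ (S \ T).card *
        ((((Polynomial.taylor (al S T) (binP k)).coeff i : ℚ) : ℝ) /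
          ((n : ℝ) + k / 2 - (al S T : ℝ)) ^ 1)) =
        fun n : ℤ => ∑ T ∈ S.powerset, (-1 : ℝ) ^ (S \ T).card *
          (((Polynomial.taylor (al S T) (binP k)).coeff i : ℚ) : ℝ) /
            ((n : ℝ) + ((k : ℝ) / 2 - (al S T : ℝ))) := by
      funext n
      refine sum_congr rfl fun T _ => ?_
      have hx' : (n : ℝ) + k / 2 - (al S T : ℝ) = (n : ℝ) + ((k : ℝ) / 2 - (al S T : ℝ)) := by
        ring
      rw [hx', pow_one, mul_div_assoc]
    have h3 : (∑ T ∈ S.powerset, (-1 : ℝ) ^ (S \ T).card *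
        ((((Polynomial.taylor (al S T) (binP k)).coeff i : ℚ) : ℝ) *
          (Real.pi ^ 1 * ((cotP 1).map (algebraMap ℚ ℝ)).eval
            (ct ((k : ℝ) / 2 - (al S T : ℝ)))))) =
        Real.pi * ∑ T ∈ S.powerset, (-1 : ℝ) ^ (S \ T).card *
          (((Polynomial.taylor (al S T) (binP k)).coeff i : ℚ) : ℝ) *
            ct ((k : ℝ) / 2 - (al S T : ℝ)) := by
      rw [mul_sum]
      refine sum_congr rfl fun T _ => ?_
      simp only [cotP, Polynomial.map_X, Polynomial.eval_X, pow_one]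
      ring
    rw [h2, h3]
    exact h1

/-- the moments as polynomials in `π` -/
theorem muG_eq_YY {S : Finset ℕ} {k : ℕ} (hS : LeafG S k) (j : ℕ) :
    mu S k j = (YY S k j 1).eval Real.pi := by
  have hk := hS.one_le
  by_cases hne : S = ∅
  · subst hne
    refine mu_eq_YY ⟨fun p hp => absurd hp (notMem_empty p),
      fun p hp => absurd hp (notMem_empty p), by simp⟩ hk j
  have hne' : S.Nonempty := nonempty_iff_ne_empty.mpr hne
  have hxn : ∀ n : ℤ, ∀ T ∈ S.powerset, (n : ℝ) + k / 2 ≠ (al S T : ℝ) := by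
    intro n T hT h
    refine M2c_nonint hS hne' hT (-n) ?_
    push_cast
    linarith
  set I := (range k).filter (· ≤ ex S k j) with hI
  -- the sum over the integers
  have hF : HasSum (fun n : ℤ => M2c_F S k j ((n : ℝ) + k / 2))
      (∑ i ∈ I, ∑ T ∈ S.powerset, (-1) ^ (S \ T).card *
        ((((Polynomial.taylor (al S T) (binP k)).coeff i : ℚ) : ℝ) *
          (Real.pi ^ (ex S k j + 1 - i) * ((cotP (ex S k j + 1 - i)).map (algebraMap ℚ ℝ)).eval
            (ct ((k : ℝ) / 2 - (al S T : ℝ)))))) := by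
    have h1 := hasSum_sum (s := I) fun i hi => by
      rw [hI, mem_filter, mem_range] at hi
      exact M2c_term hS hne' j hi.1 hi.2
    refine h1.congr_fun ?_
    intro n
    unfold M2c_F
    rw [tsum_split hS j _ (hxn n), sum_comm]
    refine sum_congr rfl fun T _ => ?_
    rw [mul_sum]
  have hsplit := M2c_split hk hF.summable (fun n h1 h2 => by
    unfold M2c_F
    rw [M2c_zero h1 h2, zero_mul])
  rw [hF.tsum_eq] at hsplit
  have hrefl : ∑' n : ℕ, M2c_F S k j (((-(n : ℤ) - k : ℤ) : ℝ) + k / 2) =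
      ∑' n : ℕ, M2c_F S k j ((n : ℝ) + k / 2) := by
    refine tsum_congr fun n => ?_
    have e1 : (((-(n : ℤ) - k : ℤ)) : ℝ) + k / 2 = -((n : ℝ) + k / 2) := by
      push_cast
      ring
    rw [e1, M2c_even hS]
  have hcast : ∑' n : ℕ, M2c_F S k j ((((n : ℕ) : ℤ) : ℝ) + k / 2) =
      ∑' n : ℕ, M2c_F S k j ((n : ℝ) + k / 2) := by
    refine tsum_congr fun n => ?_
    rw [Int.cast_natCast]
  rw [hrefl, hcast] at hsplit
  have hmu : mu S k j = (∏ p ∈ S, (p : ℝ)) * ((ex S k j).factorial : ℝ) *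
      ∑' n : ℕ, M2c_F S k j ((n : ℝ) + k / 2) := by
    rw [← tsum_mul_left]
    exact (muG_hasSum hS j).tsum_eq.symm
  have hmu2 : mu S k j = (∏ p ∈ S, (p : ℝ)) * ((ex S k j).factorial : ℝ) / 2 *
      ∑ i ∈ I, ∑ T ∈ S.powerset, (-1) ^ (S \ T).card *
        ((((Polynomial.taylor (al S T) (binP k)).coeff i : ℚ) : ℝ) *
          (Real.pi ^ (ex S k j + 1 - i) * ((cotP (ex S k j + 1 - i)).map (algebraMap ℚ ℝ)).eval
            (ct ((k : ℝ) / 2 - (al S T : ℝ))))) := by
    rw [hmu, hsplit]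
    ring
  rw [hmu2, sum_comm]
  unfold YY
  rw [if_neg hne]
  simp only [Polynomial.eval_mul, Polynomial.eval_C, Polynomial.eval_finsetSum,
    Polynomial.eval_pow, Polynomial.eval_X, Polynomial.eval_neg, Polynomial.eval_one]
  congr 1
  refine sum_congr rfl fun T _ => ?_
  rw [← mul_sum]
  congr 1
  rw [hI, sum_filter]
  refine sum_congr rfl fun i _ => ?_
  split_ifs with h
  · have h1 : ((1 : ℤ) : ℝ) * (al S T : ℝ) - (k : ℝ) / 2 = -((k : ℝ) / 2 - (al S T : ℝ)) := by
      push_cast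
      ring
    rw [h1, M2c_ct_neg, cotP_neg, ← mul_assoc ((-1 : ℝ) ^ (ex S k j + 1 - i)),
      ← pow_add, ← two_mul, pow_mul]
    norm_num
    ring
  · have h2 : ex S k j + 1 - i = 0 := by omega
    rw [h2]
    simp [cotP]

end Pool.Agent.GSG
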