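import Pool.Agent.GSG.I1

set_option autoImplicit false

open Finset

namespace Pool.Agent.GSG

open Pool.Agent.OHG Pool.Agent.GPC Pool.Agent.GSP

/-- the separation -/
theorem separationG {B : ℕ} {ι ι' : Type} [Fintype ι] [Fintype ι'] {κ κ' : ℝ} {P : ι → Prime}
    {P' : ι' → Prime} (hP : Gen B P) (hP' : Gen B P')
    (h : series κ (univ.val.map P) = series κ' (univ.val.map P')) :
    κ = κ' ∧ ∃ e : ι ≃ ι', ∀ i, Iso (P i) (P' (e i)) := by
  classical
  refine ⟨(pieces κ κ' _ _ h).2.2, ?_⟩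
  obtain ⟨h1, h2⟩ := real_dataG (gen_not_bad hP) (gen_not_bad hP') h
  have hO := famG_ok hP
  have hO' := famG_ok hP'
  have nm1 : ∀ (ι : Type) [Fintype ι] [DecidableEq ι] (P : ι → Prime), OkG B (famOf P) → ∀ v,
      nm ((famOf P).S v) ((famOf P).k v) 0 = 1 := fun ι _ _ P hO v =>
    nmG_zero (hO.leaf v)
  have e1 : ∀ (ι : Type) [Fintype ι] [DecidableEq ι] (P : ι → Prime), OkG B (famOf P) →
      (famOf P).Z (fun v j => nm ((famOf P).S v) ((famOf P).k v) j) =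
        ∏ i, (datOf (P i)).Z fun v j => nm ((P i).D.leaf v) ((datOf (P i)).k v) j := by
    intro ι _ _ P hO
    rw [Z_fam P _ (nm1 ι P hO)]
    refine prod_congr rfl fun i _ => ?_
    congr 1
    funext v j
    rw [k_fam]
    rfl
  have e2 : ∀ (ι : Type) [Fintype ι] [DecidableEq ι] (P : ι → Prime),
      ∏ v, GSP.mu ((famOf P).S v) ((famOf P).k v) 0 =
        ∏ i, ∏ v, GSP.mu ((P i).D.leaf v) ((datOf (P i)).k v) 0 := by
    intro ι _ _ P
    rw [Fintype.prod_sigma]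
    refine prod_congr rfl fun i _ => prod_congr rfl fun v _ => ?_
    rw [k_fam]
    rfl
  have e3 : ∀ (ι : Type) [Fintype ι] (P : ι → Prime),
      ∃ a : ℚ, 0 < a ∧ (a : ℝ) = (∏ i, |(lkm (P i).D).det|) ^ 3 := by
    intro ι _ P
    refine ⟨(∏ i, |(lkq (P i).D).det|) ^ 3, ?_, ?_⟩
    · refine pow_pos (prod_pos fun i _ => abs_pos.2 (lkq_det (P i).isGraph)) 3
    · rw [Rat.cast_pow, Rat.cast_prod]
      congr 1
      refine prod_congr rfl fun i _ => ?_
      rw [Rat.cast_abs]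
      congr 1
      have : lkm (P i).D = (lkq (P i).D).map (Rat.castHom ℝ) := by
        ext v w
        simp [lkm, lkq]
      rw [this, ← RingHom.mapMatrix_apply, ← RingHom.map_det]
      rfl
  obtain ⟨a, ha, ea⟩ := e3 ι' P'
  obtain ⟨b, hb, eb⟩ := e3 ι P
  obtain ⟨σ, s1, s2, s3, s4⟩ := decodeG hO hO' (by rw [e1 ι P hO, e1 ι' P' hO', h1]) ha hb
    (by rw [e2, e2, ea, eb, h2])
  obtain ⟨e, f, ef⟩ := sig_iso (fun i => (P i).isGraph.tree.1) (fun i => (P' i).isGraph.tree.1) σ s1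
  refine ⟨e, fun i => ?_⟩
  refine iso_of_datG (f i) (fun v w => ?_) (fun v => ?_) (fun v => ?_) fun v w hvw => ?_
  · have h8 := s1 ⟨i, v⟩ ⟨i, w⟩
    rw [ef, ef] at h8
    have h9 : (famOf P').G.Adj ⟨e i, (f i) v⟩ ⟨e i, (f i) w⟩ ↔
        (P' (e i)).D.graph.Adj (f i v) (f i w) := sigG_adj (G := fun i => (P' i).D.graph)
    have h10 : (famOf P).G.Adj ⟨i, v⟩ ⟨i, w⟩ ↔ (P i).D.graph.Adj v w :=
      sigG_adj (G := fun i => (P i).D.graph)
    exact h9.symm.trans (h8.trans h10)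
  · have := s2 ⟨i, v⟩
    rw [ef] at this
    exact this
  · have := s3 ⟨i, v⟩
    rw [ef] at this
    exact this
  · have h5 := s4 ⟨i, v⟩ ⟨i, w⟩ 
      ((sigG_adj (G := fun i => (P i).D.graph)).2 hvw)
    rw [ef, ef] at h5
    have h6 : ∀ (ι : Type) [DecidableEq ι] (P : ι → Prime) (i : ι) (v w : Fin ((P i).n + 1)),
        (famOf P).w s(⟨i, v⟩, ⟨i, w⟩) = ((lkq (P i).D)⁻¹ v w) ^ 2 := by
      intro ι _ P i v w
      unfold famOf sqw
      simp only [Sym2.lift_mk, Matrix.blockDiagonal'_apply_eq]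
      have h7 : (lkq (P i).D)⁻¹.IsSymm := by
        refine Matrix.IsSymm.inv ?_
        ext v w
        simp [lkq, lk_comm]
      rw [h7.apply, sq]
    rw [h6, h6] at h5
    exact h5

end Pool.Agent.GSG
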