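import Pool.Agent.GSG.R3b
import Pool.Agent.GSG.R7
import Pool.Agent.GSG.M4

/-!
PROOF (module N1). Take `q`, `c`, and `κ` (for `j = 0`) from `node_lc`, `g = gq S k q (e + 1) 1`, `e = ex S k 0`. For a
`t` with `tz N l i t` prime to `N` and `g (t c / l) ≠ 0` the leading coefficients in `h t` give
`κ² g (t c / l)² = lc(YY S k 0 1)²`, i.e. `g x ^ 2 = C`, `x = t c / l`. With `t₀` from `tz_unit` and `X` from
`points`: `PF.not_const` for `gq_pf` (`zq` is nonempty: `zq_card`) gives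
`l - 1 ≤ |X| ≤ 4 (e + 1) 2 ^ (|S| - 1) ≤ 2 ^ (B + 1)` (`deg_le`), against `4 ^ (B + 3) ≤ l`.
(`IsCoprime 1 p` is trivial; `node_lc` is used with `s = 1`, `tz * 1 = tz`.)
-/

set_option autoImplicit false

open Finset

namespace Pool.Agent.GSG

open Pool.Agent.GSP

/-- one node cannot be invariant under the twists -/
theorem ns_one {B N : ℕ} (hN : 0 < N) (h4 : 4 ∣ N) {S : Finset ℕ} {k : ℕ} (hS : LeafG S k)
    (hNS : ∀ p ∈ S, 2 * p ∣ N) (hB : k + 2 ≤ B) {l : ℕ} (hl : l.Prime) (hb : 4 ^ (B + 3) ≤ l)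
    (hi : 1 ≤ xp l S)
    (h : ∀ t : ℤ, IsCoprime (tz N l (xp l S) t) (N : ℤ) →
      YY S k 0 (tz N l (xp l S) t) ^ 2 = YY S k 0 1 ^ 2) : False := by
  have hb4 : 64 * 4 ^ B ≤ l := by
    have e1 : 4 ^ (B + 3) = 64 * 4 ^ B := by
      rw [pow_add]
      norm_num
      ring
    rwa [e1] at hb
  have hB4 : 1 ≤ 4 ^ B := Nat.one_le_pow _ _ (by norm_num)
  have h5 : 5 ≤ l := by omega
  obtain ⟨q, hq, hqi, c, hc, hlc⟩ := node_lc hN hS hNS hl h5 hi
  obtain ⟨κ, hκ, hk⟩ := hlc 0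
  obtain ⟨t₀, ht₀⟩ := tz_unit (N := N) (i := xp l S) hN hl hi
  obtain ⟨X, hX, hXc, hXt⟩ := points hl hc t₀
  have hone : ∀ p ∈ S, IsCoprime (1 : ℤ) (p : ℤ) := fun p _ => isCoprime_one_left
  have hpf := gq_pf hS hq (r := ex S k 0 + 1) (by omega) hone
  have hzc := zq_card hS hq hone
  have hne : (zq S k q 1).Nonempty := by
    rw [← Finset.card_pos, hzc]
    positivity
  have key : ∀ x ∈ X, ee x ∉ zq S k q 1 → gq S k q (ex S k 0 + 1) 1 x ≠ 0 →
      gq S k q (ex S k 0 + 1) 1 x ^ 2 = ((YY S k 0 1).leadingCoeff / κ) ^ 2 := by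
    intro x hx _ hgx
    obtain ⟨t, ht, rfl⟩ := hXt x hx
    have h1 := h t (ht₀ t ht)
    have e1 : (t : ℝ) * c * ((1 : ℤ) : ℝ) / l = t * c / l := by
      rw [Int.cast_one, mul_one]
    have h2 := hk 1 t (by rw [e1]; exact hgx)
    rw [mul_one, e1] at h2
    have h3 := congrArg Polynomial.leadingCoeff h1
    rw [Polynomial.leadingCoeff_pow, Polynomial.leadingCoeff_pow, h2] at h3
    rw [div_pow, ← h3, mul_pow, mul_div_cancel_left₀ _ (pow_ne_zero 2 hκ)]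
  have h6 := hpf.not_const hne (by omega) X hX key
  rw [hzc] at h6
  have h7 := (deg_le hS ⟨q, hq⟩ hB).1
  have h8 : 2 ^ (B - 1) ≤ 4 ^ B :=
    (Nat.pow_le_pow_right (by norm_num) (by omega)).trans (Nat.pow_le_pow_left (by norm_num) B)
  omega

end Pool.Agent.GSG
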