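import Pool.Agent.GSG.R1b
import Pool.Agent.GSG.R3b
import Pool.Agent.GSG.R7
import Pool.Agent.GSG.M4

/-!
PROOF (module N2). Take `q`, `c` (for `l`) and `q'`, `c'` (for `l'`) from `node_twist`, `e = ex S k 0`, and write
`a = tz N l i t`, `a' = tz N l' i' t'`, `lc(s)` for the leading coefficient of `YY S k 0 s`, nonzero for units.
Fix `t'` with `a'` a unit. By `node_lc` with `s = a'` and with `s = 1`:
`lc(a a') = κ gq_(a') (t c a' / l)` and `lc(a) = κ gq_1 (t c / l)` if these values are not `0`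
(`gq_s := gq S k q (e + 1) s`). Here `a' = 1 + t' tw N l' i'` and `l ∣ tw N l' i'` (`dvd_tw`, `l ∣ q ∣ N`), so
`t c a' / l` and `t c / l` differ by an integer (`gq_int`): `lc(a a') = κ gq_(a') (t c / l)`. So `h` says
`(lc(1)² ) gq_(a') (x)² = (lc(a')²) gq_1 (x)²` at the points `x = t c / l` where nothing vanishes, and
`PF.two` (`4 * 2 * 2 ^ (B - 1) < l - 1`) gives `zq S k q a' = zq S k q 1`, for every unit `a'`.
Apply this to `T₀ = S`: `ee (k / 2 - a' al S S) ∈ zq S k q 1`, so there is `T ∋ q`, `T ⊆ S`, with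
`a' al S S - al S T ∈ ℤ`. By `tw_eq`, `tw_dvd` for `l'`: `a' al S S = al S S + t' c' / l' + integer`
(`q' ∈ S` has the sign `+`). For a given `T` two such values `t', t''` satisfy `(t' - t'') c' / l' ∈ ℤ`,
`l' ∣ t' - t''`. So among the `t' ∈ range l'` which give units (at least `l' - 1` by `tz_unit`) at most
`2 ^ (|S| - 1) ≤ 2 ^ (B - 1)` are possible: contradiction. (Pigeonhole: map `t'` to `T`; injective on the units.)
-/

set_option autoImplicit false

open Finset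

namespace Pool.Agent.GSG

open Pool.Agent.GSP

private theorem N2_big {l B : ℕ} (hb : 4 ^ (B + 3) ≤ l) : 2 ^ (B + 2) + 2 ≤ l ∧ 5 ≤ l := by
  have h1 : (2 : ℕ) ^ B ≤ 4 ^ B := Nat.pow_le_pow_left (by norm_num) B
  have h2 : 1 ≤ (2 : ℕ) ^ B := Nat.one_le_two_pow
  have h3 : (4 : ℕ) ^ (B + 3) = 64 * 4 ^ B := by ring
  have h4 : (2 : ℕ) ^ (B + 2) = 4 * 2 ^ B := by ring
  omega

/-- `tw * al S S - c / l` is an integer -/
private theorem N2_alSS {N l : ℕ} (hN : 0 < N) {S : Finset ℕ} {k : ℕ} (hS : LeafG S k)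
    (hNS : ∀ p ∈ S, 2 * p ∣ N) (hl : l.Prime) (h5 : 5 ≤ l) (hi : 1 ≤ xp l S) :
    ∃ c : ℤ, IsCoprime c (l : ℤ) ∧ ∃ n : ℤ,
      (tw N l (xp l S) : ℝ) * (al S S : ℝ) = (c : ℝ) / l + n := by
  obtain ⟨q, hq, hvq, hnd, -⟩ := node_twist hN hS hNS hl h5 hi
  obtain ⟨c, hc, hce⟩ := tw_eq hN hl h5 (hS.pos q hq) (hNS q hq) (by omega)
  rw [hvq] at hce
  have hd : ∀ p ∈ S.erase q, ∃ d : ℤ, tw N l (xp l S) = 2 * p * d := by
    intro p hp
    obtain ⟨hpq, hpS⟩ := Finset.mem_erase.mp hp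
    have h0 : padicValNat l p = 0 := padicValNat.eq_zero_of_not_dvd (hnd p hpS hpq)
    obtain ⟨d, hd⟩ := tw_dvd hN hl h5 (hS.pos p hpS) (hNS p hpS) (i := xp l S) (by omega)
    exact ⟨d, hd⟩
  choose! d hd using hd
  have hl0 : (l : ℝ) ≠ 0 := by exact_mod_cast hl.ne_zero
  have hq0 : (q : ℝ) ≠ 0 := by exact_mod_cast (hS.pos q hq).ne'
  have hce' : (l : ℝ) * (tw N l (xp l S) : ℝ) = 2 * q * c := by exact_mod_cast hce
  have hal : (al S S : ℝ) = (∑ p ∈ S, (1 : ℝ) / p) / 2 := by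
    unfold al
    rw [Finset.sdiff_self, Finset.sum_empty]
    push_cast
    ring
  refine ⟨c, hc, ∑ p ∈ S.erase q, d p, ?_⟩
  rw [hal, ← Finset.add_sum_erase S _ hq]
  have h1 : ∀ p ∈ S.erase q, (tw N l (xp l S) : ℝ) * ((1 : ℝ) / p) / 2 = d p := by
    intro p hp
    have hp0 : (p : ℝ) ≠ 0 := by
      exact_mod_cast (hS.pos p (Finset.mem_of_mem_erase hp)).ne'
    have h2 : (tw N l (xp l S) : ℝ) = 2 * p * d p := by exact_mod_cast hd p hp
    rw [h2]
    field_simp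
  have h3 : (tw N l (xp l S) : ℝ) * (∑ p ∈ S.erase q, (1 : ℝ) / p) / 2 =
      ∑ p ∈ S.erase q, (d p : ℝ) := by
    rw [Finset.mul_sum, Finset.sum_div]
    exact Finset.sum_congr rfl h1
  have h4 : (tw N l (xp l S) : ℝ) * ((1 : ℝ) / q) / 2 = c / l := by
    field_simp
    linarith
  push_cast
  rw [← h3, ← h4]
  ring

/-- the twists for two primes do not separate at a node -/
theorem ns_two {B N : ℕ} (hN : 0 < N) (h4 : 4 ∣ N) {S : Finset ℕ} {k : ℕ} (hS : LeafG S k)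
    (hNS : ∀ p ∈ S, 2 * p ∣ N) (hB : k + 2 ≤ B) {l l' : ℕ} (hne : l ≠ l') (hl : l.Prime)
    (hb : 4 ^ (B + 3) ≤ l) (hi : 1 ≤ xp l S) (hl' : l'.Prime) (hb' : 4 ^ (B + 3) ≤ l')
    (hi' : 1 ≤ xp l' S)
    (h : ∀ t t' : ℤ, IsCoprime (tz N l (xp l S) t) (N : ℤ) →
      IsCoprime (tz N l' (xp l' S) t') (N : ℤ) →
      (YY S k 0 (tz N l (xp l S) t * tz N l' (xp l' S) t') * YY S k 0 1) ^ 2 =
        (YY S k 0 (tz N l (xp l S) t) * YY S k 0 (tz N l' (xp l' S) t')) ^ 2) : False := by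
  obtain ⟨hbl, h5⟩ := N2_big hb
  obtain ⟨hbl', h5'⟩ := N2_big hb'
  obtain ⟨q, hq, hvq, c, hc, Hj⟩ := node_lc hN hS hNS hl h5 hi
  obtain ⟨κ, hκ, Hκ⟩ := Hj 0
  obtain ⟨c', hc', n', hn'⟩ := N2_alSS hN hS hNS hl' h5' hi'
  obtain ⟨t₀, ht₀⟩ := tz_unit (N := N) (l := l) (i := xp l S) hN hl hi
  obtain ⟨t₀', ht₀'⟩ := tz_unit (N := N) (l := l') (i := xp l' S) hN hl' hi'
  obtain ⟨X, hXi, hXc, hX⟩ := points hl hc t₀
  obtain ⟨X', hXi', hXc', hX'⟩ := points hl' hc' t₀'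
  have hSne : S.Nonempty := ⟨q, hq⟩
  have hdeg := (deg_le hS hSne hB).1
  have hk1 := hS.one_le
  have hlq : l ∣ q := dvd_of_one_le_padicValNat (by omega)
  have hlN : l ∣ N := (hlq.trans (Dvd.intro_left 2 rfl)).trans (hNS q hq)
  obtain ⟨w, hw⟩ := dvd_tw hN hl hl' hne hlN (xp l' S)
  have hl0 : (l : ℝ) ≠ 0 := by exact_mod_cast hl.ne_zero
  have key : ∀ t' : ℤ, IsCoprime (tz N l' (xp l' S) t') (N : ℤ) →
      zq S k q (tz N l' (xp l' S) t') = zq S k q 1 := by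
    intro t' hu'
    have ha : tz N l' (xp l' S) t' = 1 + t' * (l * w) := by
      unfold tz
      rw [hw]
    have hua := uG_of h4 hNS hu'
    have hu1 : UG S 1 := uG_of h4 hNS isCoprime_one_left
    have hlc1 : (YY S k 0 1).leadingCoeff ≠ 0 :=
      Polynomial.leadingCoeff_ne_zero.mpr (YYG_ne hS 0 hu1)
    have hlca : (YY S k 0 (tz N l' (xp l' S) t')).leadingCoeff ≠ 0 :=
      Polynomial.leadingCoeff_ne_zero.mpr (YYG_ne hS 0 hua)
    have hc1 := zq_card hS hq hu1.2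
    have hca := zq_card hS hq hua.2
    refine (PF.two (gq_pf hS hq (r := ex S k 0 + 1) (by omega) hua.2)
      (gq_pf hS hq (r := ex S k 0 + 1) (by omega) hu1.2)
      (Finset.card_pos.mp (by rw [hca]; positivity))
      (Finset.card_pos.mp (by rw [hc1]; positivity)) (by omega) (by omega)
      (pow_ne_zero 2 hlc1) (pow_ne_zero 2 hlca) X hXi ?_ ?_).1
    · rw [hca, hc1]
      have h2 : (2 : ℕ) ^ (B + 2) = 8 * 2 ^ (B - 1) := by
        have h3 : B + 2 = (B - 1) + 3 := by omega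
        rw [h3, pow_add]
        ring
      omega
    · intro x hx _ _ hga hg1
      obtain ⟨t, ht, rfl⟩ := hX x hx
      have hut := ht₀ t ht
      have e1 := Hκ 1 t (by simpa using hg1)
      have hx2 : (t : ℝ) * c * ((tz N l' (xp l' S) t' : ℤ) : ℝ) / l =
          t * c / l + ((t * c * t' * w : ℤ) : ℝ) := by
        rw [ha]
        push_cast
        field_simp
      have e2 := Hκ (tz N l' (xp l' S) t') t (by rw [hx2, gq_int]; exact hga)
      rw [hx2, gq_int] at e2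
      rw [mul_one] at e1
      have hx1 : (t : ℝ) * c * ((1 : ℤ) : ℝ) / l = t * c / l := by simp
      rw [hx1] at e1
      have hh := congrArg Polynomial.leadingCoeff (h t t' hut hu')
      rw [Polynomial.leadingCoeff_pow, Polynomial.leadingCoeff_pow, Polynomial.leadingCoeff_mul,
        Polynomial.leadingCoeff_mul, e1, e2] at hh
      have hκ2 : κ ^ 2 ≠ 0 := pow_ne_zero 2 hκ
      refine mul_left_cancel₀ hκ2 ?_
      linear_combination hh
  have hT : ∀ x ∈ X', ∃ T ∈ S.powerset, ∃ n : ℤ, x = (al S T : ℝ) - (al S S : ℝ) + n := by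
    intro x hx
    obtain ⟨t', ht', rfl⟩ := hX' x hx
    have hz := key t' (ht₀' t' ht')
    have hmem : ee ((k : ℝ) / 2 - (tz N l' (xp l' S) t' : ℤ) * (al S S : ℝ)) ∈
        zq S k q (tz N l' (xp l' S) t') := by
      unfold zq
      exact Finset.mem_image.mpr
        ⟨S, Finset.mem_filter.mpr ⟨Finset.mem_powerset_self S, hq⟩, rfl⟩
    rw [hz] at hmem
    unfold zq at hmem
    obtain ⟨T, hT, hTe⟩ := Finset.mem_image.mp hmem
    obtain ⟨n, hn⟩ := ee_eq_iff.mp hTe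
    refine ⟨T, (Finset.mem_filter.mp hT).1, n - t' * n', ?_⟩
    have ha : ((tz N l' (xp l' S) t' : ℤ) : ℝ) = 1 + t' * (tw N l' (xp l' S) : ℝ) := by
      unfold tz
      push_cast
      ring
    rw [ha] at hn
    push_cast at hn ⊢
    linear_combination hn - (t' : ℝ) * hn'
  choose! T hTm n hTn using hT
  have hcard : X'.card ≤ S.powerset.card := by
    refine Finset.card_le_card_of_injOn T (fun x hx => hTm x hx) ?_
    intro x hx y hy hxy
    refine hXi' hx hy ?_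
    rw [ee_eq_iff]
    refine ⟨n x - n y, ?_⟩
    have h1 := hTn x hx
    have h2 := hTn y hy
    rw [← hxy] at h2
    push_cast
    linear_combination h1 - h2
  rw [Finset.card_powerset] at hcard
  have h6 : 2 ^ S.card ≤ 2 ^ (B + 2) :=
    Nat.pow_le_pow_right (by norm_num) (by have := hS.card_le; omega)
  omega

end Pool.Agent.GSG
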