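import Pool.Agent.GSG.R1c
import Pool.Agent.GSG.R3b
import Pool.Agent.GSG.R7
import Pool.Agent.GSG.M4
import Pool.Agent.GSH.N3

/-!
PROOF (module N3). Notation as in module N2: `a = tz N l .. t`, `a₁`, `a₂`, `gq_s = gq S k q (e + 1) s` for the
leaf `q` of `l`. Fix `t₁`, `t₂` with units `a₁`, `a₂`. As there (`dvd_tw`, `gq_int`) `lc(a u) = κ gq_u (t c / l)` for
`u = 1, a₁, a₂, a₁ a₂` if the value is not `0`. So `h` gives, with `x = t c / l`, `C₁ gq_(a₁a₂)(x)² gq_1(x)² =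
C₂ gq_(a₁)(x)² gq_(a₂)(x)²`, where `C₁ = lc(a₁)² lc(a₂)²`, `C₂ = lc(a₁ a₂)² lc(1)²` are not `0`. `PF.four` (with
`g₀ = gq_1`, `g₁ = gq_(a₁)`, `g₂ = gq_(a₂)`, `g₃ = gq_(a₁ a₂)`, `m = e + 1`, `n = 2 ^ (|S| - 1)`,
`16 * 2 ^ (B - 1) < l - 1`) at the pole `x* = k / 2 - a₁ a₂ al S S` of `g₃` (`T₀ = S`): `ee x*` is a pole of
`gq_(a₁)`, or of `gq_(a₂)`, or a zero of `gq_1` outside its poles.
Pole of `gq_(a₁)`: `a₁ (a₂ al S S - al S T) ∈ ℤ` for some `T ∋ q`; as `a₁` is prime to `N` and `N al ∈ ℤ`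
this gives `a₂ al S S - al S T ∈ ℤ`, possible for at most `2 ^ (|S| - 1)` classes `t₂` modulo `l₂` (as in N2:
`a₂ al S S = al S S + t₂ c₂ / l₂` modulo `1`). In the same way a pole of `gq_(a₂)` is possible for at most
`2 ^ (|S| - 1)` classes `t₁` modulo `l₁`. Fix a `t₂` (unit, not excluded). For the remaining
`t₁ ∈ range l₁` (unit, not excluded: at least `l₁ - 1 - 2 ^ (|S| - 1)` of them) the points
`x* = k / 2 - a₁ a₂ al S S = const - t₁ c₁ / l₁` modulo `1` (the cross term `t₁ t₂ tw tw` is divisible by `N`,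
`tw_mul`) are different modulo `1` and zeros of `gq_1` outside its poles: at most
`(e + 2) 2 ^ (|S| - 1)` of them by `PF.zeros`. As `l₁ ≥ 4 ^ (B + 3)` this is a contradiction.
It is advisable to isolate the two facts `a₁ a₂ al S S - (al S S + t₁ c₁ / l₁ + t₂ c₂ / l₂) ∈ ℤ` and
`a_j al S S - (al S S + t_j c_j / l_j) ∈ ℤ` as lemmas over `ℚ`.
-/

set_option autoImplicit false

open Finset

namespace Pool.Agent.GSG

open Pool.Agent.GSP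

/-- the twists for three primes do not separate at a node -/
theorem ns_three {B N : ℕ} (hN : 0 < N) (h4 : 4 ∣ N) {S : Finset ℕ} {k : ℕ} (hS : LeafG S k)
    (hNS : ∀ p ∈ S, 2 * p ∣ N) (hB : k + 2 ≤ B) {l l₁ l₂ : ℕ} (h01 : l ≠ l₁) (h02 : l ≠ l₂)
    (h12 : l₁ ≠ l₂) (hl : l.Prime) (hb : 4 ^ (B + 3) ≤ l) (hi : 1 ≤ xp l S) (hl₁ : l₁.Prime)
    (hb₁ : 4 ^ (B + 3) ≤ l₁) (hi₁ : 1 ≤ xp l₁ S) (hl₂ : l₂.Prime) (hb₂ : 4 ^ (B + 3) ≤ l₂)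
    (hi₂ : 1 ≤ xp l₂ S)
    (h : ∀ t t₁ t₂ : ℤ, IsCoprime (tz N l (xp l S) t) (N : ℤ) →
      IsCoprime (tz N l₁ (xp l₁ S) t₁) (N : ℤ) → IsCoprime (tz N l₂ (xp l₂ S) t₂) (N : ℤ) →
      (YY S k 0 (tz N l (xp l S) t * (tz N l₁ (xp l₁ S) t₁ * tz N l₂ (xp l₂ S) t₂)) *
          YY S k 0 (tz N l (xp l S) t) * YY S k 0 (tz N l₁ (xp l₁ S) t₁) *
          YY S k 0 (tz N l₂ (xp l₂ S) t₂)) ^ 2 =
        (YY S k 0 (tz N l (xp l S) t * tz N l₁ (xp l₁ S) t₁) *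
          YY S k 0 (tz N l (xp l S) t * tz N l₂ (xp l₂ S) t₂) *
          YY S k 0 (tz N l₁ (xp l₁ S) t₁ * tz N l₂ (xp l₂ S) t₂) * YY S k 0 1) ^ 2) : False := by
  have h1 := hS.card_le
  have h2 : 4 ^ (S.card + 3) ≤ 4 ^ (B + 3) := Nat.pow_le_pow_right (by norm_num) (by omega)
  have h3 : 4 ^ 3 ≤ 4 ^ (B + 3) := Nat.pow_le_pow_right (by norm_num) (by omega)
  exact Pool.Agent.GSH.ns_threeH hN h4 hS hNS h01 h02 h12 hl (h2.trans hb) hi hl₁ (by omega) hi₁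
    hl₂ (by omega) hi₂ h

end Pool.Agent.GSG
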