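import Pool.Agent.GSG.Defs

/-!
PROOFS (module R1). `PF.zeros`: take `A` from `h.rat`; `A ≠ 0` because `A.eval z ≠ 0` for a `z ∈ Z`. Split
`X` into the `x` with `ee x ∈ Z` (at most `|Z|` of them, `ee` is injective on `X`) and the others, where
`A.eval (ee x) = 0`, so that `ee x` is a root of `A` (at most `m |Z|` of them: `Polynomial.card_roots'`,
or `Polynomial.card_le_degree_of_subset_roots`).
`PF.not_const`: let `Bp = ∏ w ∈ Z, (X - C w)` (natDegree `|Z|`) and `Q = A ^ 2 - C (C : ℂ) * Bp ^ (2 m)`,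
natDegree at most `2 m |Z|`. `Q ≠ 0`: at `z ∈ Z` its value is `A(z) ^ 2 ≠ 0` (here `m ≥ 1`). The `x ∈ X`
with `ee x ∈ Z` are at most `|Z| ≤ m |Z|`, those with `g x = 0` (then `A (ee x) = 0`) at most `m |Z|`, and
for the others `Q.eval (ee x) = 0`: at most `2 m |Z|`. Together at most `4 m |Z|`.
-/

set_option autoImplicit false

open Finset

namespace Pool.Agent.GSG

theorem ee_add (x y : ℝ) : ee (x + y) = ee x * ee y := by
  unfold ee
  rw [← Complex.exp_add]
  congr 1
  push_cast
  ring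

theorem ee_zero : ee 0 = 1 := by
  unfold ee
  simp

theorem ee_ne (x : ℝ) : ee x ≠ 0 := Complex.exp_ne_zero _

theorem ee_neg (x : ℝ) : ee (-x) = (ee x)⁻¹ := by
  refine eq_inv_of_mul_eq_one_left ?_
  rw [← ee_add, neg_add_cancel, ee_zero]

theorem norm_ee (x : ℝ) : ‖ee x‖ = 1 := by
  unfold ee
  have h : 2 * (Real.pi : ℂ) * Complex.I * x = ((2 * Real.pi * x : ℝ) : ℂ) * Complex.I := by
    push_cast
    ring
  rw [h, Complex.norm_exp_ofReal_mul_I]

theorem ee_eq_iff {x y : ℝ} : ee x = ee y ↔ ∃ n : ℤ, x - y = n := by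
  unfold ee
  rw [Complex.exp_eq_exp_iff_exists_int]
  have hpi : (2 * (Real.pi : ℂ) * Complex.I) ≠ 0 := Complex.two_pi_I_ne_zero
  constructor
  · rintro ⟨n, hn⟩
    refine ⟨n, ?_⟩
    have h1 : 2 * (Real.pi : ℂ) * Complex.I * x = 2 * (Real.pi : ℂ) * Complex.I * (y + n) := by
      rw [hn]
      ring
    have h2 := mul_left_cancel₀ hpi h1
    have h3 : (x : ℂ) = ((y + n : ℝ) : ℂ) := by
      rw [h2]
      push_cast
      ring
    have h4 : x = y + n := by exact_mod_cast h3
    rw [h4]
    ring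
  · rintro ⟨n, hn⟩
    refine ⟨n, ?_⟩
    have h1 : (x : ℂ) = y + n := by
      have h2 : x = y + n := by linarith
      rw [h2]
      push_cast
      ring
    rw [h1]
    ring

theorem ee_int (n : ℤ) : ee n = 1 := by
  rw [← ee_zero, ee_eq_iff]
  exact ⟨n, by simp⟩

theorem ee_nat_mul (n : ℕ) (x : ℝ) : ee (n * x) = ee x ^ n := by
  unfold ee
  rw [← Complex.exp_nat_mul]
  congr 1
  push_cast
  ring

/-- A complex number of norm `1` is a value of `ee`. -/
theorem exists_ee {z : ℂ} (hz : ‖z‖ = 1) : ∃ x : ℝ, ee x = z := by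
  refine ⟨Complex.arg z / (2 * Real.pi), ?_⟩
  unfold ee
  have h : 2 * (Real.pi : ℂ) * Complex.I * ((Complex.arg z / (2 * Real.pi) : ℝ) : ℂ) =
      (Complex.arg z : ℂ) * Complex.I := by
    have hpi : (Real.pi : ℂ) ≠ 0 := by exact_mod_cast Real.pi_ne_zero
    push_cast
    field_simp
  rw [h]
  have h2 := Complex.norm_mul_exp_arg_mul_I z
  rw [hz] at h2
  simpa using h2

/-- a function with a pole has at most `m |Z|` zeros -/
theorem PF.zeros {g : ℝ → ℝ} {Z : Finset ℂ} {m : ℕ} (h : PF g Z m) (hZ : Z.Nonempty)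
    (X : Finset ℝ) (hX : Set.InjOn ee X) (h0 : ∀ x ∈ X, ee x ∉ Z → g x = 0) :
    X.card ≤ (m + 1) * Z.card := by
  classical
  obtain ⟨A, hdeg, hev, hA⟩ := h.rat
  obtain ⟨z, hz⟩ := hZ
  have hA0 : A ≠ 0 := by
    rintro rfl
    exact hev z hz (by simp)
  have hsub : X.image ee ⊆ Z ∪ A.roots.toFinset := by
    intro w hw
    obtain ⟨x, hx, rfl⟩ := Finset.mem_image.1 hw
    by_cases hwZ : ee x ∈ Z
    · exact Finset.mem_union_left _ hwZ
    · refine Finset.mem_union_right _ ?_
      rw [Multiset.mem_toFinset, Polynomial.mem_roots hA0, Polynomial.IsRoot.def, ← hA x hwZ,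
        h0 x hx hwZ]
      simp
  calc X.card = (X.image ee).card := (Finset.card_image_of_injOn hX).symm
    _ ≤ (Z ∪ A.roots.toFinset).card := Finset.card_le_card hsub
    _ ≤ Z.card + A.roots.toFinset.card := Finset.card_union_le _ _
    _ ≤ Z.card + m * Z.card :=
        Nat.add_le_add_left
          ((Multiset.toFinset_card_le _).trans ((Polynomial.card_roots' A).trans hdeg)) _
    _ = (m + 1) * Z.card := by ring

/-- the square of a function with a pole is not constant -/
theorem PF.not_const {g : ℝ → ℝ} {Z : Finset ℂ} {m : ℕ} (h : PF g Z m) (hZ : Z.Nonempty)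
    (hm : 1 ≤ m) {C : ℝ} (X : Finset ℝ) (hX : Set.InjOn ee X)
    (h0 : ∀ x ∈ X, ee x ∉ Z → g x ≠ 0 → g x ^ 2 = C) : X.card ≤ 4 * (m * Z.card) := by
  classical
  obtain ⟨A, hdeg, hev, hA⟩ := h.rat
  obtain ⟨z, hz⟩ := hZ
  have hA0 : A ≠ 0 := by
    rintro rfl
    exact hev z hz (by simp)
  set Bp : Polynomial ℂ := ∏ w ∈ Z, (Polynomial.X - Polynomial.C w) with hBp
  have hBdeg : Bp.natDegree = Z.card := by
    rw [hBp, Polynomial.natDegree_prod_of_monic _ _ (fun w _ => Polynomial.monic_X_sub_C w)]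
    simp
  have hBev : ∀ y, Bp.eval y = ∏ w ∈ Z, (y - w) := by
    intro y
    rw [hBp, Polynomial.eval_prod]
    simp
  set Q : Polynomial ℂ := A ^ 2 - Polynomial.C (C : ℂ) * Bp ^ (2 * m) with hQ
  have hQdeg : Q.natDegree ≤ 2 * (m * Z.card) := by
    refine (Polynomial.natDegree_sub_le _ _).trans (max_le ?_ ?_)
    · exact Polynomial.natDegree_pow_le.trans (Nat.mul_le_mul_left 2 hdeg)
    · refine (Polynomial.natDegree_C_mul_le _ _).trans ?_
      refine Polynomial.natDegree_pow_le.trans ?_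
      rw [hBdeg, mul_assoc]
  have hQ0 : Q ≠ 0 := by
    intro h0Q
    have h1 : Q.eval z = 0 := by rw [h0Q]; simp
    have hBz : Bp.eval z = 0 := by
      rw [hBev]
      exact Finset.prod_eq_zero hz (sub_self z)
    rw [hQ, Polynomial.eval_sub, Polynomial.eval_pow, Polynomial.eval_mul, Polynomial.eval_pow,
      hBz, zero_pow (by omega), mul_zero, sub_zero] at h1
    exact hev z hz (pow_eq_zero_iff two_ne_zero |>.1 h1)
  have hsub : X.image ee ⊆ (Z ∪ A.roots.toFinset) ∪ Q.roots.toFinset := by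
    intro w hw
    obtain ⟨x, hx, rfl⟩ := Finset.mem_image.1 hw
    by_cases hwZ : ee x ∈ Z
    · exact Finset.mem_union_left _ (Finset.mem_union_left _ hwZ)
    · by_cases hg : g x = 0
      · refine Finset.mem_union_left _ (Finset.mem_union_right _ ?_)
        rw [Multiset.mem_toFinset, Polynomial.mem_roots hA0, Polynomial.IsRoot.def, ← hA x hwZ, hg]
        simp
      · refine Finset.mem_union_right _ ?_
        have h2 : (g x : ℂ) ^ 2 = (C : ℂ) := by
          rw [← h0 x hx hwZ hg]
          push_cast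
          ring
        rw [Multiset.mem_toFinset, Polynomial.mem_roots hQ0, Polynomial.IsRoot.def, hQ,
          Polynomial.eval_sub, Polynomial.eval_pow, Polynomial.eval_mul, Polynomial.eval_pow,
          Polynomial.eval_C, hBev, ← hA x hwZ, ← h2]
        ring
  have hc1 : A.roots.toFinset.card ≤ m * Z.card :=
    (Multiset.toFinset_card_le _).trans ((Polynomial.card_roots' A).trans hdeg)
  have hc2 : Q.roots.toFinset.card ≤ 2 * (m * Z.card) :=
    (Multiset.toFinset_card_le _).trans ((Polynomial.card_roots' Q).trans hQdeg)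
  have hc3 : Z.card ≤ m * Z.card := Nat.le_mul_of_pos_left _ hm
  have hc4 : X.card ≤ Z.card + A.roots.toFinset.card + Q.roots.toFinset.card :=
    calc X.card = (X.image ee).card := (Finset.card_image_of_injOn hX).symm
      _ ≤ ((Z ∪ A.roots.toFinset) ∪ Q.roots.toFinset).card := Finset.card_le_card hsub
      _ ≤ (Z ∪ A.roots.toFinset).card + Q.roots.toFinset.card := Finset.card_union_le _ _
      _ ≤ Z.card + A.roots.toFinset.card + Q.roots.toFinset.card :=
          Nat.add_le_add_right (Finset.card_union_le _ _) _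
  omega

end Pool.Agent.GSG
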