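import Pool.Agent.GSG.R1

/-!
PROOF (module R1b). Let `B_i = ∏ w ∈ Z_i, (X - C w)`, `A_i` from `h_i.rat`, and
`Q = C C₁ * A₁ ^ 2 * B₂ ^ (2 m₂) - C C₂ * A₂ ^ 2 * B₁ ^ (2 m₁)`, natDegree at most
`2 (m₁ |Z₁| + m₂ |Z₂|)`. The `x ∈ X` with `ee x ∈ Z₁ ∪ Z₂` are at most `|Z₁| + |Z₂|`, those with
`g₁ x = 0` or `g₂ x = 0` outside at most `m₁ |Z₁| + m₂ |Z₂|` (roots of `A₁`, `A₂`, which are not `0`
because `Z_i` is nonempty); all others are roots of `Q` (multiply `C₁ g₁² = C₂ g₂²` by `B₁ ^ (2 m₁) B₂ ^ (2 m₂)`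
at `ee x`). As `m_i ≥ 1` and `|X| > 4 (...)`, `Q` has more roots than its degree, so `Q = 0`. If `z ∈ Z₁`,
then `B₁(z) = 0`, hence `A₁(z) ^ 2 B₂(z) ^ (2 m₂) = 0`, `B₂(z) = 0`, `z ∈ Z₂`; and conversely: `Z₁ = Z₂`,
`B₁ = B₂ = B ≠ 0`. If `m₁ < m₂`, cancel `B ^ (2 m₁)`: `C₁ A₁ ^ 2 B ^ (2 (m₂ - m₁)) = C₂ A₂ ^ 2`, which
at `z ∈ Z` gives `A₂(z) = 0`, a contradiction; in the same way for `m₂ < m₁`. So `m₁ = m₂` and
`C₁ A₁ ^ 2 = C₂ A₂ ^ 2`, which gives the last statement (divide by `B ^ (2 m)` at `ee x`, cast to `ℝ`).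
-/

set_option autoImplicit false

open Finset

namespace Pool.Agent.GSG

open Polynomial in
/-- the polynomial with the simple roots `Z` -/
private noncomputable def R1b_B (Z : Finset ℂ) : Polynomial ℂ := ∏ w ∈ Z, (X - C w)

private theorem R1b_eval (Z : Finset ℂ) (z : ℂ) : (R1b_B Z).eval z = ∏ w ∈ Z, (z - w) := by
  unfold R1b_B
  rw [Polynomial.eval_prod]
  simp

private theorem R1b_monic (Z : Finset ℂ) : (R1b_B Z).Monic :=
  Polynomial.monic_prod_of_monic _ _ fun w _ => Polynomial.monic_X_sub_C w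

private theorem R1b_deg (Z : Finset ℂ) : (R1b_B Z).natDegree = Z.card := by
  unfold R1b_B
  rw [Polynomial.natDegree_prod_of_monic _ _ fun w _ => Polynomial.monic_X_sub_C w]
  simp

private theorem R1b_root (Z : Finset ℂ) (z : ℂ) : (R1b_B Z).eval z = 0 ↔ z ∈ Z := by
  rw [R1b_eval, Finset.prod_eq_zero_iff]
  constructor
  · rintro ⟨w, hw, h⟩
    rw [sub_eq_zero.1 h]
    exact hw
  · intro h
    exact ⟨z, h, sub_self z⟩

private theorem R1b_natDegree {A B : Polynomial ℂ} {c : ℂ} {a b d e : ℕ} (hA : A.natDegree ≤ a)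
    (hB : B.natDegree ≤ b) :
    (Polynomial.C c * A ^ d * B ^ e).natDegree ≤ d * a + e * b := by
  refine Polynomial.natDegree_mul_le.trans (Nat.add_le_add ?_ ?_)
  · refine (Polynomial.natDegree_C_mul_le _ _).trans (Polynomial.natDegree_pow_le.trans ?_)
    exact Nat.mul_le_mul_left _ hA
  · exact Polynomial.natDegree_pow_le.trans (Nat.mul_le_mul_left _ hB)

private theorem R1b_card {P : Polynomial ℂ} (hP : P ≠ 0) {d : ℕ} (hd : P.natDegree ≤ d) :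
    P.roots.toFinset.card ≤ d :=
  (Multiset.toFinset_card_le _).trans ((Polynomial.card_roots' P).trans hd)

private theorem R1b_ne {A : Polynomial ℂ} {Z : Finset ℂ} (hZ : Z.Nonempty)
    (hA : ∀ z ∈ Z, A.eval z ≠ 0) : A ≠ 0 := by
  obtain ⟨z, hz⟩ := hZ
  rintro rfl
  exact hA z hz (by simp)

/-- the poles of the first function are poles of the second -/
private theorem R1b_sub {A₁ A₂ : Polynomial ℂ} {Z₁ Z₂ : Finset ℂ} {m₁ m₂ : ℕ}
    (hA : ∀ z ∈ Z₁, A₁.eval z ≠ 0) (hm₁ : 1 ≤ m₁) {C₁ C₂ : ℂ} (hC₁ : C₁ ≠ 0)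
    (hQ : Polynomial.C C₁ * A₁ ^ 2 * R1b_B Z₂ ^ (2 * m₂) =
      Polynomial.C C₂ * A₂ ^ 2 * R1b_B Z₁ ^ (2 * m₁)) : Z₁ ⊆ Z₂ := by
  intro z hz
  have h1 := congrArg (fun P => Polynomial.eval z P) hQ
  simp only [Polynomial.eval_mul, Polynomial.eval_pow, Polynomial.eval_C] at h1
  rw [(R1b_root Z₁ z).2 hz, zero_pow (by omega : 2 * m₁ ≠ 0), mul_zero] at h1
  rcases mul_eq_zero.1 h1 with h2 | h2
  · rcases mul_eq_zero.1 h2 with h3 | h3
    · exact absurd h3 hC₁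
    · exact absurd (pow_eq_zero_iff (by norm_num) |>.1 h3) (hA z hz)
  · exact (R1b_root Z₂ z).1 (eq_zero_of_pow_eq_zero h2)

private theorem R1b_lt {A₁ A₂ : Polynomial ℂ} {Z : Finset ℂ} {m₁ m₂ : ℕ} (hZ : Z.Nonempty)
    (hA₂ : ∀ z ∈ Z, A₂.eval z ≠ 0) {C₁ C₂ : ℂ} (hC₂ : C₂ ≠ 0)
    (hQ : Polynomial.C C₁ * A₁ ^ 2 * R1b_B Z ^ (2 * m₂) =
      Polynomial.C C₂ * A₂ ^ 2 * R1b_B Z ^ (2 * m₁)) : m₂ ≤ m₁ := by
  by_contra hlt
  push Not at hlt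
  obtain ⟨k, hk⟩ : ∃ k, 2 * m₂ = 2 * m₁ + (k + 1) := ⟨2 * m₂ - 2 * m₁ - 1, by omega⟩
  have hB : R1b_B Z ^ (2 * m₁) ≠ 0 := pow_ne_zero _ (R1b_monic Z).ne_zero
  rw [hk, pow_add, ← mul_assoc, mul_right_comm] at hQ
  have h1 := mul_right_cancel₀ hB hQ
  obtain ⟨z, hz⟩ := hZ
  have h2 := congrArg (fun P => Polynomial.eval z P) h1
  simp only [Polynomial.eval_mul, Polynomial.eval_pow, Polynomial.eval_C] at h2
  rw [(R1b_root Z z).2 hz, zero_pow (by omega : k + 1 ≠ 0), mul_zero] at h2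
  rcases mul_eq_zero.1 h2.symm with h3 | h3
  · exact hC₂ h3
  · exact hA₂ z hz (eq_zero_of_pow_eq_zero h3)

/-- two functions with proportional squares at many points have the same poles -/
theorem PF.two {g₁ g₂ : ℝ → ℝ} {Z₁ Z₂ : Finset ℂ} {m₁ m₂ : ℕ} (h₁ : PF g₁ Z₁ m₁)
    (h₂ : PF g₂ Z₂ m₂) (hZ₁ : Z₁.Nonempty) (hZ₂ : Z₂.Nonempty) (hm₁ : 1 ≤ m₁) (hm₂ : 1 ≤ m₂)
    {C₁ C₂ : ℝ} (hC₁ : C₁ ≠ 0) (hC₂ : C₂ ≠ 0) (X : Finset ℝ) (hX : Set.InjOn ee X)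
    (hcard : 4 * (m₁ * Z₁.card + m₂ * Z₂.card) < X.card)
    (h0 : ∀ x ∈ X, ee x ∉ Z₁ → ee x ∉ Z₂ → g₁ x ≠ 0 → g₂ x ≠ 0 →
      C₁ * g₁ x ^ 2 = C₂ * g₂ x ^ 2) :
    Z₁ = Z₂ ∧ m₁ = m₂ ∧ ∀ x : ℝ, ee x ∉ Z₁ → C₁ * g₁ x ^ 2 = C₂ * g₂ x ^ 2 := by
  classical
  obtain ⟨A₁, hd₁, hA₁, hg₁⟩ := h₁.rat
  obtain ⟨A₂, hd₂, hA₂, hg₂⟩ := h₂.rat
  have hC₁' : (C₁ : ℂ) ≠ 0 := by exact_mod_cast hC₁
  have hC₂' : (C₂ : ℂ) ≠ 0 := by exact_mod_cast hC₂
  have hQ : Polynomial.C (C₁ : ℂ) * A₁ ^ 2 * R1b_B Z₂ ^ (2 * m₂) =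
      Polynomial.C (C₂ : ℂ) * A₂ ^ 2 * R1b_B Z₁ ^ (2 * m₁) := by
    by_contra hne
    set Q := Polynomial.C (C₁ : ℂ) * A₁ ^ 2 * R1b_B Z₂ ^ (2 * m₂) -
      Polynomial.C (C₂ : ℂ) * A₂ ^ 2 * R1b_B Z₁ ^ (2 * m₁) with hQdef
    have hQ0 : Q ≠ 0 := sub_ne_zero.2 hne
    have hQd : Q.natDegree ≤ 2 * (m₁ * Z₁.card + m₂ * Z₂.card) := by
      refine (Polynomial.natDegree_sub_le _ _).trans (max_le ?_ ?_)
      · refine (R1b_natDegree hd₁ (R1b_deg Z₂).le).trans (le_of_eq ?_)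
        ring
      · refine (R1b_natDegree hd₂ (R1b_deg Z₁).le).trans (le_of_eq ?_)
        ring
    have hsub : X.image ee ⊆ Z₁ ∪ Z₂ ∪ A₁.roots.toFinset ∪ A₂.roots.toFinset ∪
        Q.roots.toFinset := by
      intro z hz
      obtain ⟨x, hx, rfl⟩ := Finset.mem_image.1 hz
      by_cases hz1 : ee x ∈ Z₁
      · simp only [Finset.mem_union, hz1, true_or]
      by_cases hz2 : ee x ∈ Z₂
      · simp only [Finset.mem_union, hz2, true_or, or_true]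
      by_cases hg1 : g₁ x = 0
      · have h3 := hg₁ x hz1
        rw [hg1] at h3
        have h4 : ee x ∈ A₁.roots.toFinset := by
          rw [Multiset.mem_toFinset, Polynomial.mem_roots (R1b_ne hZ₁ hA₁)]
          unfold Polynomial.IsRoot
          rw [← h3]
          simp
        simp only [Finset.mem_union, h4, true_or, or_true]
      by_cases hg2 : g₂ x = 0
      · have h3 := hg₂ x hz2
        rw [hg2] at h3
        have h4 : ee x ∈ A₂.roots.toFinset := by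
          rw [Multiset.mem_toFinset, Polynomial.mem_roots (R1b_ne hZ₂ hA₂)]
          unfold Polynomial.IsRoot
          rw [← h3]
          simp
        simp only [Finset.mem_union, h4, true_or, or_true]
      have h5 := h0 x hx hz1 hz2 hg1 hg2
      have h6 : (C₁ : ℂ) * (g₁ x : ℂ) ^ 2 = C₂ * (g₂ x : ℂ) ^ 2 := by exact_mod_cast h5
      have h7 : ee x ∈ Q.roots.toFinset := by
        rw [Multiset.mem_toFinset, Polynomial.mem_roots hQ0]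
        unfold Polynomial.IsRoot
        rw [hQdef]
        simp only [Polynomial.eval_sub, Polynomial.eval_mul, Polynomial.eval_pow,
          Polynomial.eval_C]
        rw [← hg₁ x hz1, ← hg₂ x hz2, R1b_eval, R1b_eval, pow_mul, pow_mul]
        linear_combination (∏ w ∈ Z₁, (ee x - w)) ^ (m₁ * 2) * (∏ w ∈ Z₂, (ee x - w)) ^ (m₂ * 2) * h6
      simp only [Finset.mem_union, h7, or_true]
    have h8 := Finset.card_le_card hsub
    rw [Finset.card_image_of_injOn hX] at h8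
    have h9 : (Z₁ ∪ Z₂ ∪ A₁.roots.toFinset ∪ A₂.roots.toFinset ∪ Q.roots.toFinset).card ≤
        Z₁.card + Z₂.card + m₁ * Z₁.card + m₂ * Z₂.card +
          2 * (m₁ * Z₁.card + m₂ * Z₂.card) := by
      refine (Finset.card_union_le _ _).trans (Nat.add_le_add ?_ (R1b_card hQ0 hQd))
      refine (Finset.card_union_le _ _).trans (Nat.add_le_add ?_
        (R1b_card (R1b_ne hZ₂ hA₂) hd₂))
      refine (Finset.card_union_le _ _).trans (Nat.add_le_add ?_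
        (R1b_card (R1b_ne hZ₁ hA₁) hd₁))
      exact Finset.card_union_le _ _
    have h10 : Z₁.card ≤ m₁ * Z₁.card := Nat.le_mul_of_pos_left _ (by omega)
    have h11 : Z₂.card ≤ m₂ * Z₂.card := Nat.le_mul_of_pos_left _ (by omega)
    omega
  have hZ : Z₁ = Z₂ := by
    apply Finset.Subset.antisymm
    · exact R1b_sub hA₁ hm₁ hC₁' hQ
    · exact R1b_sub hA₂ hm₂ hC₂' hQ.symm
  subst hZ
  have hm : m₁ = m₂ := by
    apply le_antisymm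
    · exact R1b_lt hZ₁ hA₁ hC₁' hQ.symm
    · exact R1b_lt hZ₁ hA₂ hC₂' hQ
  subst hm
  refine ⟨rfl, rfl, fun x hx => ?_⟩
  have hB : R1b_B Z₁ ^ (2 * m₁) ≠ 0 := pow_ne_zero _ (R1b_monic Z₁).ne_zero
  have h1 := mul_right_cancel₀ hB hQ
  have h2 := congrArg (fun P => Polynomial.eval (ee x) P) h1
  simp only [Polynomial.eval_mul, Polynomial.eval_pow, Polynomial.eval_C] at h2
  rw [← hg₁ x hx, ← hg₂ x hx] at h2
  have h3 : (∏ w ∈ Z₁, (ee x - w)) ≠ 0 := by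
    rw [← R1b_eval]
    intro h
    exact hx ((R1b_root Z₁ _).1 h)
  have h4 : ((∏ w ∈ Z₁, (ee x - w)) ^ m₁) ^ 2 ≠ 0 := pow_ne_zero _ (pow_ne_zero _ h3)
  have h5 : (C₁ : ℂ) * (g₁ x : ℂ) ^ 2 = C₂ * (g₂ x : ℂ) ^ 2 := by
    apply mul_right_cancel₀ h4
    linear_combination h2
  exact_mod_cast h5

end Pool.Agent.GSG
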