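import Pool.Agent.GSG.R1

/-!
PROOF (module R1c). If `n = 0` then `Z₃ = ∅` and there is nothing to prove. Otherwise all `Z_i` are
nonempty, `A_i ≠ 0` (`A_i` from `h_i.rat`). With `B_i = ∏ w ∈ Z_i, (X - C w)` let
`Q = C C₁ * A₃² A₀² B₁ ^ (2 m) B₂ ^ (2 m) - C C₂ * A₁² A₂² B₃ ^ (2 m) B₀ ^ (2 m)`, natDegree at most `8 m n`.
The `x ∈ X` with `ee x` in one of the `Z_i`: at most `4 n ≤ 4 m n`; with some `g_i x = 0` outside (a root of
`A_i`): at most `4 m n`; all others are roots of `Q`. As `|X| > 16 m n`, `Q = 0`. Let `ee x ∈ Z₃`: then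
`B₃ (ee x) = 0`, so `A₃² A₀² B₁ ^ (2 m) B₂ ^ (2 m)` vanishes at `ee x`, and `A₃ (ee x) ≠ 0`. So
`ee x ∈ Z₁` or `ee x ∈ Z₂` or `A₀ (ee x) = 0`; in the last case `ee x ∉ Z₀` (`A₀ ≠ 0` on `Z₀`) and
`g₀ x * (nonzero) = 0`.
-/

set_option autoImplicit false

open Finset

namespace Pool.Agent.GSG

open Polynomial in
/-- the polynomial with the simple roots `Z` -/
private noncomputable def R1c_B (Z : Finset ℂ) : Polynomial ℂ := ∏ w ∈ Z, (X - C w)

private theorem R1c_eval (Z : Finset ℂ) (z : ℂ) : (R1c_B Z).eval z = ∏ w ∈ Z, (z - w) := by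
  unfold R1c_B
  rw [Polynomial.eval_prod]
  simp

private theorem R1c_deg (Z : Finset ℂ) : (R1c_B Z).natDegree = Z.card := by
  unfold R1c_B
  rw [Polynomial.natDegree_prod_of_monic _ _ fun w _ => Polynomial.monic_X_sub_C w]
  simp

private theorem R1c_root (Z : Finset ℂ) (z : ℂ) : (R1c_B Z).eval z = 0 ↔ z ∈ Z := by
  rw [R1c_eval, Finset.prod_eq_zero_iff]
  constructor
  · rintro ⟨w, hw, h⟩
    rw [sub_eq_zero.1 h]
    exact hw
  · intro h
    exact ⟨z, h, sub_self z⟩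

private theorem R1c_natDegree {A A' B B' : Polynomial ℂ} {c : ℂ} {d e n : ℕ}
    (hA : A.natDegree ≤ d * n) (hA' : A'.natDegree ≤ d * n) (hB : B.natDegree = n)
    (hB' : B'.natDegree = n) (he : e = 2 * d) :
    (Polynomial.C c * (A ^ 2 * A' ^ 2) * (B ^ e * B' ^ e)).natDegree ≤ 8 * (d * n) := by
  have h1 : (A ^ 2).natDegree ≤ 2 * (d * n) :=
    Polynomial.natDegree_pow_le.trans (Nat.mul_le_mul_left _ hA)
  have h2 : (A' ^ 2).natDegree ≤ 2 * (d * n) :=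
    Polynomial.natDegree_pow_le.trans (Nat.mul_le_mul_left _ hA')
  have h3 : (B ^ e).natDegree ≤ 2 * (d * n) := by
    refine Polynomial.natDegree_pow_le.trans ?_
    rw [hB, he, mul_assoc]
  have h4 : (B' ^ e).natDegree ≤ 2 * (d * n) := by
    refine Polynomial.natDegree_pow_le.trans ?_
    rw [hB', he, mul_assoc]
  have h5 : (A ^ 2 * A' ^ 2).natDegree ≤ 2 * (d * n) + 2 * (d * n) :=
    Polynomial.natDegree_mul_le.trans (Nat.add_le_add h1 h2)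
  have h6 : (B ^ e * B' ^ e).natDegree ≤ 2 * (d * n) + 2 * (d * n) :=
    Polynomial.natDegree_mul_le.trans (Nat.add_le_add h3 h4)
  have h7 : (Polynomial.C c * (A ^ 2 * A' ^ 2)).natDegree ≤ 2 * (d * n) + 2 * (d * n) :=
    (Polynomial.natDegree_C_mul_le _ _).trans h5
  refine (Polynomial.natDegree_mul_le.trans (Nat.add_le_add h7 h6)).trans (le_of_eq ?_)
  ring

private theorem R1c_card {P : Polynomial ℂ} {d : ℕ} (hd : P.natDegree ≤ d) :
    P.roots.toFinset.card ≤ d :=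
  (Multiset.toFinset_card_le _).trans ((Polynomial.card_roots' P).trans hd)

private theorem R1c_ne {A : Polynomial ℂ} {Z : Finset ℂ} (hZ : Z.Nonempty)
    (hA : ∀ z ∈ Z, A.eval z ≠ 0) : A ≠ 0 := by
  obtain ⟨z, hz⟩ := hZ
  rintro rfl
  exact hA z hz (by simp)

/-- a zero of the function is a root of the numerator -/
private theorem R1c_mem {A : Polynomial ℂ} {Z : Finset ℂ} {m : ℕ} {g : ℝ → ℝ} (hA : A ≠ 0)
    {x : ℝ} (h : (g x : ℂ) * (∏ w ∈ Z, (ee x - w)) ^ m = A.eval (ee x)) (h0 : g x = 0) :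
    ee x ∈ A.roots.toFinset := by
  rw [Multiset.mem_toFinset, Polynomial.mem_roots hA]
  unfold Polynomial.IsRoot
  rw [← h, h0]
  simp

/-- if `g₃² g₀²` and `g₁² g₂²` are proportional at many points, then every pole of `g₃` is a pole of
`g₁` or of `g₂` or a zero of `g₀` -/
theorem PF.four {g₀ g₁ g₂ g₃ : ℝ → ℝ} {Z₀ Z₁ Z₂ Z₃ : Finset ℂ} {m n : ℕ} (h₀ : PF g₀ Z₀ m)
    (h₁ : PF g₁ Z₁ m) (h₂ : PF g₂ Z₂ m) (h₃ : PF g₃ Z₃ m) (hm : 1 ≤ m) (c₀ : Z₀.card = n)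
    (c₁ : Z₁.card = n) (c₂ : Z₂.card = n) (c₃ : Z₃.card = n) {C₁ C₂ : ℝ} (hC₁ : C₁ ≠ 0)
    (X : Finset ℝ) (hX : Set.InjOn ee X) (hcard : 16 * (m * n) < X.card)
    (h : ∀ x ∈ X, ee x ∉ Z₀ → ee x ∉ Z₁ → ee x ∉ Z₂ → ee x ∉ Z₃ →
      g₀ x ≠ 0 → g₁ x ≠ 0 → g₂ x ≠ 0 → g₃ x ≠ 0 →
      C₁ * (g₃ x ^ 2 * g₀ x ^ 2) = C₂ * (g₁ x ^ 2 * g₂ x ^ 2)) :
    ∀ x : ℝ, ee x ∈ Z₃ → ee x ∈ Z₁ ∨ ee x ∈ Z₂ ∨ (ee x ∉ Z₀ ∧ g₀ x = 0) := by
  classical
  intro x hx
  have hn : 0 < n := by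
    rw [← c₃]
    exact Finset.card_pos.2 ⟨_, hx⟩
  have hZ₀ : Z₀.Nonempty := Finset.card_pos.1 (by omega)
  have hZ₁ : Z₁.Nonempty := Finset.card_pos.1 (by omega)
  have hZ₂ : Z₂.Nonempty := Finset.card_pos.1 (by omega)
  have hZ₃ : Z₃.Nonempty := Finset.card_pos.1 (by omega)
  obtain ⟨A₀, hd₀, hA₀, hg₀⟩ := h₀.rat
  obtain ⟨A₁, hd₁, hA₁, hg₁⟩ := h₁.rat
  obtain ⟨A₂, hd₂, hA₂, hg₂⟩ := h₂.rat
  obtain ⟨A₃, hd₃, hA₃, hg₃⟩ := h₃.rat
  rw [c₀] at hd₀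
  rw [c₁] at hd₁
  rw [c₂] at hd₂
  rw [c₃] at hd₃
  have hC₁' : (C₁ : ℂ) ≠ 0 := by exact_mod_cast hC₁
  have hQ : Polynomial.C (C₁ : ℂ) * (A₃ ^ 2 * A₀ ^ 2) *
      (R1c_B Z₁ ^ (2 * m) * R1c_B Z₂ ^ (2 * m)) =
      Polynomial.C (C₂ : ℂ) * (A₁ ^ 2 * A₂ ^ 2) *
      (R1c_B Z₃ ^ (2 * m) * R1c_B Z₀ ^ (2 * m)) := by
    by_contra hne
    set Q := Polynomial.C (C₁ : ℂ) * (A₃ ^ 2 * A₀ ^ 2) *
      (R1c_B Z₁ ^ (2 * m) * R1c_B Z₂ ^ (2 * m)) -
      Polynomial.C (C₂ : ℂ) * (A₁ ^ 2 * A₂ ^ 2) *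
      (R1c_B Z₃ ^ (2 * m) * R1c_B Z₀ ^ (2 * m)) with hQdef
    have hQ0 : Q ≠ 0 := sub_ne_zero.2 hne
    have hQd : Q.natDegree ≤ 8 * (m * n) := by
      refine (Polynomial.natDegree_sub_le _ _).trans (max_le ?_ ?_)
      · exact R1c_natDegree hd₃ hd₀ ((R1c_deg _).trans c₁) ((R1c_deg _).trans c₂) rfl
      · exact R1c_natDegree hd₁ hd₂ ((R1c_deg _).trans c₃) ((R1c_deg _).trans c₀) rfl
    have hsub : X.image ee ⊆ Z₀ ∪ Z₁ ∪ Z₂ ∪ Z₃ ∪ A₀.roots.toFinset ∪ A₁.roots.toFinset ∪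
        A₂.roots.toFinset ∪ A₃.roots.toFinset ∪ Q.roots.toFinset := by
      intro z hz
      obtain ⟨x, hx, rfl⟩ := Finset.mem_image.1 hz
      by_cases hz0 : ee x ∈ Z₀
      · simp only [Finset.mem_union, hz0, true_or]
      by_cases hz1 : ee x ∈ Z₁
      · simp only [Finset.mem_union, hz1, true_or, or_true]
      by_cases hz2 : ee x ∈ Z₂
      · simp only [Finset.mem_union, hz2, true_or, or_true]
      by_cases hz3 : ee x ∈ Z₃
      · simp only [Finset.mem_union, hz3, true_or, or_true]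
      by_cases hg0 : g₀ x = 0
      · have h4 := R1c_mem (R1c_ne hZ₀ hA₀) (hg₀ x hz0) hg0
        simp only [Finset.mem_union, h4, true_or, or_true]
      by_cases hg1 : g₁ x = 0
      · have h4 := R1c_mem (R1c_ne hZ₁ hA₁) (hg₁ x hz1) hg1
        simp only [Finset.mem_union, h4, true_or, or_true]
      by_cases hg2 : g₂ x = 0
      · have h4 := R1c_mem (R1c_ne hZ₂ hA₂) (hg₂ x hz2) hg2
        simp only [Finset.mem_union, h4, true_or, or_true]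
      by_cases hg3 : g₃ x = 0
      · have h4 := R1c_mem (R1c_ne hZ₃ hA₃) (hg₃ x hz3) hg3
        simp only [Finset.mem_union, h4, true_or, or_true]
      have h5 := h x hx hz0 hz1 hz2 hz3 hg0 hg1 hg2 hg3
      have h6 : (C₁ : ℂ) * ((g₃ x : ℂ) ^ 2 * (g₀ x : ℂ) ^ 2) =
          C₂ * ((g₁ x : ℂ) ^ 2 * (g₂ x : ℂ) ^ 2) := by exact_mod_cast h5
      have h7 : ee x ∈ Q.roots.toFinset := by
        rw [Multiset.mem_toFinset, Polynomial.mem_roots hQ0]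
        unfold Polynomial.IsRoot
        rw [hQdef]
        simp only [Polynomial.eval_sub, Polynomial.eval_mul, Polynomial.eval_pow,
          Polynomial.eval_C]
        rw [← hg₀ x hz0, ← hg₁ x hz1, ← hg₂ x hz2, ← hg₃ x hz3, R1c_eval, R1c_eval, R1c_eval,
          R1c_eval]
        generalize (∏ w ∈ Z₀, (ee x - w)) = b₀
        generalize (∏ w ∈ Z₁, (ee x - w)) = b₁
        generalize (∏ w ∈ Z₂, (ee x - w)) = b₂
        generalize (∏ w ∈ Z₃, (ee x - w)) = b₃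
        have e0 : b₀ ^ (2 * m) = (b₀ ^ m) ^ 2 := by rw [mul_comm, pow_mul]
        have e1 : b₁ ^ (2 * m) = (b₁ ^ m) ^ 2 := by rw [mul_comm, pow_mul]
        have e2 : b₂ ^ (2 * m) = (b₂ ^ m) ^ 2 := by rw [mul_comm, pow_mul]
        have e3 : b₃ ^ (2 * m) = (b₃ ^ m) ^ 2 := by rw [mul_comm, pow_mul]
        rw [e0, e1, e2, e3]
        linear_combination (b₀ ^ m) ^ 2 * (b₁ ^ m) ^ 2 * (b₂ ^ m) ^ 2 * (b₃ ^ m) ^ 2 * h6
      simp only [Finset.mem_union, h7, or_true]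
    have h8 := Finset.card_le_card hsub
    rw [Finset.card_image_of_injOn hX] at h8
    have k0 := R1c_card hd₀
    have k1 := R1c_card hd₁
    have k2 := R1c_card hd₂
    have k3 := R1c_card hd₃
    have kQ := R1c_card hQd
    have h9 : (Z₀ ∪ Z₁ ∪ Z₂ ∪ Z₃ ∪ A₀.roots.toFinset ∪ A₁.roots.toFinset ∪
        A₂.roots.toFinset ∪ A₃.roots.toFinset ∪ Q.roots.toFinset).card ≤
        Z₀.card + Z₁.card + Z₂.card + Z₃.card + A₀.roots.toFinset.card +
          A₁.roots.toFinset.card + A₂.roots.toFinset.card + A₃.roots.toFinset.card +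
          Q.roots.toFinset.card := by
      refine (Finset.card_union_le _ _).trans (Nat.add_le_add_right ?_ _)
      refine (Finset.card_union_le _ _).trans (Nat.add_le_add_right ?_ _)
      refine (Finset.card_union_le _ _).trans (Nat.add_le_add_right ?_ _)
      refine (Finset.card_union_le _ _).trans (Nat.add_le_add_right ?_ _)
      refine (Finset.card_union_le _ _).trans (Nat.add_le_add_right ?_ _)
      refine (Finset.card_union_le _ _).trans (Nat.add_le_add_right ?_ _)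
      refine (Finset.card_union_le _ _).trans (Nat.add_le_add_right ?_ _)
      exact Finset.card_union_le _ _
    have h10 : n ≤ m * n := Nat.le_mul_of_pos_left _ (by omega)
    rw [c₀, c₁, c₂, c₃] at h9
    generalize hmn : m * n = mn at *
    omega
  have h1 := congrArg (fun P => Polynomial.eval (ee x) P) hQ
  simp only [Polynomial.eval_mul, Polynomial.eval_pow, Polynomial.eval_C] at h1
  rw [(R1c_root Z₃ (ee x)).2 hx, zero_pow (by omega : 2 * m ≠ 0), zero_mul, mul_zero] at h1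
  have h2 : (C₁ : ℂ) * (A₃.eval (ee x) ^ 2) ≠ 0 :=
    mul_ne_zero hC₁' (pow_ne_zero _ (hA₃ _ hx))
  have h3 : A₀.eval (ee x) ^ 2 * ((R1c_B Z₁).eval (ee x) ^ (2 * m) *
      (R1c_B Z₂).eval (ee x) ^ (2 * m)) = 0 := by
    refine (mul_eq_zero.1 ?_).resolve_left h2
    rw [← h1]
    ring
  rcases mul_eq_zero.1 h3 with h4 | h4
  · right
    right
    have h5 : A₀.eval (ee x) = 0 := eq_zero_of_pow_eq_zero h4
    have h6 : ee x ∉ Z₀ := fun h7 => hA₀ _ h7 h5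
    refine ⟨h6, ?_⟩
    have h7 := hg₀ x h6
    rw [h5] at h7
    rcases mul_eq_zero.1 h7 with h8 | h8
    · exact_mod_cast h8
    · exfalso
      have h9 := eq_zero_of_pow_eq_zero h8
      rw [← R1c_eval] at h9
      exact h6 ((R1c_root Z₀ _).1 h9)
  · rcases mul_eq_zero.1 h4 with h5 | h5
    · exact Or.inl ((R1c_root Z₁ _).1 (eq_zero_of_pow_eq_zero h5))
    · exact Or.inr (Or.inl ((R1c_root Z₂ _).1 (eq_zero_of_pow_eq_zero h5)))

end Pool.Agent.GSG
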