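import Pool.Agent.GSG.Defs
import Pool.Agent.GSP.A3

/-!
PROOF (module R4). `S ≠ ∅`, so `YY S k j s = C (∏ p * ex! / 2) * ∑ T, (-1) ^ |S \ T| * ∑ i < k, C c_i(T) *
C ((-1) ^ (ex + 1 - i) P_(ex + 1 - i) (ct ..)) * X ^ (ex + 1 - i)` with `ex = ex S k j`. Its natDegree is at
most `ex + 1`, and only `i = 0` contributes to the coefficient of `X ^ (ex + 1)` (`k ≥ 1`, which follows from
`hS.lt`; for `i ≥ 1` the truncated exponent `ex + 1 - i` is `≤ ex`), with `c_0(T) = (taylor α (binP k)).coeff 0 =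
(binP k).eval α`. So the coefficient is `(∏ p * ex! / 2) (-1) ^ (ex + 1) ∑ T ⊆ S, t(T)`,
`t(T) = (-1) ^ |S \ T| (binP k).eval (al S T) P_(ex + 1) (ct (s al S T - k / 2))`. The terms of `T` and
`S \ T` are equal: `al S (S \ T) = - al S T`, `(binP k).eval (-x) = (-1) ^ (k - 1) (binP k).eval x`,
`ct (-y - k / 2) = - ct (y + k / 2) = - ct (y - k / 2)`, `P_r (-c) = (-1) ^ r P_r (c)` (`cotP_neg` in
GSP/A3), and the total sign is `(-1) ^ (k - 1 + ex + 1 + |T|) = (-1) ^ |S \ T|` since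
`ex = k + 2 + 2 j - |S|` (`hS.card_le`). Exactly one of `T`, `S \ T` contains `q`. So the coefficient is
`c * gq S k q (ex + 1) s 0` with `c = ∏ p * ex! * (-1) ^ (ex + 1) ≠ 0`; if it is not `0`, it is the leading
coefficient (`Polynomial.leadingCoeff`, `natDegree_eq_of_le_of_coeff_ne_zero`).
-/

set_option autoImplicit false

open Finset

namespace Pool.Agent.GSG

open Pool.Agent.GSP

private theorem R4_al {S T : Finset ℕ} (hT : T ⊆ S) : al S (S \ T) = - al S T := by
  unfold al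
  rw [Finset.sdiff_sdiff_eq_self hT]
  ring

private theorem R4_bin {k : ℕ} (hk : 1 ≤ k) (x : ℚ) :
    (binP k).eval (-x) = (-1) ^ (k - 1) * (binP k).eval x := by
  unfold binP
  rw [Polynomial.eval_mul, Polynomial.eval_mul, Polynomial.eval_C, Polynomial.eval_prod,
    Polynomial.eval_prod]
  simp only [Polynomial.eval_add, Polynomial.eval_X, Polynomial.eval_C]
  have h : ∏ i ∈ range (k - 1), (-x + ((k : ℚ) / 2 - (i + 1))) =
      (-1) ^ (k - 1) * ∏ i ∈ range (k - 1), (x + ((k : ℚ) / 2 - (i + 1))) := by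
    rw [← Finset.prod_range_reflect (fun i : ℕ => x + ((k : ℚ) / 2 - (i + 1))) (k - 1)]
    have h1 : ((-1 : ℚ)) ^ (k - 1) = ∏ _i ∈ range (k - 1), (-1 : ℚ) := by
      rw [Finset.prod_const, Finset.card_range]
    rw [h1, ← Finset.prod_mul_distrib]
    refine Finset.prod_congr rfl fun i hi => ?_
    have hi' : i < k - 1 := mem_range.1 hi
    have h2 : ((k - 1 - 1 - i : ℕ) : ℚ) = (k : ℚ) - 2 - i := by
      have h3 : (k - 1 - 1 - i) + (i + 2) = k := by omega
      have h4 : ((k - 1 - 1 - i : ℕ) : ℚ) + (i + 2) = k := by exact_mod_cast h3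
      linarith
    rw [h2]
    ring
  rw [h]
  ring

private theorem R4_ct (k : ℕ) (y : ℝ) : ct (-y - k / 2) = - ct (y - k / 2) := by
  unfold ct
  have h1 : Real.pi * (-y - (k : ℝ) / 2) = -(Real.pi * (y - k / 2) + k * Real.pi) := by ring
  rw [h1, Real.cos_neg, Real.sin_neg, Real.cos_add_nat_mul_pi, Real.sin_add_nat_mul_pi]
  have h2 : ((-1 : ℝ)) ^ k ≠ 0 := pow_ne_zero _ (by norm_num)
  rw [div_neg, mul_div_mul_left _ _ h2]

/-- the summand of the set `T` -/
private noncomputable def R4_t (S : Finset ℕ) (k E : ℕ) (s : ℤ) (T : Finset ℕ) : ℝ :=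
  (-1) ^ (S \ T).card * (((binP k).eval (al S T) : ℚ) : ℝ) *
    ((cotP E).map (algebraMap ℚ ℝ)).eval (ct (s * (al S T : ℝ) - k / 2))

private theorem R4_symm {S : Finset ℕ} {k : ℕ} (hk : 1 ≤ k) {j E : ℕ}
    (hE : E + S.card = k + 3 + 2 * j) (s : ℤ) {T : Finset ℕ} (hT : T ⊆ S) :
    R4_t S k E s (S \ T) = R4_t S k E s T := by
  unfold R4_t
  rw [Finset.sdiff_sdiff_eq_self hT, R4_al hT, R4_bin hk]
  have h1 : ((s : ℝ) * ((-al S T : ℚ) : ℝ) - k / 2) = -((s : ℝ) * (al S T : ℝ)) - k / 2 := by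
    push_cast
    ring
  rw [h1, R4_ct, cotP_neg]
  have h2 : T.card + (S \ T).card = S.card := by
    rw [add_comm]
    exact Finset.card_sdiff_add_card_eq_card hT
  have h3 : ((-1 : ℝ)) ^ T.card * (-1) ^ (k - 1) * (-1) ^ E = (-1) ^ (S \ T).card := by
    have h4 : ((-1 : ℝ)) ^ T.card * (-1) ^ (k - 1) * (-1) ^ E * (-1) ^ (S \ T).card = 1 := by
      rw [← pow_add, ← pow_add, ← pow_add]
      refine Even.neg_one_pow ⟨k + 1 + j, by omega⟩
    have h5 : ((-1 : ℝ)) ^ (S \ T).card * (-1) ^ (S \ T).card = 1 := by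
      rw [← pow_add]
      exact Even.neg_one_pow ⟨(S \ T).card, rfl⟩
    calc ((-1 : ℝ)) ^ T.card * (-1) ^ (k - 1) * (-1) ^ E
        = ((-1 : ℝ)) ^ T.card * (-1) ^ (k - 1) * (-1) ^ E *
            ((-1) ^ (S \ T).card * (-1) ^ (S \ T).card) := by rw [h5, mul_one]
      _ = ((-1 : ℝ)) ^ T.card * (-1) ^ (k - 1) * (-1) ^ E * (-1) ^ (S \ T).card *
            (-1) ^ (S \ T).card := by ring
      _ = (-1) ^ (S \ T).card := by rw [h4, one_mul]
  rw [← h3]
  push_cast
  ring

private theorem R4_sum {S : Finset ℕ} {k : ℕ} (hk : 1 ≤ k) {j E : ℕ}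
    (hE : E + S.card = k + 3 + 2 * j) (s : ℤ) {q : ℕ} (hq : q ∈ S) :
    ∑ T ∈ S.powerset, R4_t S k E s T = 2 * gq S k q E s 0 := by
  have h1 : gq S k q E s 0 = ∑ T ∈ S.powerset with q ∈ T, R4_t S k E s T := by
    unfold gq R4_t
    refine Finset.sum_congr rfl fun T _ => ?_
    rw [zero_add]
  have h2 : ∑ T ∈ S.powerset with ¬ q ∈ T, R4_t S k E s T =
      ∑ T ∈ S.powerset with q ∈ T, R4_t S k E s T := by
    refine Finset.sum_bij' (fun T _ => S \ T) (fun T _ => S \ T) ?_ ?_ ?_ ?_ ?_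
    · intro T hT
      rw [mem_filter, mem_powerset] at hT ⊢
      exact ⟨Finset.sdiff_subset, mem_sdiff.2 ⟨hq, hT.2⟩⟩
    · intro T hT
      rw [mem_filter, mem_powerset] at hT ⊢
      exact ⟨Finset.sdiff_subset, fun h => (mem_sdiff.1 h).2 hT.2⟩
    · intro T hT
      rw [mem_filter, mem_powerset] at hT
      exact Finset.sdiff_sdiff_eq_self hT.1
    · intro T hT
      rw [mem_filter, mem_powerset] at hT
      exact Finset.sdiff_sdiff_eq_self hT.1
    · intro T hT
      rw [mem_filter, mem_powerset] at hT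
      exact (R4_symm hk hE s hT.1).symm
  rw [h1, ← Finset.sum_filter_add_sum_filter_not S.powerset (fun T => q ∈ T), h2]
  ring

private theorem R4_C (n : ℕ) : ((-1 : Polynomial ℝ)) ^ n = Polynomial.C ((-1) ^ n) := by
  simp

/-- the leading coefficient of the conjugate moment -/
theorem YY_top {S : Finset ℕ} {k : ℕ} (hS : LeafG S k) {q : ℕ} (hq : q ∈ S) (j : ℕ) :
    ∃ c : ℝ, c ≠ 0 ∧ ∀ s : ℤ, gq S k q (ex S k j + 1) s 0 ≠ 0 →
      (YY S k j s).leadingCoeff = c * gq S k q (ex S k j + 1) s 0 := by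
  have hk := hS.one_le
  have hne : S ≠ ∅ := by
    rintro rfl
    exact absurd hq (Finset.notMem_empty _)
  have hE : ex S k j + 1 + S.card = k + 3 + 2 * j := by
    have := hS.card_le
    unfold ex
    omega
  refine ⟨(∏ p ∈ S, (p : ℝ)) * ((ex S k j).factorial : ℝ) * (-1) ^ (ex S k j + 1), ?_, ?_⟩
  · refine mul_ne_zero (mul_ne_zero ?_ ?_) (pow_ne_zero _ (by norm_num))
    · rw [Finset.prod_ne_zero_iff]
      intro p hp
      have := hS.pos p hp
      exact_mod_cast this.ne'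
    · exact_mod_cast (Nat.factorial_ne_zero _)
  · intro s hg
    have hcoef : (YY S k j s).coeff (ex S k j + 1) =
        (∏ p ∈ S, (p : ℝ)) * ((ex S k j).factorial : ℝ) * (-1) ^ (ex S k j + 1) *
          gq S k q (ex S k j + 1) s 0 := by
      unfold YY
      rw [if_neg hne, Polynomial.coeff_C_mul, Polynomial.finsetSum_coeff]
      have h1 : ∀ T ∈ S.powerset, (((-1 : Polynomial ℝ)) ^ (S \ T).card * ∑ i ∈ range k,
          Polynomial.C (((Polynomial.taylor (al S T) (binP k)).coeff i : ℚ) : ℝ) *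
          Polynomial.C ((-1) ^ (ex S k j + 1 - i) *
            Polynomial.eval (ct (s * (al S T : ℝ) - k / 2))
              ((cotP (ex S k j + 1 - i)).map (algebraMap ℚ ℝ))) *
          Polynomial.X ^ (ex S k j + 1 - i)).coeff (ex S k j + 1) =
          (-1) ^ (ex S k j + 1) * R4_t S k (ex S k j + 1) s T := by
        intro T _
        rw [R4_C, Polynomial.coeff_C_mul, Polynomial.finsetSum_coeff,
          Finset.sum_eq_single_of_mem 0 (mem_range.2 hk)]
        · rw [Nat.sub_zero, ← Polynomial.C_mul, Polynomial.coeff_C_mul_X_pow, if_pos rfl,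
            Polynomial.taylor_coeff_zero]
          unfold R4_t
          ring
        · intro i _ hi
          rw [← Polynomial.C_mul, Polynomial.coeff_C_mul_X_pow, if_neg (by omega)]
      rw [Finset.sum_congr rfl h1, ← Finset.mul_sum, R4_sum hk hE s hq]
      ring
    have hdeg : (YY S k j s).natDegree ≤ ex S k j + 1 := by
      unfold YY
      rw [if_neg hne]
      refine (Polynomial.natDegree_C_mul_le _ _).trans ?_
      refine Polynomial.natDegree_sum_le_of_forall_le _ _ fun T _ => ?_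
      rw [R4_C]
      refine (Polynomial.natDegree_C_mul_le _ _).trans ?_
      refine Polynomial.natDegree_sum_le_of_forall_le _ _ fun i _ => ?_
      rw [← Polynomial.C_mul]
      exact (Polynomial.natDegree_C_mul_X_pow_le _ _).trans (Nat.sub_le _ _)
    have h1 : (YY S k j s).natDegree = ex S k j + 1 := by
      refine Polynomial.natDegree_eq_of_le_of_coeff_ne_zero hdeg ?_
      rw [hcoef]
      refine mul_ne_zero (mul_ne_zero (mul_ne_zero ?_ ?_) (pow_ne_zero _ (by norm_num))) hg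
      · rw [Finset.prod_ne_zero_iff]
        intro p hp
        have := hS.pos p hp
        exact_mod_cast this.ne'
      · exact_mod_cast (Nat.factorial_ne_zero _)
    rw [Polynomial.leadingCoeff, h1, hcoef]

end Pool.Agent.GSG
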