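import Mathlib

/-!
PROOFS (module T1). In all cases `F(s) = ∏ v, f v s`, `F'(s) = ∏ v, f' v s` are nonzero for `U s`, and
`∏ u, f u s = f v s * ∏ u ∈ univ.erase v, f u s` (`Finset.mul_prod_erase`).
`two_single`: from `hR g` and `hR 1`: `a F(g)² b F'(1)² = b F'(g)² a F(1)²`, so `(F(g) F'(1))² = (F'(g) F(1))²`;
the products over `u ≠ v`, `u ≠ v'` agree on both sides and are nonzero: cancel. `one_single`: `F'(g) = F'(1)`.
`four_single`: `(F(gh) F(1))² = (F(g) F(h))²`, because both sides times `a²` equal `b² (F'(gh) F'(1))²` and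
`b² (F'(g) F'(h))²`, which agree by `hv'`; the product of `hv u` over `u ≠ v` gives the common factor
`∏ u ≠ v, f u g f u h ≠ 0`: cancel. `eight_single`: the same with four factors (`a⁴`, `b⁴`).
-/

set_option autoImplicit false

open Finset

namespace Pool.Agent.GSG

section abstract

variable {K V V' : Type} [CommRing K] [IsDomain K] [Fintype V] [Fintype V'] {f : V → ℤ → K}
  {f' : V' → ℤ → K} {a b : K} {U : ℤ → Prop}

omit [IsDomain K] in
private theorem T1_split [DecidableEq V] (f : V → ℤ → K) (v : V) (s : ℤ) :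
    ∏ u, f u s = f v s * ∏ u ∈ univ.erase v, f u s :=
  (mul_prod_erase univ (fun u => f u s) (mem_univ v)).symm

private theorem T1_ne (hne : ∀ v s, U s → f v s ≠ 0) {s : ℤ} (hs : U s) : ∏ v, f v s ≠ 0 :=
  prod_ne_zero_iff.2 fun v _ => hne v s hs

private theorem T1_ne_erase [DecidableEq V] (hne : ∀ v s, U s → f v s ≠ 0) (v : V) {s : ℤ}
    (hs : U s) : ∏ u ∈ univ.erase v, f u s ≠ 0 :=
  prod_ne_zero_iff.2 fun u _ => hne u s hs

/-- one twist which moves only one node on each side -/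
theorem two_single (ha : a ≠ 0) (hb : b ≠ 0) (h1 : U 1) (hne : ∀ v s, U s → f v s ≠ 0)
    (hne' : ∀ v s, U s → f' v s ≠ 0)
    (hR : ∀ s, U s → a * (∏ v, f v s) ^ 2 = b * (∏ v, f' v s) ^ 2) {g : ℤ} (hg : U g) (v : V)
    (v' : V') (hv : ∀ u, u ≠ v → f u g = f u 1) (hv' : ∀ u, u ≠ v' → f' u g = f' u 1) :
    (f v g * f' v' 1) ^ 2 = (f' v' g * f v 1) ^ 2 := by
  classical
  have e1 := hR g hg
  have e2 := hR 1 h1
  have hP : ∏ u ∈ univ.erase v, f u g = ∏ u ∈ univ.erase v, f u 1 :=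
    prod_congr rfl fun u hu => hv u (ne_of_mem_erase hu)
  have hP' : ∏ u ∈ univ.erase v', f' u g = ∏ u ∈ univ.erase v', f' u 1 :=
    prod_congr rfl fun u hu => hv' u (ne_of_mem_erase hu)
  rw [T1_split f v g, T1_split f' v' g, hP, hP'] at e1
  rw [T1_split f v 1, T1_split f' v' 1] at e2
  have hPn := T1_ne_erase (U := U) hne v h1
  have hPn' := T1_ne_erase (U := U) hne' v' h1
  refine mul_left_cancel₀ (mul_ne_zero (mul_ne_zero ha hb)
    (pow_ne_zero 2 (mul_ne_zero hPn hPn'))) ?_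
  linear_combination (b * (f' v' 1 * ∏ u ∈ univ.erase v', f' u 1) ^ 2) * e1 -
    (b * (f' v' g * ∏ u ∈ univ.erase v', f' u 1) ^ 2) * e2

/-- one twist which moves one node on one side only -/
theorem one_single (ha : a ≠ 0) (hb : b ≠ 0) (h1 : U 1) (hne : ∀ v s, U s → f v s ≠ 0)
    (hne' : ∀ v s, U s → f' v s ≠ 0)
    (hR : ∀ s, U s → a * (∏ v, f v s) ^ 2 = b * (∏ v, f' v s) ^ 2) {g : ℤ} (hg : U g) (v : V)
    (hv : ∀ u, u ≠ v → f u g = f u 1) (hv' : ∀ u, f' u g = f' u 1) :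
    f v g ^ 2 = f v 1 ^ 2 := by
  classical
  have _ := hb
  have _ := hne'
  have e1 := hR g hg
  have e2 := hR 1 h1
  have hP : ∏ u ∈ univ.erase v, f u g = ∏ u ∈ univ.erase v, f u 1 :=
    prod_congr rfl fun u hu => hv u (ne_of_mem_erase hu)
  have hP' : ∏ u, f' u g = ∏ u, f' u 1 := prod_congr rfl fun u _ => hv' u
  rw [T1_split f v g, hP, hP'] at e1
  rw [T1_split f v 1] at e2
  have hPn := T1_ne_erase (U := U) hne v h1
  refine mul_left_cancel₀ (mul_ne_zero ha (pow_ne_zero 2 hPn)) ?_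
  linear_combination e1 - e2

/-- two twists which are not separated at one node only -/
theorem four_single (ha : a ≠ 0) (hb : b ≠ 0) (h1 : U 1) (hmul : ∀ s t, U s → U t → U (s * t))
    (hne : ∀ v s, U s → f v s ≠ 0) (hne' : ∀ v s, U s → f' v s ≠ 0)
    (hR : ∀ s, U s → a * (∏ v, f v s) ^ 2 = b * (∏ v, f' v s) ^ 2) {g h : ℤ} (hg : U g)
    (hh : U h) (v : V)
    (hv : ∀ u, u ≠ v → f u (g * h) * f u 1 = f u g * f u h)
    (hv' : ∀ u, f' u (g * h) * f' u 1 = f' u g * f' u h) :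
    (f v (g * h) * f v 1) ^ 2 = (f v g * f v h) ^ 2 := by
  classical
  have _ := hb
  have _ := hne'
  have e1 := hR (g * h) (hmul g h hg hh)
  have e2 := hR 1 h1
  have e3 := hR g hg
  have e4 := hR h hh
  have hP : (∏ u ∈ univ.erase v, f u (g * h)) * ∏ u ∈ univ.erase v, f u 1 =
      (∏ u ∈ univ.erase v, f u g) * ∏ u ∈ univ.erase v, f u h := by
    rw [← prod_mul_distrib, ← prod_mul_distrib]
    exact prod_congr rfl fun u hu => hv u (ne_of_mem_erase hu)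
  have e5 : (∏ u, f' u (g * h)) * ∏ u, f' u 1 = (∏ u, f' u g) * ∏ u, f' u h := by
    rw [← prod_mul_distrib, ← prod_mul_distrib]
    exact prod_congr rfl fun u _ => hv' u
  have hk : a ^ 2 * ((∏ u, f u (g * h)) * ∏ u, f u 1) ^ 2 =
      a ^ 2 * ((∏ u, f u g) * ∏ u, f u h) ^ 2 := by
    linear_combination (a * (∏ u, f u 1) ^ 2) * e1 + (b * (∏ u, f' u (g * h)) ^ 2) * e2 -
      (a * (∏ u, f u h) ^ 2) * e3 - (b * (∏ u, f' u g) ^ 2) * e4 +
      b ^ 2 * ((∏ u, f' u (g * h)) * (∏ u, f' u 1) + (∏ u, f' u g) * ∏ u, f' u h) * e5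
  have hk2 := mul_left_cancel₀ (pow_ne_zero 2 ha) hk
  rw [T1_split f v (g * h), T1_split f v 1, T1_split f v g, T1_split f v h] at hk2
  have hPg := T1_ne_erase (U := U) hne v hg
  have hPh := T1_ne_erase (U := U) hne v hh
  refine mul_left_cancel₀ (pow_ne_zero 2 (mul_ne_zero hPg hPh)) ?_
  have hk3 : ((∏ u ∈ univ.erase v, f u g) * ∏ u ∈ univ.erase v, f u h) ^ 2 *
      (f v (g * h) * f v 1) ^ 2 = (f v (g * h) * (∏ u ∈ univ.erase v, f u (g * h)) *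
        (f v 1 * ∏ u ∈ univ.erase v, f u 1)) ^ 2 := by
    rw [← hP]
    ring
  rw [hk3, hk2]
  ring

/-- three twists which are not separated at one node only -/
theorem eight_single (ha : a ≠ 0) (hb : b ≠ 0) (h1 : U 1)
    (hmul : ∀ s t, U s → U t → U (s * t))
    (hne : ∀ v s, U s → f v s ≠ 0) (hne' : ∀ v s, U s → f' v s ≠ 0)
    (hR : ∀ s, U s → a * (∏ v, f v s) ^ 2 = b * (∏ v, f' v s) ^ 2) {g h₁ h₂ : ℤ} (hg : U g)
    (hh₁ : U h₁) (hh₂ : U h₂) (v : V)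
    (hv : ∀ u, u ≠ v → f u (g * (h₁ * h₂)) * f u g * f u h₁ * f u h₂ =
      f u (g * h₁) * f u (g * h₂) * f u (h₁ * h₂) * f u 1)
    (hv' : ∀ u, f' u (g * (h₁ * h₂)) * f' u g * f' u h₁ * f' u h₂ =
      f' u (g * h₁) * f' u (g * h₂) * f' u (h₁ * h₂) * f' u 1) :
    (f v (g * (h₁ * h₂)) * f v g * f v h₁ * f v h₂) ^ 2 =
      (f v (g * h₁) * f v (g * h₂) * f v (h₁ * h₂) * f v 1) ^ 2 := by
  classical
  have _ := hb
  have _ := hne'
  have e1 := hR (g * (h₁ * h₂)) (hmul _ _ hg (hmul _ _ hh₁ hh₂))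
  have e2 := hR g hg
  have e3 := hR h₁ hh₁
  have e4 := hR h₂ hh₂
  have e5 := hR (g * h₁) (hmul _ _ hg hh₁)
  have e6 := hR (g * h₂) (hmul _ _ hg hh₂)
  have e7 := hR (h₁ * h₂) (hmul _ _ hh₁ hh₂)
  have e8 := hR 1 h1
  have hP : (∏ u ∈ univ.erase v, f u (g * (h₁ * h₂))) * (∏ u ∈ univ.erase v, f u g) *
      (∏ u ∈ univ.erase v, f u h₁) * (∏ u ∈ univ.erase v, f u h₂) =
      (∏ u ∈ univ.erase v, f u (g * h₁)) * (∏ u ∈ univ.erase v, f u (g * h₂)) *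
      (∏ u ∈ univ.erase v, f u (h₁ * h₂)) * (∏ u ∈ univ.erase v, f u 1) := by
    simp only [← prod_mul_distrib]
    exact prod_congr rfl fun u hu => hv u (ne_of_mem_erase hu)
  have hP' : (∏ u, f' u (g * (h₁ * h₂))) * (∏ u, f' u g) * (∏ u, f' u h₁) * (∏ u, f' u h₂) =
      (∏ u, f' u (g * h₁)) * (∏ u, f' u (g * h₂)) * (∏ u, f' u (h₁ * h₂)) * (∏ u, f' u 1) := by
    simp only [← prod_mul_distrib]
    exact prod_congr rfl fun u _ => hv' u
  have hl : a ^ 4 * ((∏ u, f u (g * (h₁ * h₂))) * (∏ u, f u g) * (∏ u, f u h₁) *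
      (∏ u, f u h₂)) ^ 2 = b ^ 4 * ((∏ u, f' u (g * (h₁ * h₂))) * (∏ u, f' u g) *
      (∏ u, f' u h₁) * (∏ u, f' u h₂)) ^ 2 := by
    have : a ^ 4 * ((∏ u, f u (g * (h₁ * h₂))) * (∏ u, f u g) * (∏ u, f u h₁) *
        (∏ u, f u h₂)) ^ 2 = (a * (∏ u, f u (g * (h₁ * h₂))) ^ 2) * (a * (∏ u, f u g) ^ 2) *
        (a * (∏ u, f u h₁) ^ 2) * (a * (∏ u, f u h₂) ^ 2) := by ring
    rw [this, e1, e2, e3, e4]
    ring
  have hr : a ^ 4 * ((∏ u, f u (g * h₁)) * (∏ u, f u (g * h₂)) * (∏ u, f u (h₁ * h₂)) *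
      (∏ u, f u 1)) ^ 2 = b ^ 4 * ((∏ u, f' u (g * h₁)) * (∏ u, f' u (g * h₂)) *
      (∏ u, f' u (h₁ * h₂)) * (∏ u, f' u 1)) ^ 2 := by
    have : a ^ 4 * ((∏ u, f u (g * h₁)) * (∏ u, f u (g * h₂)) * (∏ u, f u (h₁ * h₂)) *
        (∏ u, f u 1)) ^ 2 = (a * (∏ u, f u (g * h₁)) ^ 2) * (a * (∏ u, f u (g * h₂)) ^ 2) *
        (a * (∏ u, f u (h₁ * h₂)) ^ 2) * (a * (∏ u, f u 1) ^ 2) := by ring
    rw [this, e5, e6, e7, e8]
    ring
  rw [hP', ← hr] at hl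
  have hk := mul_left_cancel₀ (pow_ne_zero 4 ha) hl
  rw [T1_split f v (g * (h₁ * h₂)), T1_split f v g, T1_split f v h₁, T1_split f v h₂,
    T1_split f v (g * h₁), T1_split f v (g * h₂), T1_split f v (h₁ * h₂), T1_split f v 1] at hk
  have n1 := T1_ne_erase (U := U) hne v (hmul _ _ hg (hmul _ _ hh₁ hh₂))
  have n2 := T1_ne_erase (U := U) hne v hg
  have n3 := T1_ne_erase (U := U) hne v hh₁
  have n4 := T1_ne_erase (U := U) hne v hh₂
  refine mul_left_cancel₀ (pow_ne_zero 2 (mul_ne_zero (mul_ne_zero (mul_ne_zero n1 n2) n3) n4)) ?_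
  have hk3 : ((∏ u ∈ univ.erase v, f u (g * (h₁ * h₂))) * (∏ u ∈ univ.erase v, f u g) *
      (∏ u ∈ univ.erase v, f u h₁) * (∏ u ∈ univ.erase v, f u h₂)) ^ 2 *
      (f v (g * h₁) * f v (g * h₂) * f v (h₁ * h₂) * f v 1) ^ 2 =
      (f v (g * h₁) * (∏ u ∈ univ.erase v, f u (g * h₁)) *
      (f v (g * h₂) * (∏ u ∈ univ.erase v, f u (g * h₂))) *
      (f v (h₁ * h₂) * (∏ u ∈ univ.erase v, f u (h₁ * h₂))) *
      (f v 1 * ∏ u ∈ univ.erase v, f u 1)) ^ 2 := by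
    rw [hP]
    ring
  rw [hk3, ← hk]
  ring

end abstract

end Pool.Agent.GSG
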