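import Pool.Agent.GSG.T2
import Pool.Agent.GSG.N1
import Pool.Agent.GSG.N2

/-!
PROOFS (module T3). Let `f v s = YY (D.S v) (D.k v) 0 s`, `f' v s = YY (D'.S v) (D'.k v) 0 s` in `K = ℝ[X]`, `a = C _`,
`b = C _` from `h.mass`, `U s = IsCoprime s N`; nonvanishing: `YYG_ne` with `uG_of`; `LeafG.pos` for `0 < p`.
`claim_two`: for all `t, t'` with units `g = tz N l i t`, `g' = tz N l' (xp l' (D.S w)) t'`: `four_single` at `w`. For
`u ≠ w` in `D`: `g'` acts trivially (`hw.lt u`, `YY_fix'` and `YY_fix`): `f u (g g') = f u g` and `f u g' = f u 1`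
(write `g' = g' * 1`). For `u` in `D'`: `g` acts trivially or `g'` acts trivially, in both cases the four-term
relation is clear. So `(f w (g g') f w 1)² = (f w g f w g')²` for all units, against `ns_two` (with `hlw`).
`claim_one`: suppose `xp l (D'.S x) > xp l (D.S v)`; let `w` be a node of `D'` with the largest exponent `j` of `l`
(`Finset.exists_max_image univ`), `j > xp l (D.S v) ≥ 1`, so `w` has leaves (`xp l ∅ = 0`). All nodes of `D` have
exponents `≤ xp l (D.S v) < j` (`hv.lt`). Let `l'` be private for `w` (`h.ok'.priv`). If `l' = l`: all other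
nodes of `D'` have exponents `< j`, so `one_single` (roles of `D`, `D'` exchanged) gives `f' w g ^ 2 = f' w 1 ^ 2` for
all units `g = tz N l j t`, against `ns_one`. If `l' ≠ l`: `claim_two h.symm` (with `hv.prime`, `hv.big`, `i = j`).
`claim_ex`: otherwise all exponents in `D'` are `< xp l (D.S v)` by `claim_one`, so `one_single` at `v` contradicts `ns_one`.
-/

set_option autoImplicit false

open Finset

namespace Pool.Agent.GSG

open Pool.Agent.GSP

variable {V V' : Type} [Fintype V] [DecidableEq V] [Fintype V'] [DecidableEq V'] {D : Dat V}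
  {D' : Dat V'} {B N : ℕ}

private theorem T3_five {l B : ℕ} (hb : 4 ^ (B + 3) ≤ l) : 5 ≤ l := by
  have h1 : 4 ^ 3 ≤ 4 ^ (B + 3) := Nat.pow_le_pow_right (by norm_num) (by omega)
  omega

/-- the twists for the private primes of nodes of the two sides cannot be separated at exactly one
node -/
theorem claim_two (h : Cmp B N D D') {l l' : ℕ} {i : ℕ} {w : V} (hl : l.Prime)
    (hb : 4 ^ (B + 3) ≤ l) (hw : Pr B D l' w) (hi : 1 ≤ i) (hlw : xp l (D.S w) = i)
    (hne : l ≠ l') (h' : ∀ u, xp l (D'.S u) < i ∨ xp l' (D'.S u) < xp l' (D.S w)) : False := by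
  obtain ⟨a, b, ha, hb', hm⟩ := h.mass
  have h5 := T3_five hb
  have h5' := hw.five_le
  refine ns_two h.pos h.nice.four (h.ok.leaf w) (h.nice.dvd w) (h.ok.val_le w hw.nonempty) hne hl hb
    (by omega) hw.prime hw.big hw.pos ?_
  intro t t' hg hg'
  rw [hlw] at hg ⊢
  refine four_single (f := fun v s => YY (D.S v) (D.k v) 0 s)
    (f' := fun v s => YY (D'.S v) (D'.k v) 0 s) (a := Polynomial.C a) (b := Polynomial.C b)
    (U := fun s => IsCoprime s (N : ℤ)) (Polynomial.C_ne_zero.2 ha) (Polynomial.C_ne_zero.2 hb')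
    isCoprime_one_left (fun s t hs ht => hs.mul_left ht)
    (fun v s hs => YYG_ne (h.ok.leaf v) 0 (uG_of h.nice.four (h.nice.dvd v) hs))
    (fun v s hs => YYG_ne (h.ok'.leaf v) 0 (uG_of h.nice'.four (h.nice'.dvd v) hs)) hm hg hg' w
    ?_ ?_
  · intro u hu
    have e1 := YY_fix' h.pos (h.ok.leaf u).pos (h.nice.dvd u) hw.prime h5' (hw.lt u hu) (D.k u) 0
      t' (tz N l i t)
    have e2 := YY_fix h.pos (h.ok.leaf u).pos (h.nice.dvd u) hw.prime h5' (hw.lt u hu) (D.k u) 0
      t' 1
    rw [mul_one] at e2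
    show YY (D.S u) (D.k u) 0 _ * YY (D.S u) (D.k u) 0 1 =
      YY (D.S u) (D.k u) 0 _ * YY (D.S u) (D.k u) 0 _
    rw [e1, e2]
  · intro u
    show YY (D'.S u) (D'.k u) 0 _ * YY (D'.S u) (D'.k u) 0 1 =
      YY (D'.S u) (D'.k u) 0 _ * YY (D'.S u) (D'.k u) 0 _
    rcases h' u with hu | hu
    · have e1 := YY_fix h.pos (h.ok'.leaf u).pos (h.nice'.dvd u) hl h5 hu (D'.k u) 0
        t (tz N l' (xp l' (D.S w)) t')
      have e2 := YY_fix h.pos (h.ok'.leaf u).pos (h.nice'.dvd u) hl h5 hu (D'.k u) 0 t 1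
      rw [mul_one] at e2
      rw [e1, e2, mul_comm]
    · have e1 := YY_fix' h.pos (h.ok'.leaf u).pos (h.nice'.dvd u) hw.prime h5' hu (D'.k u) 0
        t' (tz N l i t)
      have e2 := YY_fix h.pos (h.ok'.leaf u).pos (h.nice'.dvd u) hw.prime h5' hu (D'.k u) 0 t' 1
      rw [mul_one] at e2
      rw [e1, e2]

/-- a twist of a prime `l` whose level is above all exponents of `l` except that of one node with
leaves does not exist -/
private theorem T3_one (h : Cmp B N D D') {l : ℕ} {w : V} (hl : l.Prime) (hb : 4 ^ (B + 3) ≤ l)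
    (hi : 1 ≤ xp l (D.S w)) (hw : ∀ u, u ≠ w → xp l (D.S u) < xp l (D.S w))
    (h' : ∀ u, xp l (D'.S u) < xp l (D.S w)) : False := by
  obtain ⟨a, b, ha, hb', hm⟩ := h.mass
  have h5 := T3_five hb
  have hP : Pr B D l w := ⟨hl, hb, hi, hw⟩
  refine ns_one h.pos h.nice.four (h.ok.leaf w) (h.nice.dvd w) (h.ok.val_le w hP.nonempty) hl hb
    hi ?_
  intro t hg
  refine one_single (f := fun v s => YY (D.S v) (D.k v) 0 s)
    (f' := fun v s => YY (D'.S v) (D'.k v) 0 s) (a := Polynomial.C a) (b := Polynomial.C b)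
    (U := fun s => IsCoprime s (N : ℤ)) (Polynomial.C_ne_zero.2 ha) (Polynomial.C_ne_zero.2 hb')
    isCoprime_one_left
    (fun v s hs => YYG_ne (h.ok.leaf v) 0 (uG_of h.nice.four (h.nice.dvd v) hs))
    (fun v s hs => YYG_ne (h.ok'.leaf v) 0 (uG_of h.nice'.four (h.nice'.dvd v) hs)) hm hg w
    ?_ ?_
  · intro u hu
    have e2 := YY_fix h.pos (h.ok.leaf u).pos (h.nice.dvd u) hl h5 (hw u hu) (D.k u) 0 t 1
    rw [mul_one] at e2
    exact e2
  · intro u
    have e2 := YY_fix h.pos (h.ok'.leaf u).pos (h.nice'.dvd u) hl h5 (h' u) (D'.k u) 0 t 1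
    rw [mul_one] at e2
    exact e2

/-- the exponents of a private prime on the other side are not larger -/
theorem claim_one (h : Cmp B N D D') {l : ℕ} {v : V} (hv : Pr B D l v) (x : V') :
    xp l (D'.S x) ≤ xp l (D.S v) := by
  by_contra hx
  rw [not_le] at hx
  obtain ⟨w, -, hw⟩ := Finset.exists_max_image univ (fun x => xp l (D'.S x)) ⟨x, mem_univ x⟩
  have hxw : xp l (D'.S x) ≤ xp l (D'.S w) := hw x (mem_univ x)
  have hpos := hv.pos
  have hD : ∀ u, xp l (D.S u) < xp l (D'.S w) := by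
    intro u
    rcases eq_or_ne u v with rfl | hu
    · omega
    · have := hv.lt u hu
      omega
  have hne : (D'.S w).Nonempty := by
    rw [Finset.nonempty_iff_ne_empty]
    intro h0
    have h1 : 1 ≤ xp l (D'.S w) := by omega
    rw [h0] at h1
    simp [xp] at h1
  obtain ⟨l', hl'⟩ := h.ok'.priv w hne
  rcases eq_or_ne l l' with rfl | hll
  · exact T3_one h.symm hl'.prime hl'.big hl'.pos hl'.lt hD
  · exact claim_two h.symm hv.prime hv.big hl' (i := xp l (D'.S w)) (by omega) rfl hll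
      fun u => Or.inl (hD u)

/-- a private prime occurs on the other side with the same exponent -/
theorem claim_ex (h : Cmp B N D D') {l : ℕ} {v : V} (hv : Pr B D l v) :
    ∃ x, xp l (D'.S x) = xp l (D.S v) := by
  by_contra hx
  rw [not_exists] at hx
  exact T3_one h hv.prime hv.big hv.pos hv.lt fun u =>
    lt_of_le_of_ne (claim_one h hv u) (hx u)

end Pool.Agent.GSG
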