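import Pool.Agent.GSG.T3
import Pool.Agent.GSG.N3

/-!
PROOFS (module T4). `claim_uniq`: suppose `x ≠ y`, `i = xp l (D.S v)`. Let `l₁` be private for `x`, `l₂` for `y` in `D'`
(`h.ok'.priv`; `x`, `y` have leaves as `i ≥ 1`). `l ≠ l₁` (else `xp l (D'.S y) < xp l (D'.S x)`), `l ≠ l₂`, and
`l₁ ≠ l₂` (`Pr.unique`). `claim_one h.symm`: `xp l₁ (D.S v) ≤ i₁ := xp l₁ (D'.S x)`. If `<`, then `claim_two h.symm`
(`w = x`, `l' = l₁`, exponent `i` of `l` at `x`) applies: for `u ≠ v` in `D` `xp l (D.S u) < i`, for `u = v` the second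
alternative. So `xp l₁ (D.S v) = i₁ ≥ 1`, and `xp l₂ (D.S v) = i₂ := xp l₂ (D'.S y)`. Now for all `t, t₁, t₂` with units
`g = tz N l i t`, `h₁ = tz N l₁ i₁ t₁`, `h₂ = tz N l₂ i₂ t₂` use `eight_single` at `v`: for `u ≠ v` in `D` `g` acts
trivially; for `u ≠ x` in `D'` `h₁` acts trivially; for `u = x ≠ y` `h₂` acts trivially (`YY_fix`, `YY_fix'`, mind
the order of the products). So `ns_three` at `v` gives a contradiction.
`matching`: for `v` with leaves choose a private `l_v` (`h.ok.priv`) and `τ v = x` with `xp l_v (D'.S x) = xp l_v (D.S v)`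
(`claim_ex`), `x` has leaves. In the same way `τ'` from `h.symm`. `τ' (τ v) = v`: let `x = τ v`, `l = l_v`, `i = xp l (D.S v)`,
`l'` the prime chosen for `x`, `i' = xp l' (D'.S x)`, `w = τ' x`, so `xp l' (D.S w) = i'`. If `l' = l`: `i' = i`, and
`claim_uniq h.symm` for `x`, `l'` and the nodes `v`, `w` gives `v = w`. If `l' ≠ l` and `w ≠ v`: `xp l' (D.S v) ≤ i'`
(`claim_one h.symm`) and `≠ i'` (`claim_uniq h.symm`), so `claim_two h.symm` (`w := x`, `l'`, `l`, `i`; for `u ≠ v`
`xp l (D.S u) < i`, for `u = v` the second alternative) gives a contradiction. By symmetry `τ (τ' x) = x`. The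
last property: `claim_one` and `claim_uniq`.
-/

set_option autoImplicit false

open Finset

namespace Pool.Agent.GSG

open Pool.Agent.GSP

variable {V V' : Type} [Fintype V] [DecidableEq V] [Fintype V'] [DecidableEq V'] {D : Dat V}
  {D' : Dat V'} {B N : ℕ}

private theorem T4_nonempty {S : Finset ℕ} {l : ℕ} (h : 1 ≤ xp l S) : S.Nonempty := by
  rw [Finset.nonempty_iff_ne_empty]
  intro h0
  rw [h0] at h
  simp [xp] at h

/-- if a private prime `l` of `v` occurs with the same exponent at `x`, and `l₁` is private for `x` and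
different from `l`, then `l₁` occurs at `v` with the same exponent -/
private theorem T4_eq (h : Cmp B N D D') {l l₁ : ℕ} {v : V} {x : V'} (hv : Pr B D l v)
    (hx : xp l (D'.S x) = xp l (D.S v)) (h₁ : Pr B D' l₁ x) (hne : l ≠ l₁) :
    xp l₁ (D.S v) = xp l₁ (D'.S x) := by
  refine le_antisymm (claim_one h.symm h₁ v) ?_
  by_contra hlt
  rw [not_le] at hlt
  refine claim_two h.symm (l := l) (l' := l₁) (i := xp l (D.S v)) (w := x) hv.prime
    hv.big h₁ hv.pos hx hne fun u => ?_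
  by_cases hu : u = v
  · right
    rw [hu]
    exact hlt
  · exact Or.inl (hv.lt u hu)

/-- a private prime occurs with the same exponent only once on the other side -/
theorem claim_uniq (h : Cmp B N D D') {l : ℕ} {v : V} (hv : Pr B D l v) {x y : V'}
    (hx : xp l (D'.S x) = xp l (D.S v)) (hy : xp l (D'.S y) = xp l (D.S v)) : x = y := by
  by_contra hxy
  obtain ⟨l₁, h₁⟩ := h.ok'.priv x (T4_nonempty (l := l) (by rw [hx]; exact hv.pos))
  obtain ⟨l₂, h₂⟩ := h.ok'.priv y (T4_nonempty (l := l) (by rw [hy]; exact hv.pos))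
  have h01 : l ≠ l₁ := by
    rintro rfl
    have := h₁.lt y (Ne.symm hxy)
    omega
  have h02 : l ≠ l₂ := by
    rintro rfl
    have := h₂.lt x hxy
    omega
  have h12 : l₁ ≠ l₂ := by
    rintro rfl
    exact hxy (h₁.unique h₂)
  have e1 := T4_eq h hv hx h₁ h01
  have e2 := T4_eq h hv hy h₂ h02
  obtain ⟨a, b, ha, hb, hm⟩ := h.mass
  refine ns_three h.pos h.nice.four (h.ok.leaf v) (h.nice.dvd v) (h.ok.val_le v hv.nonempty) h01
    h02 h12 hv.prime hv.big hv.pos h₁.prime h₁.big (by rw [e1]; exact h₁.pos) h₂.prime h₂.big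
    (by rw [e2]; exact h₂.pos) fun t t₁ t₂ ht ht₁ ht₂ => ?_
  refine eight_single (K := Polynomial ℝ) (f := fun v s => YY (D.S v) (D.k v) 0 s)
    (f' := fun v s => YY (D'.S v) (D'.k v) 0 s) (a := Polynomial.C a) (b := Polynomial.C b)
    (U := fun s : ℤ => IsCoprime s (N : ℤ)) (by simpa using ha) (by simpa using hb)
    isCoprime_one_left (fun s t hs ht => hs.mul_left ht)
    (fun v s hs => YYG_ne (h.ok.leaf v) 0 (uG_of h.nice.four (h.nice.dvd v) hs))
    (fun v s hs => YYG_ne (h.ok'.leaf v) 0 (uG_of h.nice'.four (h.nice'.dvd v) hs))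
    hm ht ht₁ ht₂ v (fun u hu => ?_) (fun u => ?_)
  · have hf : ∀ s : ℤ, YY (D.S u) (D.k u) 0 (tz N l (xp l (D.S v)) t * s) =
        YY (D.S u) (D.k u) 0 s := fun s =>
      YY_fix h.pos (h.ok.leaf u).pos (h.nice.dvd u) hv.prime hv.five_le
        (hv.lt u hu) (D.k u) 0 t s
    have hf1 := hf 1
    rw [mul_one] at hf1
    simp only [hf, hf1]
    ring
  · by_cases hu : u = x
    · subst hu
      have hf : ∀ s : ℤ, YY (D'.S u) (D'.k u) 0 (s * tz N l₂ (xp l₂ (D.S v)) t₂) =
          YY (D'.S u) (D'.k u) 0 s := fun s =>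
        YY_fix' h.pos (h.ok'.leaf u).pos (h.nice'.dvd u) h₂.prime h₂.five_le
          (by rw [e2]; exact h₂.lt u hxy) (D'.k u) 0 t₂ s
      have hf1 := hf 1
      rw [one_mul] at hf1
      have hf2 := hf (tz N l (xp l (D.S v)) t * tz N l₁ (xp l₁ (D.S v)) t₁)
      rw [mul_assoc] at hf2
      simp only [hf2, hf, hf1]
    · have hf : ∀ s : ℤ, YY (D'.S u) (D'.k u) 0 (tz N l₁ (xp l₁ (D.S v)) t₁ * s) =
          YY (D'.S u) (D'.k u) 0 s := fun s =>
        YY_fix h.pos (h.ok'.leaf u).pos (h.nice'.dvd u) h₁.prime h₁.five_le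
          (by rw [e1]; exact h₁.lt u hu) (D'.k u) 0 t₁ s
      have hf1 := hf 1
      rw [mul_one] at hf1
      have hf2 := hf (tz N l (xp l (D.S v)) t * tz N l₂ (xp l₂ (D.S v)) t₂)
      rw [mul_left_comm] at hf2
      have hf3 := hf (tz N l (xp l (D.S v)) t)
      rw [mul_comm] at hf3
      simp only [hf2, hf3, hf, hf1]
      ring

/-- the choice of the image of a node with leaves -/
private theorem T4_pick (h : Cmp B N D D') (v : {v // (D.S v).Nonempty}) :
    ∃ (l : ℕ) (x : {v // (D'.S v).Nonempty}), Pr B D l (v : V) ∧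
      xp l (D'.S x) = xp l (D.S v) ∧ ∀ y, y ≠ (x : V') → xp l (D'.S y) < xp l (D.S v) := by
  obtain ⟨l, hl⟩ := h.ok.priv v v.2
  obtain ⟨x, hx⟩ := claim_ex h hl
  refine ⟨l, ⟨x, T4_nonempty (l := l) (by rw [hx]; exact hl.pos)⟩, hl, hx, fun y hy => ?_⟩
  refine lt_of_le_of_ne (claim_one h hl y) fun hyl => hy ?_
  exact claim_uniq h hl hyl hx

/-- the image of the image of a node is the node -/
private theorem T4_back (h : Cmp B N D D') {l l' : ℕ} {v w : V} {x : V'} (hv : Pr B D l v)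
    (hx : xp l (D'.S x) = xp l (D.S v)) (h' : Pr B D' l' x)
    (hw : xp l' (D.S w) = xp l' (D'.S x)) : w = v := by
  by_cases hne : l = l'
  · subst hne
    exact claim_uniq h.symm h' hw hx.symm
  · exact claim_uniq h.symm h' hw (T4_eq h hv hx h' hne)

/-- the matching of the nodes with leaves -/
theorem matching (h : Cmp B N D D') :
    ∃ τ : {v // (D.S v).Nonempty} ≃ {v // (D'.S v).Nonempty},
      ∀ v : {v // (D.S v).Nonempty}, ∃ l,
      Pr B D l (v : V) ∧ xp l (D'.S (τ v)) = xp l (D.S v) ∧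
        ∀ x, x ≠ (τ v : V') → xp l (D'.S x) < xp l (D.S v) := by
  choose L T hL hT hT' using T4_pick h
  choose L' T₁ hL' hT₁ hT₁' using T4_pick h.symm
  have left : Function.LeftInverse T₁ T := fun v =>
    Subtype.ext (T4_back h (hL v) (hT v) (hL' (T v)) (hT₁ (T v)))
  have right : Function.RightInverse T₁ T := fun x =>
    Subtype.ext (T4_back h.symm (hL' x) (hT₁ x) (hL (T₁ x)) (hT (T₁ x)))
  exact ⟨⟨T, T₁, left, right⟩, fun v => ⟨L v, hL v, hT v, hT' v⟩⟩

end Pool.Agent.GSG
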