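import Pool.Agent.GSG.R1b
import Pool.Agent.GSG.R3b
import Pool.Agent.GSG.R7
import Pool.Agent.GSG.M4

/-!
PROOF (module U1). Suppose `mm S k 1 (tz t) = mm S k 1 1` for all units `tz t`. Then
`YY S k 1 (tz t) * YY S k 0 1 = YY S k 1 1 * YY S k 0 (tz t)` (`div_eq_div_iff`, `toC_inj`, all nonzero by `YYG_ne`).
By `node_lc` (the same `q`, `c` for `j = 0` and `j = 1`) the leading coefficients give, for `x = t c / l`,
`g₁ = gq S k q (ex S k 1 + 1) 1`, `g₀ = gq S k q (ex S k 0 + 1) 1`, both nonzero at `x`: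
`κ₁ lc(YY S k 0 1) g₁(x) = κ₀ lc(YY S k 1 1) g₀(x)`. Square it; `PF.two` (`gq_pf`, `zq_card`, `deg_le`:
`4 (2 ^ (B + 1) + 2 ^ (B - 1)) < l - 1`) gives `ex S k 1 + 1 = ex S k 0 + 1`, but `ex S k 1 = ex S k 0 + 2`
(`hS.card_le`): contradiction.
-/

set_option autoImplicit false

open Finset

namespace Pool.Agent.GSG

open Pool.Agent.GSP

/-- the first moment of a node is moved by a twist -/
theorem node_unit {B N : ℕ} (hN : 0 < N) (h4 : 4 ∣ N) {S : Finset ℕ} {k : ℕ} (hS : LeafG S k)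
    (hNS : ∀ p ∈ S, 2 * p ∣ N) (hB : k + 2 ≤ B) {l : ℕ} (hl : l.Prime) (hb : 4 ^ (B + 3) ≤ l)
    (hi : 1 ≤ xp l S) :
    ∃ t : ℤ, IsCoprime (tz N l (xp l S) t) (N : ℤ) ∧
      mm S k 1 (tz N l (xp l S) t) ≠ mm S k 1 1 := by
  by_contra hcon
  push Not at hcon
  have h5 : 5 ≤ l := by
    have h1 : 4 ^ 3 ≤ 4 ^ (B + 3) := Nat.pow_le_pow_right (by norm_num) (by omega)
    have h2 : (4 : ℕ) ^ 3 = 64 := by norm_num
    omega
  obtain ⟨t₀, ht₀⟩ := tz_unit hN hl hi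
  obtain ⟨q, hq, -, c, hc, hj⟩ := node_lc hN hS hNS hl h5 hi
  obtain ⟨κ₀, hκ₀, h0⟩ := hj 0
  obtain ⟨κ₁, hκ₁, h1⟩ := hj 1
  obtain ⟨X, hX, hXc, hXt⟩ := points hl hc t₀
  have hne : S.Nonempty := ⟨q, hq⟩
  have hs1 : ∀ p ∈ S, IsCoprime (1 : ℤ) (p : ℤ) := fun p _ => isCoprime_one_left
  have hu1 : UG S 1 := ⟨odd_one, hs1⟩
  have hY0 := YYG_ne hS 0 hu1
  have hY1 := YYG_ne hS 1 hu1
  have hc0 : (YY S k 0 1).leadingCoeff ≠ 0 := Polynomial.leadingCoeff_ne_zero.mpr hY0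
  have hc1 : (YY S k 1 1).leadingCoeff ≠ 0 := Polynomial.leadingCoeff_ne_zero.mpr hY1
  have p1 := gq_pf hS hq (r := ex S k 1 + 1) (by omega) hs1
  have p0 := gq_pf hS hq (r := ex S k 0 + 1) (by omega) hs1
  have hz := zq_card hS hq hs1
  have hzne : (zq S k q 1).Nonempty := by
    rw [← Finset.card_pos, hz]
    positivity
  obtain ⟨hd0, hd1⟩ := deg_le hS hne hB
  have hex : ex S k 1 = ex S k 0 + 2 := by
    have := hS.card_le
    unfold ex
    omega
  have hcard : 4 * ((ex S k 1 + 1) * (zq S k q 1).card + (ex S k 0 + 1) * (zq S k q 1).card) <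
      X.card := by
    rw [hz]
    have a1 : (2 : ℕ) ^ (B - 1) ≤ 2 ^ B := Nat.pow_le_pow_right (by norm_num) (by omega)
    have a2 : (2 : ℕ) ^ (B + 1) = 2 * 2 ^ B := by ring
    have a3 : (4 : ℕ) ^ (B + 3) = 64 * (2 ^ B * 2 ^ B) := by
      rw [show (4 : ℕ) = 2 ^ 2 by norm_num, ← pow_mul, show 2 * (B + 3) = B + B + 6 by ring,
        pow_add, pow_add]
      norm_num
      ring
    have a4 : 1 ≤ (2 : ℕ) ^ B := Nat.one_le_two_pow
    have a5 : (2 : ℕ) ^ B ≤ 2 ^ B * 2 ^ B := Nat.le_mul_self _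
    omega
  obtain ⟨-, hm, -⟩ := PF.two p1 p0 hzne hzne (by omega) (by omega)
    (C₁ := (κ₁ * (YY S k 0 1).leadingCoeff) ^ 2) (C₂ := (κ₀ * (YY S k 1 1).leadingCoeff) ^ 2)
    (pow_ne_zero 2 (mul_ne_zero hκ₁ hc0)) (pow_ne_zero 2 (mul_ne_zero hκ₀ hc1)) X hX hcard
    (by
      intro x hx _ _ hg1 hg0
      obtain ⟨t, ht, rfl⟩ := hXt x hx
      have hu := ht₀ t ht
      have hmm := hcon t hu
      have hU : UG S (tz N l (xp l S) t) := uG_of h4 hNS hu
      have e1 := h1 1 t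
      have e0 := h0 1 t
      rw [mul_one, Int.cast_one, mul_one] at e1 e0
      have e1' := e1 hg1
      have e0' := e0 hg0
      unfold mm at hmm
      have n0 : toC (YY S k 0 (tz N l (xp l S) t)) ≠ 0 := by
        intro h
        exact YYG_ne hS 0 hU (toC_inj (by rw [h, map_zero]))
      have n1 : toC (YY S k 0 1) ≠ 0 := by
        intro h
        exact hY0 (toC_inj (by rw [h, map_zero]))
      rw [div_eq_div_iff n0 n1, ← map_mul, ← map_mul] at hmm
      have hYY := congrArg Polynomial.leadingCoeff (toC_inj hmm)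
      rw [Polynomial.leadingCoeff_mul, Polynomial.leadingCoeff_mul, e1', e0'] at hYY
      have h3 : κ₁ * (YY S k 0 1).leadingCoeff * gq S k q (ex S k 1 + 1) 1 (t * c / l) =
          κ₀ * (YY S k 1 1).leadingCoeff * gq S k q (ex S k 0 + 1) 1 (t * c / l) := by
        linear_combination hYY
      have h4 := congrArg (fun z => z ^ 2) h3
      simp only [mul_pow] at h4 ⊢
      exact h4)
  omega

end Pool.Agent.GSG
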