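import Pool.Agent.GSG.T4
import Pool.Agent.GSG.U1
import Pool.Agent.GSG.K7
import Pool.Agent.GSP.C1

/-!
PROOFS (module U2). `exists_unitG`: `l` private for `v` (`hD.priv v hv`), `g = tz N l (xp l (D.S v)) t` from `node_unit`;
for `u ≠ v` and `p ∈ D.S u`: `padicValNat l p ≤ xp l (D.S u) < xp l (D.S v)`, so `2 p ∣ tw` (`tw_dvd`), `g - 1 = t * tw`.
`leafyG`: `τ`, `l` from `matching`; for the units `g = tz N l (xp l (D.S v)) t` use `two_single` (module T1; `f`, `f'` as in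
T3) at `v` and `τ v`: `g` acts trivially on all other nodes of both sides (`YY_fix`, `g = g * 1`). So
`(YY_v(g) YY'_τv(1))² = (YY'_τv(g) YY_v(1))²`, and `decode_node` gives `D'.S (τ v) = D.S v`, `D'.k (τ v) = D.k v`
(`val_le` for the bounds). For `q`: let `g` be as in `exists_unitG` for `v`. In `D'` the leaves of `u ≠ τ v` are those
of `τ.symm u ≠ v`, or there are none, so `2 p ∣ g - 1` for them too. `h.zs g` and `h.zs 1` and
`ZZ_one` (GSP/C1; `mmG_zero`) for the coefficient `1`: `∑ u, q u * mm_u(g) = ∑ u, q' u * mm'_u(g)`, the same for `1`;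
the difference is `q v (mm_v(g) - mm_v(1)) = q' (τ v) (mm_v(g) - mm_v(1))` (`mmG_congr`), with a nonzero bracket.
(`Rat.cast` into `RatFunc ℂ` is injective: `exact_mod_cast`.)
-/

set_option autoImplicit false

open Finset

namespace Pool.Agent.GSG

open Pool.Agent.GSP

variable {V V' : Type} [Fintype V] [DecidableEq V] [Fintype V'] [DecidableEq V'] {D : Dat V}
  {D' : Dat V'} {B N : ℕ}

/-- a unit which moves only the given node -/
theorem exists_unitG (hD : OkG B D) (hN : 0 < N) (hn : Nice D N) (v : V)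
    (hv : (D.S v).Nonempty) : ∃ g : ℤ, IsCoprime g (N : ℤ) ∧
      (∀ u, u ≠ v → ∀ p ∈ D.S u, (2 * p : ℤ) ∣ g - 1) ∧
      mm (D.S v) (D.k v) 1 g ≠ mm (D.S v) (D.k v) 1 1 := by
  obtain ⟨l, hP⟩ := hD.priv v hv
  obtain ⟨t, ht, hm⟩ := node_unit hN hn.four (hD.leaf v) (hn.dvd v) (hD.val_le v hv) hP.prime
    hP.big hP.pos
  refine ⟨tz N l (xp l (D.S v)) t, ht, fun u hu p hp => ?_, hm⟩
  have h1 : padicValNat l p ≤ xp l (D.S u) := Finset.le_sup (f := padicValNat l) hp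
  have h3 := tw_dvd hN hP.prime hP.five_le ((hD.leaf u).pos p hp) (hn.dvd u p hp)
    (lt_of_le_of_lt h1 (hP.lt u hu))
  have h4 : tz N l (xp l (D.S v)) t - 1 = t * tw N l (xp l (D.S v)) := by
    unfold tz
    ring
  rw [h4]
  exact Dvd.dvd.mul_left h3 t

private theorem U2_pair (h : Cmp B N D D') {l : ℕ} {v : V} {v' : V'} (hP : Pr B D l v)
    (hv' : (D'.S v').Nonempty) (hx : xp l (D'.S v') = xp l (D.S v))
    (hlt : ∀ x, x ≠ v' → xp l (D'.S x) < xp l (D.S v)) :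
    D'.S v' = D.S v ∧ D'.k v' = D.k v := by
  obtain ⟨a, b, ha, hb, hm⟩ := h.mass
  refine decode_node h.pos h.nice.four (h.ok.leaf v) (h.ok'.leaf v') (h.nice.dvd v)
    (h.nice'.dvd v') (h.ok.val_le v hP.nonempty) (h.ok'.val_le v' hv') hP.prime hP.big hP.pos hx
    fun t ht => ?_
  refine two_single (K := Polynomial ℝ) (f := fun v s => YY (D.S v) (D.k v) 0 s)
    (f' := fun v s => YY (D'.S v) (D'.k v) 0 s) (a := Polynomial.C a) (b := Polynomial.C b)
    (U := fun s => IsCoprime s (N : ℤ)) (Polynomial.C_ne_zero.2 ha) (Polynomial.C_ne_zero.2 hb)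
    isCoprime_one_left
    (fun u s hs => YYG_ne (h.ok.leaf u) 0 (uG_of h.nice.four (h.nice.dvd u) hs))
    (fun u s hs => YYG_ne (h.ok'.leaf u) 0 (uG_of h.nice'.four (h.nice'.dvd u) hs))
    (fun s hs => hm s hs) ht v v' (fun u hu => ?_) (fun u hu => ?_)
  · have h1 := YY_fix h.pos (h.ok.leaf u).pos (h.nice.dvd u) hP.prime hP.five_le (hP.lt u hu)
      (D.k u) 0 t 1
    rwa [mul_one] at h1
  · have h1 := YY_fix h.pos (h.ok'.leaf u).pos (h.nice'.dvd u) hP.prime hP.five_le (hlt u hu)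
      (D'.k u) 0 t 1
    rwa [mul_one] at h1

private theorem U2_coeff (h : Cmp B N D D') {s : ℤ} (hs : IsCoprime s (N : ℤ)) :
    ∑ u, (D.q u : RatFunc ℂ) * mm (D.S u) (D.k u) 1 s =
      ∑ u, (D'.q u : RatFunc ℂ) * mm (D'.S u) (D'.k u) 1 s := by
  have h1 := h.zs s hs
  unfold Zs Dat.Z at h1
  have h2 := congrArg (PowerSeries.coeff 1) h1
  rwa [ZZ_one _ _ _ fun u => mmG_zero (h.ok.leaf u) (uG_of h.nice.four (h.nice.dvd u) hs),
    ZZ_one _ _ _ fun u => mmG_zero (h.ok'.leaf u) (uG_of h.nice'.four (h.nice'.dvd u) hs)] at h2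

private theorem U2_single {V : Type} [Fintype V] [DecidableEq V] {D : Dat V} {B : ℕ}
    (hD : OkG B D) {g : ℤ} (v : V) (hg : ∀ u, u ≠ v → ∀ p ∈ D.S u, (2 * p : ℤ) ∣ g - 1) :
    ∑ u, (D.q u : RatFunc ℂ) * mm (D.S u) (D.k u) 1 g -
      ∑ u, (D.q u : RatFunc ℂ) * mm (D.S u) (D.k u) 1 1 =
      (D.q v : RatFunc ℂ) * (mm (D.S v) (D.k v) 1 g - mm (D.S v) (D.k v) 1 1) := by
  rw [← Finset.sum_sub_distrib, Finset.sum_eq_single v]
  · rw [mul_sub]
  · intro u _ hu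
    rw [mmG_congr (hD.leaf u).pos (D.k u) 1 (hg u hu), sub_self]
  · intro h0
    exact absurd (Finset.mem_univ v) h0

/-- the nodes with leaves are determined -/
theorem leafyG (h : Cmp B N D D') :
    ∃ τ : {v // (D.S v).Nonempty} ≃ {v // (D'.S v).Nonempty}, ∀ v,
      D'.S (τ v) = D.S v ∧ D'.k (τ v) = D.k v ∧ D'.q (τ v) = D.q v := by
  obtain ⟨τ, hτ⟩ := matching h
  have hS : ∀ v : {v // (D.S v).Nonempty}, D'.S (τ v) = D.S v ∧ D'.k (τ v) = D.k v := by
    intro v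
    obtain ⟨l, hP, hx, hlt⟩ := hτ v
    exact U2_pair h hP (τ v).2 hx hlt
  refine ⟨τ, fun v => ⟨(hS v).1, (hS v).2, ?_⟩⟩
  obtain ⟨g, hg, hgd, hgm⟩ := exists_unitG h.ok h.pos h.nice (v : V) v.2
  have hgd' : ∀ u, u ≠ (τ v : V') → ∀ p ∈ D'.S u, (2 * p : ℤ) ∣ g - 1 := by
    intro u hu p hp
    have hne : (D'.S u).Nonempty := ⟨p, hp⟩
    have h1 := hS (τ.symm ⟨u, hne⟩)
    rw [Equiv.apply_symm_apply] at h1
    have h2 : (τ.symm ⟨u, hne⟩ : V) ≠ v := by
      intro h3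
      have h4 : τ.symm ⟨u, hne⟩ = v := Subtype.ext h3
      have h5 := congrArg (fun x => (τ x : V')) h4
      simp only [Equiv.apply_symm_apply] at h5
      exact hu h5
    exact hgd _ h2 p (by rw [← h1.1]; exact hp)
  have h1 := U2_single h.ok (v : V) hgd
  have h2 := U2_single h.ok' (τ v : V') hgd'
  rw [(hS v).1, (hS v).2] at h2
  rw [U2_coeff h hg, U2_coeff h isCoprime_one_left, h2] at h1
  have h3 := mul_right_cancel₀ (sub_ne_zero.2 hgm) h1
  exact_mod_cast h3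

end Pool.Agent.GSG
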